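import Pool.Agent.P.MP_3fb035_pr.QZ

/-! Parity of unions of components of a finite vertex set. -/

set_option autoImplicit false

open Set
open scoped symmDiff

namespace Pool.Agent.P3fb035

variable {V : Type} {G : SimpleGraph V} {C K A N : Set V} {c c' s y v : V}

/-- `K` is a union of components of `C` -/
def ClS (G : SimpleGraph V) (C K : Set V) : Prop :=
  K ⊆ C ∧ ∀ a ∈ K, ∀ b ∈ C, G.Adj a b → b ∈ K

/-- every union of components of `C` has an even number of points outside `A` -/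
def Par (G : SimpleGraph V) (C A : Set V) : Prop := ∀ K, ClS G C K → Even (K \ A).ncard

/-- the component of `c` in `C` -/
def Bl (G : SimpleGraph V) (C : Set V) (c : V) : Set V := {q | Cn G C c q}

theorem bl_mem (C : Set V) (c : V) : c ∈ Bl G C c := Cn.rfl

theorem bl_cls (hc : c ∈ C) : ClS G C (Bl G C c) :=
  ⟨fun _ hq => (Cn.mem hq).elim (fun e => e ▸ hc) id,
    fun _ ha _ hb hab => Cn.trans ha (Cn.single hab hb)⟩

theorem ClS.cn (h : ClS G C K) {a b : V} (hab : Cn G C a b) (ha : a ∈ K) : b ∈ K := by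
  induction hab with
  | refl => exact ha
  | tail _ h2 ih => exact h.2 _ ih _ h2.2 h2.1

theorem bl_con (C : Set V) (c : V) : Con G (Bl G C c) := by
  refine con_of_base (bl_mem C c) fun a ha => ?_
  have ha' : Cn G C c a := ha
  induction ha' with
  | refl => exact Cn.rfl
  | tail h1 h2 ih => exact (ih h1).trans (Cn.single h2.1 ha)

theorem ClS.union {K' : Set V} (h : ClS G C K) (h' : ClS G C K') : ClS G C (K ∪ K') :=
  ⟨union_subset h.1 h'.1, fun a ha b hb hab =>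
    ha.elim (fun e => Or.inl (h.2 a e b hb hab)) fun e => Or.inr (h'.2 a e b hb hab)⟩

theorem even_erase (hK : K.Finite) (hc : c ∈ K) : Even (K \ {c}).ncard ↔ ¬Even K.ncard := by
  rw [← Set.ncard_sdiff_singleton_add_one hc hK, Nat.even_add_one, not_not]

theorem even_toggle (hK : K.Finite) (A : Set V) (c : V) :
    Even (K \ (A ∆ {c})).ncard ↔ (Even (K \ A).ncard ↔ c ∉ K) := by
  by_cases hc : c ∈ K
  · by_cases hA : c ∈ A
    · have e : K \ A = (K \ (A ∆ {c})) \ {c} := by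
        ext q; by_cases hq : q = c <;> simp [Set.mem_symmDiff, hq, hA]
      have : c ∈ K \ (A ∆ {c}) := by simp [Set.mem_symmDiff, hc, hA]
      rw [e, even_erase (hK.subset sdiff_subset) this]; simp [hc]
    · have e : K \ (A ∆ {c}) = (K \ A) \ {c} := by
        ext q; by_cases hq : q = c <;> simp [Set.mem_symmDiff, hq, hA]
      rw [e, even_erase (hK.subset sdiff_subset) ⟨hc, hA⟩]; simp [hc]
  · have e : K \ (A ∆ {c}) = K \ A := by
      ext q; by_cases hq : q = c <;> simp [Set.mem_symmDiff, hq, hc]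
    rw [e]; simp [hc]

theorem emp_sd (A : Set V) : (∅ : Set V) ∆ A = A := by ext q; simp [Set.mem_symmDiff]

theorem par_one (hC : C.Finite) :
    Par G C {c} ↔ ∀ K, ClS G C K → (Even K.ncard ↔ c ∉ K) := by
  refine forall₂_congr fun K hK => ?_
  have := even_toggle (hC.subset hK.1) ∅ c
  simpa [emp_sd] using this

theorem par_zero : Par G C ∅ ↔ ∀ K, ClS G C K → Even K.ncard := by simp [Par]

theorem Par.add (h : Par G C A) (hv : v ∉ C) : Par G (insert v C) (insert v A) := fun K hK => by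
  have e : K \ insert v A = (K \ {v}) \ A := by ext q; simp; tauto
  rw [e]
  refine h _ ⟨fun q hq => (hK.1 hq.1).resolve_left hq.2, fun a ha b hb hab =>
    ⟨hK.2 a ha.1 b (Or.inr hb) hab, fun e => hv (e ▸ hb)⟩⟩

theorem Par.move (hC : C.Finite) (h : Par G C A) (hc : c ∈ C) (hcc : Cn G C c c') :
    Par G C ((A ∆ {c}) ∆ {c'}) := fun K hK => by
  have hf := hC.subset hK.1
  have e : c ∈ K ↔ c' ∈ K := ⟨hK.cn hcc, hK.cn (hcc.symm hc)⟩
  rw [even_toggle hf, even_toggle hf, e]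
  simp [h K hK]

theorem Par.move_one (hC : C.Finite) (h : Par G C {c}) (hc : c ∈ C) (hcc : Cn G C c c') :
    Par G C {c'} := by
  simpa [emp_sd] using h.move hC hc hcc

/-- a new point next to the odd component makes all components even -/
theorem Par.join (hC : C.Finite) (h : Par G C {c}) (hc : c ∈ C) (hv : v ∉ C) (ha : G.Adj c v) :
    Par G (insert v C) ∅ := by
  have h1 := (h.add hv).move (hC.insert v) (Or.inr hc) (Cn.single ha (mem_insert _ _))
  have hne : c ≠ v := ha.ne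
  convert h1 using 1
  ext q; by_cases h2 : q = c <;> by_cases h3 : q = v <;> simp_all [Set.mem_symmDiff]

/-- removing a point with at most two neighbours from an even component -/
theorem Par.erase (hC : C.Finite) (h : Par G C ∅) (hy : y ∈ C) {z₁ z₂ : V}
    (hN : ∀ z ∈ C, G.Adj y z → z = z₁ ∨ z = z₂) :
    ∃ c ∈ C \ {y}, G.Adj c y ∧ Par G (C \ {y}) {c} := by
  rw [par_zero] at h
  have hD : (C \ {y}).Finite := hC.subset sdiff_subset
  have h0 : ∀ K, ClS G (C \ {y}) K → (∀ z ∈ K, ¬G.Adj y z) → Even K.ncard := fun K hK hz =>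
    h K ⟨fun q hq => (hK.1 hq).1, fun a ha b hb hab => hK.2 a ha b
      ⟨hb, fun e => hz a ha (by rw [show b = y from e] at hab; exact hab.symm)⟩ hab⟩
  have h1 : ∀ K, ClS G (C \ {y}) K → (∀ z ∈ C, G.Adj y z → z ∈ K) → ¬Even K.ncard :=
    fun K hK hz => by
    have hyK : y ∉ K := fun e => (hK.1 e).2 rfl
    have h2 := h (insert y K) ⟨insert_subset hy fun q hq => (hK.1 hq).1, fun a ha b hb hab => by
      by_cases e : b = y
      · exact Or.inl e
      · exact Or.inr (ha.elim (fun e' => hz b hb (e' ▸ hab)) fun e' => hK.2 a e' b ⟨hb, e⟩ hab)⟩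
    rwa [Set.ncard_insert_of_notMem hyK (hD.subset hK.1), Nat.even_add_one] at h2
  -- the main case: `p` has an odd component, every other neighbour equals `q`
  have main : ∀ p q : V, p ∈ C → G.Adj y p → (∀ z ∈ C, G.Adj y z → z = p ∨ z = q) →
      ¬Even (Bl G (C \ {y}) p).ncard → ∃ c ∈ C \ {y}, G.Adj c y ∧ Par G (C \ {y}) {c} := by
    intro p q hp hyp hN' ho
    have hp' : p ∈ C \ {y} := ⟨hp, hyp.ne'⟩
    refine ⟨p, hp', hyp.symm, (par_one hD).2 fun K hK => ?_⟩
    have hB := bl_cls (G := G) hp'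
    by_cases hpK : p ∈ K
    · simp only [hpK, not_true, iff_false]
      have hsub : Bl G (C \ {y}) p ⊆ K := fun r hr => hK.cn hr hpK
      by_cases hall : ∀ z ∈ C, G.Adj y z → z ∈ K
      · exact h1 K hK hall
      · have hcl : ClS G (C \ {y}) (K \ Bl G (C \ {y}) p) :=
          ⟨fun r hr => hK.1 hr.1, fun a ha b hb hab => ⟨hK.2 a ha.1 b hb hab, fun e =>
            ha.2 (hB.2 b e a (hK.1 ha.1) hab.symm)⟩⟩
        have he := h0 _ hcl fun z hz hyz => by
          push Not at hall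
          obtain ⟨z', h3, h4, h5⟩ := hall
          rcases hN' z (hK.1 hz.1).1 hyz with e | e
          · exact hz.2 (e ▸ bl_mem _ _)
          · rcases hN' z' h3 h4 with e' | e'
            · exact h5 (e' ▸ hpK)
            · exact h5 (e' ▸ e ▸ hz.1)
        rw [← Set.ncard_sdiff_add_ncard_of_subset hsub (hD.subset hK.1), Nat.even_add]
        simp [he, ho]
    · simp only [hpK, not_false_eq_true, iff_true]
      by_cases hno : ∀ z ∈ K, ¬G.Adj y z
      · exact h0 K hK hno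
      · push Not at hno
        obtain ⟨z, hz, hyz⟩ := hno
        have hzq : z = q := (hN' z (hK.1 hz).1 hyz).resolve_left fun e => hpK (e ▸ hz)
        have hdj : Disjoint K (Bl G (C \ {y}) p) := disjoint_left.2 fun r hr hr' =>
          hpK (hK.cn (Cn.symm hr' hp') hr)
        have h3 := h1 _ (hK.union hB) fun z' h3 h4 => (hN' z' h3 h4).elim
          (fun e => Or.inr (e ▸ bl_mem _ _)) fun e => Or.inl (e ▸ hzq ▸ hz)
        rw [Set.ncard_union_eq hdj (hD.subset hK.1) (hD.subset hB.1), Nat.even_add] at h3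
        tauto
  by_contra hcon
  have hev : ∀ z ∈ C, G.Adj y z → Even (Bl G (C \ {y}) z).ncard := fun z hz hyz => by
    by_contra ho
    rcases hN z hz hyz with e | e
    · exact hcon (main z z₂ hz hyz (e ▸ hN) ho)
    · exact hcon (main z z₁ hz hyz (fun w h3 h4 => e ▸ (hN w h3 h4).symm) ho)
  have hemp : ClS G (C \ {y}) ∅ := ⟨empty_subset _, fun _ h => h.elim⟩
  by_cases a1 : z₁ ∈ C ∧ G.Adj y z₁ <;> by_cases a2 : z₂ ∈ C ∧ G.Adj y z₂
  · have b1 := bl_cls (G := G) (C := C \ {y}) (c := z₁) ⟨a1.1, a1.2.ne'⟩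
    have b2 := bl_cls (G := G) (C := C \ {y}) (c := z₂) ⟨a2.1, a2.2.ne'⟩
    by_cases hm : z₂ ∈ Bl G (C \ {y}) z₁
    · exact h1 _ b1 (fun z h3 h4 => (hN z h3 h4).elim (fun e => e ▸ bl_mem _ _) fun e => e ▸ hm)
        (hev _ a1.1 a1.2)
    · refine h1 _ (b1.union b2) (fun z h3 h4 => (hN z h3 h4).elim
        (fun e => Or.inl (e ▸ bl_mem _ _)) fun e => Or.inr (e ▸ bl_mem _ _)) ?_
      have hdj : Disjoint (Bl G (C \ {y}) z₁) (Bl G (C \ {y}) z₂) := disjoint_left.2 fun r hr hr' =>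
        hm (b1.cn (Cn.symm hr' ⟨a2.1, a2.2.ne'⟩) hr)
      rw [Set.ncard_union_eq hdj (hD.subset b1.1) (hD.subset b2.1)]
      exact (hev _ a1.1 a1.2).add (hev _ a2.1 a2.2)
  · exact h1 _ (bl_cls (c := z₁) ⟨a1.1, a1.2.ne'⟩) (fun z h3 h4 => (hN z h3 h4).elim
      (fun e => e ▸ bl_mem _ _) fun e => (a2 (e ▸ ⟨h3, h4⟩)).elim) (hev _ a1.1 a1.2)
  · exact h1 _ (bl_cls (c := z₂) ⟨a2.1, a2.2.ne'⟩) (fun z h3 h4 => (hN z h3 h4).elim
      (fun e => (a1 (e ▸ ⟨h3, h4⟩)).elim) fun e => e ▸ bl_mem _ _) (hev _ a2.1 a2.2)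
  · exact h1 _ hemp (fun z h3 h4 => (hN z h3 h4).elim (fun e => (a1 (e ▸ ⟨h3, h4⟩)).elim)
      fun e => (a2 (e ▸ ⟨h3, h4⟩)).elim) (by simp)

/-- removing a point that does not cut the odd component -/
theorem Par.good (hC : C.Finite) (h : Par G C {c}) (hc : c ∈ C) (hs : s ∈ Bl G C c)
    (hcon : Con G (Bl G C c \ {s})) : Par G (C \ {s}) ∅ := by
  have hB := bl_cls (G := G) hc
  have h' := (par_one hC).1 (h.move_one hC hc hs)
  refine par_zero.2 fun K hK => ?_
  have hsK : s ∉ K := fun e => (hK.1 e).2 rfl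
  by_cases hno : ∀ z ∈ K, ¬G.Adj s z
  · exact (h' K ⟨fun q hq => (hK.1 hq).1, fun a ha b hb hab => hK.2 a ha b
      ⟨hb, fun e => hno a ha (by rw [show b = s from e] at hab; exact hab.symm)⟩ hab⟩).2 hsK
  · push Not at hno
    obtain ⟨z, hz, hsz⟩ := hno
    have hz' : z ∈ Bl G C c \ {s} := ⟨hB.2 s hs z (hK.1 hz).1 hsz, hsz.ne'⟩
    have h2 := h' (insert s K) ⟨insert_subset (hB.1 hs) fun q hq => (hK.1 hq).1,
      fun a ha b hb hab => by
        by_cases e : b = s
        · exact Or.inl e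
        · refine Or.inr (ha.elim (fun e' => ?_) fun e' => hK.2 a e' b ⟨hb, e⟩ hab)
          exact hK.cn ((hcon z hz' b ⟨hB.2 s hs b hb (e' ▸ hab), e⟩).mono
            (sdiff_subset_sdiff_left hB.1)) hz⟩
    rw [Set.ncard_insert_of_notMem hsK (hC.subset fun q hq => (hK.1 hq).1),
      Nat.even_add_one] at h2
    simpa using h2

/-- a point of `N` that does not cut `K` -/
theorem non_cut (hK : K.Finite) (hcon : Con G K) (hN : N ⊆ K) (hne : N.Nonempty)
    (h : ∀ t ∈ N, ∀ q ∈ K \ {t}, ∃ t' ∈ N \ {t}, Cn G (K \ {t}) q t') :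
    ∃ t ∈ N, Con G (K \ {t}) := by
  obtain ⟨ρ, hρ⟩ := hne
  by_cases h1 : (N \ {ρ}).Nonempty
  swap
  · exact ⟨ρ, hρ, fun a ha => (h1 ((h ρ hρ a ha).imp fun _ e => e.1)).elim⟩
  let D : V → Set V := fun t => {q | q ∈ K ∧ ¬Cn G (K \ {t}) ρ q}
  obtain ⟨t, ht, hmin⟩ := Set.exists_min_image (N \ {ρ}) (fun t => (D t).ncard)
    ((hK.subset hN).subset sdiff_subset) h1
  have hρt : ρ ∈ K \ {t} := ⟨hN hρ, fun e => ht.2 (Eq.symm e)⟩
  refine ⟨t, ht.1, con_of_base hρt fun q hq => ?_⟩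
  by_contra hq'
  obtain ⟨t', ht', hc⟩ := h t ht.1 q hq
  have h2 : ¬Cn G (K \ {t}) ρ t' := fun e => hq' (e.trans (hc.symm hq))
  have h3 : ∀ p, Cn G (K \ {t}) ρ p → Cn G (K \ {t'}) ρ p := fun p hp => by
    induction hp with
    | refl => exact Cn.rfl
    | tail a1 a2 ih =>
      exact ih.trans (Cn.single a2.1 ⟨a2.2.1, fun e => h2 (e ▸ Relation.ReflTransGen.tail a1 a2)⟩)
  have h4 : ∀ p, Cn G K ρ p → Cn G (K \ {t}) ρ p ∨ Cn G (K \ {t'}) ρ t := fun p hp => by
    induction hp with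
    | refl => exact Or.inl Cn.rfl
    | @tail b p a1 a2 ih =>
      rcases ih with ih | ih
      · by_cases e : p = t
        · exact Or.inr ((h3 _ ih).trans (Cn.single (e ▸ a2.1) ⟨hN ht.1, fun e' => ht'.2 (Eq.symm e')⟩))
        · exact Or.inl (ih.trans (Cn.single a2.1 ⟨a2.2, e⟩))
      · exact Or.inr ih
  have h5 : ¬Cn G (K \ {t}) ρ t := fun e => (Cn.mem e).elim ht.2 fun e' => e'.2 rfl
  have h6 := (h4 t (hcon ρ (hN hρ) t (hN ht.1))).resolve_left h5
  have h7 : D t' ⊂ D t := ⟨fun p hp => ⟨hp.1, fun e => hp.2 (h3 p e)⟩,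
    fun e => (e ⟨hN ht.1, h5⟩).2 h6⟩
  exact absurd (hmin t' ⟨ht'.1, fun e => h2 (e ▸ Cn.rfl)⟩)
    (not_le.2 (Set.ncard_lt_ncard h7 (hK.subset fun _ e => e.1)))

/-- a connected set stays connected when the neighbours of the removed point stay joined -/
theorem con_erase (hcon : Con G K) {t : V}
    (h : ∀ p ∈ K, ∀ q ∈ K, G.Adj t p → G.Adj t q → Cn G (K \ {t}) p q) : Con G (K \ {t}) := by
  intro a ha b hb
  have h1 : ∀ p, Cn G K a p → (p ≠ t ∧ Cn G (K \ {t}) a p) ∨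
      (p = t ∧ ∃ r ∈ K, G.Adj t r ∧ Cn G (K \ {t}) a r) := fun p hp => by
    induction hp with
    | refl => exact Or.inl ⟨ha.2, Cn.rfl⟩
    | @tail p q a1 a2 ih =>
      have hp : p ∈ K := (Cn.mem a1).elim (fun e => e ▸ ha.1) id
      rcases ih with ⟨e, ih⟩ | ⟨e, r, hr, h2, h3⟩
      · by_cases e' : q = t
        · exact Or.inr ⟨e', p, hp, (e' ▸ a2.1).symm, ih⟩
        · exact Or.inl ⟨e', ih.trans (Cn.single a2.1 ⟨a2.2, e'⟩)⟩
      · exact Or.inl ⟨(e ▸ a2.1).ne', h3.trans (h r hr q a2.2 h2 (e ▸ a2.1))⟩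
  exact ((h1 b (hcon a ha.1 b hb.1)).resolve_right fun e => hb.2 e.1).2

end Pool.Agent.P3fb035
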