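import Pool.Agent.P.MP_3fb035_pr.CuA

/-! Static description of states in a cubic graph. -/

set_option autoImplicit false

open Set
open scoped symmDiff

namespace Pool.Agent.P3fb035

variable {V : Type} {G : SimpleGraph V} {H H' : Set (Sym2 V)} {a b c p q s v x y : V}

/-- the exhausted vertices -/
def CC (G : SimpleGraph V) (H : Set (Sym2 V)) : Set V := {v | Exh G H v}

/-- joined by edges of `H` -/
def Rch (G : SimpleGraph V) (H : Set (Sym2 V)) (a b : V) : Prop :=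
  Relation.ReflTransGen (fun p q => G.Adj p q ∧ s(p, q) ∈ H) a b

/-- a finite connected set of edges through `a` -/
structure Ba (G : SimpleGraph V) (H : Set (Sym2 V)) (a : V) : Prop where
  fin : H.Finite
  edg : ∀ p q, s(p, q) ∈ H → G.Adj p q
  con : ∀ p q, s(p, q) ∈ H → Rch G H a p

/-- two leaves, even components -/
structure SA (G : SimpleGraph V) (H : Set (Sym2 V)) (a x : V) : Prop where
  ba : Ba G H a
  ne : x ≠ a
  da : dg G H a = 1
  dx : dg G H x = 1
  oth : ∀ v, v ≠ a → v ≠ x → dg G H v ≠ 1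
  par : Par G (CC G H) ∅

/-- one leaf, the component of `c` is the only odd one -/
structure SB (G : SimpleGraph V) (H : Set (Sym2 V)) (a c : V) : Prop where
  ba : Ba G H a
  ex : Exh G H c
  da : dg G H a = 1
  oth : ∀ v, v ≠ a → dg G H v ≠ 1
  par : Par G (CC G H) {c}

theorem Rch.rfl : Rch G H a a := Relation.ReflTransGen.refl

theorem Rch.trans (h : Rch G H a b) (h' : Rch G H b c) : Rch G H a c :=
  Relation.ReflTransGen.trans h h'

theorem Rch.single (h : G.Adj a b) (he : s(a, b) ∈ H) : Rch G H a b :=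
  Relation.ReflTransGen.single ⟨h, he⟩

theorem Rch.mono (h : Rch G H a b) (hH : H ⊆ H') : Rch G H' a b := by
  induction h with
  | refl => exact Rch.rfl
  | tail _ h2 ih => exact ih.trans (Rch.single h2.1 (hH h2.2))

theorem Rch.symm (h : Rch G H a b) : Rch G H b a := by
  induction h with
  | refl => exact Rch.rfl
  | tail _ h2 ih => exact (Rch.single h2.1.symm (Sym2.eq_swap ▸ h2.2)).trans ih

/-- a path of exhausted vertices that avoids `s` -/
theorem rch_of_cn {S : Set V} (h : Cn G S p q) (hp : p ≠ s) (hS : S ⊆ CC G H \ {s}) (y : V) :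
    Rch G (H \ {s(s, y)}) p q := by
  induction h with
  | refl => exact Rch.rfl
  | @tail u w a1 a2 ih =>
    have hu : u ≠ s := (Cn.mem a1).elim (fun e => e ▸ hp) fun e => (hS e).2
    refine ih.trans (Rch.single a2.1 ⟨Sym2.eq_swap ▸ (hS a2.2).1 u a2.1.symm, fun e => ?_⟩)
    rcases Sym2.eq_iff.1 e with e | e
    · exact hu e.1
    · exact (hS a2.2).2 e.2

theorem rch_erase (hsy : Rch G (H \ {s(s, y)}) s y) (h : Rch G H a p) :
    Rch G (H \ {s(s, y)}) a p := by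
  induction h with
  | refl => exact Rch.rfl
  | @tail u w _ a2 ih =>
    by_cases e : s(u, w) = s(s, y)
    · rcases Sym2.eq_iff.1 e with e | e
      · exact (e.1 ▸ ih).trans (e.2 ▸ hsy)
      · exact (e.1 ▸ ih).trans (e.2 ▸ hsy.symm)
    · exact ih.trans (Rch.single a2.1 ⟨a2.2, e⟩)

theorem Rch.edge (h : Rch G H a b) (hab : a ≠ b) : ∃ p, G.Adj b p ∧ s(b, p) ∈ H := by
  cases h with
  | refl => exact (hab (Eq.refl _)).elim
  | tail _ h2 => exact ⟨_, h2.1.symm, Sym2.eq_swap ▸ h2.2⟩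

theorem Ba.erase (h : Ba G H a) (hsy : Rch G (H \ {s(s, y)}) s y) : Ba G (H \ {s(s, y)}) a :=
  ⟨h.fin.subset sdiff_subset, fun p q e => h.edg p q e.1, fun p q e => rch_erase hsy (h.con p q e.1)⟩

theorem Ba.root (h : Ba G H a) (he : s(x, y) ∈ H) : Ba G H x :=
  ⟨h.fin, h.edg, fun p q e => (h.con x y he).symm.trans (h.con p q e)⟩

theorem Ba.insert (h : Ba G H a) (hp : Rch G H a p) (hpq : G.Adj p q) :
    Ba G (insert s(p, q) H) a := by
  have h1 := hp.mono (subset_insert s(p, q) H)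
  refine ⟨h.fin.insert _, fun u w e => e.elim (fun e => ?_) (h.edg u w), fun u w e =>
    e.elim (fun e => ?_) fun e => (h.con u w e).mono (subset_insert _ _)⟩
  · rcases Sym2.eq_iff.1 e with e | e
    · exact e.1 ▸ e.2 ▸ hpq
    · exact e.1 ▸ e.2 ▸ hpq.symm
  · rcases Sym2.eq_iff.1 e with e | e
    · exact e.1 ▸ h1
    · exact e.1 ▸ h1.trans (Rch.single hpq (mem_insert _ _))

theorem dg_one (h : dg G H x = 1) :
    ∃ y, G.Adj x y ∧ s(x, y) ∈ H ∧ ∀ z, G.Adj x z → s(x, z) ∈ H → z = y := by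
  obtain ⟨y, hy⟩ := Set.ncard_eq_one.1 h
  have : y ∈ {w | G.Adj x w ∧ s(x, w) ∈ H} := hy ▸ rfl
  exact ⟨y, this.1, this.2, fun z h1 h2 => by
    have : z ∈ {w | G.Adj x w ∧ s(x, w) ∈ H} := ⟨h1, h2⟩
    rwa [hy] at this⟩

theorem dg_ne_zero (hH : H.Finite) (hab : G.Adj a b) (he : s(a, b) ∈ H) : dg G H a ≠ 0 := by
  rw [dg_erase hH hab he a]; simp

open Classical in
theorem dg_insert (hH : H.Finite) (hab : G.Adj a b) (he : s(a, b) ∉ H) (v : V) :
    dg G (insert s(a, b) H) v = dg G H v + if v = a ∨ v = b then 1 else 0 := by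
  rw [dg_erase (hH.insert _) hab (mem_insert _ _) v, insert_sdiff_self_of_notMem he]

theorem dg_le (hr : Reg G 3) (H : Set (Sym2 V)) (v : V) : dg G H v ≤ 3 :=
  (hr v).2 ▸ Set.ncard_le_ncard (fun _ e => e.1) (hr v).1

theorem exh_iff (hr : Reg G 3) : Exh G H v ↔ dg G H v = 3 := by
  refine ⟨dg_exh hr, fun h z hz => ?_⟩
  have : {w | G.Adj v w ∧ s(v, w) ∈ H} = G.neighborSet v :=
    Set.eq_of_subset_of_ncard_le (fun _ e => e.1) ((hr v).2.trans h.symm).le (hr v).1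
  exact (show z ∈ {w | G.Adj v w ∧ s(v, w) ∈ H} from this ▸ hz).2

theorem cc_fin (hr : Reg G 3) (hH : H.Finite) : (CC G H).Finite :=
  (vx_fin hH).subset fun v hv => by
    obtain ⟨z, hz⟩ := (hr.bd (by norm_num) v).2.2
    exact ⟨z, hv z hz⟩

theorem cc_erase (hab : G.Adj a b) : CC G (H \ {s(a, b)}) = (CC G H \ {a}) \ {b} := by
  ext v
  refine ⟨fun h => ⟨⟨fun z hz => (h z hz).1, fun e => ?_⟩, fun e => ?_⟩, fun h z hz =>
    ⟨h.1.1 z hz, fun e => ?_⟩⟩
  · obtain rfl : v = a := e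
    exact (h b hab).2 rfl
  · obtain rfl : v = b := e
    exact (h a hab.symm).2 Sym2.eq_swap
  · rcases Sym2.eq_iff.1 e with e | e
    · exact h.1.2 e.1
    · exact h.2 e.1

theorem nbrs (hr : Reg G 3) (h : G.Adj y x) : ∃ z₁ z₂, G.Adj y z₁ ∧ G.Adj y z₂ ∧ z₁ ≠ z₂ ∧
    z₁ ≠ x ∧ z₂ ≠ x ∧ ∀ z, G.Adj y z → z = x ∨ z = z₁ ∨ z = z₂ := by
  have h1 : (G.neighborSet y \ {x}).ncard = 2 := by
    have := Set.ncard_sdiff_singleton_add_one (show x ∈ G.neighborSet y from h) (hr y).1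
    rw [(hr y).2] at this; omega
  obtain ⟨z₁, z₂, h2, h3⟩ := Set.ncard_eq_two.1 h1
  have a1 : z₁ ∈ G.neighborSet y \ {x} := h3 ▸ Or.inl rfl
  have a2 : z₂ ∈ G.neighborSet y \ {x} := h3 ▸ Or.inr rfl
  refine ⟨z₁, z₂, a1.1, a2.1, h2, a1.2, a2.2, fun z hz => or_iff_not_imp_left.2 fun e => ?_⟩
  have : z ∈ G.neighborSet y \ {x} := ⟨hz, e⟩
  rwa [h3] at this

theorem SA.symm (h : SA G H a x) : SA G H x a := by
  obtain ⟨y, -, h2, -⟩ := dg_one h.dx
  exact ⟨h.ba.root h2, h.ne.symm, h.dx, h.da, fun v h3 h4 => h.oth v h4 h3, h.par⟩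

theorem SB.move (hr : Reg G 3) (h : SB G H a c) (hc : Cn G (CC G H) c b) : SB G H a b :=
  ⟨h.ba, (Cn.mem hc).elim (fun e => e ▸ h.ex) id, h.da, h.oth,
    h.par.move_one (cc_fin hr h.ba.fin) h.ex hc⟩

/-- removing a non-bridge at a good vertex -/
theorem SB.red (hr : Reg G 3) (h : SB G H a c) (hs : Exh G H s) (hg : Par G (CC G H \ {s}) ∅)
    (hsy : G.Adj s y) (hb : Rch G (H \ {s(s, y)}) s y) :
    (¬Exh G H y ∧ SA G (H \ {s(s, y)}) a y) ∨
      (Exh G H y ∧ ∃ c', G.Adj c' y ∧ SB G (H \ {s(s, y)}) a c') := by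
  have hf := h.ba.fin
  have hd := dg_erase hf hsy (hs y hsy)
  have h3 := (exh_iff hr).1 hs
  have hsa : s ≠ a := fun e => by have := h.da; rw [← e] at this; omega
  have hy0 : dg G (H \ {s(s, y)}) y ≠ 0 := by
    obtain ⟨p, h1, h2⟩ := hb.edge hsy.ne
    exact dg_ne_zero (hf.subset sdiff_subset) h1 h2
  have hy := hd y
  simp only [or_true, if_true] at hy
  have hya : y ≠ a := fun e => by have := h.da; rw [← e] at this; omega
  have hda : dg G (H \ {s(s, y)}) a = 1 := by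
    have := hd a; rw [if_neg (not_or.2 ⟨hsa.symm, hya.symm⟩), h.da] at this; omega
  have hot : ∀ v, v ≠ a → v ≠ y → dg G (H \ {s(s, y)}) v ≠ 1 := fun v h1 h2 => by
    have := hd v
    by_cases e : v = s
    · rw [if_pos (Or.inl e), e] at this; rw [e]; omega
    · rw [if_neg (not_or.2 ⟨e, h2⟩)] at this
      have := h.oth v h1; omega
  by_cases hx : Exh G H y
  · obtain ⟨z₁, z₂, -, -, -, -, -, h4⟩ := nbrs hr hsy.symm
    obtain ⟨c', h5, h6, h7⟩ := hg.erase ((cc_fin hr hf).subset sdiff_subset) (y := y)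
      ⟨hx, hsy.ne'⟩ (z₁ := z₁) (z₂ := z₂) fun z hz e => (h4 z e).resolve_left hz.2
    rw [← cc_erase hsy] at h5 h7
    refine Or.inr ⟨hx, c', h6, h.ba.erase hb, h5, hda, fun v h1 => ?_, h7⟩
    by_cases e : v = y
    · have := (exh_iff hr).1 hx; rw [e]; omega
    · exact hot v h1 e
  · refine Or.inl ⟨hx, h.ba.erase hb, hya, hda, ?_, hot, ?_⟩
    · have := h.oth y hya; have := dg_le hr H y; have := mt (exh_iff hr).2 hx; omega
    · rwa [cc_erase hsy, sdiff_singleton_eq_self fun e => hx e.1]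

/-- removing the edge at the second leaf -/
theorem SA.red (hr : Reg G 3) (h : SA G H a x) : ∃ y, G.Adj y x ∧ s(y, x) ∈ H ∧
    ((y = a ∧ H \ {s(y, x)} = ∅) ∨ SA G (H \ {s(y, x)}) a y ∨
      (y ≠ a ∧ ∃ c', G.Adj c' y ∧ SB G (H \ {s(y, x)}) a c')) := by
  have hf := h.ba.fin
  obtain ⟨y, h1, h2, h3⟩ := dg_one h.dx
  have h2' : s(y, x) ∈ H := Sym2.eq_swap ▸ h2
  refine ⟨y, h1.symm, h2', ?_⟩
  by_cases hya : y = a
  · subst hya
    obtain ⟨z, -, -, h4⟩ := dg_one h.da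
    have h5 : ∀ p, Rch G H y p → p = y ∨ p = x := fun p hp => by
      induction hp with
      | refl => exact Or.inl rfl
      | tail _ a2 ih =>
        rcases ih with rfl | rfl
        · exact Or.inr ((h4 _ a2.1 a2.2).trans (h4 _ h1.symm h2').symm)
        · exact Or.inl (h3 _ a2.1 a2.2)
    refine Or.inl ⟨rfl, eq_empty_of_forall_notMem fun e he => ?_⟩
    induction e using Sym2.ind with
    | _ p q =>
      have h6 := h.ba.edg p q he.1
      rcases h5 p (h.ba.con p q he.1) with rfl | rfl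
      · exact he.2 (by rw [(h4 _ h6 he.1).trans (h4 _ h1.symm h2').symm]; rfl)
      · exact he.2 (by rw [h3 _ h6 he.1]; exact Sym2.eq_swap)
  right
  have hd := dg_erase hf h1.symm h2'
  have hx0 : dg G (H \ {s(y, x)}) x = 0 := by
    have := hd x; rw [if_pos (Or.inr rfl), h.dx] at this; omega
  have h5 : ∀ p, Rch G H a p → (p = x ∧ Rch G (H \ {s(y, x)}) a y) ∨
      (p ≠ x ∧ Rch G (H \ {s(y, x)}) a p) := fun p hp => by
    induction hp with
    | refl => exact Or.inr ⟨h.ne.symm, Rch.rfl⟩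
    | @tail u w _ a2 ih =>
      rcases ih with ⟨rfl, ih⟩ | ⟨e, ih⟩
      · exact Or.inr ⟨a2.1.ne', h3 _ a2.1 a2.2 ▸ ih⟩
      · by_cases e' : w = x
        · subst e'
          exact Or.inl ⟨rfl, h3 _ a2.1.symm (Sym2.eq_swap ▸ a2.2) ▸ ih⟩
        · refine Or.inr ⟨e', ih.trans (Rch.single a2.1 ⟨a2.2, fun e'' => ?_⟩)⟩
          rcases Sym2.eq_iff.1 e'' with e'' | e''
          · exact e' e''.2
          · exact e e''.1
  have hba : Ba G (H \ {s(y, x)}) a := ⟨hf.subset sdiff_subset, fun p q e => h.ba.edg p q e.1,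
    fun p q e => ((h5 p (h.ba.con p q e.1)).resolve_left fun e' =>
      dg_ne_zero (hf.subset sdiff_subset) (h.ba.edg p q e.1) e (e'.1 ▸ hx0)).2⟩
  have hda : dg G (H \ {s(y, x)}) a = 1 := by
    have := hd a; rw [if_neg (not_or.2 ⟨Ne.symm hya, h.ne.symm⟩), h.da] at this; omega
  have hot : ∀ v, v ≠ a → v ≠ y → dg G (H \ {s(y, x)}) v ≠ 1 := fun v a1 a2 => by
    by_cases e : v = x
    · rw [e]; omega
    · have := hd v; rw [if_neg (not_or.2 ⟨a2, e⟩)] at this
      have := h.oth v a1 e; omega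
  have hy := hd y
  rw [if_pos (Or.inl rfl)] at hy
  have hxC : x ∉ CC G H := fun e => by have := (exh_iff hr).1 e; have := h.dx; omega
  have hcc : CC G (H \ {s(y, x)}) = CC G H \ {y} := by
    rw [cc_erase h1.symm, sdiff_singleton_eq_self fun e => hxC e.1]
  by_cases hx : Exh G H y
  · obtain ⟨z₁, z₂, -, -, -, -, -, h4⟩ := nbrs hr h1.symm
    obtain ⟨c', h6, h7, h8⟩ := h.par.erase (cc_fin hr hf) (y := y) hx (z₁ := z₁) (z₂ := z₂)
      fun z hz e => (h4 z e).resolve_left fun e' => hxC (e' ▸ hz)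
    rw [← hcc] at h6 h8
    refine Or.inr ⟨hya, c', h7, hba, h6, hda, fun v a1 => ?_, h8⟩
    by_cases e : v = y
    · have := (exh_iff hr).1 hx; rw [e]; omega
    · exact hot v a1 e
  · refine Or.inl ⟨hba, hya, hda, ?_, hot, ?_⟩
    · have := h.oth y hya h1.ne'; have := dg_le hr H y; have := mt (exh_iff hr).2 hx; omega
    · rw [hcc, sdiff_singleton_eq_self hx]; exact h.par

end Pool.Agent.P3fb035
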