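import Pool.Agent.P.MP_3fb035_pr.CuB

/-! States of type `SA` and `SB` are reached without a return. -/

set_option autoImplicit false

open Set
open scoped symmDiff

namespace Pool.Agent.P3fb035

variable {V : Type} {G : SimpleGraph V} {H H' : Set (Sym2 V)} {a b c p q s v x y : V}

theorem ne_edge (hu : p ≠ s) (hw : q ≠ s) : s(p, q) ∉ ({s(s, y)} : Set (Sym2 V)) := fun e =>
  (Sym2.eq_iff.1 e).elim (fun e => hu e.1) fun e => hw e.2

theorem ne_edge' (hq : G.Adj s q) (hw : q ≠ y) : s(s, q) ∉ ({s(s, y)} : Set (Sym2 V)) := fun e =>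
  (Sym2.eq_iff.1 e).elim (fun e => hw e.2) fun e => hq.ne' e.2

theorem SB.nex (hr : Reg G 3) (h : SB G H a c) : ¬Exh G H a := fun e => by
  have := (exh_iff hr).1 e; have := h.da; omega

/-- the far side of a bridge to an incomplete vertex contains the leaf -/
theorem SB.far (hr : Reg G 3) (h : SB G H a c) (hs : Exh G H s) (hg : Par G (CC G H \ {s}) ∅)
    (hp : G.Adj s p) (hpx : ¬Exh G H p) (hb : ¬Rch G (H \ {s(s, p)}) s p) :
    Rch G (H \ {s(s, p)}) p a := by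
  classical
  by_contra ha
  have hf := h.ba.fin
  let D : Set V := {w | Rch G (H \ {s(s, p)}) p w}
  have hsD : s ∉ D := fun e => hb (Rch.symm e)
  let J : Set (Sym2 V) := {e | e ∈ H \ {s(s, p)} ∧ ∃ u ∈ D, u ∈ e}
  have hJ : J.Finite := hf.subset fun e he => he.1.1
  have h1 : ∀ v ∈ D, dg G J v = dg G (H \ {s(s, p)}) v := fun v hv =>
    congrArg ncard (Set.ext fun w => and_congr_right fun _ =>
      ⟨fun e => e.1, fun e => ⟨e, v, hv, Sym2.mem_mk_left _ _⟩⟩)
  have h2 : ∀ v ∉ D, dg G J v = 0 := fun v hv => dg_zero fun w hw e => by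
    obtain ⟨e1, u, hu, e2⟩ := e
    rcases Sym2.mem_iff.1 e2 with rfl | rfl
    · exact hv hu
    · exact hv (Rch.trans hu (Rch.single hw e1).symm)
  have hd := dg_erase hf hp (hs p hp)
  have hcl : ClS G (CC G H \ {s}) (CC G H ∩ D) :=
    ⟨fun u hu => ⟨hu.1, fun e => hsD (e ▸ hu.2)⟩, fun u hu w hw huw => ⟨hw.1, Rch.trans hu.2
      (Rch.single huw ⟨hu.1 w huw, ne_edge (fun e => hsD (e ▸ hu.2)) hw.2⟩)⟩⟩
  have h3 := par_zero.1 hg _ hcl
  have h4 := handshake (G := G) hJ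
  have e : {v | Odd (dg G J v)} = insert p (CC G H ∩ D) := by
    ext v
    simp only [mem_ofPred_eq, mem_insert_iff, Nat.odd_iff]
    by_cases hv : v ∈ D
    · rw [h1 v hv]
      have a1 := hd v
      have a2 := h.oth v fun e => ha (e ▸ hv)
      have a3 := dg_le hr H v
      have a4 := exh_iff (H := H) (v := v) hr
      by_cases e : v = p
      · rw [if_pos (Or.inr e)] at a1
        have := mt a4.2 (e ▸ hpx)
        have a5 := dg_ne_zero hf hp.symm (Sym2.eq_swap ▸ hs p hp)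
        rw [← e] at a5
        exact iff_of_true (by omega) (Or.inl e)
      · rw [if_neg (not_or.2 ⟨fun e' : v = s => hsD (e' ▸ hv), e⟩)] at a1
        simp only [e, false_or, mem_inter_iff, hv, and_true]
        exact Iff.trans (by omega) a4.symm
    · rw [h2 v hv]
      exact iff_of_false (by omega) fun e => e.elim (fun e => hv (e ▸ Rch.rfl)) fun e => hv e.2
  rw [e, Set.ncard_insert_of_notMem (fun e => hpx e.1)
    ((cc_fin hr hf).subset inter_subset_left), Nat.even_add_one] at h4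
  exact h4 h3

theorem SB.nonbr (hr : Reg G 3) (h : SB G H a c) (hs : s ∈ Bl G (CC G H) c)
    (hcon : Con G (Bl G (CC G H) c \ {s})) : ∃ y, G.Adj s y ∧ Rch G (H \ {s(s, y)}) s y := by
  have hB := bl_cls (G := G) (C := CC G H) (c := c) h.ex
  have hx : Exh G H s := hB.1 hs
  have hg := h.par.good (cc_fin hr h.ba.fin) h.ex hs hcon
  have c1 : ∀ p q, G.Adj s p → G.Adj s q → p ≠ q → Exh G H p → Exh G H q →
      ∃ y, G.Adj s y ∧ Rch G (H \ {s(s, y)}) s y := fun p q hp hq hne h1 h2 =>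
    ⟨p, hp, Rch.trans (Rch.single hq ⟨hx q hq, ne_edge' hq hne.symm⟩) (rch_of_cn
      (hcon q ⟨hB.2 s hs q h2 hq, hq.ne'⟩ p ⟨hB.2 s hs p h1 hp, hp.ne'⟩) hq.ne'
      (sdiff_subset_sdiff_left hB.1) p)⟩
  have c2 : ∀ p q, G.Adj s p → G.Adj s q → p ≠ q → ¬Exh G H p → ¬Exh G H q →
      ∃ y, G.Adj s y ∧ Rch G (H \ {s(s, y)}) s y := fun p q hp hq hne h1 h2 => by
    by_contra hn
    have b1 : ¬Rch G (H \ {s(s, p)}) s p := fun e => hn ⟨p, hp, e⟩
    have b2 : ¬Rch G (H \ {s(s, q)}) s q := fun e => hn ⟨q, hq, e⟩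
    have h3 : ∀ w, Rch G (H \ {s(s, q)}) q w → Rch G (H \ {s(s, p)}) q w := fun w hw => by
      induction hw with
      | refl => exact Rch.rfl
      | tail a1 a2 ih =>
        have a3 := Relation.ReflTransGen.tail a1 a2
        exact ih.trans (Rch.single a2.1 ⟨a2.2.1, ne_edge (fun e => b2 (Rch.symm (e ▸ a1)))
          fun e => b2 (Rch.symm (by rwa [e] at a3))⟩)
    exact b1 (Rch.trans (Rch.single hq ⟨hx q hq, ne_edge' hq hne.symm⟩)
      ((h3 a (h.far hr hx hg hq h2 b2)).trans (h.far hr hx hg hp h1 b1).symm))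
  obtain ⟨z, hz⟩ := (hr.bd (by norm_num) s).2.2
  obtain ⟨z₁, z₂, h1, h2, h3, h4, h5, -⟩ := nbrs hr hz
  by_cases e0 : Exh G H z <;> by_cases e1 : Exh G H z₁ <;> by_cases e2 : Exh G H z₂
  · exact c1 _ _ h1 h2 h3 e1 e2
  · exact c1 _ _ h1 hz h4 e1 e0
  · exact c1 _ _ h2 hz h5 e2 e0
  · exact c2 _ _ h1 h2 h3 e1 e2
  · exact c1 _ _ h1 h2 h3 e1 e2
  · exact c2 _ _ h2 hz h5 e2 e0
  · exact c2 _ _ h1 hz h4 e1 e0
  · exact c2 _ _ h1 h2 h3 e1 e2

/-- the state `(H, x)` is reached from `a` without a return -/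
def Rc (G : SimpleGraph V) (a : V) (H : Set (Sym2 V)) (x : V) : Prop :=
  ∃ n, Run G {a}ᶜ n ∅ a H x

theorem Rc.step (h : Rc G a H y) (hx : x ∈ nx G H y) (ha : x ≠ a) :
    Rc G a (insert s(y, x) H) x := by
  obtain ⟨n, h⟩ := h
  have := h.trans (Run.one (by rwa [empty_union]) ha)
  rw [union_singleton] at this
  exact ⟨_, this⟩

theorem Rc.fresh (h : Rc G a (H \ {s(y, x)}) y) (hyx : G.Adj y x) (he : s(y, x) ∈ H) (ha : x ≠ a) :
    Rc G a H x := by
  have := h.step ⟨hyx, Or.inl fun e => e.2 rfl⟩ ha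
  rwa [insert_sdiff_singleton, insert_eq_of_mem he] at this

theorem Rc.out (h : Rc G a H c) (hc : Exh G H c) (hy : G.Adj c y) (ha : y ≠ a) : Rc G a H y := by
  have := h.step ⟨hy, Or.inr hc⟩ ha
  rwa [insert_eq_of_mem (hc y hy)] at this

theorem Rc.walk (h : Rc G a H c) (hc : Exh G H c) (ha : ¬Exh G H a) (hp : Cn G (CC G H) c p) :
    Rc G a H p := by
  induction hp with
  | refl => exact h
  | tail h1 h2 ih =>
    exact ih.out ((Cn.mem h1).elim (fun e => e ▸ hc) id) h2.1 fun e => ha (e ▸ h2.2)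

theorem thmS (hr : Reg G 3) (a : V) (n : ℕ) : ∀ H : Set (Sym2 V), H.ncard = n →
    (∀ x, SA G H a x → Rc G a H x) ∧ ∀ c, SB G H a c → Rc G a H c := by
  induction n using Nat.strong_induction_on with
  | _ n ih =>
    intro H hn
    have hlt : ∀ e ∈ H, H.Finite → (H \ {e}).ncard < n := fun e he hf =>
      hn ▸ Set.ncard_sdiff_singleton_lt_of_mem he hf
    refine ⟨fun x h => ?_, fun c h => ?_⟩
    · obtain ⟨y, h1, h2, h3⟩ := h.red hr
      have ih' := ih _ (hlt _ h2 h.ba.fin) _ rfl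
      refine Rc.fresh ?_ h1 h2 h.ne
      rcases h3 with ⟨rfl, h3⟩ | h3 | ⟨h3, c', h4, h5⟩
      · exact h3 ▸ ⟨0, Run.nil _ _⟩
      · exact ih'.1 _ h3
      · exact (ih'.2 _ h5).out h5.ex h4 h3
    · have hB := bl_cls (G := G) (C := CC G H) (c := c) h.ex
      have hf := cc_fin hr h.ba.fin
      obtain ⟨s, hs, hcon⟩ := non_cut (hf.subset hB.1) (bl_con _ c) subset_rfl ⟨c, bl_mem _ c⟩
        fun t _ q hq => ⟨q, hq, Cn.rfl⟩
      obtain ⟨y, hy, hb⟩ := h.nonbr hr hs hcon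
      have hx : Exh G H s := hB.1 hs
      have ih' := ih _ (hlt _ (hx y hy) h.ba.fin) _ rfl
      have h1 : Rc G a (H \ {s(s, y)}) y := by
        rcases h.red hr hx (h.par.good hf h.ex hs hcon) hy hb with ⟨-, h1⟩ | ⟨h1, c', h2, h3⟩
        · exact ih'.1 _ h1
        · exact (ih'.2 _ h3).out h3.ex h2 fun e => h.nex hr (e ▸ h1)
      rw [Sym2.eq_swap] at h1
      exact (h1.fresh hy.symm (Sym2.eq_swap ▸ hx y hy) fun e => h.nex hr (e ▸ hx)).walk hx
        (h.nex hr) (Cn.symm hs h.ex)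

theorem SA.rc (hr : Reg G 3) (h : SA G H a x) : Rc G a H x := (thmS hr a _ H rfl).1 x h

end Pool.Agent.P3fb035
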