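import Pool.Agent.P.MP_3fb035_pr.CuC

/-! The invariant of a run in a cubic graph. -/

set_option autoImplicit false

open Set
open scoped symmDiff

namespace Pool.Agent.P3fb035

variable {V : Type} {G : SimpleGraph V} {H H' : Set (Sym2 V)} {a b c o p q s u v w x y : V}
  {α β A C : Set V}

theorem sd_one (hv : v ∉ A) : insert v A = A ∆ {v} := by
  ext q; by_cases e : q = v <;> simp [Set.mem_symmDiff, e, hv]

theorem sd_emp (A : Set V) : A ∆ ∅ = A := by ext q; simp [Set.mem_symmDiff]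

theorem Par.join' (hC : C.Finite) (h : Par G C (A ∆ {c})) (hA : A ⊆ C) (hc : c ∈ C) (hv : v ∉ C)
    (ha : G.Adj c v) : Par G (insert v C) A := by
  have h1 := (h.add hv).move (hC.insert v) (Or.inr hc) (Cn.single ha (mem_insert _ _))
  have hne : c ≠ v := ha.ne
  have hvA : v ∉ A := fun e => hv (hA e)
  convert h1 using 1
  ext q; by_cases h2 : q = c <;> by_cases h3 : q = v <;> simp_all [Set.mem_symmDiff]

theorem exh_insert (h1 : u ≠ x) (h2 : u ≠ w) : Exh G (insert s(x, w) H) u ↔ Exh G H u :=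
  ⟨fun h z hz => (h z hz).resolve_left fun e => (Sym2.eq_iff.1 e).elim (fun e => h1 e.1)
    fun e => h2 e.1, fun h => h.mono (subset_insert _ _)⟩

theorem cc_ins (hw : ¬Exh G H w) (hx : ¬Exh G (insert s(x, w) H) x) :
    CC G (insert s(x, w) H) \ {w} = CC G H := by
  ext u
  refine ⟨fun h => (exh_insert (fun e : u = x => hx (by subst e; exact h.1)) h.2).1 h.1, fun h =>
    ⟨Exh.mono h (subset_insert _ _), fun e => hw (e ▸ h)⟩⟩

theorem cc_ins' (hxw : G.Adj x w) (hw : ¬Exh G H w) (hx : Exh G (insert s(x, w) H) x) :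
    CC G (insert s(x, w) H) \ {w} = insert x (CC G H) := by
  ext u
  refine ⟨fun h => or_iff_not_imp_left.2 fun e => (exh_insert e h.2).1 h.1, fun h => h.elim
    (fun e : u = x => by subst e; exact ⟨hx, hxw.ne⟩) fun h => ⟨Exh.mono h (subset_insert _ _), fun e => hw (e ▸ h)⟩⟩

/-- an anchor for `v` -/
def An (G : SimpleGraph V) (H : Set (Sym2 V)) (v : V) (α : Set V) : Prop :=
  (α = ∅ ∧ ¬Exh G H v) ∨ ∃ c, α = {c} ∧ Exh G H c ∧ (c = v ∨ G.Adj c v)

theorem An.sub (h : An G H v α) : α ⊆ CC G H := by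
  rcases h with ⟨rfl, -⟩ | ⟨c, rfl, h, -⟩
  · exact empty_subset _
  · exact singleton_subset_iff.2 h

theorem An.mono (h : An G H v α) (hH : H ⊆ H') (hv : α = ∅ → ¬Exh G H' v) : An G H' v α :=
  h.imp (fun e => ⟨e.1, hv e.1⟩) fun ⟨c, h1, h2, h3⟩ => ⟨c, h1, h2.mono hH, h3⟩

/-- the invariant -/
structure Iv (G : SimpleGraph V) (o : V) (H : Set (Sym2 V)) (x : V) (α β : Set V) : Prop where
  ba : Ba G H o
  rx : Rch G H o x
  ao : An G H o α
  ax : An G H x β
  par : Par G (CC G H) (α ∆ β)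
  ev : ∀ u, ¬Exh G H u → (Even (dg G H u) ↔ ((u = o ∧ α = ∅) ↔ (u = x ∧ β = ∅)))

theorem Iv.step (hr : Reg G 3) (h : Iv G o H x α β) (hw : w ∈ nx G H x) :
    ∃ α' β', Iv G o (insert s(x, w) H) w α' β' := by
  classical
  have hf := cc_fin hr h.ba.fin
  have hxw : G.Adj x w := hw.1
  by_cases hx : Exh G H x
  · rw [insert_eq_of_mem (hx w hxw)]
    obtain ⟨c, rfl, h1, h2⟩ := h.ax.resolve_left fun e => e.2 hx
    have h3 : Cn G (CC G H) c x := h2.elim (fun e => e ▸ Cn.rfl) fun e => Cn.single e hx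
    refine ⟨α, {x}, h.ba, h.rx.trans (Rch.single hxw (hx w hxw)), h.ao,
      Or.inr ⟨x, rfl, hx, Or.inr hxw⟩, ?_, fun u hu => ?_⟩
    · simpa using h.par.move hf h1 h3
    · simpa using h.ev u hu
  have he : s(x, w) ∉ H := hw.2.resolve_right hx
  have hw' : ¬Exh G H w := fun e => he (Sym2.eq_swap ▸ e x hxw.symm)
  have hd := dg_insert h.ba.fin hxw he
  have hdx : dg G (insert s(x, w) H) x = dg G H x + 1 := by simpa using hd x
  have hdw : dg G (insert s(x, w) H) w = dg G H w + 1 := by simpa using hd w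
  have hsub := subset_insert s(x, w) H
  have ex := h.ev x hx
  have ew := h.ev w hw'
  simp only [hxw.ne', false_and, iff_false] at ew
  have hle := dg_le hr (insert s(x, w) H) x
  have hE := exh_iff (H := insert s(x, w) H) (v := x) hr
  -- leaving `x`
  obtain ⟨γ, g1, g2, g3, g4, g5⟩ : ∃ γ : Set V, Par G (CC G (insert s(x, w) H) \ {w}) γ ∧ w ∉ γ ∧
      (x ≠ o → γ = α) ∧ (o ≠ w → An G (insert s(x, w) H) o γ) ∧
      (¬Exh G (insert s(x, w) H) x → (Even (dg G H x + 1) ↔ ¬(x = o ∧ γ = ∅))) := by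
    have hwα : w ∉ α := fun e => hw' (h.ao.sub e)
    rcases h.ax with ⟨rfl, -⟩ | ⟨c, rfl, h1, h2⟩
    · have hp : Par G (CC G H) α := sd_emp α ▸ h.par
      simp only [and_self, iff_true] at ex
      by_cases hx' : Exh G (insert s(x, w) H) x
      · obtain ⟨rfl, rfl⟩ := ex.1 ⟨1, by have := hE.1 hx'; omega⟩
        refine ⟨{x}, ?_, hxw.ne', fun e => (e rfl).elim,
          fun _ => Or.inr ⟨x, rfl, hx', Or.inl rfl⟩, fun e => (e hx').elim⟩
        rw [cc_ins' hxw hw' hx']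
        simpa using hp.add hx
      · refine ⟨α, (cc_ins hw' hx').symm ▸ hp, hwα, fun _ => rfl, fun e => h.ao.mono hsub
          fun e' e'' => ?_, fun _ => by rw [Nat.even_add_one, ex]⟩
        by_cases e3 : o = x
        · exact hx' (e3 ▸ e'')
        · exact (h.ao.resolve_right fun ⟨c, e4, _⟩ => by simp [e'] at e4).2
            ((exh_insert e3 e).1 e'')
    · have hcx : G.Adj c x := h2.resolve_left fun e => hx (e ▸ h1)
      simp only [singleton_ne_empty, and_false, iff_false] at ex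
      by_cases hx' : Exh G (insert s(x, w) H) x
      · have h3 := ex.1 ⟨1, by have := hE.1 hx'; omega⟩
        refine ⟨α, ?_, hwα, fun _ => rfl, fun e => h.ao.mono hsub fun e' e'' => ?_,
          fun e => (e hx').elim⟩
        · rw [cc_ins' hxw hw' hx']
          exact h.par.join' hf h.ao.sub h1 hx hcx
        · exact (h.ao.resolve_right fun ⟨c, e4, _⟩ => by simp [e'] at e4).2
            ((exh_insert (fun e3 => h3 ⟨e3.symm, e'⟩) e).1 e'')
      · have h3 := dg_ne_zero h.ba.fin hcx.symm (Sym2.eq_swap ▸ h1 x hcx)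
        have h4 := mt hE.2 hx'
        have h5 : dg G H x = 1 := by omega
        rw [h5] at ex
        obtain ⟨rfl, rfl⟩ : x = o ∧ α = ∅ := by simpa using ex
        refine ⟨{c}, ?_, fun e => hw' (e ▸ h1), fun e => (e rfl).elim,
          fun _ => Or.inr ⟨c, rfl, h1.mono hsub, Or.inr hcx⟩, fun _ => by simp [h5]⟩
        rw [cc_ins hw' hx']
        simpa [emp_sd] using h.par
  have g6 : ∀ u, u ≠ x → ((u = o ∧ γ = ∅) ↔ (u = o ∧ α = ∅)) := fun u hu =>
    and_congr_right fun e => by rw [g3 fun e' => hu (e.trans e'.symm)]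
  have g7 : ∀ u, u ≠ w → ¬Exh G (insert s(x, w) H) u →
      (Even (dg G (insert s(x, w) H) u) ↔ ¬(u = o ∧ γ = ∅)) := fun u h1 h2 => by
    by_cases e : u = x
    · rw [e, hdx]; exact g5 (e ▸ h2)
    · have := h.ev u fun e' => h2 (e'.mono hsub)
      rw [hd u, if_neg (not_or.2 ⟨e, h1⟩), g6 u e]
      simpa [e] using this
  rw [← g6 w hxw.ne'] at ew
  have hba := h.ba.insert h.rx hxw
  have hrx := (h.rx.mono hsub).trans (Rch.single hxw (mem_insert _ _))
  have hao : (o = w → γ = ∅ → ¬Exh G (insert s(x, w) H) o) → An G (insert s(x, w) H) o γ :=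
    fun k => by
      by_cases e : o = w
      · have e' := g3 fun e' => hxw.ne (e'.trans e)
        exact e' ▸ h.ao.mono hsub fun e3 => k e (e'.trans e3)
      · exact g4 e
  by_cases hw2 : Exh G (insert s(x, w) H) w
  · have h1 := ew.1 ⟨1, by have := (exh_iff hr).1 hw2; omega⟩
    refine ⟨γ, {w}, hba, hrx, hao fun e e' _ => h1 ⟨e.symm, e'⟩,
      Or.inr ⟨w, rfl, hw2, Or.inl rfl⟩, ?_, fun u hu => ?_⟩
    · have := g1.add (v := w) fun e => e.2 rfl
      rwa [insert_sdiff_singleton, insert_eq_of_mem (show w ∈ CC G _ from hw2), sd_one g2] at this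
    · simpa using g7 u (fun e => hu (e ▸ hw2)) hu
  · refine ⟨γ, ∅, hba, hrx, hao fun e _ => e ▸ hw2, Or.inl ⟨rfl, hw2⟩, ?_, fun u hu => ?_⟩
    · rwa [sdiff_singleton_eq_self hw2, ← sd_emp γ] at g1
    · by_cases e : u = w
      · rw [e, hdw, Nat.even_add_one, ew]; simp
      · simpa [e] using g7 u e hu

theorem Iv.run (hr : Reg G 3) {S : Set V} {n : ℕ} {E : Set (Sym2 V)} (hR : Run G S n H x E p)
    (h : Iv G o H x α β) : ∃ α' β', Iv G o (H ∪ E) p α' β' := by
  induction hR generalizing α β with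
  | nil U v => exact ⟨α, β, by rwa [union_empty]⟩
  | cons hw _ _ ih =>
    obtain ⟨_, _, h1⟩ := h.step hr hw
    obtain ⟨α', β', h2⟩ := ih h1
    exact ⟨α', β', by rwa [union_insert, ← insert_union]⟩

theorem iv_zero (hr : Reg G 3) (o : V) : Iv G o ∅ o ∅ ∅ := by
  have h : ∀ v, ¬Exh G ∅ v := fun v e => by
    obtain ⟨z, hz⟩ := (hr.bd (by norm_num) v).2.2
    exact e z hz
  refine ⟨⟨finite_empty, fun _ _ e => e.elim, fun _ _ e => e.elim⟩, Rch.rfl, Or.inl ⟨rfl, h o⟩,
    Or.inl ⟨rfl, h o⟩, fun K hK => ?_, fun u _ => ?_⟩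
  · rw [eq_empty_of_forall_notMem (s := K) fun q hq => h q (hK.1 hq)]; simp
  · rw [dg_zero fun _ _ => notMem_empty _]; simp

/-- the state at a fresh vertex -/
theorem fresh_state (hr : Reg G 3) {S : Set V} {n : ℕ} (hR : Run G S n ∅ o H x) (hx : x ≠ o)
    (hd : dg G H x = 1) : SA G H o x ∨ ∃ c, (c = o ∨ G.Adj c o) ∧ SB G H x c := by
  obtain ⟨α, β, h⟩ := (iv_zero hr o).run hr hR
  rw [empty_union] at h
  have hn : ¬Exh G H x := fun e => by have := (exh_iff hr).1 e; omega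
  obtain rfl : β = ∅ := by simpa [hd, hx] using h.ev x hn
  have h1 : ∀ v, v ≠ x → ¬(v = o ∧ α = ∅) → dg G H v ≠ 1 := fun v a1 a2 a3 => by
    have := h.ev v fun e => by have := (exh_iff hr).1 e; omega
    simp [a1, a2, a3] at this
  have hp : Par G (CC G H) α := sd_emp α ▸ h.par
  rcases h.ao with ⟨rfl, h2⟩ | ⟨c, rfl, h2, h3⟩
  · refine Or.inl ⟨h.ba, hx, ?_, hd, fun v a1 a2 => h1 v a2 fun e => a1 e.1, hp⟩
    have a1 := h.ev o h2
    have a2 := dg_le hr H o
    have a3 := mt (exh_iff hr).2 h2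
    simp only [and_self, hx.symm, false_and, iff_false, not_true, Nat.even_iff] at a1
    omega
  · obtain ⟨y, -, a1, -⟩ := dg_one hd
    exact Or.inr ⟨c, h3, h.ba.root a1, h2, hd, fun v a2 => h1 v a2 (by simp), hp⟩

end Pool.Agent.P3fb035
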