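import Pool.Agent.P.MP_3fb035_pr.CuD

/-! Local surgery on states of a cubic graph. -/

set_option autoImplicit false

open Set
open scoped symmDiff

namespace Pool.Agent.P3fb035

variable {V : Type} {G : SimpleGraph V} {H H' : Set (Sym2 V)} {a b c o p q s t u v w x y : V}
  {W W₀ : Set V}

theorem ag_insert (hv : v ∈ W) (hw : w ∈ W) : Ag G Wᶜ H (insert s(v, w) H) := fun _ ha _ _ =>
  ⟨Or.inr, fun h => h.resolve_left fun e => (Sym2.eq_iff.1 e).elim (fun e => ha (e.1 ▸ hv))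
    fun e => ha (e.1 ▸ hw)⟩

theorem ag_erase (hv : v ∈ W) (hw : w ∈ W) : Ag G Wᶜ H (H \ {s(v, w)}) := fun _ ha _ _ =>
  ⟨fun h => ⟨h, fun e => (Sym2.eq_iff.1 e).elim (fun e => ha (e.1 ▸ hv))
    fun e => ha (e.1 ▸ hw)⟩, fun h => h.1⟩

theorem fill (hr : Reg G 3) (hf : W₀.Finite) (hc : Con G W₀) (hs : W₀ ⊆ W)
    (hN : ∀ a ∈ W₀, ∀ b, G.Adj a b → b ∈ W) (hx : x ∉ W) (n : ℕ) :
    ∀ (H : Set (Sym2 V)) (c : V), (W₀ \ CC G H).ncard = n → SB G H x c →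
      (∃ u ∈ W₀, c = u ∨ G.Adj c u) → ∃ H' w, Ag G Wᶜ H H' ∧
        ((w ∈ W ∧ SA G H' x w) ∨ (SB G H' x w ∧ W₀ ⊆ Bl G (CC G H') w)) := by
  classical
  induction n using Nat.strong_induction_on with
  | _ n ih =>
    intro H c hn h ⟨u, hu, hcu⟩
    by_cases hK : W₀ ⊆ Bl G (CC G H) c
    · exact ⟨H, c, Ag.rfl, Or.inr ⟨h, hK⟩⟩
    have hB := bl_cls (G := G) (C := CC G H) (c := c) h.ex
    obtain ⟨c', v, h1, h2, h3, h4⟩ : ∃ c' v, c' ∈ Bl G (CC G H) c ∧ v ∉ Bl G (CC G H) c ∧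
        v ∈ W₀ ∧ G.Adj c' v := by
      by_cases e : u ∈ Bl G (CC G H) c
      · obtain ⟨z, a1, a2⟩ := not_subset.1 hK
        obtain ⟨p, q, b1, b2, b3, -, b4⟩ := exit_edge (hc u hu z a1) e a2
        exact ⟨p, q, b1, b2, b3, b4⟩
      · exact ⟨c, u, bl_mem _ c, e, hu, hcu.resolve_left fun e' => e (e' ▸ bl_mem _ c)⟩
    have h' := h.move hr h1
    have hv : ¬Exh G H v := fun e => h2 (hB.2 c' h1 v e h4)
    obtain ⟨w, hvw, he⟩ : ∃ w, G.Adj v w ∧ s(v, w) ∉ H := by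
      by_contra e
      exact hv fun z hz => by_contra fun e' => e ⟨z, hz, e'⟩
    have hw : ¬Exh G H w := fun e => he (Sym2.eq_swap ▸ e v hvw.symm)
    have hwW := hN v h3 w hvw
    have hvx : v ≠ x := fun e => hx (e ▸ hs h3)
    have hwx : w ≠ x := fun e => hx (e ▸ hwW)
    have hcv : s(v, c') ∈ H := Sym2.eq_swap ▸ h'.ex v h4
    have hd := dg_insert h.ba.fin hvw he
    have hdv : dg G (insert s(v, w) H) v = 3 := by
      have := dg_ne_zero h.ba.fin h4.symm hcv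
      have := h.oth v hvx; have := dg_le hr H v; have := mt (exh_iff hr).2 hv
      rw [hd v, if_pos (Or.inl rfl)]; omega
    have hdw : dg G (insert s(v, w) H) w = dg G H w + 1 := by simpa using hd w
    have hv' := (exh_iff hr).2 hdv
    have hba := h.ba.insert (h.ba.con v c' hcv) hvw
    have hp := h'.par.join (cc_fin hr h.ba.fin) h'.ex hv h4
    rw [← cc_ins' hvw hw hv'] at hp
    have hdx : dg G (insert s(v, w) H) x = 1 := by
      rw [hd x, if_neg (not_or.2 ⟨hvx.symm, hwx.symm⟩), h.da]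
    have hot : ∀ z, z ≠ x → z ≠ w → dg G (insert s(v, w) H) z ≠ 1 := fun z a1 a2 => by
      by_cases e : z = v
      · rw [e]; omega
      · rw [hd z, if_neg (not_or.2 ⟨e, a2⟩)]; exact h.oth z a1
    have hag : Ag G Wᶜ H (insert s(v, w) H) := ag_insert (hs h3) hwW
    by_cases hw' : Exh G (insert s(v, w) H) w
    · have a1 := hp.add (v := w) fun e => e.2 rfl
      rw [insert_sdiff_singleton, insert_eq_of_mem (show w ∈ CC G _ from hw'),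
        insert_empty_eq] at a1
      obtain ⟨H', w', a2, a3⟩ := ih _ (hn ▸ Set.ncard_lt_ncard (s := W₀ \ CC G (insert s(v, w) H))
        ⟨fun z hz => ⟨hz.1, fun e => hz.2 (Exh.mono e (subset_insert _ _))⟩,
          fun e => (e ⟨h3, hv⟩).2 hv'⟩ (hf.subset sdiff_subset)) _ w rfl
        ⟨hba, hw', hdx, fun z hz => by
          by_cases e : z = w
          · have := (exh_iff hr).1 hw'; rw [e]; omega
          · exact hot z hz e, a1⟩ ⟨v, h3, Or.inr hvw.symm⟩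
      exact ⟨H', w', hag.trans a2, a3⟩
    · rw [sdiff_singleton_eq_self hw'] at hp
      refine ⟨_, w, hag, Or.inl ⟨hwW, hba, hwx, hdx, ?_, hot, hp⟩⟩
      have := h.oth w hwx; have := dg_le hr (insert s(v, w) H) w; have := mt (exh_iff hr).2 hw'
      omega

/-- a path of exhausted vertices that avoids `s` uses no edge at `s` -/
theorem rch_av {S : Set V} (h : Cn G S p q) (hp : p ≠ s) (hS : S ⊆ CC G H \ {s}) :
    Rch G (H \ {e | s ∈ e}) p q := by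
  induction h with
  | refl => exact Rch.rfl
  | @tail u w a1 a2 ih =>
    have hu : u ≠ s := (Cn.mem a1).elim (fun e => e ▸ hp) fun e => (hS e).2
    exact ih.trans (Rch.single a2.1 ⟨Sym2.eq_swap ▸ (hS a2.2).1 u a2.1.symm, fun e =>
      (Sym2.mem_iff.1 e).elim hu.symm fun e => (hS a2.2).2 e.symm⟩)

theorem carve_last (hr : Reg G 3) {K : Set V} (hK : K ⊆ CC G H) (hp : p ∈ K) (hpq : G.Adj p q)
    (hpt : G.Adj p t) (hN : ∀ z, G.Adj p z → z ∈ K) (hcon : Con G (K \ {p})) :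
    Rch G ((H \ {s(p, q)}) \ {s(t, p)}) t p := by
  obtain ⟨r, h1, h2, h3⟩ : ∃ r, G.Adj p r ∧ r ≠ q ∧ r ≠ t := by
    obtain ⟨z₁, z₂, a1, a2, a3, a4, a5, -⟩ := nbrs hr hpq
    by_cases e : z₁ = t
    · exact ⟨z₂, a2, a5, fun e' => a3 (e.trans e'.symm)⟩
    · exact ⟨z₁, a1, a4, e⟩
  have h4 := rch_av (H := H) (hcon t ⟨hN t hpt, hpt.ne'⟩ r ⟨hN r h1, h1.ne'⟩) hpt.ne'
    (sdiff_subset_sdiff_left hK)
  have h5 : s(p, r) ∈ (H \ {s(p, q)}) \ {s(t, p)} :=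
    ⟨⟨hK hp r h1, ne_edge' h1 h2⟩, by rw [Sym2.eq_swap (a := t)]; exact ne_edge' h1 h3⟩
  refine Rch.trans (h4.mono fun e he => ⟨⟨he.1, fun e' => he.2 ?_⟩, fun e' => he.2 ?_⟩)
    (Rch.single h1 h5).symm
  · rw [show e = s(p, q) from e']; exact Sym2.mem_mk_left _ _
  · rw [show e = s(t, p) from e']; exact Sym2.mem_mk_right _ _

theorem carve (hr : Reg G 3) (h : SB G H x c) (hK : W₀ ⊆ Bl G (CC G H) c) (hoy : G.Adj o y)
    (hT : ∀ t, G.Adj o t ∨ G.Adj y t →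
      t ∈ W₀ ∧ ∀ p q, G.Adj t p → G.Adj t q → Cn G (W₀ \ {t}) p q) :
    ∃ H' p, p ∈ W₀ ∧ SA G H' x p ∧ Ag G W₀ᶜ H H' := by
  have hB := bl_cls (G := G) (C := CC G H) (c := c) h.ex
  have hcon : ∀ t, G.Adj o t ∨ G.Adj y t → Con G (Bl G (CC G H) c \ {t}) := fun t ht =>
    con_erase (bl_con _ c) fun p _ q _ h1 h2 =>
      ((hT t ht).2 p q h1 h2).mono (sdiff_subset_sdiff_left hK)
  have ho := (hT o (Or.inr hoy.symm)).1
  have hy := (hT y (Or.inl hoy)).1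
  have hox : Exh G H o := hB.1 (hK ho)
  have hb : Rch G (H \ {s(o, y)}) o y := by
    obtain ⟨z, -, a1, -, -, a2, -⟩ := nbrs hr hoy
    exact Rch.trans (Rch.single a1 ⟨hox z a1, ne_edge' a1 a2⟩) (rch_of_cn (hcon o (Or.inr hoy.symm)
      z ⟨hK (hT z (Or.inl a1)).1, a1.ne'⟩ y ⟨hK hy, hoy.ne'⟩) a1.ne'
      (sdiff_subset_sdiff_left hB.1) y)
  obtain ⟨-, c', h1, h2⟩ := (h.red hr hox (h.par.good (cc_fin hr h.ba.fin) h.ex (hK ho)
    (hcon o (Or.inr hoy.symm))) hoy hb).resolve_left fun e => e.1 (hB.1 (hK hy))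
  have hcc := cc_erase (H := H) hoy
  have hB' := bl_cls (G := G) (C := CC G (H \ {s(o, y)})) (c := c') h2.ex
  have hsub : Bl G (CC G (H \ {s(o, y)})) c' ⊆ Bl G (CC G H) c := fun z hz =>
    hB.cn (Cn.mono hz fun r hr => (hcc ▸ hr).1.1)
      (hB.2 y (hK hy) c' (Exh.mono h2.ex sdiff_subset) h1.symm)
  have hf := cc_fin hr h2.ba.fin
  obtain ⟨t, ⟨ht, ht'⟩, hct⟩ := non_cut (hf.subset hB'.1) (bl_con _ c')
    (N := {t | t ∈ Bl G (CC G (H \ {s(o, y)})) c' ∧ (G.Adj o t ∨ G.Adj y t)}) (fun _ e => e.1)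
    ⟨c', bl_mem _ c', Or.inr h1.symm⟩ fun t ht q hq => by
      have a0 : o ∉ Bl G (CC G (H \ {s(o, y)})) c' := fun e => (hcc ▸ hB'.1 e).1.2 rfl
      obtain ⟨p, r, a1, a2, a3, -, a4⟩ := exit_edge
        (A := {r | Cn G (Bl G (CC G (H \ {s(o, y)})) c' \ {t}) q r})
        (hcon t ht.2 q ⟨hsub hq.1, hq.2⟩ o ⟨hK ho, fun e => a0 (e ▸ ht.1)⟩) Cn.rfl
        fun e => (Cn.mem e).elim (fun e' => a0 (e' ▸ hq.1)) fun e' => a0 e'.1
      have a5 : p ∈ Bl G (CC G (H \ {s(o, y)})) c' \ {t} := (Cn.mem a1).elim (fun e => e ▸ hq) id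
      refine ⟨p, ⟨⟨a5.1, ?_⟩, a5.2⟩, a1⟩
      by_contra a6
      refine a2 (Cn.trans a1 (Cn.single a4 ⟨hB'.2 p a5.1 r ?_ a4, a3.2⟩))
      rw [hcc]
      exact ⟨⟨hB.1 a3.1, fun e => a6 (Or.inl (e ▸ a4.symm))⟩, fun e => a6 (Or.inr (e ▸ a4.symm))⟩
  have htx := hB'.1 ht
  have hg := h2.par.good hf h2.ex ht hct
  have htW := (hT t ht').1
  obtain ⟨p, a1, a2, a3, a4⟩ : ∃ p ∈ W₀, G.Adj t p ∧ ¬Exh G (H \ {s(o, y)}) p ∧
      Rch G ((H \ {s(o, y)}) \ {s(t, p)}) t p := by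
    rcases ht' with e | e
    · exact ⟨o, ho, e.symm, fun e' => (e' y hoy).2 rfl, carve_last hr hB.1 (hK ho) hoy e
        (fun z hz => hK (hT z (Or.inl hz)).1) (hcon o (Or.inr hoy.symm))⟩
    · refine ⟨y, hy, e.symm, fun e' => (e' o hoy.symm).2 Sym2.eq_swap, ?_⟩
      rw [Sym2.eq_swap (a := o)]
      exact carve_last hr hB.1 (hK hy) hoy.symm e
        (fun z hz => hK (hT z (Or.inr hz)).1) (hcon y (Or.inl hoy))
  exact ⟨_, p, a1, ((h2.red hr htx hg a2 a4).resolve_right fun e => a3 e.1).2,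
    (ag_erase ho hy).trans (ag_erase htW a1)⟩

/-- every state at a fresh vertex far away can be changed near `o` into one without returns -/
theorem surgery (hr : Reg G 3) (hc : G.Preconnected) (h2 : Two G) (o : V) :
    ∃ W : Set V, W.Finite ∧ o ∈ W ∧ ∀ n H x, Run G univ n ∅ o H x → x ∉ W → dg G H x = 1 →
      ∃ H', ∃ o' ∈ W, Rc G o' H' x ∧ Ag G Wᶜ H H' := by
  obtain ⟨y, hy⟩ := (hr.bd (by norm_num) o).2.2
  have h1 : ∀ t : V, ∃ B : Set V, B.Finite ∧ G.neighborSet t ⊆ B ∧ B ⊆ {t}ᶜ ∧ Con G B :=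
    fun t => fin_sup (h2.con t) (hr t).1 fun z hz => hz.ne'
  choose B b1 b2 b3 b4 using h1
  have hT : (G.neighborSet o ∪ G.neighborSet y).Finite := (hr o).1.union (hr y).1
  obtain ⟨W₀, w1, w2, -, w3⟩ := fin_sup (G := G) (S := univ) (fun a _ b _ => cn_univ hc a b)
    (hT.union (hT.biUnion fun t _ => b1 t)) (subset_univ _)
  have ho : o ∈ W₀ := w2 (Or.inl (Or.inr hy.symm))
  refine ⟨W₀ ∪ {b | ∃ a ∈ W₀, G.Adj a b}, w1.union (nb_fin hr.lf w1), Or.inl ho,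
    fun n H x hR hx hd => ?_⟩
  rcases fresh_state hr hR (fun e => hx (e ▸ Or.inl ho)) hd with h | ⟨c, h3, h⟩
  · exact ⟨H, o, Or.inl ho, h.rc hr, Ag.rfl⟩
  obtain ⟨H', w, a1, ⟨a2, a3⟩ | ⟨a2, a3⟩⟩ := fill hr w1 w3 (W := W₀ ∪ {b | ∃ a ∈ W₀, G.Adj a b})
    subset_union_left (fun a ha b hb => Or.inr ⟨a, ha, hb⟩) hx _ H c rfl h ⟨o, ho, h3⟩
  · exact ⟨H', w, a2, a3.symm.rc hr, a1⟩
  obtain ⟨H'', p, c1, c2, c3⟩ := carve hr a2 a3 hy fun t ht => ⟨w2 (Or.inl ht), fun p q hp hq =>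
    (b4 t p (b2 t hp) q (b2 t hq)).mono fun z hz => ⟨w2 (Or.inr (mem_biUnion ht hz)), b3 t hz⟩⟩
  exact ⟨H'', p, Or.inl c1, c2.symm.rc hr, a1.trans (c3.mono (compl_subset_compl.2 subset_union_left))⟩

end Pool.Agent.P3fb035
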