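import Pool.Agent.P.MP_3fb035_pr.CuE

/-! Cubic vertex-transitive graphs: almost sure return forces recurrence. -/

set_option autoImplicit false

open MeasureTheory Set
open scoped ENNReal

namespace Pool.Agent.P3fb035

open Pool.Agent.Lib.GRW

variable {V : Type} {G : SimpleGraph V}

section
variable [Countable V] [MeasurableSpace V] [DiscreteMeasurableSpace V]
  {Ω : Type} [MeasurableSpace Ω] {P : Measure Ω} {X : ℕ → Ω → V} {d : ℕ} {o : V}

/-- escape from a finite set, seen at a fresh vertex -/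
theorem fresh_esc (hb : Bd G d) (hc : G.Preconnected) (h : IsWalk (ker G ∅) o P X)
    (h0 : P (pth X ⁻¹' Of o) ≠ 1) {W : Set V} (hW : W.Finite) :
    ∃ n E x, Run G univ n ∅ o E x ∧ x ∉ W ∧ dg G E x = 1 ∧ Qe G W E x ≠ 0 := by
  have := h.1
  let A : ℕ → Set (ℕ → V) := fun m => {y | (∀ s ≤ m, y s ≠ y (m + 1)) ∧ ∀ s > m, y s ∉ W}
  obtain ⟨m, hm⟩ : ∃ m, P (cyl X 0 (fun _ => o) ∩ pth X ⁻¹' A m) ≠ 0 := by
    by_contra hn
    push Not at hn
    refine h0 ((prob_compl_eq_zero_iff (h.meas_pre (meas_Of o))).1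
      (measure_eq_zero_iff_ae_notMem.2 ?_))
    filter_upwards [measure_eq_zero_iff_ae_notMem.1 (measure_iUnion_null hn), ae_ev hb hc h o,
      ae_adj h] with ω h1 h2 h3 h4
    obtain ⟨T, hT⟩ := h2 h4 W hW
    obtain ⟨T', hT'⟩ := h2 h4 _ ((finite_le_nat T).image (pth X ω))
    classical
    have h5 : ∃ t, pth X ω t ∉ pth X ω '' {s | s ≤ T} := ⟨T' + 1, hT' _ (Nat.lt_succ_self _)⟩
    have h6 := Nat.find_spec h5
    have h7 : T < Nat.find h5 := not_le.1 fun e => h6 ⟨_, e, rfl⟩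
    obtain ⟨m, hm⟩ : ∃ m, Nat.find h5 = m + 1 := ⟨Nat.find h5 - 1, by omega⟩
    refine h1 (mem_iUnion.2 ⟨m, fun s hs => ?_, fun s hs e => ?_, fun s hs => hT s (by omega)⟩)
    · obtain rfl : s = 0 := by omega
      exact h3.1
    · exact Nat.find_min h5 (m := s) (by omega) (by rw [e, ← hm]; exact h6)
  obtain ⟨y, -, h1⟩ := cyl_split (Nat.zero_le (m + 1)) hm
  obtain ⟨ω, h2, h3, h4⟩ := nonempty_of_measure_ne_zero h1
  have h5 : ∀ s ≤ m + 1, pth X ω s = y s := h2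
  have h6 : P (cyl X (m + 1) y ∩ pth X ⁻¹' {z | ∀ s > m + 1, z s ∉ W}) ≠ 0 := fun e =>
    h1 (le_antisymm (e ▸ measure_mono fun ω' hω' =>
      ⟨hω'.1, fun s hs => hω'.2.2 s (by omega)⟩) zero_le)
  rw [q_cyl h, mul_ne_zero_iff, empty_union] at h6
  have h7 := val_of_ne_zero h h6.1
  obtain ⟨E, h8, h9⟩ := run_of (G := G) (U := ∅) (S := univ) (n := m + 1) (t := 0) (y := y)
    fun s _ hs => ⟨h7.2 s (by omega), mem_univ _⟩
  rw [us_zero, Nat.zero_add, empty_union] at h8 h9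
  rw [h7.1, ← h9] at h8
  refine ⟨_, _, _, h8, h5 _ le_rfl ▸ h4 _ (Nat.lt_succ_self m), ?_, h6.2⟩
  refine Set.ncard_eq_one.2 ⟨y m, Set.ext fun w => ⟨fun ⟨_, s, hs, e⟩ => ?_, fun e => ?_⟩⟩
  · have a1 : ∀ r ≤ m, y r ≠ y (m + 1) := fun r hr => by
      rw [← h5 r (by omega), ← h5 _ le_rfl]; exact h3 r hr
    rcases Sym2.eq_iff.1 e with e | e
    · exact (a1 s (by omega) e.1).elim
    · obtain rfl : s = m := by_contra fun e' => a1 (s + 1) (by omega) e.2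
      exact e.1.symm
  · obtain rfl : w = y m := e
    exact ⟨(h7.2 m (Nat.lt_succ_self m)).1.symm, m, Nat.lt_succ_self m, Sym2.eq_swap⟩

theorem cubic_nv [Infinite V] (hr : Reg G 3) (hc : G.Preconnected) (ht : Tr G)
    (h : IsWalk (ker G ∅) o P X) (h0 : P (pth X ⁻¹' Of o) ≠ 1) : P (pth X ⁻¹' Nv o) ≠ 0 := by
  by_cases h2 : Two G
  swap
  · exact (odd_cut hr (by decide) hc ht h2 h h0).2
  have hb := hr.bd (by norm_num)
  obtain ⟨W, w1, -, w2⟩ := surgery hr hc h2 o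
  obtain ⟨n, E, x, h3, h4, h5, h6⟩ := fresh_esc hb hc h h0 w1
  obtain ⟨H', o', h7, ⟨m, h8⟩, h9⟩ := w2 n E x h3 h4 h5
  obtain ⟨Ω', _, P', X', h'⟩ := exists_ker hb ∅ o'
  rw [(law_tr ht h h').2]
  rw [Qe_loc (G' := G) h4 (fun _ _ _ => Iff.rfl) h9, ← empty_union H'] at h6
  exact nv_of_es hb h' (mul_ne_zero (pow_ne_zero m (ENNReal.inv_ne_zero.2
    (ENNReal.natCast_ne_top 3))) h6) ⟨m, H', x, h8, h4, le_rfl⟩ (fun e => e rfl) h7

end

theorem return_cubic [Infinite V] [G.LocallyFinite] {Ω : Type} [MeasurableSpace Ω] {P : Measure Ω}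
    {X : ℕ → Ω → V} {o : V} (hc : G.Connected) (ht : Tr G) (h : IsGRW G o P X)
    (hd : G.degree o = 3) :
    P {ω | {t | X t ω = o}.Infinite} = 1 ↔ P {ω | ∃ t, 1 ≤ t ∧ X t ω = o} = 1 := by
  have := countable_of_connected hc
  let : MeasurableSpace V := ⊤
  have : DiscreteMeasurableSpace V := ⟨fun _ => trivial⟩
  have := h.1
  have hw := isWalk_of_grw h
  have e : {ω | {t | X t ω = o}.Infinite} = pth X ⁻¹' Of o := Set.ext fun ω => (of_iff _ o).symm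
  refine ⟨fun h3 => le_antisymm prob_le_one (h3 ▸ measure_mono fun ω hω => ?_), fun hB => ?_⟩
  · obtain ⟨t, ht, h4⟩ := hω.exists_gt 0
    exact ⟨t, h4, ht⟩
  · by_contra h0
    exact cubic_nv (hd ▸ reg_of_tr ht o) hc.preconnected ht hw (e ▸ h0) ((ret_iff hw).1 hB)

end Pool.Agent.P3fb035
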