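import Mathlib

/-! Product measures: events that depend on a set of coordinates, independence, zero-one law,
uniqueness of the law of a walk. -/

set_option autoImplicit false

open MeasureTheory ProbabilityTheory Set
open scoped ENNReal

namespace Pool.Agent.P3fb035

section Prod
variable {I : Type} {C : I → Type} [∀ i, MeasurableSpace (C i)] [∀ i, Nonempty (C i)]
  (μ : ∀ i, Measure (C i)) [∀ i, IsProbabilityMeasure (μ i)]

/-- the event depends only on the coordinates in `T` -/
def Dep (T : Set I) (E : Set (∀ i, C i)) : Prop :=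
  ∀ ω ω' : ∀ i, C i, (∀ i ∈ T, ω i = ω' i) → ω ∈ E → ω' ∈ E

theorem Dep.meas {T : Set I} {E : Set (∀ i, C i)} (h : Dep T E) (hE : MeasurableSet E) :
    MeasurableSet[⨆ i ∈ T, MeasurableSpace.comap (fun ω : ∀ i, C i => ω i) inferInstance] E := by
  classical
  let g : (∀ i, C i) → ∀ i, C i := fun ω i => if i ∈ T then ω i else Classical.arbitrary _
  have h1 : E = g ⁻¹' E := by
    ext ω
    exact ⟨h _ _ fun i hi => (if_pos hi).symm, h _ _ fun i hi => if_pos hi⟩
  have h2 : @Measurable _ _
      (⨆ i ∈ T, MeasurableSpace.comap (fun ω : ∀ i, C i => ω i) inferInstance) _ g := by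
    refine @measurable_pi_lambda _ _ _ (_) _ _ fun i => ?_
    by_cases hi : i ∈ T
    · simp only [g, if_pos hi]
      exact Measurable.of_comap_le (le_iSup₂_of_le i hi le_rfl)
    · simp only [g, if_neg hi]
      exact measurable_const
  rw [h1]
  exact h2 hE

omit [∀ i, Nonempty (C i)] in
theorem indep_coord : iIndep (fun i => MeasurableSpace.comap (fun ω : ∀ i, C i => ω i)
    inferInstance) (Measure.infinitePi μ) :=
  (iIndepFun_iff_iIndep _ _ _).1
    (iIndepFun_infinitePi (P := μ) (X := fun _ => id) fun _ => measurable_id)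

theorem dep_inter {T T' : Set I} (hT : Disjoint T T') {E E' : Set (∀ i, C i)} (h : Dep T E)
    (h' : Dep T' E') (hE : MeasurableSet E) (hE' : MeasurableSet E') :
    Measure.infinitePi μ (E ∩ E') = Measure.infinitePi μ E * Measure.infinitePi μ E' :=
  ((indep_iSup_of_disjoint (fun i => (measurable_pi_apply i).comap_le) (indep_coord μ)
    hT).indepSet_of_measurableSet (h.meas hE) (h'.meas hE')).measure_inter_eq_mul

theorem zero_one {E : Set (∀ i, C i)} (hE : MeasurableSet E)
    (h : ∀ S : Set I, S.Finite → Dep Sᶜ E) :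
    Measure.infinitePi μ E = 0 ∨ Measure.infinitePi μ E = 1 := by
  classical
  refine measure_zero_or_one_of_measurableSet_limsup (f := Filter.cofinite) (p := Set.Finite)
    (ns := fun s : Finset I => (s : Set I)) (fun i => (measurable_pi_apply i).comap_le)
    (indep_coord μ) (fun t ht => ht.compl_mem_cofinite) (fun a b => ⟨a ∪ b, by simp, by simp⟩)
    (fun a => a.finite_toSet) (fun n => ⟨{n}, by simp⟩) ?_
  rw [Filter.limsup_eq_iInf_iSup, MeasurableSpace.measurableSet_iInf]
  intro t
  rw [MeasurableSpace.measurableSet_iInf]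
  intro ht
  have h1 := (h tᶜ ht).meas hE
  rwa [compl_compl] at h1

omit [∀ i, Nonempty (C i)] in
/-- changing one coordinate by a measure preserving map -/
theorem preserving_update [DecidableEq I] (i : I) {g : C i → C i}
    (hg : MeasurePreserving g (μ i) (μ i)) :
    MeasurePreserving (fun ω : ∀ j, C j => Function.update ω i (g (ω i)))
      (Measure.infinitePi μ) (Measure.infinitePi μ) := by
  let f : ∀ j, C j → C j := Function.update (fun _ => id) i g
  have hf : ∀ j, MeasurePreserving (f j) (μ j) (μ j) := fun j => by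
    rcases eq_or_ne j i with rfl | h
    · simpa [f] using hg
    · simpa [f, Function.update_of_ne h] using MeasurePreserving.id (μ j)
  have h1 : (fun ω : ∀ j, C j => Function.update ω i (g (ω i))) = fun ω j => f j (ω j) := by
    funext ω j
    rcases eq_or_ne j i with rfl | h
    · simp [f]
    · simp [f, Function.update_of_ne h]
  rw [h1]
  refine ⟨measurable_pi_lambda _ fun j => (hf j).measurable.comp (measurable_pi_apply j), ?_⟩
  rw [Measure.infinitePi_map_pi μ fun j => (hf j).measurable]
  congr 1
  funext j
  exact (hf j).map_eq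

end Prod

/-- the uniform measure on a finite type -/
noncomputable def unif (α : Type) [Finite α] [Nonempty α] [MeasurableSpace α] : Measure α :=
  haveI := Fintype.ofFinite α
  (PMF.uniformOfFintype α).toMeasure

instance (α : Type) [Finite α] [Nonempty α] [MeasurableSpace α] : IsProbabilityMeasure (unif α) :=
  PMF.toMeasure.isProbabilityMeasure _

theorem unif_singleton {α : Type} [Finite α] [Nonempty α] [MeasurableSpace α]
    [DiscreteMeasurableSpace α] (a : α) : unif α {a} = (Nat.card α : ℝ≥0∞)⁻¹ := by
  let := Fintype.ofFinite α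
  rw [unif, PMF.toMeasure_apply_singleton _ _ (measurableSet_singleton a),
    PMF.uniformOfFintype_apply, Nat.card_eq_fintype_card]

theorem unif_preserving {α : Type} [Finite α] [Nonempty α] [MeasurableSpace α]
    [DiscreteMeasurableSpace α] {g : α → α} (hg : Function.Involutive g) :
    MeasurePreserving g (unif α) (unif α) := by
  refine ⟨Measurable.of_discrete, Measure.ext_of_singleton fun a => ?_⟩
  rw [Measure.map_apply Measurable.of_discrete (measurableSet_singleton a)]
  have : g ⁻¹' {a} = {g a} := by
    ext b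
    exact ⟨fun h => by rw [← show g b = a from h, mem_singleton_iff, hg], fun h => by
      rw [mem_preimage, show b = g a from h, hg]; rfl⟩
  rw [this, unif_singleton, unif_singleton]

theorem unif_pos {α : Type} [Finite α] [Nonempty α] [MeasurableSpace α]
    [DiscreteMeasurableSpace α] {s : Set α} (hs : s.Nonempty) : unif α s ≠ 0 := by
  obtain ⟨a, ha⟩ := hs
  refine fun h => ?_
  have h1 := measure_mono_null (singleton_subset_iff.2 ha) h
  rw [unif_singleton] at h1
  simp at h1

section Law
variable {V : Type} [Countable V] [MeasurableSpace V] [DiscreteMeasurableSpace V]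

/-- a process with prescribed transition weights -/
def IsWalk (k : (ℕ → V) → ℕ → V → ℝ≥0∞) (v₀ : V) {Ω : Type} [MeasurableSpace Ω] (P : Measure Ω)
    (X : ℕ → Ω → V) : Prop :=
  IsProbabilityMeasure P ∧ (∀ t v, MeasurableSet {ω | X t ω = v}) ∧ P {ω | X 0 ω = v₀} = 1 ∧
    ∀ (t : ℕ) (x : ℕ → V), P {ω | ∀ s ≤ t + 1, X s ω = x s} =
      P {ω | ∀ s ≤ t, X s ω = x s} * k x t (x (t + 1))

variable {k : (ℕ → V) → ℕ → V → ℝ≥0∞} {v₀ : V} {Ω Ω' : Type} [MeasurableSpace Ω]
  [MeasurableSpace Ω'] {P : Measure Ω} {P' : Measure Ω'} {X : ℕ → Ω → V} {X' : ℕ → Ω' → V}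

omit [DiscreteMeasurableSpace V] in
theorem IsWalk.measurable (h : IsWalk k v₀ P X) : Measurable fun ω t => X t ω :=
  measurable_pi_lambda _ fun t => measurable_to_countable' fun v => h.2.1 t v

omit [Countable V] [MeasurableSpace V] [DiscreteMeasurableSpace V] in
theorem IsWalk.cyl_zero (h : IsWalk k v₀ P X) (x : ℕ → V) [Decidable (x 0 = v₀)] :
    P {ω | ∀ s ≤ 0, X s ω = x s} = if x 0 = v₀ then 1 else 0 := by
  have := h.1
  have h0 : {ω | ∀ s ≤ 0, X s ω = x s} = {ω | X 0 ω = x 0} := by simp
  rw [h0]
  split_ifs with h1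
  · rw [h1, h.2.2.1]
  · refine measure_mono_null (fun ω hω h2 => h1 (hω.symm.trans h2))
      ((prob_compl_eq_zero_iff (h.2.1 0 v₀)).2 h.2.2.1)

theorem IsWalk.law (h : IsWalk k v₀ P X) (h' : IsWalk k v₀ P' X') {D : Set (ℕ → V)}
    (hD : MeasurableSet D) : P {ω | (fun t => X t ω) ∈ D} = P' {ω | (fun t => X' t ω) ∈ D} := by
  classical
  have := h.1
  have := h'.1
  have h1 : ∀ (t : ℕ) (x : ℕ → V), P {ω | ∀ s ≤ t, X s ω = x s} = P' {ω | ∀ s ≤ t, X' s ω = x s} := by
    intro t x
    induction t with
    | zero => rw [h.cyl_zero, h'.cyl_zero]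
    | succ t ih => rw [h.2.2.2, h'.2.2.2, ih]
  let ν := P.map fun ω t => X t ω
  let ν' := P'.map fun ω t => X' t ω
  have : IsProbabilityMeasure ν := Measure.isProbabilityMeasure_map h.measurable.aemeasurable
  have h2 : ∀ n, ν'.map (Preorder.frestrictLe n) = ν.map (Preorder.frestrictLe n) := fun n => by
    refine Measure.ext_of_singleton fun a => ?_
    let x : ℕ → V := fun s => a ⟨min s n, Finset.mem_Iic.2 (min_le_right _ _)⟩
    have h3 : ∀ y : ℕ → V, Preorder.frestrictLe (π := fun _ : ℕ => V) n y = a ↔
        ∀ s ≤ n, y s = x s := fun y =>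
      ⟨fun e s hs => by simp [x, ← e, min_eq_left hs], fun e => funext fun i => by
        have := e i (Finset.mem_Iic.1 i.2)
        simpa [x, min_eq_left (Finset.mem_Iic.1 i.2)] using this⟩
    rw [Measure.map_map (Preorder.measurable_frestrictLe n) h'.measurable,
      Measure.map_map (Preorder.measurable_frestrictLe n) h.measurable,
      Measure.map_apply ((Preorder.measurable_frestrictLe n).comp h'.measurable)
        (measurableSet_singleton a),
      Measure.map_apply ((Preorder.measurable_frestrictLe n).comp h.measurable)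
        (measurableSet_singleton a)]
    simp only [preimage, Function.comp, mem_singleton_iff, h3]
    exact (h1 n x).symm
  have h4 : IsProjectiveMeasureFamily (α := fun _ : ℕ => V) fun J => ν.map J.restrict :=
    fun J K hJK => by
      rw [Measure.map_map (Finset.measurable_restrict₂ hJK) (Finset.measurable_restrict J)]
      rfl
  have h5 : ν = ν' := IsProjectiveLimit.unique (P := fun J => ν.map J.restrict) (fun _ => rfl)
    ((isProjectiveLimit_nat_iff h4 ν').2 h2)
  have h6 := congrArg (fun m : Measure (ℕ → V) => m D) h5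
  simp only [ν, ν'] at h6
  rwa [Measure.map_apply h.measurable hD, Measure.map_apply h'.measurable hD] at h6

end Law

end Pool.Agent.P3fb035
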