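import Pool.Agent.P.MP_3fb035_pr.EvA
import Pool.Agent.Lib.GRW.Prob

/-! The greedy random walk built from independent uniform orderings of the neighbours. -/

set_option autoImplicit false

open MeasureTheory ProbabilityTheory Set
open scoped ENNReal

namespace Pool.Agent.P3fb035

open Pool.Agent.Lib.GRW

variable {V : Type} (G : SimpleGraph V) [G.LocallyFinite]

/-- orderings of the neighbours of `v` -/
structure Rk (v : V) : Type where
  r : V → ℕ
  out : ∀ u, ¬G.Adj v u → r u = G.degree v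
  lt : ∀ u, G.Adj v u → r u < G.degree v
  inj : ∀ u u', G.Adj v u → G.Adj v u' → r u = r u' → u = u'

theorem Rk.ext' {v : V} {a b : Rk G v} (h : a.r = b.r) : a = b := by
  cases a
  cases b
  congr

instance (v : V) : Finite (Rk G v) := by
  classical
  refine Finite.of_injective (fun (r : Rk G v) (u : G.neighborSet v) =>
    (⟨r.1 u, r.lt u u.2⟩ : Fin (G.degree v))) fun r r' h => Rk.ext' G (funext fun u => ?_)
  by_cases hu : G.Adj v u
  · exact congrArg Fin.val (congrFun h ⟨u, hu⟩)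
  · rw [r.out u hu, r'.out u hu]

instance (v : V) : Nonempty (Rk G v) := by
  classical
  let e := Fintype.equivFinOfCardEq (G.card_neighborSet_eq_degree v)
  refine ⟨⟨fun u => if h : G.Adj v u then (e ⟨u, h⟩ : ℕ) else G.degree v, fun u h => dif_neg h,
    fun u h => ?_, fun u u' h h' h1 => ?_⟩⟩
  · simp only [dif_pos h]
    exact (e ⟨u, h⟩).2
  · simp only [dif_pos h, dif_pos h'] at h1
    exact congrArg Subtype.val (e.injective (Fin.ext h1))

instance (v : V) : MeasurableSpace (Rk G v) := ⊤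

instance (v : V) : DiscreteMeasurableSpace (Rk G v) := ⟨fun _ => trivial⟩

variable {G}

theorem Rk.surj {v : V} (r : Rk G v) {i : ℕ} (hi : i < G.degree v) : ∃ u, G.Adj v u ∧ r.1 u = i := by
  let f : G.neighborSet v → Fin (G.degree v) := fun u => ⟨r.1 u, r.lt u u.2⟩
  have h1 : Function.Bijective f := (Fintype.bijective_iff_injective_and_card f).2
    ⟨fun u u' h => Subtype.ext (r.inj _ _ u.2 u'.2 (congrArg Fin.val h)), by
      rw [G.card_neighborSet_eq_degree, Fintype.card_fin]⟩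
  obtain ⟨u, hu⟩ := h1.2 ⟨i, hi⟩
  exact ⟨u, u.2, congrArg Fin.val hu⟩

omit [G.LocallyFinite] in
open Classical in
theorem adj_swap {v u u' : V} (hu : G.Adj v u) (hu' : G.Adj v u') (w : V) :
    G.Adj v (Equiv.swap u u' w) ↔ G.Adj v w := by
  rw [Equiv.swap_apply_def]
  split_ifs with h1 h2
  · simp [h1, hu, hu']
  · simp [h2, hu, hu']
  · rfl

open Classical in
/-- exchange of two neighbours -/
noncomputable def Rk.sw {v u u' : V} (hu : G.Adj v u) (hu' : G.Adj v u') (r : Rk G v) : Rk G v :=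
  ⟨fun w => r.1 (Equiv.swap u u' w), fun w h => r.out _ (by rwa [adj_swap hu hu']),
    fun w h => r.lt _ (by rwa [adj_swap hu hu']), fun w w' h h' h1 =>
      (Equiv.swap u u').injective
        (r.inj _ _ (by rwa [adj_swap hu hu']) (by rwa [adj_swap hu hu']) h1)⟩

theorem Rk.sw_sw {v u u' : V} (hu : G.Adj v u) (hu' : G.Adj v u') :
    Function.Involutive (Rk.sw hu hu') := fun r => Rk.ext' G (funext fun w => by simp [Rk.sw])

variable (G)

/-- the sample space: level `0` drives the greedy steps, level `n + 1` the `n`-th free step -/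
abbrev Om : Type := ∀ i : ℕ × V, Rk G i.2

/-- the product measure -/
noncomputable def Pm : Measure (Om G) := Measure.infinitePi fun i => unif (Rk G i.2)

instance : IsProbabilityMeasure (Pm G) := by unfold Pm; infer_instance

open Classical in
/-- number of free steps before time `t` -/
noncomputable def cnt (x : ℕ → V) : ℕ → ℕ
  | 0 => 0
  | t + 1 => cnt x t + if (freshNbrs G x t).Nonempty then 0 else 1

theorem cnt_realize : True := by have := @cnt.eq_def; trivial

/-- the rule for the next position -/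
def Nx (x : ℕ → V) (t : ℕ) (w : V) (ρ η : V → ℕ) : Prop :=
  ((freshNbrs G x t).Nonempty → w ∈ freshNbrs G x t ∧
    (ρ (x (t - 1)) + ρ w + 1 = G.degree (x t) ∨
      (∀ u ∈ freshNbrs G x t, ρ (x (t - 1)) + ρ u + 1 ≠ G.degree (x t)) ∧
        ∀ u ∈ freshNbrs G x t, ρ w ≤ ρ u)) ∧
  (¬(freshNbrs G x t).Nonempty → G.Adj (x t) w ∧ η w = 0)

/-- the rule read in the sample `ω` -/
def Nxt (ω : Om G) (x : ℕ → V) (t : ℕ) (w : V) : Prop :=
  Nx G x t w (ω (0, x t)).1 (ω (cnt G x t + 1, x t)).1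

variable {G}

theorem cnt_congr {x y : ℕ → V} {t : ℕ} (h : ∀ s ≤ t, x s = y s) : cnt G x t = cnt G y t := by
  induction t with
  | zero => rfl
  | succ t ih =>
    have h' : ∀ s ≤ t, x s = y s := fun s hs => h s (hs.trans (Nat.le_succ t))
    rw [cnt, cnt, ih h', freshNbrs_congr G h']

theorem cnt_mono (x : ℕ → V) : Monotone (cnt G x) :=
  monotone_nat_of_le_succ fun t => by rw [cnt]; exact Nat.le_add_right _ _

theorem cnt_lt {x : ℕ → V} {s t : ℕ} (h : s < t) (hs : ¬(freshNbrs G x s).Nonempty) :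
    cnt G x s < cnt G x t :=
  lt_of_lt_of_le (by rw [cnt, if_neg hs]; exact Nat.lt_succ_self _) (cnt_mono x (Nat.succ_le_of_lt h))

theorem Nxt.congr {ω : Om G} {x y : ℕ → V} {t : ℕ} {w : V} (h : ∀ s ≤ t, x s = y s)
    (hx : Nxt G ω x t w) : Nxt G ω y t w := by
  unfold Nxt Nx at hx ⊢
  rwa [← cnt_congr h, ← freshNbrs_congr G h, ← h t le_rfl, ← h (t - 1) (Nat.sub_le t 1)]

theorem Nxt.mem {ω : Om G} {x : ℕ → V} {t : ℕ} {w : V} (h : Nxt G ω x t w) :
    w ∈ nextSet G x t := by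
  unfold nextSet
  split_ifs with h1
  · exact (h.1 h1).1
  · simpa using (h.2 h1).1

theorem Nxt.unique {ω : Om G} {x : ℕ → V} {t : ℕ} {w w' : V} (h : Nxt G ω x t w)
    (h' : Nxt G ω x t w') : w = w' := by
  by_cases h1 : (freshNbrs G x t).Nonempty
  · obtain ⟨h2, h3⟩ := h.1 h1
    obtain ⟨h2', h3'⟩ := h'.1 h1
    refine (ω (0, x t)).inj _ _ ((mem_freshNbrs G).1 h2).1 ((mem_freshNbrs G).1 h2').1 ?_
    rcases h3 with h3 | h3 <;> rcases h3' with h3' | h3'
    · omega
    · exact absurd h3 (h3'.1 w h2)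
    · exact absurd h3' (h3.1 w' h2')
    · exact le_antisymm (h3.2 w' h2') (h3'.2 w h2)
  · exact (ω (cnt G x t + 1, x t)).inj _ _ (h.2 h1).1 (h'.2 h1).1
      ((h.2 h1).2.trans (h'.2 h1).2.symm)

theorem exists_nxt (hG : ∀ v, ∃ w, G.Adj v w) (ω : Om G) (x : ℕ → V) (t : ℕ) :
    ∃ w, Nxt G ω x t w := by
  by_cases h1 : (freshNbrs G x t).Nonempty
  · by_cases h2 : ∃ u ∈ freshNbrs G x t,
        (ω (0, x t)).1 (x (t - 1)) + (ω (0, x t)).1 u + 1 = G.degree (x t)
    · obtain ⟨u, hu, h3⟩ := h2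
      exact ⟨u, fun _ => ⟨hu, Or.inl h3⟩, fun h => absurd h1 h⟩
    · obtain ⟨u, hu, h3⟩ := Finset.exists_min_image _ (ω (0, x t)).1 h1
      exact ⟨u, fun _ => ⟨hu, Or.inr ⟨fun y hy h => h2 ⟨y, hy, h⟩, h3⟩⟩, fun h => absurd h1 h⟩
  · obtain ⟨u, hu, h3⟩ := (ω (cnt G x t + 1, x t)).surj
      ((G.degree_pos_iff_exists_adj _).2 (hG (x t)))
    exact ⟨u, fun h => absurd h h1, fun _ => ⟨hu, h3⟩⟩

theorem measurableSet_nxt (x : ℕ → V) (t : ℕ) (w : V) : MeasurableSet {ω | Nxt G ω x t w} :=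
  measurableSet_preimage (f := fun ω : Om G => (ω (0, x t), ω (cnt G x t + 1, x t)))
    ((measurable_pi_apply _).prodMk (measurable_pi_apply _))
    (t := {p | Nx G x t w p.1.1 p.2.1}) (Set.to_countable _).measurableSet

open Classical in
/-- the history up to time `t` -/
noncomputable def hist (o : V) (ω : Om G) : ℕ → ℕ → V
  | 0 => fun _ => o
  | t + 1 => Function.update (hist o ω t) (t + 1) (@epsilon V ⟨o⟩ (Nxt G ω (hist o ω t) t))

theorem hist_realize : True := by have := @hist.eq_def; trivial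

/-- the walk -/
noncomputable def Xm (o : V) (t : ℕ) (ω : Om G) : V := hist o ω t t

theorem hist_eq (o : V) (ω : Om G) {t s : ℕ} (h : s ≤ t) : hist o ω t s = Xm o s ω := by
  induction t with
  | zero => rw [Nat.le_zero.1 h]; rfl
  | succ t ih =>
    rcases Nat.lt_or_eq_of_le h with h | rfl
    · rw [hist, Function.update_of_ne h.ne, ih (Nat.lt_succ_iff.1 h)]
    · rfl

theorem Xm_nxt (hG : ∀ v, ∃ w, G.Adj v w) (o : V) (ω : Om G) (t : ℕ) :
    Nxt G ω (fun s => Xm o s ω) t (Xm o (t + 1) ω) := by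
  refine Nxt.congr (x := hist o ω t) (fun s hs => hist_eq o ω hs) ?_
  rw [Xm, hist, Function.update_self]
  exact Classical.epsilon_spec (exists_nxt hG ω _ t)

theorem mem_cyl (hG : ∀ v, ∃ w, G.Adj v w) (o : V) (ω : Om G) (t : ℕ) (x : ℕ → V) :
    ω ∈ cyl (Xm o) t x ↔ x 0 = o ∧ ∀ s < t, Nxt G ω x s (x (s + 1)) := by
  constructor
  · intro h
    refine ⟨(h 0 (Nat.zero_le t)).symm, fun s hs => ?_⟩
    rw [← h (s + 1) hs]
    exact (Xm_nxt hG o ω s).congr fun r hr => h r (hr.trans hs.le)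
  · rintro ⟨h0, h⟩ s hs
    induction s using Nat.strong_induction_on with
    | _ s ih =>
      rcases s with _ | s
      · exact h0.symm
      · exact ((Xm_nxt hG o ω s).congr fun r hr =>
          ih r (Nat.lt_succ_of_le hr) (by omega)).unique (h s hs)

theorem measurableSet_cyl (hG : ∀ v, ∃ w, G.Adj v w) (o : V) (t : ℕ) (x : ℕ → V) :
    MeasurableSet (cyl (Xm (G := G) o) t x) := by
  have h : cyl (Xm (G := G) o) t x =
      {_ω | x 0 = o} ∩ ⋂ s, ⋂ (_ : s < t), {ω | Nxt G ω x s (x (s + 1))} := by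
    ext ω
    simp [mem_cyl hG]
  rw [h]
  exact (MeasurableSet.const _).inter
    (.iInter fun s => .iInter fun _ => measurableSet_nxt x s _)

theorem fresh_anti {x : ℕ → V} {s t : ℕ} (h : s ≤ t) (hx : x s = x t) {u : V}
    (hu : u ∈ freshNbrs G x t) : u ∈ freshNbrs G x s := by
  rw [mem_freshNbrs] at hu ⊢
  rw [hx]
  exact ⟨hu.1, fun r hr => hu.2 r (hr.trans_le h)⟩

theorem prev_ne {x : ℕ → V} {s t : ℕ} (h : s ≤ t) (hx : x s = x t) {u : V}
    (hu : u ∈ freshNbrs G x t) : x (s - 1) ≠ u := by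
  rw [mem_freshNbrs] at hu
  rcases s with _ | s
  · exact fun e => hu.1.ne (hx.symm.trans e)
  · exact fun e => hu.2 s h (by rw [← e, ← hx, Sym2.eq_swap]; rfl)

open Classical in
theorem nx_swap {x : ℕ → V} {t : ℕ} {u u' w : V} {ρ η : V → ℕ} (hu : u ∈ freshNbrs G x t)
    (hu' : u' ∈ freshNbrs G x t) (h : Nx G x t w ρ η) :
    Nx G x t (Equiv.swap u u' w) (fun y => ρ (Equiv.swap u u' y)) η := by
  have hne : (freshNbrs G x t).Nonempty := ⟨u, hu⟩
  have h1 : ∀ y ∈ freshNbrs G x t, Equiv.swap u u' y ∈ freshNbrs G x t := fun y hy => by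
    rw [Equiv.swap_apply_def]
    split_ifs <;> assumption
  obtain ⟨h2, h3⟩ := h.1 hne
  refine ⟨fun _ => ⟨h1 w h2, ?_⟩, fun h => absurd hne h⟩
  simp only [Equiv.swap_apply_self,
    Equiv.swap_apply_of_ne_of_ne (prev_ne le_rfl rfl hu) (prev_ne le_rfl rfl hu')]
  exact h3.imp_right fun h4 => ⟨fun y hy => h4.1 _ (h1 y hy), fun y hy => h4.2 _ (h1 y hy)⟩

open Classical in
theorem swap_step (hG : ∀ v, ∃ w, G.Adj v w) (o : V) (t : ℕ) (x : ℕ → V) {u u' : V}
    (hu : u ∈ nextSet G x t) (hu' : u' ∈ nextSet G x t) :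
    Pm G (cyl (Xm o) t x ∩ {ω | Nxt G ω x t u}) ≤ Pm G (cyl (Xm o) t x ∩ {ω | Nxt G ω x t u'}) := by
  have ha := adj_of_mem_nextSet G hu
  have ha' := adj_of_mem_nextSet G hu'
  let n := if (freshNbrs G x t).Nonempty then 0 else cnt G x t + 1
  have hp := preserving_update (fun i : ℕ × V => unif (Rk G i.2)) (n, x t)
    (unif_preserving (Rk.sw_sw ha ha'))
  rw [Pm, ← hp.measure_preimage
    ((measurableSet_cyl hG o t x).inter (measurableSet_nxt x t u')).nullMeasurableSet]
  refine measure_mono fun ω hω => ?_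
  obtain ⟨⟨h0, h1⟩, h2⟩ := And.intro ((mem_cyl hG o ω t x).1 hω.1) hω.2
  rw [mem_preimage]
  generalize hω' : Function.update ω (n, x t) (Rk.sw ha ha' (ω (n, x t))) = ω'
  have e1 : (ω' (n, x t)).1 = fun y => (ω (n, x t)).1 (Equiv.swap u u' y) := by
    rw [← hω', Function.update_self]
    rfl
  have e2 : ∀ j, j ≠ (n, x t) → ω' j = ω j := fun j hj => by
    rw [← hω', Function.update_of_ne hj]
  unfold nextSet at hu hu'
  by_cases hne : (freshNbrs G x t).Nonempty
  · rw [if_pos hne] at hu hu'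
    have hn : n = 0 := if_pos hne
    rw [hn] at e1 e2
    have key : ∀ s ≤ t, x s = x t → ∀ w, Nxt G ω x s w → Nxt G ω' x s (Equiv.swap u u' w) := by
      intro s hs hx w hw
      have h3 := nx_swap (fresh_anti hs hx hu) (fresh_anti hs hx hu') hw
      unfold Nxt
      rw [e2 (cnt G x s + 1, x s) (by simp), hx, e1]
      rw [hx] at h3
      exact h3
    refine ⟨(mem_cyl hG o _ t x).2 ⟨h0, fun s hs => ?_⟩, by simpa using key t le_rfl rfl u h2⟩
    by_cases hx : x s = x t
    · have h3 := key s hs.le hx _ (h1 s hs)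
      rwa [Equiv.swap_apply_of_ne_of_ne] at h3
      · exact fun e => ((mem_freshNbrs G).1 hu).2 s hs (by rw [hx, e])
      · exact fun e => ((mem_freshNbrs G).1 hu').2 s hs (by rw [hx, e])
    · unfold Nxt
      rw [e2 _ (by simp [hx]), e2 _ (by simp)]
      exact h1 s hs
  · have hn : n = cnt G x t + 1 := if_neg hne
    rw [hn] at e1 e2
    refine ⟨(mem_cyl hG o _ t x).2 ⟨h0, fun s hs => ?_⟩, fun h => absurd h hne, fun _ => ⟨ha', ?_⟩⟩
    · unfold Nxt
      rw [e2 _ (by simp)]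
      refine ⟨(h1 s hs).1, fun h => ?_⟩
      rw [e2 _ (by simp [(cnt_lt hs h).ne])]
      exact (h1 s hs).2 h
    · rw [e1]
      simpa using (h2.2 hne).2

theorem isGRW_Xm [Countable V] (hG : ∀ v, ∃ w, G.Adj v w) (o : V) : IsGRW G o (Pm G) (Xm o) := by
  classical
  refine ⟨inferInstance, fun t v => ?_, ?_, fun t x => ?_⟩
  · have h : {ω : Om G | Xm o t ω = v} =
        ⋃ a : {a : Fin (t + 1) → V // Lib.GRW.ext t a t = v}, cyl (Xm o) t (Lib.GRW.ext t a.1) := by
      ext ω
      simp only [mem_iUnion]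
      refine ⟨fun h => ⟨⟨fun i => Xm o i ω, by simpa [Lib.GRW.ext] using h⟩, fun s hs => ?_⟩,
        fun ⟨a, ha⟩ => (ha t le_rfl).trans a.2⟩
      simp [Lib.GRW.ext, min_eq_left hs]
    rw [h]
    exact .iUnion fun a => measurableSet_cyl hG o t _
  · have h : {ω : Om G | Xm o 0 ω = o} = univ := eq_univ_of_forall fun _ => rfl
    rw [h, measure_univ]
  · have h1 : {ω : Om G | ∀ s ≤ t + 1, Xm o s ω = x s} =
        cyl (Xm o) t x ∩ {ω | Nxt G ω x t (x (t + 1))} := by
      ext ω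
      rw [mem_inter_iff, mem_cyl hG]
      refine (mem_cyl hG o ω (t + 1) x).trans ?_
      simp only [Nat.forall_lt_succ_right, and_assoc, mem_ofPred_eq]
    rw [h1, stepProb_eq]
    split_ifs with h2
    · have h3 : cyl (Xm (G := G) o) t x =
          ⋃ u ∈ nextSet G x t, cyl (Xm o) t x ∩ {ω | Nxt G ω x t u} := by
        ext ω
        simp only [mem_iUnion, mem_inter_iff, mem_ofPred_eq]
        obtain ⟨w, hw⟩ := exists_nxt hG ω x t
        exact ⟨fun h => ⟨w, hw.mem, h, hw⟩, fun ⟨_, _, h, _⟩ => h⟩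
      have h4 : Pm G (cyl (Xm o) t x) = (nextSet G x t).card *
          Pm G (cyl (Xm o) t x ∩ {ω | Nxt G ω x t (x (t + 1))}) := by
        conv_lhs => rw [h3]
        rw [measure_biUnion_finset (fun u _ u' _ h => disjoint_left.2 fun ω h1 h2 =>
            h (h1.2.unique h2.2))
          (fun u _ => (measurableSet_cyl hG o t x).inter (measurableSet_nxt x t u)),
          Finset.sum_congr rfl fun u hu =>
            le_antisymm (swap_step hG o t x hu h2) (swap_step hG o t x h2 hu),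
          Finset.sum_const, nsmul_eq_mul]
      have h5 : ((nextSet G x t).card : ℝ≥0∞) ≠ 0 :=
        Nat.cast_ne_zero.2 (Finset.card_ne_zero.2 ⟨_, h2⟩)
      change _ = Pm G (cyl (Xm o) t x) * _
      rw [h4, mul_right_comm, ENNReal.mul_inv_cancel h5 (ENNReal.natCast_ne_top _), one_mul]
    · rw [mul_zero]
      exact measure_mono_null (fun ω hω => h2 hω.2.mem) measure_empty

end Pool.Agent.P3fb035
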