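import Pool.Agent.P.MP_3fb035_pr.EvB

/-! Even degrees: the walk follows loops of the pairing between the steps of a skeleton walk. -/

set_option autoImplicit false

open Set

namespace Pool.Agent.P3fb035

open Pool.Agent.Lib.GRW

variable {V : Type} {G : SimpleGraph V} [G.LocallyFinite]

/-- the partner of a neighbour -/
noncomputable def par {v : V} (r : Rk G v) (u : V) : V :=
  @Classical.epsilon V ⟨v⟩ fun w => G.Adj v w ∧ r.1 u + r.1 w + 1 = G.degree v

/-- the first neighbour -/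
noncomputable def hop {v : V} (r : Rk G v) : V :=
  @Classical.epsilon V ⟨v⟩ fun w => G.Adj v w ∧ r.1 w = 0

theorem par_spec {v u : V} (r : Rk G v) (h : G.Adj v u) :
    G.Adj v (par r u) ∧ r.1 u + r.1 (par r u) + 1 = G.degree v := by
  have h1 := r.lt u h
  obtain ⟨w, hw, h2⟩ := r.surj (i := G.degree v - 1 - r.1 u) (by omega)
  exact Classical.epsilon_spec (p := fun w => G.Adj v w ∧ r.1 u + r.1 w + 1 = G.degree v)
    ⟨w, hw, by omega⟩

theorem par_par {v u : V} (r : Rk G v) (h : G.Adj v u) : par r (par r u) = u := by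
  have h1 := par_spec r h
  have h2 := par_spec r h1.1
  exact r.inj _ _ h2.1 h (by omega)

theorem par_ne {v u : V} (hv : Even (G.degree v)) (r : Rk G v) (h : G.Adj v u) : par r u ≠ u := by
  intro e
  have h1 := (par_spec r h).2
  obtain ⟨k, hk⟩ := hv
  rw [e] at h1
  omega

theorem hop_spec (hG : ∀ v, ∃ w, G.Adj v w) {v : V} (r : Rk G v) :
    G.Adj v (hop r) ∧ r.1 (hop r) = 0 :=
  Classical.epsilon_spec (p := fun w => G.Adj v w ∧ r.1 w = 0)
    (r.surj ((G.degree_pos_iff_exists_adj _).2 (hG v)))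

/-- the skeleton walk -/
noncomputable def Ys (a : V) (ω : Om G) : ℕ → V
  | 0 => a
  | n + 1 => hop (ω (n + 1, Ys a ω n))

theorem Ys_realize : True := by have := @Ys.eq_def; trivial

/-- the trail that follows the pairing -/
noncomputable def orb (ω : Om G) (a b : V) : ℕ → V × V
  | 0 => (a, b)
  | k + 1 => ((orb ω a b k).2, par (ω (0, (orb ω a b k).2)) (orb ω a b k).1)

theorem orb_realize : True := by have := @orb.eq_def; trivial

/-- some trail of the pairing leaves every vertex -/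
def Ray (ω : Om G) : Prop := ∃ a b, G.Adj a b ∧ ∀ v, ∃ K, ∀ k ≥ K, (orb ω a b k).1 ≠ v

theorem orb_adj (ω : Om G) {a b : V} (h : G.Adj a b) (k : ℕ) :
    G.Adj (orb ω a b k).1 (orb ω a b k).2 := by
  induction k with
  | zero => exact h
  | succ k ih => exact (par_spec _ ih.symm).1

/-- the edge has been crossed before time `t` -/
def Used (x : ℕ → V) (t : ℕ) (v u : V) : Prop := ∃ s < t, s(x s, x (s + 1)) = s(v, u)

omit [G.LocallyFinite] in
theorem used_succ {x : ℕ → V} {t : ℕ} {v u : V} : Used x (t + 1) v u ↔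
    Used x t v u ∨ (v = x t ∧ u = x (t + 1)) ∨ (v = x (t + 1) ∧ u = x t) := by
  unfold Used
  rw [Nat.exists_lt_succ_right, Sym2.eq_iff, eq_comm (a := v), eq_comm (a := u), eq_comm (a := v),
    eq_comm (a := u), and_comm (a := x (t + 1) = v)]

theorem Used.symm {x : ℕ → V} {t : ℕ} {v u : V} (h : Used x t v u) : Used x t u v :=
  h.imp fun _ h => ⟨h.1, h.2.trans Sym2.eq_swap⟩

theorem mem_fresh {x : ℕ → V} {t : ℕ} {u : V} :
    u ∈ freshNbrs G x t ↔ G.Adj (x t) u ∧ ¬Used x t (x t) u := by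
  simp [mem_freshNbrs, Used]

/-- the crossed edges form complete loops -/
def Closed (ω : Om G) (x : ℕ → V) (t : ℕ) : Prop :=
  ∀ v u, G.Adj v u → Used x t v u → Used x t v (par (ω (0, v)) u)

/-- the walk is inside a loop that started at `a` -/
def Open (ω : Om G) (x : ℕ → V) (t : ℕ) (a : V) : Prop :=
  G.Adj (x t) (x (t - 1)) ∧ Used x t (x t) (x (t - 1)) ∧
    ¬Used x t (x t) (par (ω (0, x t)) (x (t - 1))) ∧
    ∃ f, ∀ v u, G.Adj v u → Used x t v u → ¬Used x t v (par (ω (0, v)) u) →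
      (v = x t ∧ u = x (t - 1)) ∨ (v = a ∧ u = f)

variable {ω : Om G} {x : ℕ → V} {t : ℕ} {a o : V}

theorem Open.fresh (h : Open ω x t a) : (freshNbrs G x t).Nonempty :=
  ⟨_, mem_fresh.2 ⟨(par_spec _ h.1).1, h.2.2.1⟩⟩

theorem Open.step (h : Open ω x t a) {w : V} (hw : Nxt G ω x t w) :
    w = par (ω (0, x t)) (x (t - 1)) :=
  hw.unique ⟨fun _ => ⟨mem_fresh.2 ⟨(par_spec _ h.1).1, h.2.2.1⟩, Or.inl (par_spec _ h.1).2⟩,
    fun h1 => absurd h.fresh h1⟩

theorem cnt_fresh (h : (freshNbrs G x t).Nonempty) : cnt G x (t + 1) = cnt G x t := by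
  rw [cnt, if_pos h, add_zero]

theorem cnt_free (h : ¬(freshNbrs G x t).Nonempty) : cnt G x (t + 1) = cnt G x t + 1 := by
  rw [cnt, if_neg h]

theorem inv (hG : ∀ v, ∃ w, G.Adj v w) (he : ∀ v, Even (G.degree v)) (h0 : x 0 = o)
    (hx : ∀ t, Nxt G ω x t (x (t + 1))) (t : ℕ) :
    (Closed ω x t ∧ x t = Ys o ω (cnt G x t)) ∨ Open ω x t (Ys o ω (cnt G x t)) := by
  induction t with
  | zero => exact Or.inl ⟨fun _ _ _ h => absurd h (by simp [Used]), h0⟩
  | succ t ih =>
    have hadj : G.Adj (x t) (x (t + 1)) := adj_of_mem_nextSet G (hx t).mem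
    have hnew : Used x (t + 1) (x (t + 1)) (x t) := used_succ.2 (Or.inr (Or.inr ⟨rfl, rfl⟩))
    have hne := par_ne (he _) (ω (0, x (t + 1))) hadj.symm
    have hpa := (par_spec (ω (0, x (t + 1))) hadj.symm).1
    have hpp := par_par (ω (0, x (t + 1))) hadj.symm
    rcases ih with ⟨hc, ha⟩ | ho
    · by_cases hf : (freshNbrs G x t).Nonempty
      · have h1 := (mem_fresh.1 ((hx t).1 hf).1).2
        rw [cnt_fresh hf, ← ha]
        refine Or.inr ⟨hadj.symm, hnew, fun h => ?_, x (t + 1), fun v u hvu h h' => ?_⟩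
        · rcases used_succ.1 h with h | h | h
          · exact h1 (hpp ▸ hc (x (t + 1)) _ hpa h).symm
          · exact hadj.ne' h.1
          · exact hne h.2
        · rcases used_succ.1 h with h | h | h
          · exact absurd (used_succ.2 (Or.inl (hc v u hvu h))) h'
          · exact Or.inr h
          · exact Or.inl h
      · have h1 : Used x t (x t) (x (t + 1)) := by
          by_contra h
          exact hf ⟨_, mem_fresh.2 ⟨hadj, h⟩⟩
        refine Or.inl ⟨fun v u hvu h => used_succ.2 (Or.inl (hc v u hvu ?_)), ?_⟩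
        · rcases used_succ.1 h with h | ⟨rfl, rfl⟩ | ⟨rfl, rfl⟩
          exacts [h, h1, h1.symm]
        · rw [cnt_free hf, Ys, ← ha]
          have h2 := hop_spec hG (ω (cnt G x t + 1, x t))
          exact (hx t).unique ⟨fun h => absurd h hf, fun _ => h2⟩
    · have h1 := ho.step (hx t)
      obtain ⟨h2, h3, h4, f, h5⟩ := id ho
      rw [← h1] at h4
      rw [cnt_fresh ho.fresh]
      have h6 : ∀ v u, G.Adj v u → Used x (t + 1) v u → ¬Used x (t + 1) v (par (ω (0, v)) u) →
          (v = x (t + 1) ∧ u = x t) ∨ (v = Ys o ω (cnt G x t) ∧ u = f) := by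
        intro v u hvu h h'
        rcases used_succ.1 h with h | ⟨rfl, rfl⟩ | h
        · rcases h5 v u hvu h fun h7 => h' (used_succ.2 (Or.inl h7)) with ⟨rfl, rfl⟩ | h7
          · exact absurd (used_succ.2 (Or.inr (Or.inl ⟨rfl, h1.symm⟩))) h'
          · exact Or.inr h7
        · rw [h1, par_par _ h2] at h'
          exact absurd (used_succ.2 (Or.inl h3)) h'
        · exact Or.inl h
      by_cases h7 : Used x (t + 1) (x (t + 1)) (par (ω (0, x (t + 1))) (x t))
      · have h8 : x (t + 1) = Ys o ω (cnt G x t) ∧ par (ω (0, x (t + 1))) (x t) = f := by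
          rcases used_succ.1 h7 with h | h | h
          · exact (h5 _ _ hpa h (by rw [hpp]; exact fun h => h4 h.symm)).resolve_left
              fun h => hadj.ne' h.1
          · exact absurd h.1 hadj.ne'
          · exact absurd h.2 hne
        refine Or.inl ⟨fun v u hvu h => ?_, h8.1⟩
        by_contra h'
        rcases h6 v u hvu h h' with ⟨rfl, rfl⟩ | ⟨h9, rfl⟩
        · exact h' h7
        · rw [← h8.1] at h9
          subst h9
          rw [← h8.2, hpp] at h'
          exact h' hnew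
      · exact Or.inr ⟨hadj.symm, hnew, h7, f, h6⟩

theorem finite_fresh (hx : ∀ t, Nxt G ω x t (x (t + 1))) (v : V) :
    ∃ K, ∀ t ≥ K, x t = v → ¬(freshNbrs G x t).Nonempty := by
  have h : {t | x t = v ∧ (freshNbrs G x t).Nonempty}.Finite := by
    refine Finite.of_finite_image (f := fun t => x (t + 1))
      ((G.neighborFinset v).finite_toSet.subset ?_) fun s hs t ht e => ?_
    · rintro _ ⟨t, ht, rfl⟩
      simpa [ht.1] using adj_of_mem_nextSet G (hx t).mem
    · by_contra hne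
      wlog hlt : s < t generalizing s t
      · exact this t ht s hs e.symm (Ne.symm hne) (by omega)
      exact (mem_fresh.1 ((hx t).1 ht.2).1).2 ⟨s, hlt, by rw [hs.1, ht.1, show x (s + 1) = _ from e]⟩
  obtain ⟨K, hK⟩ := h.bddAbove
  exact ⟨K + 1, fun t ht h1 h2 => by have := hK ⟨h1, h2⟩; omega⟩

section
variable (hG : ∀ v, ∃ w, G.Adj v w) (he : ∀ v, Even (G.degree v)) (h0 : x 0 = o)
  (hx : ∀ t, Nxt G ω x t (x (t + 1)))
include hG he h0 hx

theorem free_spec (hf : ¬(freshNbrs G x t).Nonempty) :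
    Closed ω x t ∧ x t = Ys o ω (cnt G x t) :=
  (inv hG he h0 hx t).resolve_right fun h => hf h.fresh

theorem free_unbounded (hR : ¬Ray ω) (T : ℕ) : ∃ t ≥ T, ¬(freshNbrs G x t).Nonempty := by
  by_contra h
  have h1 : ∀ t ≥ T, (freshNbrs G x t).Nonempty := fun t ht => by_contra fun h' => h ⟨t, ht, h'⟩
  have h2 : ∀ v, ∃ K, ∀ t ≥ K, x t ≠ v := fun v => by
    obtain ⟨K, hK⟩ := finite_fresh hx v
    exact ⟨max K T, fun t ht e => hK t (le_of_max_le_left ht) e (h1 t (le_of_max_le_right ht))⟩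
  have h3 : ∀ t ≥ T, cnt G x t = cnt G x T := fun t ht => by
    induction t, ht using Nat.le_induction with
    | base => rfl
    | succ t ht ih => rw [cnt_fresh (h1 t ht), ih]
  obtain ⟨K, hK⟩ := h2 (Ys o ω (cnt G x T))
  have h4 : ∀ k, orb ω (x (K + T)) (x (K + T + 1)) k = (x (K + T + k), x (K + T + k + 1)) := by
    intro k
    induction k with
    | zero => rfl
    | succ k ih =>
      have h5 := (inv hG he h0 hx (K + T + k + 1)).resolve_left fun h =>
        hK _ (by omega) (h.2.trans (by rw [h3 _ (by omega)]))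
      rw [orb, ih]
      exact Prod.ext rfl (h5.step (hx _)).symm
  refine hR ⟨_, _, adj_of_mem_nextSet G (hx (K + T)).mem, fun v => ?_⟩
  obtain ⟨L, hL⟩ := h2 v
  exact ⟨L, fun k hk => by rw [h4]; exact hL _ (by omega)⟩

omit hG he h0 hx in
theorem exists_free (h : ∀ T, ∃ t ≥ T, ¬(freshNbrs G x t).Nonempty) (n : ℕ) :
    ∃ t, ¬(freshNbrs G x t).Nonempty ∧ cnt G x t = n := by
  classical
  have h1 : ∀ n, ∃ t, n < cnt G x (t + 1) := fun n => by
    induction n with
    | zero =>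
      obtain ⟨t, -, ht⟩ := h 0
      exact ⟨t, by rw [cnt_free ht]; omega⟩
    | succ n ih =>
      obtain ⟨s, hs⟩ := ih
      obtain ⟨t, h2, ht⟩ := h (s + 1)
      have := cnt_mono (G := G) x h2
      exact ⟨t, by rw [cnt_free ht]; omega⟩
  have h2 := Nat.find_spec (h1 n)
  have h3 : cnt G x (Nat.find (h1 n)) ≤ n := by
    rcases h4 : Nat.find (h1 n) with _ | s
    · exact Nat.zero_le n
    · exact not_lt.1 (Nat.find_min (h1 n) (by omega))
  have h4 : ¬(freshNbrs G x (Nat.find (h1 n))).Nonempty := fun h => by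
    rw [cnt_fresh h] at h2
    omega
  exact ⟨_, h4, by rw [cnt_free h4] at h2; omega⟩

theorem often_of_skeleton (hR : ¬Ray ω) (hS : ∀ N, ∃ n ≥ N, Ys o ω n = o) (T : ℕ) :
    ∃ t ≥ T, x t = o := by
  obtain ⟨n, hn, h1⟩ := hS (cnt G x T + 1)
  obtain ⟨t, h2, h3⟩ := exists_free (free_unbounded hG he h0 hx hR) n
  refine ⟨t, not_lt.1 fun h => ?_, by rw [(free_spec hG he h0 hx h2).2, h3, h1]⟩
  have := cnt_mono (G := G) x h.le
  omega

omit hG he h0 in
theorem free_of_often (hA : ∀ T, ∃ t ≥ T, x t = o) (T : ℕ) :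
    ∃ t ≥ T, x t = o ∧ ¬(freshNbrs G x t).Nonempty := by
  obtain ⟨K, hK⟩ := finite_fresh hx o
  obtain ⟨t, ht, h⟩ := hA (max K T)
  exact ⟨t, le_of_max_le_right ht, h, hK t (le_of_max_le_left ht) h⟩

theorem skeleton_of_often (hA : ∀ T, ∃ t ≥ T, x t = o) (N : ℕ) : ∃ n ≥ N, Ys o ω n = o := by
  obtain ⟨s, -, hs⟩ := exists_free
    (fun T => (free_of_often hx hA T).imp fun _ h => ⟨h.1, h.2.2⟩) N
  obtain ⟨t, h1, h2, h3⟩ := free_of_often hx hA s
  exact ⟨cnt G x t, hs ▸ cnt_mono x h1, (free_spec hG he h0 hx h3).2.symm.trans h2⟩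

theorem not_ray (hA : ∀ T, ∃ t ≥ T, x t = o) (hV : ∀ v, ∃ n, Ys o ω n = v) : ¬Ray ω := by
  rintro ⟨a, b, hab, h⟩
  obtain ⟨n, hn⟩ := hV a
  obtain ⟨t, h1, h2⟩ := exists_free
    (fun T => (free_of_often hx hA T).imp fun _ h => ⟨h.1, h.2.2⟩) n
  obtain ⟨h3, h4⟩ := free_spec hG he h0 hx h1
  rw [h2, hn] at h4
  have h5 : ∀ k, Used x t (orb ω a b k).1 (orb ω a b k).2 := fun k => by
    induction k with
    | zero =>
      by_contra h6
      exact h1 ⟨b, mem_fresh.2 (by rw [h4]; exact ⟨hab, h6⟩)⟩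
    | succ k ih => exact h3 _ _ (orb_adj ω hab k).symm ih.symm
  choose K hK using h
  obtain ⟨s, hs, h6⟩ := h5 ((Finset.range (t + 1)).sup fun s => K (x s))
  rcases Sym2.eq_iff.1 h6 with h7 | h7
  · exact hK (x s) _ (Finset.le_sup (f := fun s => K (x s)) (Finset.mem_range.2 (by omega)))
      h7.1.symm
  · exact hK (x (s + 1)) _ (Finset.le_sup (f := fun s => K (x s)) (Finset.mem_range.2 (by omega)))
      h7.2.symm

theorem escape {f : V} (hf : G.Adj o f) (hr : (ω (0, o)).1 f = 0)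
    (hz : ∀ k ≥ 1, (orb ω o f k).1 ≠ o) : ∀ t ≥ 1, x t ≠ o := by
  have h : ∀ k, orb ω o f k = (x k, x (k + 1)) ∧ cnt G x (k + 1) = 0 := fun k => by
    induction k with
    | zero =>
      subst h0
      have h1 : f ∈ freshNbrs G x 0 := mem_fresh.2 ⟨hf, by simp [Used]⟩
      obtain ⟨h2, h3⟩ := (hx 0).1 ⟨f, h1⟩
      refine ⟨Prod.ext rfl ((ω (0, x 0)).inj f (x (0 + 1)) hf (mem_fresh.1 h2).1 ?_),
        cnt_fresh ⟨f, h1⟩⟩
      rcases h3 with h3 | h3
      · have h4 : (ω (0, x 0)).1 (x (0 - 1)) = G.degree (x 0) := (ω (0, x 0)).out _ G.irrefl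
        omega
      · have := h3.2 f h1
        omega
    | succ k ih =>
      have h1 := (inv hG he h0 hx (k + 1)).resolve_left fun h =>
        hz (k + 1) (by omega) (by rw [orb, ih.1]; exact h.2.trans (by rw [ih.2]; rfl))
      refine ⟨?_, (cnt_fresh h1.fresh).trans ih.2⟩
      rw [orb, ih.1]
      exact Prod.ext rfl (h1.step (hx _)).symm
  exact fun t ht e => hz t ht (by rw [(h t).1]; exact e)

end

end Pool.Agent.P3fb035
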