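import Pool.Agent.P.MP_3fb035_pr.EvC

/-! The skeleton is a simple random walk; renewal arguments. -/

set_option autoImplicit false

open MeasureTheory ProbabilityTheory Set
open scoped ENNReal

namespace Pool.Agent.P3fb035

open Pool.Agent.Lib.GRW

variable {V : Type} {G : SimpleGraph V} [G.LocallyFinite] [Countable V] [MeasurableSpace V]
  [DiscreteMeasurableSpace V]

theorem meas_dep {Ω α β : Type} [MeasurableSpace Ω] [MeasurableSpace α] [MeasurableSpace β]
    [Countable α] [MeasurableSingletonClass α] {f : Ω → α} {g : α → Ω → β} (hf : Measurable f)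
    (hg : ∀ a, Measurable (g a)) : Measurable fun ω => g (f ω) ω :=
  (measurable_from_prod_countable_right (f := fun p : α × Ω => g p.1 p.2) hg).comp
    (hf.prodMk measurable_id)

theorem meas_Ys (a : V) : Measurable (Ys (G := G) a) := by
  refine measurable_pi_lambda _ fun n => ?_
  induction n with
  | zero => exact measurable_const
  | succ n ih =>
    exact meas_dep (g := fun v (ω : Om G) => hop (ω (n + 1, v))) ih fun v =>
      (Measurable.of_discrete (f := fun r : Rk G v => hop r)).comp (measurable_pi_apply (n + 1, v))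

theorem meas_orb (a b : V) (k : ℕ) : Measurable fun ω : Om G => orb ω a b k := by
  induction k with
  | zero => exact measurable_const
  | succ k ih =>
    exact meas_dep (g := fun (p : V × V) (ω : Om G) => (p.2, par (ω (0, p.2)) p.1)) ih fun p =>
      (Measurable.of_discrete (f := fun r : Rk G p.2 => (p.2, par r p.1))).comp
        (measurable_pi_apply (0, p.2))

/-- shift of the levels -/
def sh (n : ℕ) (ω : Om G) : Om G := fun i => ω (n + i.1, i.2)

omit [Countable V] [MeasurableSpace V] [DiscreteMeasurableSpace V] in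
theorem sh_preserving (n : ℕ) : MeasurePreserving (sh (G := G) n) (Pm G) (Pm G) :=
  ⟨measurable_pi_lambda _ fun i => measurable_pi_apply (n + i.1, i.2),
    Measure.map_infinitePi_infinitePi_of_inj (P := fun i : ℕ × V => unif (Rk G i.2))
      (f := fun i : ℕ × V => (n + i.1, i.2)) fun i j h => by
        simp only [Prod.mk.injEq, add_right_inj] at h
        exact Prod.ext h.1 h.2⟩

omit [Countable V] [MeasurableSpace V] [DiscreteMeasurableSpace V] in
theorem Ys_add (a : V) (ω : Om G) (n m : ℕ) : Ys a ω (n + m) = Ys (Ys a ω n) (sh n ω) m := by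
  induction m with
  | zero => rfl
  | succ m ih =>
    change hop (ω (n + m + 1, Ys a ω (n + m))) = _
    rw [ih]
    rfl

omit [Countable V] [MeasurableSpace V] [DiscreteMeasurableSpace V] in
theorem Ys_congr (a : V) {ω ω' : Om G} {n : ℕ} (h : ∀ i : ℕ × V, 0 < i.1 → i.1 ≤ n → ω i = ω' i) :
    ∀ m ≤ n, Ys a ω m = Ys a ω' m := by
  intro m hm
  induction m with
  | zero => rfl
  | succ m ih => rw [Ys, Ys, ih (by omega), h _ (Nat.succ_pos m) hm]

/-- the Markov property -/
theorem markov (a b : V) (n : ℕ) {D₀ D : Set (ℕ → V)} (h₀ : MeasurableSet D₀) (hD : MeasurableSet D)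
    (hd : ∀ y z : ℕ → V, (∀ m ≤ n, y m = z m) → y ∈ D₀ → z ∈ D₀) (hb : ∀ y ∈ D₀, y n = b) :
    Pm G {ω | Ys a ω ∈ D₀ ∧ (fun m => Ys a ω (n + m)) ∈ D} =
      Pm G (Ys a ⁻¹' D₀) * Pm G (Ys b ⁻¹' D) := by
  have h1 : {ω : Om G | Ys a ω ∈ D₀ ∧ (fun m => Ys a ω (n + m)) ∈ D} =
      Ys a ⁻¹' D₀ ∩ sh n ⁻¹' (Ys b ⁻¹' D) := by
    ext ω
    refine and_congr_right fun h => ?_
    simp only [Ys_add, hb _ h, mem_preimage]
  rw [h1, ← (sh_preserving n).measure_preimage (meas_Ys b hD).nullMeasurableSet]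
  refine dep_inter _ (T := {i : ℕ × V | i.1 ≤ n}) (T' := {i : ℕ × V | n < i.1})
    (disjoint_left.2 fun i (h : i.1 ≤ n) (h' : n < i.1) => absurd h' (not_lt.2 h))
    (fun ω ω' h => hd _ _ (Ys_congr a fun i _ hi => h i hi)) (fun ω ω' h hω => ?_) (meas_Ys a h₀)
    ((sh_preserving n).measurable (meas_Ys b hD))
  have h2 : Ys b (sh n ω) = Ys b (sh n ω') := funext fun m =>
    Ys_congr b (n := m) (fun i hi _ => h (n + i.1, i.2) (Nat.lt_add_of_pos_right hi)) m le_rfl
  simpa only [mem_preimage, h2] using hω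

omit [Countable V] [MeasurableSpace V] [DiscreteMeasurableSpace V] in
theorem unif_first {v w : V} (h : G.Adj v w) :
    unif (Rk G v) {r | r.1 w = 0} = (G.degree v : ℝ≥0∞)⁻¹ := by
  classical
  have h1 : ∀ u ∈ G.neighborFinset v,
      unif (Rk G v) ({r | r.1 u = 0}) = unif (Rk G v) {r | r.1 w = 0} := fun u hu => by
    rw [← (unif_preserving (Rk.sw_sw h ((G.mem_neighborFinset _ _).1 hu))).measure_preimage
      MeasurableSet.of_discrete.nullMeasurableSet]
    congr 1
    ext r
    simp [Rk.sw]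
  have h2 : (univ : Set (Rk G v)) = ⋃ u ∈ G.neighborFinset v, {r | r.1 u = 0} := by
    ext r
    simpa using r.surj h.degree_pos_left
  have h3 := measure_univ (μ := unif (Rk G v))
  rw [h2, measure_biUnion_finset (fun u hu u' hu' hne => disjoint_left.2 fun r e e' =>
      hne (r.inj _ _ (by simpa using hu) (by simpa using hu') (e.trans e'.symm)))
    (fun _ _ => MeasurableSet.of_discrete), Finset.sum_congr rfl h1, Finset.sum_const,
    nsmul_eq_mul, G.card_neighborFinset_eq_degree] at h3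
  exact ENNReal.eq_inv_of_mul_eq_one_left (by rwa [mul_comm])

omit [Countable V] [MeasurableSpace V] [DiscreteMeasurableSpace V] in
theorem Pm_coord (i : ℕ × V) (s : Set (Rk G i.2)) : Pm G {ω | ω i ∈ s} = unif (Rk G i.2) s :=
  (measurePreserving_eval_infinitePi (fun i : ℕ × V => unif (Rk G i.2)) i).measure_preimage
    MeasurableSet.of_discrete.nullMeasurableSet

open Classical in
omit [Countable V] [MeasurableSpace V] [DiscreteMeasurableSpace V] in
theorem Ys_one (hG : ∀ v, ∃ w, G.Adj v w) (v w : V) :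
    Pm G (Ys v ⁻¹' {y | y 1 = w}) = if G.Adj v w then (G.degree v : ℝ≥0∞)⁻¹ else 0 := by
  split_ifs with h
  · rw [← unif_first h, ← Pm_coord (1, v)]
    congr 1
    ext ω
    have h1 := hop_spec hG (ω (1, v))
    exact ⟨fun e => (show hop (ω (1, v)) = w from e) ▸ h1.2,
      fun e => (ω (1, v)).inj _ _ h1.1 h (h1.2.trans (Eq.symm e))⟩
  · refine measure_mono_null (fun ω e => h ?_) measure_empty
    exact (show hop (ω (1, v)) = w from e) ▸ (hop_spec hG (ω (1, v))).1

omit [Countable V] in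
theorem meas_eq (n : ℕ) (a : V) : Measurable fun y : ℕ → V => y n = a :=
  (Measurable.of_discrete (f := fun v : V => v = a)).comp (measurable_pi_apply n)

open Classical in
theorem isWalk_Ys (hG : ∀ v, ∃ w, G.Adj v w) (o : V) :
    IsWalk (fun x t w => if G.Adj (x t) w then (G.degree (x t) : ℝ≥0∞)⁻¹ else 0) o (Pm G)
      fun t ω => Ys o ω t := by
  refine ⟨inferInstance, fun t v => meas_Ys o (measurableSet_setOfPred.2 (meas_eq t v)), ?_,
    fun t x => ?_⟩
  · have h : {ω : Om G | Ys o ω 0 = o} = univ := eq_univ_of_forall fun _ => rfl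
    rw [h, measure_univ]
  · have h := markov (G := G) o (x t) t (D₀ := {y | ∀ s ≤ t, y s = x s})
      (D := {y | y 1 = x (t + 1)})
      (measurableSet_setOfPred.2 (.forall fun s => measurable_const.imp (meas_eq s _)))
      (measurableSet_setOfPred.2 (meas_eq 1 _))
      (fun y z e hy s hs => (e s hs).symm.trans (hy s hs)) fun y hy => hy t le_rfl
    rw [Ys_one hG] at h
    refine Eq.trans ?_ h
    congr 1
    ext ω
    exact ⟨fun e => ⟨fun s hs => e s (by omega), e _ le_rfl⟩, fun e s hs =>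
      (Nat.lt_or_eq_of_le hs).elim (fun h => e.1 s (by omega)) fun h => h ▸ e.2⟩

/-- paths that never come back -/
def Nv (a : V) : Set (ℕ → V) := {y | ∀ m, 1 ≤ m → y m ≠ a}

/-- paths that come back infinitely often -/
def Of (a : V) : Set (ℕ → V) := {y | ∀ N, ∃ n ≥ N, y n = a}

omit [Countable V] in
theorem meas_Nv (a : V) : MeasurableSet (Nv a) :=
  measurableSet_setOfPred.2 (.forall fun m => measurable_const.imp (meas_eq m a).not)

omit [Countable V] in
theorem meas_Of (a : V) : MeasurableSet (Of a) :=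
  measurableSet_setOfPred.2 (.forall fun _ => .exists fun n => measurable_const.and (meas_eq n a))

theorem markov' (a b : V) (n : ℕ) {D : Set (ℕ → V)} (hD : MeasurableSet D) :
    Pm G {ω | Ys a ω n = b ∧ (fun m => Ys a ω (n + m)) ∈ D} =
      Pm G {ω | Ys a ω n = b} * Pm G (Ys b ⁻¹' D) :=
  markov a b n (D₀ := {y | y n = b}) (measurableSet_setOfPred.2 (meas_eq n b)) hD
    (fun _ _ e hy => (e n le_rfl).symm.trans hy) fun _ hy => hy

theorem often_of_never (a : V) (h : Pm G (Ys a ⁻¹' Nv a) = 0) : Pm G (Ys a ⁻¹' (Of a)ᶜ) = 0 := by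
  classical
  refine measure_mono_null (t := ⋃ n, {ω | Ys a ω n = a ∧ (fun m => Ys a ω (n + m)) ∈ Nv a})
    (fun ω hω => ?_) (measure_iUnion_null fun n => by rw [markov' a a n (meas_Nv a), h, mul_zero])
  obtain ⟨N, hN⟩ := not_forall.1 hω
  have h1 : Ys a ω (Nat.findGreatest (fun n => Ys a ω n = a) N) = a :=
    Nat.findGreatest_spec (P := fun n => Ys a ω n = a) (Nat.zero_le N) rfl
  refine mem_iUnion.2 ⟨_, h1, fun m hm e => ?_⟩
  have h2 := Nat.le_findGreatest (P := fun n => Ys a ω n = a)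
    (not_lt.1 fun h => hN ⟨_, h.le, e⟩) e
  omega

theorem seldom_of_never (a : V) (h : Pm G (Ys a ⁻¹' Nv a) ≠ 0) : Pm G (Ys a ⁻¹' Of a) = 0 := by
  have h1 : ∑' n, Pm G {ω | Ys a ω n = a ∧ (fun m => Ys a ω (n + m)) ∈ Nv a} ≠ ∞ := by
    rw [← measure_iUnion]
    · exact measure_ne_top _ _
    · intro n n' hne
      refine disjoint_left.2 fun ω h h' => ?_
      rcases lt_or_gt_of_ne hne with e | e
      · exact h.2 (n' - n) (by omega) ((congrArg (Ys a ω) (by omega)).trans h'.1)
      · exact h'.2 (n - n') (by omega) ((congrArg (Ys a ω) (by omega)).trans h.1)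
    · exact fun n => (meas_Ys a (measurableSet_setOfPred.2 (meas_eq n a))).inter
        ((measurable_pi_lambda _ fun m => (measurable_pi_apply (n + m)).comp (meas_Ys a))
          (meas_Nv a))
  simp only [markov' a a _ (meas_Nv a), ENNReal.tsum_mul_right] at h1
  have h2 := measure_setOfPred_frequently_eq_zero (μ := Pm G) (p := fun n ω => Ys a ω n = a)
    fun e => h1 (by rw [e, ENNReal.top_mul h])
  simp only [Filter.frequently_atTop] at h2
  exact h2

theorem often_avoid (hG : ∀ v, ∃ w, G.Adj v w) {v w : V} (h : G.Adj v w) :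
    Pm G (Ys v ⁻¹' (Of v ∩ {y | ∀ m, y m ≠ w})) = 0 := by
  classical
  set D := Of v ∩ {y : ℕ → V | ∀ m, y m ≠ w} with hD
  have hm : MeasurableSet D :=
    (meas_Of v).inter (measurableSet_setOfPred.2 (.forall fun m => (meas_eq m w).not))
  let F : ℕ → Set (ℕ → V) := fun n =>
    {y | y (n + 1) = v ∧ (∀ m < n, y (m + 1) ≠ v) ∧ y 1 ≠ w}
  have hF : ∀ n, MeasurableSet (F n) := fun n => measurableSet_setOfPred.2
    ((meas_eq _ v).and ((Measurable.forall fun m => measurable_const.imp (meas_eq _ v).not).and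
      (meas_eq 1 w).not))
  have h1 : Ys (G := G) v ⁻¹' D ⊆
      ⋃ n, {ω | Ys v ω ∈ F n ∧ (fun m => Ys v ω (n + 1 + m)) ∈ D} := by
    intro ω hω
    have h2 : ∃ n, Ys v ω (n + 1) = v := by
      obtain ⟨n, hn, e⟩ := hω.1 1
      exact ⟨n - 1, by rwa [Nat.sub_add_cancel hn]⟩
    refine mem_iUnion.2 ⟨Nat.find h2, ⟨Nat.find_spec h2, fun m hm => Nat.find_min h2 hm, hω.2 1⟩,
      fun N => ?_, fun m => hω.2 _⟩
    obtain ⟨n, hn, e⟩ := hω.1 (Nat.find h2 + 1 + N)
    exact ⟨n - (Nat.find h2 + 1), by omega, (congrArg (Ys v ω) (by omega)).trans e⟩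
  have h3 : ∑' n, Pm G (Ys v ⁻¹' F n) ≤ Pm G (Ys v ⁻¹' {y | y 1 = w})ᶜ := by
    rw [← measure_iUnion (fun n n' hne => disjoint_left.2 fun ω e e' => ?_)
      fun n => meas_Ys v (hF n)]
    · exact measure_mono (iUnion_subset fun n ω e => e.2.2)
    · rcases lt_or_gt_of_ne hne with h | h
      · exact e'.2.1 n h e.1
      · exact e.2.1 n' h e'.1
  have h4 : Pm G (Ys v ⁻¹' {y | y 1 = w})ᶜ < 1 := by
    rw [prob_compl_eq_one_sub (meas_Ys v (measurableSet_setOfPred.2 (meas_eq 1 w))), Ys_one hG,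
      if_pos h]
    exact ENNReal.sub_lt_self ENNReal.one_ne_top one_ne_zero (by simp)
  have h5 := (measure_mono (μ := Pm G) h1).trans (measure_iUnion_le _)
  have h6 : ∀ n, Pm G {ω | Ys v ω ∈ F n ∧ (fun m => Ys v ω (n + 1 + m)) ∈ D} =
      Pm G (Ys v ⁻¹' F n) * Pm G (Ys v ⁻¹' D) := fun n =>
    markov v v (n + 1) (hF n) hm (fun y z e hy => ⟨e _ le_rfl ▸ hy.1,
      fun m hm => e (m + 1) (by omega) ▸ hy.2.1 m hm, e 1 (by omega) ▸ hy.2.2⟩) fun _ hy => hy.1
  simp only [h6, ENNReal.tsum_mul_right] at h5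
  by_contra h7
  have h8 := ENNReal.mul_lt_mul_left h7 (measure_ne_top (Pm G) (Ys v ⁻¹' D)) (h3.trans_lt h4)
  rw [one_mul] at h8
  exact absurd h5 (not_le.2 h8)

theorem ae_visit (hG : ∀ v, ∃ w, G.Adj v w) (hc : G.Preconnected) (o : V) :
    ∀ᵐ ω ∂Pm G, Ys o ω ∈ Of o → ∀ v, ∃ n, Ys o ω n = v := by
  have h1 : ∀ᵐ ω ∂Pm G, ∀ v w n, G.Adj v w →
      ¬(Ys o ω n = v ∧ (fun m => Ys o ω (n + m)) ∈ Of v ∩ {y | ∀ m, y m ≠ w}) := by
    simp only [ae_all_iff]
    intro v w n h
    rw [ae_iff]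
    simp only [not_not]
    rw [markov' o v n ((meas_Of v).inter
      (measurableSet_setOfPred.2 (.forall fun m => (meas_eq m w).not))), often_avoid hG h, mul_zero]
  filter_upwards [h1] with ω hω h0 v
  have h2 : ∀ u w, G.Adj u w → Ys o ω ∈ Of u → Ys o ω ∈ Of w := by
    intro u w h hu N
    obtain ⟨n, hn, e⟩ := hu N
    by_contra h3
    refine hω u w n h ⟨e, fun M => ?_, fun m e' => h3 ⟨n + m, by omega, e'⟩⟩
    obtain ⟨k, hk, e'⟩ := hu (n + M)
    exact ⟨k - n, by omega, (congrArg (Ys o ω) (by omega)).trans e'⟩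
  have h3 : ∀ u w, G.Walk u w → Ys o ω ∈ Of u → Ys o ω ∈ Of w := by
    intro u w p
    induction p with
    | nil => exact id
    | cons h _ ih => exact fun hu => ih (h2 _ _ h hu)
  obtain ⟨p⟩ := hc o v
  exact (h3 o v p h0 0).imp fun _ h => h.2

end Pool.Agent.P3fb035
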