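import Pool.Agent.P.MP_3fb035_pr.EvD
import Pool.Agent.Lib.GRW.Exist

/-! Zero-one law for infinitely many returns on graphs with even degrees. -/

set_option autoImplicit false

open MeasureTheory ProbabilityTheory Set
open scoped ENNReal

namespace Pool.Agent.P3fb035

open Pool.Agent.Lib.GRW

variable {V : Type} {G : SimpleGraph V} [G.LocallyFinite]

theorem countable_of_connected (hc : G.Connected) : Countable V := by
  obtain ⟨o⟩ := hc.nonempty
  let S : ℕ → Set V := fun n => Nat.rec {o} (fun _ s => ⋃ v ∈ s, G.neighborSet v) n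
  have h1 : ∀ n, (S n).Finite := fun n => by
    induction n with
    | zero => exact finite_singleton o
    | succ n ih => exact ih.biUnion fun v _ => toFinite _
  have h2 : ∀ (v w : V) (p : G.Walk v w), w = o → v ∈ S p.length := fun v w p => by
    induction p with
    | nil => exact id
    | cons h _ ih => exact fun e => mem_biUnion (ih e) h.symm
  refine countable_univ_iff.1 ((countable_iUnion fun n => (h1 n).countable).mono fun v _ => ?_)
  obtain ⟨p⟩ := hc v o
  exact mem_iUnion.2 ⟨_, h2 v o p rfl⟩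

omit [G.LocallyFinite] in
theorem exists_adj [Infinite V] (hc : G.Connected) (v : V) : ∃ w, G.Adj v w :=
  hc.preconnected.exists_adj_of_nontrivial v

theorem orb_add (ω : Om G) (a b : V) (K k : ℕ) :
    orb ω (orb ω a b K).1 (orb ω a b K).2 k = orb ω a b (K + k) := by
  induction k with
  | zero => rfl
  | succ k ih => rw [orb, ih]; rfl

theorem orb_congr {ω ω' : Om G} {a b : V}
    (h : ∀ k, ω (0, (orb ω a b (k + 1)).1) = ω' (0, (orb ω a b (k + 1)).1)) (k : ℕ) :
    orb ω' a b k = orb ω a b k := by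
  induction k with
  | zero => rfl
  | succ k ih =>
    have h1 : ω (0, (orb ω a b k).2) = ω' (0, (orb ω a b k).2) := h k
    rw [orb, orb, ih, h1]

theorem dep_ray (S : Set (ℕ × V)) (hS : S.Finite) : Dep Sᶜ {ω : Om G | Ray ω} := by
  rintro ω ω' h ⟨a, b, hab, hv⟩
  choose K hK using hv
  obtain ⟨L, hL⟩ := (hS.image fun i => K i.2).bddAbove
  have h1 : ∀ k, orb ω' (orb ω a b L).1 (orb ω a b L).2 k = orb ω a b (L + k) := fun k => by
    rw [← orb_add]
    refine orb_congr (fun j => h _ fun hj => ?_) k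
    rw [orb_add] at hj
    exact hK _ (L + (j + 1)) ((hL ⟨_, hj, rfl⟩).trans (Nat.le_add_right _ _)) rfl
  exact ⟨_, _, orb_adj ω hab L, fun v => ⟨K v, fun k hk => by
    rw [h1]; exact hK v _ (by omega)⟩⟩

/-- the trail that starts with the edge from `v` to `f` never comes back to `v` -/
def Esc (v f : V) : Set (Om G) := {ω | ∀ k ≥ 1, (orb ω v f k).1 ≠ v}

theorem esc_of_ray {ω : Om G} (h : Ray ω) : ∃ v f, G.Adj v f ∧ ω ∈ Esc v f := by
  classical
  obtain ⟨a, b, hab, hv⟩ := h
  obtain ⟨K, hK⟩ := hv a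
  have h1 : (orb ω a b (Nat.findGreatest (fun k => (orb ω a b k).1 = a) K)).1 = a :=
    Nat.findGreatest_spec (P := fun k => (orb ω a b k).1 = a) (Nat.zero_le K) rfl
  refine ⟨_, _, orb_adj ω hab (Nat.findGreatest (fun k => (orb ω a b k).1 = a) K),
    fun k hk e => ?_⟩
  rw [orb_add, h1] at e
  have h2 := Nat.le_findGreatest (P := fun k => (orb ω a b k).1 = a)
    (not_lt.1 fun h => hK _ h.le e) e
  omega

theorem dep_esc (v f : V) : Dep {(0, v)}ᶜ (Esc (G := G) v f) := fun ω ω' h hω k hk => by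
  rw [orb_congr fun j => h _ fun e => hω (j + 1) (by omega) (congrArg Prod.snd e)]
  exact hω k hk

section
variable [Countable V] [MeasurableSpace V] [DiscreteMeasurableSpace V]

theorem meas_orb_ne (a b v : V) (k : ℕ) : Measurable fun ω : Om G => (orb ω a b k).1 ≠ v :=
  (measurable_of_countable fun p : V × V => p.1 ≠ v).comp (meas_orb a b k)

theorem ray_zero_one : Pm G {ω | Ray ω} = 0 ∨ Pm G {ω | Ray ω} = 1 :=
  zero_one _ (measurableSet_setOfPred.2 (.exists fun a => .exists fun b => measurable_const.and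
    (.forall fun v => .exists fun _ => .forall fun k => measurable_const.imp
      (meas_orb_ne a b v k)))) dep_ray

theorem meas_ray : MeasurableSet {ω : Om G | Ray ω} :=
  measurableSet_setOfPred.2 (.exists fun a => .exists fun b => measurable_const.and
    (.forall fun v => .exists fun _ => .forall fun k => measurable_const.imp
      (meas_orb_ne a b v k)))

variable (hG : ∀ v, ∃ w, G.Adj v w) (he : ∀ v, Even (G.degree v))
include hG he

theorem often_one {o : V} (hR : Pm G {ω | Ray ω} = 0) (hN : Pm G (Ys o ⁻¹' Nv o) = 0) :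
    Pm G {ω | (fun t => Xm o t ω) ∈ Of o} = 1 := by
  have h := IsWalk.measurable (k := stepProb G) (isGRW_Xm hG o) (meas_Of o)
  refine (prob_compl_eq_zero_iff h).1 (measure_mono_null (fun ω hω => ?_)
    (measure_union_null hR (often_of_never o hN)))
  by_contra h1
  rw [mem_union, not_or] at h1
  exact hω (often_of_skeleton hG he rfl (Xm_nxt hG o ω) h1.1 (not_not.1 h1.2))

theorem often_zero {o : V} (hN : Pm G (Ys o ⁻¹' Nv o) ≠ 0) :
    Pm G {ω | (fun t => Xm o t ω) ∈ Of o} = 0 :=
  measure_mono_null (fun ω hω => skeleton_of_often hG he rfl (Xm_nxt hG o ω) hω)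
    (seldom_of_never o hN)

theorem model_zero_one (hc : G.Preconnected) (o : V) :
    Pm G {ω | (fun t => Xm o t ω) ∈ Of o} = 0 ∨ Pm G {ω | (fun t => Xm o t ω) ∈ Of o} = 1 := by
  by_cases hN : Pm G (Ys o ⁻¹' Nv o) = 0
  · refine (ray_zero_one (G := G)).symm.imp (fun hR => ?_) fun hR => often_one hG he hR hN
    refine measure_mono_null (fun ω hω => ?_)
      (measure_union_null ((prob_compl_eq_zero_iff meas_ray).2 hR) (ae_iff.1 (ae_visit hG hc o)))
    by_cases h : Ys o ω ∈ Of o → ∀ v, ∃ n, Ys o ω n = v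
    · exact Or.inl (not_ray hG he rfl (Xm_nxt hG o ω) hω
        (h (skeleton_of_often hG he rfl (Xm_nxt hG o ω) hω)))
    · exact Or.inr h
  · exact Or.inl (often_zero hG he hN)

theorem ray_zero (h : ∀ v, Pm G {ω | (fun t => Xm v t ω) ∈ Nv v} = 0) :
    Pm G {ω | Ray ω} = 0 := by
  refine measure_mono_null (t := ⋃ v, ⋃ f, ⋃ (_ : G.Adj v f), Esc v f) (fun ω hω => ?_)
    (measure_iUnion_null fun v => measure_iUnion_null fun f => measure_iUnion_null fun hf => ?_)
  · simpa using esc_of_ray hω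
  · have h1 := dep_inter (fun i : ℕ × V => unif (Rk G i.2)) (T := {(0, v)}ᶜ) (T' := {(0, v)})
      (E' := {ω | ω (0, v) ∈ {r : Rk G v | r.1 f = 0}}) disjoint_compl_left (dep_esc v f)
      (fun ω ω' e hω => by rwa [mem_ofPred_eq, ← e _ rfl])
      (measurableSet_setOfPred.2 (.forall fun k => measurable_const.imp (meas_orb_ne v f v k)))
      (measurable_pi_apply (0, v) MeasurableSet.of_discrete)
    have h2 : Pm G (Esc v f ∩ {ω | ω (0, v) ∈ {r : Rk G v | r.1 f = 0}}) = 0 :=
      measure_mono_null (fun ω hω => escape hG he rfl (Xm_nxt hG v ω) hf hω.2 hω.1) (h v)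
    have h3 := Pm_coord (G := G) (0, v) {r : Rk G v | r.1 f = 0}
    rw [unif_first hf] at h3
    rw [Pm] at h2 h3
    rw [h2, h3] at h1
    exact (mul_eq_zero.1 h1.symm).resolve_right (by simp)

end

theorem fresh_map (φ : G ≃g G) (x : ℕ → V) (t : ℕ) :
    freshNbrs G (fun s => φ (x s)) t = (freshNbrs G x t).map φ.toEquiv.toEmbedding := by
  ext u
  obtain ⟨u, rfl⟩ := φ.surjective u
  rw [show φ u = φ.toEquiv.toEmbedding u from rfl, Finset.mem_map', mem_freshNbrs, mem_freshNbrs]
  simp [φ.map_adj_iff]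

theorem isGRW_map {o : V} {Ω : Type} [MeasurableSpace Ω] {P : Measure Ω} {X : ℕ → Ω → V}
    (h : IsGRW G o P X) (φ : G ≃g G) : IsGRW G (φ o) P fun t ω => φ (X t ω) := by
  refine ⟨h.1, fun t v => ?_, by simpa using h.2.2.1, fun t y => ?_⟩
  · obtain ⟨v, rfl⟩ := φ.surjective v
    simpa using h.2.1 t v
  · obtain ⟨x, rfl⟩ : ∃ x : ℕ → V, y = fun s => φ (x s) := ⟨fun s => φ.symm (y s), by simp⟩
    have h1 : stepProb G (fun s => φ (x s)) t (φ (x (t + 1))) = stepProb G x t (x (t + 1)) := by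
      unfold stepProb
      rw [fresh_map]
      have h2 : φ (x (t + 1)) ∈ (freshNbrs G x t).map φ.toEquiv.toEmbedding ↔
          x (t + 1) ∈ freshNbrs G x t := Finset.mem_map' _
      simp only [Finset.map_nonempty, Finset.card_map, φ.degree_eq]
      have h3 := φ.map_adj_iff (v := x t) (w := x (t + 1))
      split_ifs <;> tauto
    rw [h1]
    simpa using h.2.2.2 t x

theorem of_iff (y : ℕ → V) (o : V) : y ∈ Of o ↔ {t | y t = o}.Infinite := by
  rw [← Nat.frequently_atTop_iff_infinite, Filter.frequently_atTop]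
  rfl

theorem even_zero_one [Infinite V] (hc : G.Connected) (he : ∀ v, Even (G.degree v)) {o : V}
    {Ω : Type} [MeasurableSpace Ω] {P : Measure Ω} {X : ℕ → Ω → V} (h : IsGRW G o P X) :
    P {ω | {t | X t ω = o}.Infinite} = 0 ∨ P {ω | {t | X t ω = o}.Infinite} = 1 := by
  have := countable_of_connected hc
  let : MeasurableSpace V := ⊤
  have : DiscreteMeasurableSpace V := ⟨fun _ => trivial⟩
  have h1 := IsWalk.law (k := stepProb G) h (isGRW_Xm (exists_adj hc) o) (meas_Of o)
  have h2 := model_zero_one (exists_adj hc) he hc.preconnected o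
  rw [← h1] at h2
  simpa only [of_iff] using h2

open Classical in
/-- `Y` is a simple random walk on `G` started at `v₀` -/
def IsSRW (G : SimpleGraph V) [G.LocallyFinite] (v₀ : V) {Ω : Type} [MeasurableSpace Ω]
    (P : Measure Ω) (Y : ℕ → Ω → V) : Prop :=
  IsProbabilityMeasure P ∧ (∀ t v, MeasurableSet {ω | Y t ω = v}) ∧ P {ω | Y 0 ω = v₀} = 1 ∧
    ∀ (t : ℕ) (x : ℕ → V), P {ω | ∀ s ≤ t + 1, Y s ω = x s} =
      P {ω | ∀ s ≤ t, Y s ω = x s} *
        if G.Adj (x t) (x (t + 1)) then (G.degree (x t) : ℝ≥0∞)⁻¹ else 0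

theorem exists_isSRW [Infinite V] (hc : G.Connected) (o : V) :
    ∃ (Ω : Type) (_ : MeasurableSpace Ω) (P : Measure Ω) (Y : ℕ → Ω → V), IsSRW G o P Y := by
  have := countable_of_connected hc
  let : MeasurableSpace V := ⊤
  have : DiscreteMeasurableSpace V := ⟨fun _ => trivial⟩
  exact ⟨_, _, _, _, isWalk_Ys (exists_adj hc) o⟩

theorem ret_iff {k : (ℕ → V) → ℕ → V → ℝ≥0∞} [Countable V] [MeasurableSpace V]
    [DiscreteMeasurableSpace V] {o : V} {Ω : Type} [MeasurableSpace Ω] {P : Measure Ω}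
    {X : ℕ → Ω → V} (h : IsWalk k o P X) :
    P {ω | ∃ t, 1 ≤ t ∧ X t ω = o} = 1 ↔ P {ω | (fun t => X t ω) ∈ Nv o} = 0 := by
  have := h.1
  refine Iff.trans ?_ (prob_compl_eq_one_iff (h.measurable (meas_Nv o)))
  congr! 2
  ext ω
  simp [Nv]

theorem even_return [Infinite V] (hc : G.Connected) (he : ∀ v, Even (G.degree v))
    (ht : ∀ u v : V, ∃ φ : G ≃g G, φ u = v) {o : V}
    {Ω : Type} [MeasurableSpace Ω] {P : Measure Ω} {X : ℕ → Ω → V} (h : IsGRW G o P X)
    {Ω' : Type} [MeasurableSpace Ω'] {P' : Measure Ω'} {Y : ℕ → Ω' → V} (h' : IsSRW G o P' Y) :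
    P {ω | {t | X t ω = o}.Infinite} = 1 ↔
      P {ω | ∃ t, 1 ≤ t ∧ X t ω = o} = 1 ∧ P' {ω | ∃ t, 1 ≤ t ∧ Y t ω = o} = 1 := by
  classical
  have := countable_of_connected hc
  let : MeasurableSpace V := ⊤
  have : DiscreteMeasurableSpace V := ⟨fun _ => trivial⟩
  have hG := exists_adj hc
  have := h.1
  have h1 := IsWalk.law (k := stepProb G) h (isGRW_Xm hG o) (meas_Of o)
  have h0 : IsWalk (fun x t w => if G.Adj (x t) w then (G.degree (x t) : ℝ≥0∞)⁻¹ else 0) o P' Y :=
    h'
  have h2 := IsWalk.law h0 (isWalk_Ys hG o) (meas_Nv o)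
  simp only [of_iff] at h1
  rw [ret_iff h0, h2]
  constructor
  · intro h3
    refine ⟨le_antisymm prob_le_one (h3 ▸ measure_mono fun ω hω => ?_), ?_⟩
    · obtain ⟨t, ht, h4⟩ := hω.exists_gt 0
      exact ⟨t, h4, ht⟩
    · by_contra h4
      have h5 := often_zero hG he h4
      simp only [of_iff] at h5
      rw [← h1, h3] at h5
      exact one_ne_zero h5
  · rintro ⟨h3, h4⟩
    have h5 := often_one hG he (ray_zero hG he fun v => ?_) h4
    · simp only [of_iff] at h5
      exact h1.trans h5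
    · obtain ⟨φ, rfl⟩ := ht o v
      have h6 := isGRW_map h φ
      rw [← IsWalk.law (k := stepProb G) h6 (isGRW_Xm hG _) (meas_Nv _),
        ← ret_iff (k := stepProb G) h6]
      simpa using h3

end Pool.Agent.P3fb035
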