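import Pool.Agent.K.MP_3fb035_pr.C1

open MeasureTheory

namespace Pool.Agent.P.MP_3fb035_pr.JoinedReturnClasses
open Pool.Agent.Lib.GRW Pool.Agent.P3fb035

theorem result (V : Type) [Infinite V] (G : SimpleGraph V) [G.LocallyFinite] (hc : G.Connected)
    (ht : ∀ u v : V, ∃ φ : G ≃g G, φ u = v) (o : V) :
    (∃ (Ω : Type) (_ : MeasurableSpace Ω) (P : Measure Ω) (X : ℕ → Ω → V), IsGRW G o P X) ∧
    ∀ (Ω : Type) [MeasurableSpace Ω] (P : Measure Ω) (X : ℕ → Ω → V), IsGRW G o P X →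
      (G.degree o = 3 ∨ (Odd (G.degree o) ∧ (P {ω | {t | X t ω = o}.Infinite} = 0 ∨
          P {ω | {t | X t ω = o}.Infinite} = 1)) ∨
        ((Ends G 2 ∧ ¬Ends G 3) ∨
          (∃ v a b : V, a ≠ v ∧ b ≠ v ∧ ∀ p : G.Walk a b, v ∈ p.support) ∨
          ∃ θ : ℝ, θ < 1 / 9 ∧ ∀ (n : ℕ) (u v : V),
            (({p : G.Walk u v | p.length = n}.ncard : ℕ) : ℝ) ≤ (θ * G.degree o) ^ n) ∨
        (Unimod G ∧ ∃ (k : ℕ) (δ : ℝ), G.degree o = 2 * k ∧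
          (∀ S : Finset V, ((∑ v ∈ S, {w | w ∈ S ∧ G.Adj v w}.ncard : ℕ) : ℝ) ≤ δ * S.card) ∧
          δ * ∑ i ∈ Finset.range k, 1 / (2 * (i : ℝ) + 1) < 2 * k)) →
      (P {ω | {t | X t ω = o}.Infinite} = 1 ↔ P {ω | ∃ t, 1 ≤ t ∧ X t ω = o} = 1) :=
  haveI := countable_of_connected hc
  ⟨exists_isGRW G (exists_adj hc) o, fun _ _ _ _ h hG =>
    hG.elim (return_cubic hc ht h) (return_cls hc ht h)⟩

end Pool.Agent.P.MP_3fb035_pr.JoinedReturnClasses
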