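import Pool.Agent.K.MP_3fb035_pr.C0

open MeasureTheory

namespace Pool.Agent.P.MP_3fb035_pr.JoinedZeroOneClasses
open Pool.Agent.Lib.GRW Pool.Agent.P3fb035

theorem result (V : Type) [Infinite V] (G : SimpleGraph V) [G.LocallyFinite] (hc : G.Connected)
    (o : V)
    (hG : (∀ v, Even (G.degree v)) ∨ ((∀ u v : V, ∃ φ : G ≃g G, φ u = v) ∧
      ((Ends G 2 ∧ ¬Ends G 3) ∨
        (∃ v a b : V, a ≠ v ∧ b ≠ v ∧ ∀ p : G.Walk a b, v ∈ p.support) ∨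
        ∃ θ : ℝ, θ < 1 / 9 ∧ ∀ (n : ℕ) (u v : V),
          (({p : G.Walk u v | p.length = n}.ncard : ℕ) : ℝ) ≤ (θ * G.degree o) ^ n))) :
    (∃ (Ω : Type) (_ : MeasurableSpace Ω) (P : Measure Ω) (X : ℕ → Ω → V), IsGRW G o P X) ∧
    ∀ (Ω : Type) [MeasurableSpace Ω] (P : Measure Ω) (X : ℕ → Ω → V), IsGRW G o P X →
      P {ω | {t | X t ω = o}.Infinite} = 0 ∨ P {ω | {t | X t ω = o}.Infinite} = 1 :=
  haveI := countable_of_connected hc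
  ⟨exists_isGRW G (exists_adj hc) o, fun _ _ _ _ h => zero_one_cls hc hG h⟩

end Pool.Agent.P.MP_3fb035_pr.JoinedZeroOneClasses
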