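import Pool.Agent.Lib.GRW.Parity
import Pool.Agent.Lib.GRW.Exist

open MeasureTheory
open scoped ENNReal

namespace Pool.Agent.P.MP_3fb035_pr
open Pool.Agent.Lib.GRW

/-- The Cayley graph of the integers with generators 1 and 2. -/
def Z12 : SimpleGraph ℤ where
  Adj a b := b = a + 1 ∨ b = a + 2 ∨ b = a - 1 ∨ b = a - 2
  symm := ⟨fun a b h => by omega⟩
  loopless := ⟨fun a h => by omega⟩

theorem nbr_eq (a : ℤ) : Z12.neighborSet a = ({a + 1, a + 2, a - 1, a - 2} : Finset ℤ) := by
  ext b; simp [Z12]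

noncomputable instance : Z12.LocallyFinite := fun a =>
  (show (Z12.neighborSet a).Finite by rw [nbr_eq]; exact Finset.finite_toSet _).fintype

theorem degree_eq (a : ℤ) : Z12.degree a = 4 := by
  have : Z12.neighborFinset a = {a + 1, a + 2, a - 1, a - 2} := by
    ext b; simp [Z12]
  rw [← SimpleGraph.card_neighborFinset_eq_degree, this,
    Finset.card_insert_of_notMem (by simp; omega), Finset.card_insert_of_notMem (by simp; omega),
    Finset.card_insert_of_notMem (by simp), Finset.card_singleton]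

theorem connected : Z12.Connected := by
  have h : ∀ a : ℤ, Z12.Reachable 0 a := fun a => by
    induction a using Int.induction_on with
    | zero => rfl
    | succ n ih => exact ih.trans (SimpleGraph.Adj.reachable (Or.inl rfl))
    | pred n ih => exact ih.trans (SimpleGraph.Adj.reachable (Or.inr (Or.inr (Or.inl rfl))))
  exact ⟨fun a b => (h a).symm.trans (h b)⟩

theorem transitive (u v : ℤ) : ∃ φ : Z12 ≃g Z12, φ u = v :=
  ⟨⟨Equiv.addRight (v - u), fun {a b} => by simp only [Z12, Equiv.coe_addRight]; omega⟩, by simp⟩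

def pth (a b c d : ℤ) : ℕ → ℤ
  | 0 => a
  | 1 => b
  | 2 => c
  | _ => d

theorem fresh1 (o : ℤ) : ∀ s < 3, pth o (o + 1) (o + 2) o (s + 1) ∈
    freshNbrs Z12 (pth o (o + 1) (o + 2) o) s := by
  intro s hs
  rw [mem_freshNbrs]
  interval_cases s
  · simp [pth, Z12]
  · refine ⟨by simp [pth, Z12]; omega, fun r hr => ?_⟩
    interval_cases r; simp [pth]
  · refine ⟨by simp [pth, Z12], fun r hr => ?_⟩
    interval_cases r <;> simp [pth] <;> omega

theorem fresh2 (o : ℤ) : ∀ s < 3, pth o (o + 2) (o + 1) (o + 3) (s + 1) ∈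
    freshNbrs Z12 (pth o (o + 2) (o + 1) (o + 3)) s := by
  intro s hs
  rw [mem_freshNbrs]
  interval_cases s
  · simp [pth, Z12]
  · refine ⟨by simp [pth, Z12]; omega, fun r hr => ?_⟩
    interval_cases r; simp [pth]
  · refine ⟨by simp [pth, Z12]; omega, fun r hr => ?_⟩
    interval_cases r <;> simp [pth] <;> omega

theorem escape (o : ℤ) (x : ℕ → ℤ) (hv : ∀ t, Valid Z12 o t x)
    (hx : ∀ s ≤ 3, x s = pth o (o + 2) (o + 1) (o + 3) s) (t : ℕ) :
    o + 2 ≤ x (t + 3) ∧ ∀ s < t + 3, x (s + 1) ∈ freshNbrs Z12 x s := by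
  have h0 : x 0 = o := hx 0 (by omega)
  have h1 : x 1 = o + 2 := hx 1 (by omega)
  have h2 : x 2 = o + 1 := hx 2 (by omega)
  have h3 : x 3 = o + 3 := hx 3 (by omega)
  induction t with
  | zero =>
    refine ⟨by rw [zero_add, h3]; omega, fun s hs => ?_⟩
    rw [hx (s + 1) (by omega), freshNbrs_congr Z12 (fun r hr => hx r (by omega))]
    exact fresh2 o s hs
  | succ t ih =>
    obtain ⟨i1, i2⟩ := ih
    have hne := fresh_nonempty_of_trail i2 (by rw [degree_eq]; decide) (by rw [h0]; omega)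
    have hf := fresh_of_mem_nextSet hne ((hv (t + 4)).2 (t + 3) (by omega))
    refine ⟨?_, fun s hs => ?_⟩
    · obtain ⟨ha, hn⟩ := (mem_freshNbrs Z12).1 hf
      have a0 := hn 0 (by omega)
      have a1 := hn 1 (by omega)
      have a2 := hn 2 (by omega)
      simp only [zero_add, Nat.reduceAdd, h0, h1, h2, h3, ne_eq, Sym2.eq_iff, not_or] at a0 a1 a2
      simp only [Z12] at ha
      show o + 2 ≤ x (t + 3 + 1)
      omega
    · rcases Nat.lt_succ_iff_lt_or_eq.1 hs with hs | rfl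
      · exact i2 s hs
      · exact hf

theorem once (o : ℤ) {Ω : Type} [MeasurableSpace Ω] (P : Measure Ω) (X : ℕ → Ω → ℤ)
    (h : IsGRW Z12 o P X) :
    0 < P {ω | ∃ t, 1 ≤ t ∧ X t ω = o} ∧ P {ω | ∃ t, 1 ≤ t ∧ X t ω = o} < 1 := by
  have := h.1
  constructor
  · have hv : Valid Z12 o 3 (pth o (o + 1) (o + 2) o) :=
      ⟨rfl, fun s hs => mem_nextSet_of_fresh (fresh1 o s hs)⟩
    refine lt_of_lt_of_le (pos_iff_ne_zero.2 (h.cyl_ne_zero hv)) (measure_mono fun ω hω => ?_)
    exact ⟨3, by omega, hω 3 le_rfl⟩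
  · have hv : Valid Z12 o 3 (pth o (o + 2) (o + 1) (o + 3)) :=
      ⟨rfl, fun s hs => mem_nextSet_of_fresh (fresh2 o s hs)⟩
    have h1 : P {ω | ∃ t, 1 ≤ t ∧ X t ω = o} ≤ P (cyl X 3 (pth o (o + 2) (o + 1) (o + 3)))ᶜ := by
      refine measure_mono_ae ?_
      filter_upwards [h.ae_valid] with ω hω ⟨t, ht, e⟩ hc
      have key := escape o (fun s => X s ω) hω hc
      rcases Nat.lt_or_ge t 3 with h3 | h3
      · have := hc t h3.le
        interval_cases t <;> simp [pth] at this <;> omega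
      · obtain ⟨k, rfl⟩ := Nat.exists_eq_add_of_le' h3
        have := (key k).1
        omega
    refine lt_of_le_of_lt h1 ?_
    rw [prob_compl_eq_one_sub (h.measurableSet_cyl _ _)]
    exact ENNReal.sub_lt_self ENNReal.one_ne_top one_ne_zero (h.cyl_ne_zero hv)

end Pool.Agent.P.MP_3fb035_pr
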