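import Pool.Agent.P.MP_3fb035_pr.QDef

/-! Cylinders. -/

set_option autoImplicit false

open MeasureTheory Set
open scoped ENNReal symmDiff

namespace Pool.Agent.P3fb035

open Pool.Agent.Lib.GRW

variable {V : Type} {G : SimpleGraph V}
variable [Countable V] [MeasurableSpace V] [DiscreteMeasurableSpace V]
  {Ω : Type} [MeasurableSpace Ω] {P : Measure Ω} {X : ℕ → Ω → V}

variable {k : (ℕ → V) → ℕ → V → ℝ≥0∞} {v₀ : V}

omit [Countable V] [MeasurableSpace V] [DiscreteMeasurableSpace V] in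
theorem IsWalk.meas_cyl (h : IsWalk k v₀ P X) (t : ℕ) (x : ℕ → V) : MeasurableSet (cyl X t x) := by
  have e : cyl X t x = ⋂ s, ⋂ (_ : s ≤ t), {ω | X s ω = x s} := by
    ext ω; simp [cyl]
  rw [e]
  exact MeasurableSet.iInter fun s => MeasurableSet.iInter fun _ => h.2.1 s _

omit [Countable V] [MeasurableSpace V] [DiscreteMeasurableSpace V] in
theorem IsWalk.cyl_succ (h : IsWalk k v₀ P X) (t : ℕ) (x : ℕ → V) :
    P (cyl X (t + 1) x) = P (cyl X t x) * k x t (x (t + 1)) := h.2.2.2 t x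

omit [Countable V] [MeasurableSpace V] [DiscreteMeasurableSpace V] in
theorem IsWalk.cyl_start (h : IsWalk k v₀ P X) : P (cyl X 0 fun _ => v₀) = 1 := by
  have e : (cyl X 0 fun _ => v₀) = {ω | X 0 ω = v₀} := by
    ext ω; simp [cyl]
  rw [e, h.2.2.1]

omit [DiscreteMeasurableSpace V] in
theorem IsWalk.meas_pre (h : IsWalk k v₀ P X) {H : Set (ℕ → V)} (hH : MeasurableSet H) :
    MeasurableSet (pth X ⁻¹' H) := h.measurable hH

omit [Countable V] [MeasurableSpace V] [DiscreteMeasurableSpace V] [MeasurableSpace Ω] in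
theorem cyl_congr {t : ℕ} {x y : ℕ → V} (h : ∀ s ≤ t, x s = y s) : cyl X t x = cyl X t y := by
  ext ω
  exact forall₂_congr fun s hs => by rw [h s hs]

theorem Adp.meas {E : ℕ → (ℕ → V) → Prop} (hE : Adp E) (t : ℕ) : MeasurableSet {y | E t y} := by
  have h1 : ∀ y : ℕ → V, ∀ s ≤ t, y s = Lib.GRW.ext t (fun i => y i) s := fun y s hs => by
    simp [Lib.GRW.ext, min_eq_left hs]
  have e : {y | E t y} =
      (fun (y : ℕ → V) (i : Fin (t + 1)) => y i) ⁻¹' {a | E t (Lib.GRW.ext t a)} :=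
    Set.ext fun y => ⟨hE t _ _ (h1 y), hE t _ _ fun s hs => (h1 y s hs).symm⟩
  rw [e]
  exact (measurable_pi_lambda _ fun i : Fin (t + 1) => measurable_pi_apply (i : ℕ))
    (Set.to_countable _).measurableSet

omit [MeasurableSpace V] [DiscreteMeasurableSpace V] in
open Classical in
/-- decomposition according to the next step -/
theorem IsWalk.cyl_step (h : IsWalk k v₀ P X) (t : ℕ) (x : ℕ → V) {A : Set Ω}
    (hA : MeasurableSet A) :
    P (cyl X t x ∩ A) = ∑' w, P (cyl X (t + 1) (Function.update x (t + 1) w) ∩ A) := by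
  have hU : cyl X t x ∩ A = ⋃ w, cyl X (t + 1) (Function.update x (t + 1) w) ∩ A := by
    ext ω
    simp only [mem_iUnion, mem_inter_iff]
    constructor
    · rintro ⟨hω, hA⟩
      refine ⟨X (t + 1) ω, fun s hs => ?_, hA⟩
      rcases Nat.lt_or_eq_of_le hs with hs | rfl
      · rw [Function.update_of_ne (by omega)]; exact hω s (by omega)
      · rw [Function.update_self]
    · rintro ⟨w, hw, hA⟩
      refine ⟨fun s hs => ?_, hA⟩
      have := hw s (by omega)
      rwa [Function.update_of_ne (by omega)] at this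
  rw [hU, measure_iUnion _ fun w => (h.meas_cyl _ _).inter hA]
  intro a b hab
  refine disjoint_left.2 fun ω ha hb => hab ?_
  have h1 := ha.1 (t + 1) le_rfl
  have h2 := hb.1 (t + 1) le_rfl
  rw [Function.update_self] at h1 h2
  exact h1.symm.trans h2

omit [MeasurableSpace V] [DiscreteMeasurableSpace V] in
theorem cyl_split {t T : ℕ} (htT : t ≤ T) {x : ℕ → V} {A : Set Ω} (hA : P (cyl X t x ∩ A) ≠ 0) :
    ∃ y : ℕ → V, (∀ s ≤ t, y s = x s) ∧ P (cyl X T y ∩ A) ≠ 0 := by
  by_contra h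
  refine hA (measure_mono_null (t := ⋃ a : {a : Fin (T + 1) → V // ∀ s ≤ t, Lib.GRW.ext T a s = x s},
    cyl X T (Lib.GRW.ext T a.1) ∩ A) (fun ω hω => ?_) (measure_iUnion_null fun a =>
      by_contra fun h1 => h ⟨_, a.2, h1⟩))
  have h1 : ∀ s ≤ T, X s ω = Lib.GRW.ext T (fun i => X i ω) s := fun s hs => by
    simp [Lib.GRW.ext, min_eq_left hs]
  exact mem_iUnion.2 ⟨⟨fun i => X i ω, fun s hs => (h1 s (hs.trans htT)).symm.trans (hω.1 s hs)⟩,
    h1, hω.2⟩

end Pool.Agent.P3fb035
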