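import Pool.Agent.P.MP_3fb035_pr.QA0

/-! Cylinders, stopping decomposition, existence of walks. -/

set_option autoImplicit false

open MeasureTheory Set
open scoped ENNReal symmDiff

namespace Pool.Agent.P3fb035

open Pool.Agent.Lib.GRW

variable {V : Type} {G : SimpleGraph V}
variable [Countable V] [MeasurableSpace V] [DiscreteMeasurableSpace V]
  {Ω : Type} [MeasurableSpace Ω] {P : Measure Ω} {X : ℕ → Ω → V}

variable {k : (ℕ → V) → ℕ → V → ℝ≥0∞} {v₀ : V}

/-- stopping decomposition -/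
theorem sd (h : IsWalk k v₀ P X) {E : ℕ → (ℕ → V) → Prop} (hE : Adp E) {H : Set (ℕ → V)}
    (hH : MeasurableSet H) {c : ℝ≥0∞}
    (hb : ∀ t x, E t x → c * P (cyl X t x) ≤ P (cyl X t x ∩ pth X ⁻¹' H)) :
    c * P (pth X ⁻¹' {y | ∃ t, E t y}) ≤ P (pth X ⁻¹' ({y | ∃ t, E t y} ∩ H)) := by
  classical
  let I : Type := {p : Σ t : ℕ, Fin (t + 1) → V //
    E p.1 (ext p.1 p.2) ∧ ∀ s < p.1, ¬ E s (ext p.1 p.2)}
  let C : I → Set Ω := fun p => cyl X p.1.1 (ext p.1.1 p.1.2)
  have hU : pth X ⁻¹' {y | ∃ t, E t y} = ⋃ p, C p := by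
    ext ω
    simp only [mem_preimage, mem_ofPred_eq, mem_iUnion]
    constructor
    · intro hω
      have e : ∀ s ≤ Nat.find hω, pth X ω s = ext (Nat.find hω) (fun i => X i ω) s :=
        fun s hs => by simp [Lib.GRW.ext, pth, min_eq_left hs]
      refine ⟨⟨⟨Nat.find hω, fun i => X i ω⟩, hE _ _ _ e (Nat.find_spec hω), fun s hs h' => ?_⟩, e⟩
      exact Nat.find_min hω hs (hE _ _ _ (fun r hr => (e r (hr.trans hs.le)).symm) h')
    · rintro ⟨p, hp⟩
      exact ⟨p.1.1, hE _ _ _ (fun s hs => (hp s hs).symm) p.2.1⟩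
  have hlt : ∀ p q : I, ∀ ω, ω ∈ C p → ω ∈ C q → ¬ p.1.1 < q.1.1 := fun p q ω hp hq hl =>
    q.2.2 _ hl (hE _ _ _ (fun s hs => (hp s hs).symm.trans (hq s (hs.trans hl.le))) p.2.1)
  have hD : Pairwise (Function.onFun Disjoint C) := by
    intro p q hpq
    rw [Function.onFun, Set.disjoint_left]
    intro ω hp hq
    have e : p.1.1 = q.1.1 := le_antisymm (not_lt.1 (hlt q p ω hq hp)) (not_lt.1 (hlt p q ω hp hq))
    obtain ⟨⟨t, a⟩, ha⟩ := p
    obtain ⟨⟨t', b⟩, hb'⟩ := q
    obtain rfl : t = t' := e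
    have hab : a ≠ b := fun e' => hpq (by subst e'; rfl)
    exact Set.disjoint_left.1 (pairwise_cyl X t hab) hp hq
  have hm : ∀ p, MeasurableSet (C p) := fun p => h.meas_cyl _ _
  have hD' : Pairwise (Function.onFun Disjoint fun p => C p ∩ pth X ⁻¹' H) :=
    fun p q hpq => (hD hpq).mono inter_subset_left inter_subset_left
  rw [preimage_inter, hU, iUnion_inter, measure_iUnion hD hm,
    measure_iUnion hD' fun p => (hm p).inter (h.meas_pre hH), ← ENNReal.tsum_mul_left]
  exact ENNReal.tsum_le_tsum fun p => hb _ _ p.2.1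

omit [MeasurableSpace V] [DiscreteMeasurableSpace V] in
/-- a choice of data that depends on the history only -/
theorem ae_pick {I : Type} {D : I → ℕ → (ℕ → V) → Prop} (hD : ∀ i, Adp (D i))
    {B : I → Set (ℕ → V)} (hb : ∀ i T x, D i T x → P (cyl X T x ∩ pth X ⁻¹' B i) = 0) :
    ∀ᵐ ω ∂P, ∀ T, (∃ i, D i T (pth X ω)) → ∃ i, D i T (pth X ω) ∧ pth X ω ∉ B i := by
  rw [ae_all_iff]
  intro T
  have h1 : ∀ a : Fin (T + 1) → V, ∀ᵐ ω ∂P, ω ∈ cyl X T (ext T a) →
      (∃ i, D i T (pth X ω)) → ∃ i, D i T (pth X ω) ∧ pth X ω ∉ B i := fun a => by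
    by_cases ha : ∃ i, D i T (ext T a)
    · obtain ⟨i, hi⟩ := ha
      refine (measure_eq_zero_iff_ae_notMem.1 (hb i T _ hi)).mono fun ω hω hc _ => ?_
      exact ⟨i, hD i _ _ _ (fun s hs => (hc s hs).symm) hi, fun hB => hω ⟨hc, hB⟩⟩
    · exact Filter.Eventually.of_forall fun ω hc ⟨i, hi⟩ => (ha ⟨i, hD i _ _ _ hc hi⟩).elim
  refine (ae_all_iff.2 h1).mono fun ω hω => ?_
  obtain ⟨a, ha⟩ := mem_iUnion.1 ((iUnion_cyl X T).ge (mem_univ ω))
  exact hω a ha

omit [MeasurableSpace V] [DiscreteMeasurableSpace V] in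
open ProbabilityTheory Preorder in
theorem exists_walk (hk : ∀ (t : ℕ) (x y : ℕ → V), (∀ s ≤ t, x s = y s) → k x t = k y t)
    (h1 : ∀ x t, ∑' w, k x t w = 1) (v₀ : V) :
    ∃ (Ω : Type) (_ : MeasurableSpace Ω) (P : Measure Ω) (X : ℕ → Ω → V), IsWalk k v₀ P X := by
  let : MeasurableSpace V := ⊤
  have : MeasurableSingletonClass V := ⟨fun _ => trivial⟩
  let eI : (n : ℕ) → (Π _ : Finset.Iic n, V) → ℕ → V := fun n h s =>
    h ⟨min s n, Finset.mem_Iic.2 (min_le_right _ _)⟩
  let p : (n : ℕ) → (Π _ : Finset.Iic n, V) → PMF V := fun n h =>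
    ⟨k (eI n h) n, by
      have := h1 (eI n h) n
      exact this ▸ ENNReal.summable.hasSum⟩
  let κ : (n : ℕ) → Kernel (Π _ : Finset.Iic n, V) V := fun n =>
    ⟨fun h => (p n h).toMeasure, measurable_of_countable _⟩
  have : ∀ n, IsMarkovKernel (κ n) := fun n => ⟨fun h => PMF.toMeasure.isProbabilityMeasure _⟩
  let P : Measure (ℕ → V) := Kernel.trajMeasure (X := fun _ => V) (Measure.dirac v₀) κ
  have hP : IsProbabilityMeasure P := inferInstance
  refine ⟨ℕ → V, inferInstance, P, fun t ω => ω t, hP, fun t v => ?_, ?_, fun t x => ?_⟩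
  · exact (measurable_pi_apply (X := fun _ : ℕ => V) t) (measurableSet_singleton v)
  · have h1 : P.map (frestrictLe 0) =
        (Measure.dirac v₀).map (MeasurableEquiv.piUnique (fun _ : Finset.Iic 0 => V)).symm := by
      simp only [P, Kernel.trajMeasure]
      rw [Measure.map_comp _ _ (measurable_frestrictLe 0), Kernel.traj_map_frestrictLe,
        Kernel.partialTraj_self, Measure.id_comp]
    have h2 : {ω : ℕ → V | ω 0 = v₀} =
        frestrictLe 0 ⁻¹' {h | h ⟨0, Finset.mem_Iic.2 le_rfl⟩ = v₀} := rfl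
    rw [h2, ← Measure.map_apply (measurable_frestrictLe 0) (Set.to_countable _).measurableSet, h1,
      Measure.map_dirac' (MeasurableEquiv.measurable _), Measure.dirac_apply_of_mem]
    rfl
  · have key := Kernel.map_frestrictLe_trajMeasure_compProd_eq_map_trajMeasure
      (X := fun _ => V) (μ₀ := Measure.dirac v₀) (κ := κ) (a := t)
    have h1 : {ω : ℕ → V | ∀ s ≤ t + 1, ω s = x s} =
        (fun ω : ℕ → V => (frestrictLe t ω, ω (t + 1))) ⁻¹'
          ({frestrictLe t x} ×ˢ {x (t + 1)}) := by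
      ext ω
      simp only [Set.mem_ofPred_eq, Set.mem_preimage, Set.mem_prod, Set.mem_singleton_iff]
      constructor
      · intro h
        exact ⟨funext fun i => h i ((Finset.mem_Iic.1 i.2).trans (Nat.le_succ _)), h _ le_rfl⟩
      · rintro ⟨h, h'⟩ s hs
        rcases Nat.lt_or_eq_of_le hs with hs | rfl
        · exact congrFun h ⟨s, Finset.mem_Iic.2 (by omega)⟩
        · exact h'
    have h2 : {ω : ℕ → V | ∀ s ≤ t, ω s = x s} =
        frestrictLe (π := fun _ : ℕ => V) t ⁻¹' {frestrictLe (π := fun _ : ℕ => V) t x} := by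
      ext ω
      simp only [Set.mem_ofPred_eq, Set.mem_preimage, Set.mem_singleton_iff]
      constructor
      · intro h
        exact funext fun i => h i (Finset.mem_Iic.1 i.2)
      · intro h s hs
        exact congrFun h ⟨s, Finset.mem_Iic.2 hs⟩
    have hm : MeasurableSet
        (({frestrictLe t x} : Set (Π _ : Finset.Iic t, V)) ×ˢ ({x (t + 1)} : Set V)) :=
      (measurableSet_singleton _).prod (measurableSet_singleton _)
    rw [h1, h2, ← Measure.map_apply (by fun_prop) hm,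
      ← Measure.map_apply (measurable_frestrictLe t) (measurableSet_singleton _)]
    show (Kernel.trajMeasure (X := fun _ => V) (Measure.dirac v₀) κ).map _ _ = _
    rw [← key, Measure.compProd_apply_prod (measurableSet_singleton _) (measurableSet_singleton _),
      lintegral_singleton, mul_comm]
    congr 1
    show (p t (frestrictLe t x)).toMeasure {x (t + 1)} = _
    rw [PMF.toMeasure_apply_singleton _ _ (measurableSet_singleton _)]
    show k (eI t (frestrictLe t x)) t (x (t + 1)) = _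
    refine congrFun (hk t _ _ fun s hs => ?_) _
    simp [eI, min_eq_left hs]

end Pool.Agent.P3fb035
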