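import Pool.Agent.P.MP_3fb035_pr.QA1

/-! Conditional Borel-Cantelli lemma. -/

set_option autoImplicit false

open MeasureTheory Set
open scoped ENNReal symmDiff

namespace Pool.Agent.P3fb035

open Pool.Agent.Lib.GRW

variable {V : Type} {G : SimpleGraph V}
variable [Countable V] [MeasurableSpace V] [DiscreteMeasurableSpace V]
  {Ω : Type} [MeasurableSpace Ω] {P : Measure Ω} {X : ℕ → Ω → V}

variable {k : (ℕ → V) → ℕ → V → ℝ≥0∞} {v₀ : V}

theorem qa2_approx (μ : Measure (ℕ → V)) [IsFiniteMeasure μ] {H : Set (ℕ → V)}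
    (hH : MeasurableSet H) {ε : ℝ≥0∞} (hε : 0 < ε) :
    ∃ (n : ℕ) (A : Set (ℕ → V)), MeasurableSet A ∧
      (∀ x y : ℕ → V, (∀ s ≤ n, x s = y s) → x ∈ A → y ∈ A) ∧ μ (A ∆ H) < ε := by
  have hm : ∀ (n : ℕ) (A : Set (ℕ → V)),
      (∀ x y : ℕ → V, (∀ s ≤ n, x s = y s) → x ∈ A → y ∈ A) → MeasurableSet A := by
    intro n A hA
    have h1 : Adp fun t (y : ℕ → V) => n ≤ t ∧ y ∈ A := fun t x y hxy hx =>
      ⟨hx.1, hA x y (fun s hs => hxy s (hs.trans hx.1)) hx.2⟩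
    simpa using h1.meas n
  have hC : IsSetRing {A : Set (ℕ → V) | ∃ n : ℕ, ∀ x y : ℕ → V,
      (∀ s ≤ n, x s = y s) → x ∈ A → y ∈ A} := by
    refine ⟨⟨0, fun _ _ _ hx => hx⟩, ?_, ?_⟩
    · rintro A B ⟨n, hA⟩ ⟨m, hB⟩
      refine ⟨max n m, fun x y hxy hx => hx.imp (hA x y fun s hs => hxy s ?_)
        (hB x y fun s hs => hxy s ?_)⟩
      · exact hs.trans (le_max_left _ _)
      · exact hs.trans (le_max_right _ _)
    · rintro A B ⟨n, hA⟩ ⟨m, hB⟩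
      refine ⟨max n m, fun x y hxy hx => ⟨hA x y (fun s hs => hxy s ?_) hx.1,
        fun hy => hx.2 (hB y x (fun s hs => (hxy s ?_).symm) hy)⟩⟩
      · exact hs.trans (le_max_left _ _)
      · exact hs.trans (le_max_right _ _)
  obtain ⟨A, ⟨n, hA⟩, h1⟩ := exists_measure_symmDiff_lt_of_generateFrom_isSetRing (μ := μ) hC
    ⟨{univ}, countable_singleton _, singleton_subset_iff.2 ⟨0, fun _ _ _ hx => hx⟩, by simp⟩
    (le_antisymm (iSup_le fun a => by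
        rintro _ ⟨B, -, rfl⟩
        refine MeasurableSpace.measurableSet_generateFrom ⟨a, fun x y hxy hx => ?_⟩
        show y a ∈ B
        rw [← hxy a le_rfl]
        exact hx)
      (MeasurableSpace.generateFrom_le fun B ⟨m, hB⟩ => hm m B hB)) hH hε
  exact ⟨n, A, hm n A hA, hA, h1⟩

theorem bc (h : IsWalk k v₀ P X) {E : ℕ → (ℕ → V) → Prop} (hE : Adp E) {H : Set (ℕ → V)}
    (hH : MeasurableSet H) {c : ℝ≥0∞} (hc : c ≠ 0)
    (hb : ∀ t x, E t x → c * P (cyl X t x) ≤ P (cyl X t x ∩ pth X ⁻¹' H)) :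
    ∀ᵐ ω ∂P, (∀ m, ∃ t ≥ m, E t (pth X ω)) → pth X ω ∈ H := by
  have := h.1
  have hX : Measurable (pth X) := h.measurable
  have hc0 : min c 1 ≠ 0 := (lt_min (pos_iff_ne_zero.2 hc) zero_lt_one).ne'
  have key : ∀ ε : ℝ≥0∞, 0 < ε →
      min c 1 * P {ω | ¬ ((∀ m, ∃ t ≥ m, E t (pth X ω)) → pth X ω ∈ H)} ≤ ε + ε := by
    intro ε hε
    obtain ⟨n, A, hAm, hA, h1⟩ := qa2_approx (P.map (pth X)) hH hε
    rw [Measure.map_apply hX (hAm.symmDiff hH)] at h1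
    have hE' : Adp fun t x => n ≤ t ∧ E t x ∧ x ∉ A := fun t x y hxy hx =>
      ⟨hx.1, hE t x y hxy hx.2.1,
        fun hy => hx.2.2 (hA y x (fun s hs => (hxy s (hs.trans hx.1)).symm) hy)⟩
    have h2 := sd h hE' hH (c := min c 1) fun t x hx =>
      (mul_le_mul_left (min_le_left c 1) _).trans (hb t x hx.2.1)
    have h3 : P (pth X ⁻¹' ({y | ∃ t, n ≤ t ∧ E t y ∧ y ∉ A} ∩ H)) ≤ P (pth X ⁻¹' (A ∆ H)) := by
      refine measure_mono (preimage_mono ?_)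
      rintro y ⟨⟨t, -, -, hy⟩, hyH⟩
      exact Or.inr ⟨hyH, hy⟩
    have h4 : {ω | ¬ ((∀ m, ∃ t ≥ m, E t (pth X ω)) → pth X ω ∈ H)} ⊆
        pth X ⁻¹' {y | ∃ t, n ≤ t ∧ E t y ∧ y ∉ A} ∪ pth X ⁻¹' (A ∆ H) := by
      intro ω hω
      obtain ⟨h5, h6⟩ := Classical.not_imp.1 hω
      by_cases h7 : pth X ω ∈ A
      · exact Or.inr (Or.inl ⟨h7, h6⟩)
      · obtain ⟨t, ht, h8⟩ := h5 n
        exact Or.inl ⟨t, ht, h8, h7⟩
    refine (mul_le_mul_right ((measure_mono h4).trans (measure_union_le _ _)) _).trans ?_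
    rw [mul_add]
    refine add_le_add (h2.trans (h3.trans h1.le)) ?_
    exact (mul_le_of_le_one_left' (min_le_right c 1)).trans h1.le
  rw [ae_iff]
  refine (mul_eq_zero.1 (le_antisymm ?_ zero_le)).resolve_left hc0
  refine le_of_forall_pos_le_add fun ε hε => ?_
  rw [zero_add, ← ENNReal.add_halves ε]
  exact key _ (ENNReal.half_pos hε.ne')

end Pool.Agent.P3fb035
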