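import Pool.Agent.P.MP_3fb035_pr.QA1

/-! The kernel of the greedy walk: basic facts. -/

set_option autoImplicit false

open MeasureTheory Set
open scoped ENNReal symmDiff

namespace Pool.Agent.P3fb035

open Pool.Agent.Lib.GRW

variable {V : Type} {G : SimpleGraph V}
variable [Countable V] [MeasurableSpace V] [DiscreteMeasurableSpace V]
  {Ω : Type} [MeasurableSpace Ω] {P : Measure Ω} {X : ℕ → Ω → V}

section
omit [Countable V] [MeasurableSpace V] [DiscreteMeasurableSpace V]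

theorem us_zero (x : ℕ → V) : us x 0 = ∅ := by
  ext e
  simp [us]

theorem us_succ (x : ℕ → V) (t : ℕ) : us x (t + 1) = insert s(x t, x (t + 1)) (us x t) := by
  ext e
  simp only [us, mem_ofPred_eq, mem_insert_iff]
  constructor
  · rintro ⟨s, hs, rfl⟩
    rcases Nat.lt_succ_iff_lt_or_eq.1 hs with h | rfl
    · exact Or.inr ⟨s, h, rfl⟩
    · exact Or.inl rfl
  · rintro (rfl | ⟨s, hs, rfl⟩)
    · exact ⟨t, Nat.lt_succ_self t, rfl⟩
    · exact ⟨s, Nat.lt_succ_of_lt hs, rfl⟩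

theorem us_congr {x y : ℕ → V} {t : ℕ} (h : ∀ s ≤ t, x s = y s) : us x t = us y t := by
  ext e
  simp only [us, mem_ofPred_eq]
  constructor
  · rintro ⟨s, hs, rfl⟩
    exact ⟨s, hs, by rw [h s hs.le, h (s + 1) hs]⟩
  · rintro ⟨s, hs, rfl⟩
    exact ⟨s, hs, by rw [h s hs.le, h (s + 1) hs]⟩

theorem us_mono (x : ℕ → V) {s t : ℕ} (h : s ≤ t) : us x s ⊆ us x t := by
  rintro e ⟨r, hr, rfl⟩
  exact ⟨r, lt_of_lt_of_le hr h, rfl⟩

theorem us_finite (x : ℕ → V) (t : ℕ) : (us x t).Finite := by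
  induction t with
  | zero => rw [us_zero]; exact finite_empty
  | succ t ih => rw [us_succ]; exact ih.insert _

theorem us_mem {x : ℕ → V} {t : ℕ} {a b : V} (h : s(a, b) ∈ us x t) : ∃ s ≤ t, x s = a := by
  obtain ⟨s, hs, e⟩ := h
  rcases Sym2.eq_iff.1 e with ⟨h1, _⟩ | ⟨_, h2⟩
  · exact ⟨s, hs.le, h1⟩
  · exact ⟨s + 1, hs, h2⟩

theorem Exh.mono {U U' : Set (Sym2 V)} {v : V} (h : Exh G U v) (hU : U ⊆ U') : Exh G U' v :=
  fun z hz => hU (h z hz)

theorem nx_nonempty {U : Set (Sym2 V)} {v : V} (h : (G.neighborSet v).Nonempty) :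
    (nx G U v).Nonempty := by
  by_cases hE : Exh G U v
  · obtain ⟨w, hw⟩ := h
    exact ⟨w, hw, Or.inr hE⟩
  · simp only [Exh, not_forall] at hE
    obtain ⟨w, hw, hn⟩ := hE
    exact ⟨w, hw, Or.inl hn⟩

theorem nx_congr {G' : SimpleGraph V} {U U' : Set (Sym2 V)} {v : V}
    (hG : ∀ b, G.Adj v b ↔ G'.Adj v b) (hU : ∀ b, G.Adj v b → (s(v, b) ∈ U ↔ s(v, b) ∈ U')) :
    nx G U v = nx G' U' v := by
  have hE : Exh G U v ↔ Exh G' U' v :=
    ⟨fun h z hz => (hU z ((hG z).2 hz)).1 (h z ((hG z).2 hz)),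
      fun h z hz => (hU z hz).2 (h z ((hG z).1 hz))⟩
  ext w
  simp only [nx, mem_ofPred_eq]
  constructor
  · rintro ⟨h1, h2⟩
    exact ⟨(hG w).1 h1, by rw [← hU w h1, ← hE]; exact h2⟩
  · rintro ⟨h1, h2⟩
    exact ⟨(hG w).2 h1, by rw [hU w ((hG w).2 h1), hE]; exact h2⟩

theorem ker_congr (U : Set (Sym2 V)) {t : ℕ} {x y : ℕ → V} (h : ∀ s ≤ t, x s = y s) :
    ker G U x t = ker G U y t := by
  funext w
  unfold ker
  rw [us_congr h, h t le_rfl]

theorem tsum_ker {d : ℕ} (hb : Bd G d) (U : Set (Sym2 V)) (x : ℕ → V) (t : ℕ) :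
    ∑' w, ker G U x t w = 1 := by
  classical
  set S := nx G (U ∪ us x t) (x t) with hS
  have hfin : S.Finite := (hb (x t)).1.subset fun w hw => hw.1
  have hne : S.Nonempty := nx_nonempty (hb (x t)).2.2
  have hc : S.ncard ≠ 0 := (ncard_pos hfin).2 hne |>.ne'
  rw [tsum_eq_sum (s := hfin.toFinset) (fun w hw => by
    rw [Finite.mem_toFinset] at hw
    simp only [ker, ← hS, if_neg hw])]
  rw [Finset.sum_congr rfl (g := fun _ => (S.ncard : ℝ≥0∞)⁻¹) (fun w hw => by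
    rw [Finite.mem_toFinset] at hw
    simp only [ker, ← hS, if_pos hw])]
  rw [Finset.sum_const, nsmul_eq_mul, ← ncard_eq_toFinset_card S hfin]
  exact ENNReal.mul_inv_cancel (by exact_mod_cast hc) (ENNReal.natCast_ne_top _)

theorem ker_ge {d : ℕ} (hb : Bd G d) {U : Set (Sym2 V)} {x : ℕ → V} {t : ℕ} {w : V}
    (hw : w ∈ nx G (U ∪ us x t) (x t)) : (d : ℝ≥0∞)⁻¹ ≤ ker G U x t w := by
  simp only [ker, if_pos hw]
  refine ENNReal.inv_le_inv.2 ?_
  have : (nx G (U ∪ us x t) (x t)).ncard ≤ d :=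
    (ncard_le_ncard (fun w hw => hw.1) (hb (x t)).1).trans (hb (x t)).2.1
  exact_mod_cast this

theorem Val.congr {U : Set (Sym2 V)} {v₀ : V} {t : ℕ} {x y : ℕ → V} (h : Val G U v₀ t x)
    (hxy : ∀ s ≤ t, x s = y s) : Val G U v₀ t y := by
  refine ⟨(hxy 0 (Nat.zero_le t)).symm.trans h.1, fun s hs => ?_⟩
  have e : us y s = us x s := (us_congr fun r hr => hxy r (hr.trans hs.le)).symm
  rw [e, ← hxy s hs.le, ← hxy (s + 1) hs]
  exact h.2 s hs

end

end Pool.Agent.P3fb035
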