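import Pool.Agent.P.MP_3fb035_pr.QB0

/-! The kernel of the greedy walk. -/

set_option autoImplicit false

open MeasureTheory Set
open scoped ENNReal symmDiff

namespace Pool.Agent.P3fb035

open Pool.Agent.Lib.GRW

variable {V : Type} {G : SimpleGraph V}
variable [Countable V] [MeasurableSpace V] [DiscreteMeasurableSpace V]
  {Ω : Type} [MeasurableSpace Ω] {P : Measure Ω} {X : ℕ → Ω → V}

section
omit [Countable V] [MeasurableSpace V] [DiscreteMeasurableSpace V]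

omit [MeasurableSpace Ω] in
theorem qb1_next [G.LocallyFinite] (x : ℕ → V) (t : ℕ) :
    nx G (∅ ∪ us x t) (x t) = (nextSet G x t : Set V) := by
  have e : ∀ u, u ∈ freshNbrs G x t ↔ G.Adj (x t) u ∧ s(x t, u) ∉ us x t := fun u => by
    rw [mem_freshNbrs]
    exact and_congr_right fun _ => ⟨fun h ⟨s, hs, e⟩ => h s hs e, fun h s hs e => h ⟨s, hs, e⟩⟩
  ext w
  rw [empty_union, nextSet, Finset.mem_coe]
  split_ifs with h
  · obtain ⟨u, hu⟩ := h
    rw [e] at hu ⊢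
    exact ⟨fun h => ⟨h.1, h.2.resolve_right fun k => hu.2 (k u hu.1)⟩, fun h => ⟨h.1, Or.inl h.2⟩⟩
  · rw [SimpleGraph.mem_neighborFinset]
    exact ⟨fun k => k.1, fun k => ⟨k, Or.inr fun z hz => by_contra fun c => h ⟨z, (e z).2 ⟨hz, c⟩⟩⟩⟩

omit [MeasurableSpace Ω] in
theorem qb1_map (φ : G ≃g G) (x : ℕ → V) (t : ℕ) :
    nx G (∅ ∪ us (fun s => φ (x s)) t) (φ (x t)) = φ '' nx G (∅ ∪ us x t) (x t) := by
  have e : ∀ u, s(φ (x t), φ u) ∈ us (fun s => φ (x s)) t ↔ s(x t, u) ∈ us x t := fun u =>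
    exists_congr fun s => and_congr_right fun _ => by simp
  ext w
  obtain ⟨w, rfl⟩ := φ.surjective w
  rw [φ.injective.mem_set_image, empty_union, empty_union]
  refine and_congr φ.map_adj_iff (or_congr (e w).not ?_)
  unfold Exh
  rw [φ.surjective.forall]
  exact forall_congr' fun z => imp_congr φ.map_adj_iff (e z)

theorem isWalk_of_grw [G.LocallyFinite] {o : V} (h : IsGRW G o P X) : IsWalk (ker G ∅) o P X := by
  refine ⟨h.1, h.2.1, h.2.2.1, fun t x => ?_⟩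
  rw [h.2.2.2, stepProb_eq, ker, qb1_next, ncard_coe_finset]
  by_cases c : x (t + 1) ∈ nextSet G x t
  · rw [if_pos c, if_pos (Finset.mem_coe.2 c)]
  · rw [if_neg c, if_neg fun k => c (Finset.mem_coe.1 k)]

theorem walk_map {o : V} (φ : G ≃g G) (h : IsWalk (ker G ∅) o P X) :
    IsWalk (ker G ∅) (φ o) P fun t ω => φ (X t ω) := by
  refine ⟨h.1, fun t v => ?_, by simpa using h.2.2.1, fun t y => ?_⟩
  · obtain ⟨v, rfl⟩ := φ.surjective v
    simpa using h.2.1 t v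
  · obtain ⟨x, rfl⟩ : ∃ x : ℕ → V, y = fun s => φ (x s) := ⟨fun s => φ.symm (y s), by simp⟩
    have h1 : ker G ∅ (fun s => φ (x s)) t (φ (x (t + 1))) = ker G ∅ x t (x (t + 1)) := by
      unfold ker
      rw [qb1_map, ncard_image_of_injective _ φ.injective]
      by_cases c : x (t + 1) ∈ nx G (∅ ∪ us x t) (x t)
      · rw [if_pos c, if_pos (mem_image_of_mem _ c)]
      · rw [if_neg c, if_neg fun k => c (φ.injective.mem_set_image.1 k)]
    rw [h1]
    simpa using h.2.2.2 t x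

theorem val_of_ne_zero {U : Set (Sym2 V)} {v₀ : V} (h : IsWalk (ker G U) v₀ P X) {t : ℕ}
    {x : ℕ → V} (hx : P (cyl X t x) ≠ 0) : Val G U v₀ t x := by
  classical
  induction t with
  | zero =>
    refine ⟨by_contra fun c => hx ?_, fun s hs => absurd hs (Nat.not_lt_zero s)⟩
    exact (h.cyl_zero x).trans (if_neg c)
  | succ t ih =>
    rw [h.cyl_succ, mul_ne_zero_iff] at hx
    refine ⟨(ih hx.1).1, fun s hs => ?_⟩
    rcases (Nat.lt_succ_iff.1 hs).lt_or_eq with k | rfl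
    · exact (ih hx.1).2 s k
    · exact by_contra fun c => hx.2 (if_neg c)

theorem cyl_ge {d : ℕ} (hb : Bd G d) {U : Set (Sym2 V)} {v₀ : V} (h : IsWalk (ker G U) v₀ P X)
    {t n : ℕ} {y : ℕ → V} (hy : ∀ s, t ≤ s → s < t + n → y (s + 1) ∈ nx G (U ∪ us y s) (y s)) :
    (d : ℝ≥0∞)⁻¹ ^ n * P (cyl X t y) ≤ P (cyl X (t + n) y) := by
  induction n with
  | zero => simp
  | succ n ih =>
    rw [← add_assoc, h.cyl_succ, pow_succ, mul_right_comm]
    exact mul_le_mul' (ih fun s h1 h2 => hy s h1 (by omega))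
      (ker_ge hb (hy (t + n) (by omega) (by omega)))

theorem cyl_ne_zero {d : ℕ} (hb : Bd G d) {U : Set (Sym2 V)} {v₀ : V}
    (h : IsWalk (ker G U) v₀ P X) {t : ℕ} {x : ℕ → V} (hx : Val G U v₀ t x) :
    P (cyl X t x) ≠ 0 := by
  classical
  have h1 := cyl_ge hb h (t := 0) (n := t) (y := x) fun s _ hs => hx.2 s (by omega)
  have h2 : P (cyl X 0 x) = 1 := (h.cyl_zero x).trans (if_pos hx.1)
  rw [h2, mul_one, zero_add] at h1
  exact fun c => pow_ne_zero t (ENNReal.inv_ne_zero.2 (ENNReal.natCast_ne_top d))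
    (le_zero_iff.1 (c ▸ h1))

end

omit [MeasurableSpace V] [DiscreteMeasurableSpace V] in
theorem ae_val {U : Set (Sym2 V)} {v₀ : V} (h : IsWalk (ker G U) v₀ P X) :
    ∀ᵐ ω ∂P, ∀ t, Val G U v₀ t (pth X ω) := by
  rw [ae_all_iff]
  intro t
  rw [ae_iff]
  have : {ω | ¬ Val G U v₀ t (pth X ω)} ⊆
      ⋃ a : {a : Fin (t + 1) → V // ¬ Val G U v₀ t (ext t a)}, cyl X t (ext t a.1) := by
    intro ω hω
    have hmem : ω ∈ cyl X t (ext t fun i => X i ω) := fun s hs => by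
      simp [Lib.GRW.ext, min_eq_left hs]
    exact mem_iUnion.2 ⟨⟨fun i => X i ω, fun hv => hω (hv.congr fun s hs => (hmem s hs).symm)⟩, hmem⟩
  exact measure_mono_null this
    (measure_iUnion_null fun a => by_contra fun c => a.2 (val_of_ne_zero h c))

omit [MeasurableSpace V] [DiscreteMeasurableSpace V] in
theorem ae_adj {U : Set (Sym2 V)} {v₀ : V} (h : IsWalk (ker G U) v₀ P X) :
    ∀ᵐ ω ∂P, pth X ω 0 = v₀ ∧ ∀ s, G.Adj (pth X ω s) (pth X ω (s + 1)) := by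
  filter_upwards [ae_val h] with ω hω
  exact ⟨(hω 0).1, fun s => ((hω (s + 1)).2 s (Nat.lt_succ_self s)).1⟩

omit [MeasurableSpace V] [DiscreteMeasurableSpace V] in
theorem exists_ker {d : ℕ} (hb : Bd G d) (U : Set (Sym2 V)) (v₀ : V) :
    ∃ (Ω : Type) (_ : MeasurableSpace Ω) (P : Measure Ω) (X : ℕ → Ω → V),
      IsWalk (ker G U) v₀ P X :=
  exists_walk (k := ker G U) (fun _ _ _ h => ker_congr U h) (tsum_ker hb U) v₀

theorem law_tr (ht : Tr G) {o o' : V} (h : IsWalk (ker G ∅) o P X) {Ω' : Type}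
    [MeasurableSpace Ω'] {P' : Measure Ω'} {X' : ℕ → Ω' → V} (h' : IsWalk (ker G ∅) o' P' X') :
    P (pth X ⁻¹' Of o) = P' (pth X' ⁻¹' Of o') ∧ P (pth X ⁻¹' Nv o) = P' (pth X' ⁻¹' Nv o') := by
  obtain ⟨φ, rfl⟩ := ht o o'
  have h1 := (walk_map φ h).law h' (meas_Of (φ o))
  have h2 := (walk_map φ h).law h' (meas_Nv (φ o))
  refine ⟨Eq.trans (congrArg P ?_) h1, Eq.trans (congrArg P ?_) h2⟩
  · ext ω
    simp [Of, pth]
  · ext ω
    simp [Nv, pth]

end Pool.Agent.P3fb035
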