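import Pool.Agent.P.MP_3fb035_pr.QB1

/-! Runs and histories; escape probabilities. -/

set_option autoImplicit false

open MeasureTheory Set
open scoped ENNReal symmDiff

namespace Pool.Agent.P3fb035

open Pool.Agent.Lib.GRW

variable {V : Type} {G : SimpleGraph V}
variable [Countable V] [MeasurableSpace V] [DiscreteMeasurableSpace V]
  {Ω : Type} [MeasurableSpace Ω] {P : Measure Ω} {X : ℕ → Ω → V}

variable {U : Set (Sym2 V)} {v₀ : V} {d : ℕ}

omit [Countable V] [MeasurableSpace V] [DiscreteMeasurableSpace V] in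
open Classical in
theorem qb2_us (x : ℕ → V) (t : ℕ) (w : V) :
    us (Function.update x (t + 1) w) (t + 1) = insert s(x t, w) (us x t) := by
  have hx : ∀ s ≤ t, Function.update x (t + 1) w s = x s := fun s hs =>
    Function.update_of_ne (by omega) _ _
  rw [us_succ, us_congr hx, hx t le_rfl, Function.update_self]

omit [Countable V] [MeasurableSpace V] [DiscreteMeasurableSpace V] in
theorem qb2_hist {S : Set V} {n : ℕ} {U0 E : Set (Sym2 V)} {v p : V}
    (hr : Run G S n U0 v E p) : ∀ (t : ℕ) (x : ℕ → V), U ∪ us x t = U0 → x t = v →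
    ∃ y : ℕ → V, (∀ s ≤ t, y s = x s) ∧ y (t + n) = p ∧ us y (t + n) = us x t ∪ E ∧
      ∀ s, t ≤ s → s < t + n → y (s + 1) ∈ nx G (U ∪ us y s) (y s) ∧ y (s + 1) ∈ S := by
  classical
  induction hr with
  | nil U0 v =>
    intro t x _ hv
    exact ⟨x, fun _ _ => rfl, hv, (union_empty _).symm, fun s h1 h2 => absurd h2 (by omega)⟩
  | @cons n U0 E v w v' hw hS _ ih =>
    intro t x hU hv
    have hx : ∀ s ≤ t, Function.update x (t + 1) w s = x s := fun s hs =>
      Function.update_of_ne (by omega) _ _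
    have hus := qb2_us x t w
    rw [hv] at hus
    obtain ⟨y, h1, h2, h3, h4⟩ := ih (t + 1) (Function.update x (t + 1) w)
      (by rw [hus, union_insert, hU]) (Function.update_self ..)
    have e : t + (n + 1) = t + 1 + n := by omega
    have h5 : ∀ s ≤ t, y s = x s := fun s hs => (h1 s (by omega)).trans (hx s hs)
    refine ⟨y, h5, by rw [e, h2], by rw [e, h3, hus, insert_union, union_insert],
      fun s hs hs' => ?_⟩
    rcases hs.eq_or_lt with rfl | hs
    · have h6 : y (t + 1) = w := (h1 _ le_rfl).trans (Function.update_self ..)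
      rw [h6, us_congr h5, h5 t le_rfl, hU, hv]
      exact ⟨hw, hS⟩
    · exact h4 s hs (by omega)

omit [Countable V] [MeasurableSpace V] [DiscreteMeasurableSpace V] in
theorem hist_of {S : Set V} {n t : ℕ} {x : ℕ → V} {E : Set (Sym2 V)} {p : V}
    (hr : Run G S n (U ∪ us x t) (x t) E p) :
    ∃ y : ℕ → V, (∀ s ≤ t, y s = x s) ∧ y (t + n) = p ∧ us y (t + n) = us x t ∪ E ∧
      ∀ s, t ≤ s → s < t + n → y (s + 1) ∈ nx G (U ∪ us y s) (y s) ∧ y (s + 1) ∈ S := by
  exact qb2_hist hr t x rfl rfl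

omit [Countable V] [MeasurableSpace V] [DiscreteMeasurableSpace V] in
theorem run_of {S : Set V} {n t : ℕ} {y : ℕ → V}
    (hy : ∀ s, t ≤ s → s < t + n → y (s + 1) ∈ nx G (U ∪ us y s) (y s) ∧ y (s + 1) ∈ S) :
    ∃ E, Run G S n (U ∪ us y t) (y t) E (y (t + n)) ∧ us y (t + n) = us y t ∪ E := by
  induction n generalizing t with
  | zero => exact ⟨∅, Run.nil _ _, (union_empty _).symm⟩
  | succ n ih =>
    obtain ⟨E, h1, h2⟩ := ih (t := t + 1) fun s hs hs' => hy s (by omega) (by omega)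
    have e : t + (n + 1) = t + 1 + n := by omega
    have h3 := hy t le_rfl (by omega)
    rw [us_succ, union_insert] at h1
    refine ⟨insert s(y t, y (t + 1)) E, ?_, ?_⟩
    · rw [e]
      exact Run.cons h3.1 h3.2 h1
    · rw [e, h2, us_succ, insert_union, union_insert]

omit [Countable V] in
theorem qb2_meas (K : Set V) (t n : ℕ) :
    MeasurableSet {y : ℕ → V | ∀ s, t < s → s ≤ t + n → y s ∉ K} :=
  measurableSet_setOfPred.2 (.forall fun s => measurable_const.imp (measurable_const.imp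
    ((Measurable.of_discrete (f := fun v : V => v ∉ K)).comp (measurable_pi_apply s))))

theorem qb2_qn (h : IsWalk (ker G U) v₀ P X) (K : Set V) (n : ℕ) : ∀ (t : ℕ) (x : ℕ → V),
    P (cyl X t x ∩ pth X ⁻¹' {y | ∀ s, t < s → s ≤ t + n → y s ∉ K}) =
      P (cyl X t x) * qn G K n (U ∪ us x t) (x t) := by
  classical
  induction n with
  | zero =>
    intro t x
    have : pth X ⁻¹' {y | ∀ s, t < s → s ≤ t + 0 → y s ∉ K} = univ :=
      eq_univ_of_forall fun ω s h1 h2 => absurd h1 (by omega)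
    rw [this, inter_univ, qn, mul_one]
  | succ n ih =>
    intro t x
    rw [h.cyl_step t x (h.meas_pre (qb2_meas K t (n + 1))), qn, ← ENNReal.tsum_mul_left]
    refine tsum_congr fun w => ?_
    have hx : ∀ s ≤ t, Function.update x (t + 1) w s = x s := fun s hs =>
      Function.update_of_ne (by omega) _ _
    by_cases hw : w ∈ K
    · have : cyl X (t + 1) (Function.update x (t + 1) w) ∩
          pth X ⁻¹' {y | ∀ s, t < s → s ≤ t + (n + 1) → y s ∉ K} = ∅ := by
        refine eq_empty_of_forall_notMem fun ω hω => hω.2 (t + 1) (by omega) (by omega) ?_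
        have h1 : pth X ω (t + 1) = w := (hω.1 (t + 1) le_rfl).trans (Function.update_self ..)
        rwa [h1]
      rw [this, measure_empty, if_neg fun h1 => h1.2 hw, mul_zero]
    · have : cyl X (t + 1) (Function.update x (t + 1) w) ∩
          pth X ⁻¹' {y | ∀ s, t < s → s ≤ t + (n + 1) → y s ∉ K} =
          cyl X (t + 1) (Function.update x (t + 1) w) ∩
          pth X ⁻¹' {y | ∀ s, t + 1 < s → s ≤ t + 1 + n → y s ∉ K} := by
        ext ω
        refine and_congr_right fun hω => ⟨fun h1 s h2 h3 => h1 s (by omega) (by omega),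
          fun h1 s h2 h3 => ?_⟩
        rcases (Nat.succ_le_of_lt h2).eq_or_lt with rfl | h4
        · have h5 : pth X ω (t + 1) = w :=
            (hω (t + 1) le_rfl).trans (Function.update_self ..)
          exact h5 ▸ hw
        · exact h1 s h4 (by omega)
      rw [this, ih, h.cyl_succ, cyl_congr hx, ker_congr U hx, Function.update_self, qb2_us,
        union_insert, mul_assoc, ker]
      by_cases h1 : w ∈ nx G (U ∪ us x t) (x t)
      · rw [if_pos h1, if_pos ⟨h1, hw⟩]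
      · rw [if_neg h1, if_neg fun h2 => h1 h2.1, zero_mul]

theorem q_cyl (h : IsWalk (ker G U) v₀ P X) (K : Set V) (t : ℕ) (x : ℕ → V) :
    P (cyl X t x ∩ pth X ⁻¹' {y | ∀ s > t, y s ∉ K}) =
      P (cyl X t x) * Qe G K (U ∪ us x t) (x t) := by
  have := h.1
  have h1 : cyl X t x ∩ pth X ⁻¹' {y | ∀ s > t, y s ∉ K} =
      ⋂ n : ℕ, cyl X t x ∩ pth X ⁻¹' {y | ∀ s, t < s → s ≤ t + n → y s ∉ K} := by
    ext ω
    rw [mem_iInter]
    exact ⟨fun h1 n => ⟨h1.1, fun s h2 _ => h1.2 s h2⟩,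
      fun h1 => ⟨(h1 0).1, fun s h2 => (h1 s).2 s h2 (by omega)⟩⟩
  have h2 : Antitone fun n : ℕ =>
      cyl X t x ∩ pth X ⁻¹' {y | ∀ s, t < s → s ≤ t + n → y s ∉ K} :=
    fun m n hmn ω hω => ⟨hω.1, fun s h2 h3 => hω.2 s h2 (by omega)⟩
  rw [h1, h2.measure_iInter
    (fun n => ((h.meas_cyl t x).inter (h.meas_pre (qb2_meas K t n))).nullMeasurableSet)
    ⟨0, measure_ne_top _ _⟩, Qe, ENNReal.mul_iInf fun h3 => absurd h3 (measure_ne_top _ _)]
  exact iInf_congr fun n => qb2_qn h K n t x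

theorem p3 (hb : Bd G d) (h : IsWalk (ker G U) v₀ P X) {S K : Set V} {t : ℕ} {x : ℕ → V}
    {c : ℝ≥0∞} (he : Es G d S K (U ∪ us x t) (x t) c) :
    c * P (cyl X t x) ≤
      P (cyl X t x ∩ pth X ⁻¹' ({y | ∀ s > t, y s ∈ S ∨ y s ∉ K} ∩ Ev K)) := by
  obtain ⟨n, E, v', hr, hv', hc⟩ := he
  obtain ⟨y, h1, h2, h3, h4⟩ := hist_of hr
  have h5 : cyl X (t + n) y ∩ pth X ⁻¹' {z | ∀ s > t + n, z s ∉ K} ⊆
      cyl X t x ∩ pth X ⁻¹' ({y | ∀ s > t, y s ∈ S ∨ y s ∉ K} ∩ Ev K) := by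
    intro ω hω
    refine ⟨fun s hs => (hω.1 s (by omega)).trans (h1 s hs), fun s hs => ?_, t + n, hω.2⟩
    rcases le_or_gt s (t + n) with h6 | h6
    · obtain ⟨s, rfl⟩ : ∃ s', s = s' + 1 := ⟨s - 1, by omega⟩
      have h7 : pth X ω (s + 1) = y (s + 1) := hω.1 _ h6
      exact Or.inl (h7 ▸ (h4 s (by omega) (by omega)).2)
    · exact Or.inr (hω.2 s h6)
  refine le_trans ?_ (measure_mono h5)
  rw [q_cyl h, h2, h3, ← union_assoc, ← cyl_congr h1]
  calc c * P (cyl X t y) ≤ (d : ℝ≥0∞)⁻¹ ^ n * Qe G K (U ∪ us x t ∪ E) v' * P (cyl X t y) :=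
        mul_le_mul_left hc _
    _ = (d : ℝ≥0∞)⁻¹ ^ n * P (cyl X t y) * Qe G K (U ∪ us x t ∪ E) v' := mul_right_comm _ _ _
    _ ≤ _ := mul_le_mul_left (cyl_ge hb h fun s h6 h7 => (h4 s h6 h7).1) _

theorem n3 (h : IsWalk (ker G U) v₀ P X) (d : ℕ) {K : Set V} {t : ℕ} {x : ℕ → V}
    (hp : P (cyl X t x ∩ pth X ⁻¹' Ev K) ≠ 0) :
    ∃ c ≠ 0, Es G d univ K (U ∪ us x t) (x t) c := by
  have h1 : ∃ T, P (cyl X t x ∩ pth X ⁻¹' {y | ∀ s > T, y s ∉ K}) ≠ 0 := by
    by_contra h1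
    push Not at h1
    refine hp (measure_mono_null ?_ (measure_iUnion_null h1))
    rintro ω ⟨h2, T, h3⟩
    exact mem_iUnion.2 ⟨T, h2, h3⟩
  obtain ⟨T, hT⟩ := h1
  obtain ⟨n, hn⟩ : ∃ n, T < t + n := ⟨T + 1, by omega⟩
  obtain ⟨y, h2, h3⟩ := cyl_split (Nat.le_add_right t n) hT
  obtain ⟨ω, hω⟩ := nonempty_of_measure_ne_zero h3
  have h4 : y (t + n) ∉ K := by
    have h5 : pth X ω (t + n) = y (t + n) := hω.1 _ le_rfl
    exact h5 ▸ hω.2 _ hn
  have h5 : P (cyl X (t + n) y ∩ pth X ⁻¹' {z | ∀ s > t + n, z s ∉ K}) ≠ 0 := fun h5 =>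
    h3 (measure_mono_null (inter_subset_inter_right _ fun ω' hω' s hs => hω' s (hn.trans hs)) h5)
  rw [q_cyl h, mul_ne_zero_iff] at h5
  have h6 := val_of_ne_zero h h5.1
  obtain ⟨E, h7, h8⟩ := run_of (G := G) (U := U) (S := univ) (n := n) (t := t) (y := y)
    fun s _ hs => ⟨h6.2 s hs, mem_univ _⟩
  rw [h8, us_congr h2, ← union_assoc] at h5
  rw [us_congr h2, h2 t le_rfl] at h7
  exact ⟨_, mul_ne_zero (pow_ne_zero n (ENNReal.inv_ne_zero.2 (ENNReal.natCast_ne_top d))) h5.2,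
    n, E, _, h7, h4, le_rfl⟩

/-- escape from the start -/
theorem nv_of_es (hb : Bd G d) {o : V} (h : IsWalk (ker G ∅) o P X) {S K : Set V} {c : ℝ≥0∞}
    (hc : c ≠ 0) (he : Es G d S K ∅ o c) (hS : o ∉ S) (hK : o ∈ K) :
    P (pth X ⁻¹' Nv o) ≠ 0 := by
  have h1 : Es G d S K (∅ ∪ us (fun _ => o) 0) ((fun _ : ℕ => o) 0) c := by
    rwa [us_zero, union_empty]
  have h2 := p3 hb h h1
  rw [h.cyl_start, mul_one] at h2
  refine fun h3 => hc (le_antisymm (h2.trans (le_of_eq (measure_mono_null ?_ h3))) zero_le)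
  rintro ω ⟨-, h4, -⟩ m hm h5
  rcases h4 m hm with h6 | h6
  · exact hS (h5 ▸ h6)
  · exact h6 (h5 ▸ hK)

end Pool.Agent.P3fb035
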