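import Pool.Agent.P.MP_3fb035_pr.QG0

/-! Connectivity. -/

set_option autoImplicit false

open MeasureTheory Set
open scoped ENNReal symmDiff

namespace Pool.Agent.P3fb035

open Pool.Agent.Lib.GRW

variable {V : Type} {G : SimpleGraph V}

variable {S S' W F A B : Set V} {a b c v : V}

theorem exit_edge (h : Cn G S a b) (ha : a ∈ A) (hb : b ∉ A) :
    ∃ p q, p ∈ A ∧ q ∉ A ∧ q ∈ S ∧ (p = a ∨ p ∈ S) ∧ G.Adj p q := by
  induction h with
  | refl => exact absurd ha hb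
  | @tail p q h1 h2 ih =>
    by_cases hp : p ∈ A
    · exact ⟨p, q, hp, hb, h2.2, Cn.mem h1, h2.1⟩
    · exact ih hp

theorem to_sep (hc : G.Preconnected) (hF : Clo G F W) (hW : W.Nonempty) (ha : a ∈ F) :
    ∃ w ∈ W, Cn G (F ∪ W) a w := by
  obtain ⟨w, hw⟩ := hW
  have h : Cn G univ a w := cn_univ hc a w
  induction h using Relation.ReflTransGen.head_induction_on with
  | refl => exact ⟨w, hw, Cn.rfl⟩
  | @head p q h1 h2 ih =>
    rcases hF p ha q h1.1 with h3 | h3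
    · obtain ⟨u, hu, h4⟩ := ih h3
      exact ⟨u, hu, (Cn.single h1.1 (Or.inl h3)).trans h4⟩
    · exact ⟨q, h3, Cn.single h1.1 (Or.inr h3)⟩

theorem qg1_path (h : Cn G S a b) (ha : a ∈ S) :
    ∃ B : Set V, B.Finite ∧ a ∈ B ∧ b ∈ B ∧ B ⊆ S ∧ ∀ c ∈ B, Cn G B a c := by
  induction h with
  | refl => exact ⟨{a}, finite_singleton a, rfl, rfl, singleton_subset_iff.mpr ha,
      fun c hc => (show c = a from hc) ▸ Cn.rfl⟩
  | @tail p q h1 h2 ih =>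
    obtain ⟨B, b1, b2, b3, b4, b5⟩ := ih
    refine ⟨insert q B, b1.insert q, Or.inr b2, Or.inl rfl, insert_subset h2.2 b4, ?_⟩
    rintro c (rfl | hc)
    · exact ((b5 p b3).mono (subset_insert _ _)).trans (Cn.single h2.1 (Or.inl rfl))
    · exact (b5 c hc).mono (subset_insert _ _)

theorem fin_sup (hS : Con G S) (hA : A.Finite) (hAS : A ⊆ S) :
    ∃ B : Set V, B.Finite ∧ A ⊆ B ∧ B ⊆ S ∧ Con G B := by
  rcases A.eq_empty_or_nonempty with rfl | ⟨v, hv⟩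
  · exact ⟨∅, finite_empty, subset_rfl, empty_subset _, fun a ha => absurd ha (notMem_empty a)⟩
  have h1 : ∀ a : A, ∃ B : Set V, B.Finite ∧ v ∈ B ∧ a.1 ∈ B ∧ B ⊆ S ∧ ∀ c ∈ B, Cn G B v c :=
    fun a => qg1_path (hS v (hAS hv) a (hAS a.2)) (hAS hv)
  choose B h2 h3 h4 h5 h6 using h1
  have := hA.to_subtype
  refine ⟨⋃ a, B a, finite_iUnion h2, fun a ha => mem_iUnion.mpr ⟨⟨a, ha⟩, h4 _⟩,
    iUnion_subset h5, con_of_base (v := v) (mem_iUnion.mpr ⟨⟨v, hv⟩, h3 _⟩) fun c hc => ?_⟩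
  obtain ⟨a, ha⟩ := mem_iUnion.mp hc
  exact (h6 a c ha).mono (subset_iUnion B a)

theorem con_diff (hS : Con G S) (hv : v ∈ S) (hvB : v ∉ B)
    (hB : ∀ a ∈ B, ∀ b ∈ S, G.Adj a b → b ∈ B ∨ b = v) : Con G (S \ B) := by
  refine con_of_base (v := v) ⟨hv, hvB⟩ fun q hq => ?_
  have h : Cn G S v q := hS v hv q hq.1
  have hq2 := hq.2
  clear hq
  induction h with
  | refl => exact Cn.rfl
  | @tail p q h1 h2 ih =>
    by_cases hp : p ∈ B
    · rcases hB p hp q h2.2 h2.1 with h3 | h3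
      · exact absurd h3 hq2
      · rw [h3]; exact Cn.rfl
    · exact (ih hp).trans (Cn.single h2.1 ⟨h2.2, hq2⟩)

theorem con_punct (hS : Con G S) (hv : v ∈ S) (hA : A ⊆ S) (hvA : v ∉ A) (hcA : Con G A)
    (hN : ∀ b, G.Adj v b → b ∈ A) : Con G (S \ {v}) := by
  have hAS : A ⊆ S \ {v} := fun a ha => ⟨hA ha, fun e => hvA ((show a = v from e) ▸ ha)⟩
  have key : ∀ q, Cn G S q v → q ≠ v → ∃ z ∈ A, Cn G (S \ {v}) q z := by
    intro q h
    induction h using Relation.ReflTransGen.head_induction_on with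
    | refl => exact fun h => absurd rfl h
    | @head p q h1 h2 ih =>
      intro _
      by_cases hq : q = v
      · exact ⟨p, hN p (hq ▸ h1.1.symm), Cn.rfl⟩
      · obtain ⟨z, hz, h3⟩ := ih hq
        exact ⟨z, hz, (Cn.single h1.1 (show q ∈ S \ {v} from ⟨h1.2, hq⟩)).trans h3⟩
  intro a ha b hb
  obtain ⟨z, hz, h1⟩ := key a (hS a ha.1 v hv) ha.2
  obtain ⟨z', hz', h2⟩ := key b (hS b hb.1 v hv) hb.2
  exact (h1.trans ((hcA z hz z' hz').mono hAS)).trans (h2.symm hb)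

theorem Con.exists_adj (hS : Con G S) (hn : S.Nontrivial) (ha : a ∈ S) : ∃ b ∈ S, G.Adj a b := by
  obtain ⟨b, hb, hba⟩ := hn.exists_ne a
  obtain ⟨p, q, h1, -, h3, -, h5⟩ := exit_edge (A := {a}) (hS a ha b hb) rfl hba
  exact ⟨q, h3, (show p = a from h1) ▸ h5⟩

theorem nb_fin (hl : LF G) (hA : A.Finite) : {b | ∃ a ∈ A, G.Adj a b}.Finite := by
  refine (hA.biUnion fun a _ => hl a).subset ?_
  rintro b ⟨a, ha, h⟩
  exact mem_biUnion ha h

theorem st_fin (hl : LF G) (hA : A.Finite) (B : Set V) : (St G A B).Finite := by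
  refine (hA.biUnion fun a _ => (hl a).image fun b => s(a, b)).subset ?_
  rintro e ⟨a, ha, b, -, h, rfl⟩
  exact mem_biUnion ha ⟨b, h, rfl⟩

theorem mem_st : s(a, b) ∈ St G A B ↔ G.Adj a b ∧ ((a ∈ A ∧ b ∈ B) ∨ (b ∈ A ∧ a ∈ B)) := by
  constructor
  · rintro ⟨p, hp, q, hq, h, e⟩
    rcases Sym2.eq_iff.mp e with ⟨rfl, rfl⟩ | ⟨rfl, rfl⟩
    · exact ⟨h, Or.inl ⟨hp, hq⟩⟩
    · exact ⟨h.symm, Or.inr ⟨hp, hq⟩⟩
  · rintro ⟨h, ⟨h1, h2⟩ | ⟨h1, h2⟩⟩
    · exact ⟨a, h1, b, h2, h, rfl⟩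
    · exact ⟨b, h1, a, h2, h.symm, Sym2.eq_swap⟩

theorem vx_fin {H : Set (Sym2 V)} (hH : H.Finite) : {a | ∃ b, s(a, b) ∈ H}.Finite := by
  have h1 : ∀ e : Sym2 V, {a | a ∈ e}.Finite := fun e => by
    induction e using Sym2.ind with
    | h p q =>
      refine (toFinite ({p, q} : Set V)).subset fun a ha => ?_
      exact Sym2.mem_iff.mp ha
  refine (hH.biUnion fun e _ => h1 e).subset ?_
  rintro a ⟨b, hb⟩
  exact mem_biUnion hb (Sym2.mem_mk_left a b)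

theorem ball_fin (hl : LF G) (hA : A.Finite) (m : ℕ) :
    {a | ∃ (x : ℕ → V) (t : ℕ), t ≤ m ∧ x 0 = a ∧ x t ∈ A ∧
      ∀ s < t, G.Adj (x s) (x (s + 1))}.Finite := by
  induction m with
  | zero =>
    refine hA.subset ?_
    rintro a ⟨x, t, h1, h2, h3, -⟩
    obtain rfl : t = 0 := by omega
    exact h2 ▸ h3
  | succ m ih =>
    refine (hA.union (nb_fin hl ih)).subset ?_
    rintro a ⟨x, t, h1, h2, h3, h4⟩
    rcases t with _ | t
    · exact Or.inl (h2 ▸ h3)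
    · refine Or.inr ⟨x 1, ⟨fun s => x (s + 1), t, by omega, rfl, h3, fun s hs => h4 _ (by omega)⟩, ?_⟩
      exact h2 ▸ (h4 0 (by omega)).symm

theorem stay (hF : Clo G F W) {y : ℕ → V} (ha : ∀ s, G.Adj (y s) (y (s + 1))) (hW : y ∈ Ev W) :
    y ∈ Ev F ∨ y ∈ Ev Fᶜ := by
  obtain ⟨T, hT⟩ := hW
  by_cases h : ∃ s > T, y s ∈ F
  · obtain ⟨s, hs, h1⟩ := h
    refine Or.inr ⟨s, fun t ht => not_not.mpr ?_⟩
    have ht' : s ≤ t := le_of_lt ht
    clear ht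
    induction t, ht' using Nat.le_induction with
    | base => exact h1
    | succ t ht ih => exact (hF _ ih _ (ha t)).resolve_right (hT _ (by omega))
  · exact Or.inl ⟨T, fun s hs h1 => h ⟨s, hs, h1⟩⟩

theorem qg1_of {y : ℕ → V} (h : y ∉ Of a) : ∃ T, ∀ s > T, y s ≠ a := by
  by_contra h1
  refine h fun N => ?_
  by_contra h2
  exact h1 ⟨N, fun s hs e => h2 ⟨s, le_of_lt hs, e⟩⟩

theorem ev_fin {y : ℕ → V} (hA : A.Finite) (hy : ∀ a ∈ A, y ∉ Of a) : y ∈ Ev A := by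
  induction A, hA using Set.Finite.induction_on with
  | empty => exact ⟨0, fun s _ => notMem_empty _⟩
  | @insert a A _ _ ih =>
    obtain ⟨T, hT⟩ := ih fun b hb => hy b (Or.inr hb)
    obtain ⟨T', hT'⟩ := qg1_of (hy a (Or.inl rfl))
    refine ⟨max T T', fun s hs => ?_⟩
    rintro (h | h)
    · exact hT' s (lt_of_le_of_lt (le_max_right _ _) hs) h
    · exact hT s (lt_of_le_of_lt (le_max_left _ _) hs) h

theorem Ev.union {y : ℕ → V} (hA : y ∈ Ev A) (hB : y ∈ Ev B) : y ∈ Ev (A ∪ B) := by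
  obtain ⟨T, hT⟩ := hA
  obtain ⟨T', hT'⟩ := hB
  refine ⟨max T T', fun s hs => ?_⟩
  rintro (h | h)
  · exact hT s (lt_of_le_of_lt (le_max_left _ _) hs) h
  · exact hT' s (lt_of_le_of_lt (le_max_right _ _) hs) h

theorem Ev.anti {y : ℕ → V} (hA : y ∈ Ev A) (hB : B ⊆ A) : y ∈ Ev B := by
  obtain ⟨T, hT⟩ := hA
  exact ⟨T, fun s hs h => hT s hs (hB h)⟩

theorem Ev.not_of {y : ℕ → V} (hA : y ∈ Ev A) (ha : a ∈ A) : y ∉ Of a := by
  obtain ⟨T, hT⟩ := hA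
  intro h
  obtain ⟨n, hn, e⟩ := h (T + 1)
  exact hT n hn (e ▸ ha)

end Pool.Agent.P3fb035
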