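import Pool.Agent.P.MP_3fb035_pr.QA2
import Pool.Agent.P.MP_3fb035_pr.QB1
import Pool.Agent.P.MP_3fb035_pr.QG1

/-! Recurrence spreads to all vertices. -/

set_option autoImplicit false

open MeasureTheory Set
open scoped ENNReal symmDiff

namespace Pool.Agent.P3fb035

open Pool.Agent.Lib.GRW

variable {V : Type} {G : SimpleGraph V}
variable [Countable V] [MeasurableSpace V] [DiscreteMeasurableSpace V]
  {Ω : Type} [MeasurableSpace Ω] {P : Measure Ω} {X : ℕ → Ω → V}

variable {U : Set (Sym2 V)} {v₀ : V} {d : ℕ}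

omit [Countable V] [MeasurableSpace V] [DiscreteMeasurableSpace V] in
theorem exh_of_often (hl : LF G) {y : ℕ → V} (hv : ∀ t, Val G U v₀ t y) {a : V} (ha : y ∈ Of a) :
    ∃ T, ∀ t ≥ T, Exh G (U ∪ us y t) a := by
  by_contra hn
  have h0 : ∀ t, ¬ Exh G (U ∪ us y t) a := fun T e =>
    hn ⟨T, fun t ht => e.mono (union_subset_union_right _ (us_mono y ht))⟩
  have hi : {t | y t = a}.Infinite := Set.infinite_of_forall_exists_gt fun N => by
    obtain ⟨n, h1, h2⟩ := ha (N + 1)
    exact ⟨n, h2, h1⟩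
  have key : ∀ s t, y s = a → y t = a → s < t → y (s + 1) ≠ y (t + 1) := by
    intro s t hs ht hst e
    have h1 := (hv (t + 1)).2 t (Nat.lt_succ_self t)
    rw [ht] at h1
    refine h1.2.elim (fun h2 => h2 (Or.inr ⟨s, hst, ?_⟩)) (h0 t)
    rw [hs, e]
  refine hi (Finite.of_injOn (f := fun t => y (t + 1)) (fun t ht => ?_) ?_ (hl a))
  · have h1 := (hv (t + 1)).2 t (Nat.lt_succ_self t)
    rw [show y t = a from ht] at h1
    exact h1.1
  · intro s hs t ht e
    rcases lt_trichotomy s t with h1 | h1 | h1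
    · exact absurd e (key s t hs ht h1)
    · exact h1
    · exact absurd e.symm (key t s ht hs h1)

theorem qc_step (hb : Bd G d) (h : IsWalk (ker G U) v₀ P X) {a b : V} (hab : G.Adj a b) (m : ℕ) :
    ∀ᵐ ω ∂P, (∀ m', ∃ t ≥ m', m ≤ t ∧ pth X ω t = a ∧ Exh G (U ∪ us (pth X ω) t) a) →
      pth X ω ∈ {y : ℕ → V | ∃ s ≥ m, y s = b} := by
  classical
  refine bc h (E := fun t x => m ≤ t ∧ x t = a ∧ Exh G (U ∪ us x t) a) (c := (d : ℝ≥0∞)⁻¹) ?_ ?_
    (ENNReal.inv_ne_zero.2 (ENNReal.natCast_ne_top d)) ?_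
  · rintro t x y e ⟨h1, h2, h3⟩
    exact ⟨h1, e t le_rfl ▸ h2, us_congr e ▸ h3⟩
  · exact measurableSet_setOfPred.2 (.exists fun s => measurable_const.and
      ((Measurable.of_discrete (f := fun v : V => v = b)).comp (measurable_pi_apply s)))
  · rintro t x ⟨h1, h2, h3⟩
    have e : ∀ s ≤ t, Function.update x (t + 1) b s = x s := fun s hs =>
      Function.update_of_ne (by omega) _ _
    have h4 := cyl_ge hb h (t := t) (n := 1) (y := Function.update x (t + 1) b) fun s hs hs' => by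
      obtain rfl : s = t := by omega
      rw [Function.update_self, us_congr e, e s le_rfl, h2]
      exact ⟨hab, Or.inr h3⟩
    rw [pow_one, cyl_congr e] at h4
    refine h4.trans (measure_mono fun ω hω => ⟨fun s hs => ?_, t + 1, by omega, ?_⟩)
    · rw [hω s (by omega), e s hs]
    · exact (hω (t + 1) le_rfl).trans (Function.update_self ..)

theorem often_adj (hb : Bd G d) (h : IsWalk (ker G U) v₀ P X) :
    ∀ᵐ ω ∂P, ∀ a b, G.Adj a b → pth X ω ∈ Of a → pth X ω ∈ Of b := by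
  have main : ∀ (a b : V) (m : ℕ), ∀ᵐ ω ∂P, G.Adj a b →
      (∀ m', ∃ t ≥ m', m ≤ t ∧ pth X ω t = a ∧ Exh G (U ∪ us (pth X ω) t) a) →
        ∃ s ≥ m, pth X ω s = b := by
    intro a b m
    by_cases hab : G.Adj a b
    · filter_upwards [qc_step hb h hab m] with ω hω _ using hω
    · exact Filter.Eventually.of_forall fun ω e => absurd e hab
  have main' := ae_all_iff.2 fun a => ae_all_iff.2 fun b => ae_all_iff.2 (main a b)
  filter_upwards [main', ae_val h] with ω h1 h2 a b hab ha m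
  obtain ⟨T, hT⟩ := exh_of_often hb.lf h2 ha
  refine h1 a b m hab fun m' => ?_
  obtain ⟨t, ht, e⟩ := ha (m' + m + T)
  exact ⟨t, by omega, by omega, e, hT t (by omega)⟩

theorem often_cn (hb : Bd G d) (h : IsWalk (ker G U) v₀ P X) :
    ∀ᵐ ω ∂P, ∀ a b, Cn G univ a b → pth X ω ∈ Of a → pth X ω ∈ Of b := by
  filter_upwards [often_adj hb h] with ω hω a b hab ha
  unfold Cn at hab
  induction hab with
  | refl => exact ha
  | tail _ e ih => exact hω _ _ e.1 ih

theorem ae_ev (hb : Bd G d) (hc : G.Preconnected) (h : IsWalk (ker G U) v₀ P X) (o : V) :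
    ∀ᵐ ω ∂P, pth X ω ∉ Of o → ∀ K : Set V, K.Finite → pth X ω ∈ Ev K := by
  filter_upwards [often_cn hb h] with ω hω ho K hK
  exact ev_fin hK fun a _ ha => ho (hω a o (cn_univ hc a o) ha)

end Pool.Agent.P3fb035
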