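import Pool.Agent.P.MP_3fb035_pr.EvE

/-! States of the greedy walk, legal runs, cuts: definitions. -/

set_option autoImplicit false

open MeasureTheory Set
open scoped ENNReal

namespace Pool.Agent.P3fb035

open Pool.Agent.Lib.GRW

variable {V : Type}

/-- all edges at `v` lie in `U` -/
def Exh (G : SimpleGraph V) (U : Set (Sym2 V)) (v : V) : Prop := ∀ z, G.Adj v z → s(v, z) ∈ U

/-- possible next positions of the walker at `v` when `U` is the set of crossed edges -/
def nx (G : SimpleGraph V) (U : Set (Sym2 V)) (v : V) : Set V :=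
  {w | G.Adj v w ∧ (s(v, w) ∉ U ∨ Exh G U v)}

/-- edges crossed before time `t` -/
def us (x : ℕ → V) (t : ℕ) : Set (Sym2 V) := {e | ∃ s < t, s(x s, x (s + 1)) = e}

open Classical in
/-- transition weights of the walk for which the edges of `U` count as crossed from the start -/
noncomputable def ker (G : SimpleGraph V) (U : Set (Sym2 V)) (x : ℕ → V) (t : ℕ) (w : V) : ℝ≥0∞ :=
  if w ∈ nx G (U ∪ us x t) (x t) then ((nx G (U ∪ us x t) (x t)).ncard : ℝ≥0∞)⁻¹ else 0

/-- legal histories -/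
def Val (G : SimpleGraph V) (U : Set (Sym2 V)) (v₀ : V) (t : ℕ) (x : ℕ → V) : Prop :=
  x 0 = v₀ ∧ ∀ s < t, x (s + 1) ∈ nx G (U ∪ us x s) (x s)

/-- degrees between `1` and `d` -/
def Bd (G : SimpleGraph V) (d : ℕ) : Prop :=
  ∀ v, (G.neighborSet v).Finite ∧ (G.neighborSet v).ncard ≤ d ∧ (G.neighborSet v).Nonempty

/-- all degrees equal `d` -/
def Reg (G : SimpleGraph V) (d : ℕ) : Prop :=
  ∀ v, (G.neighborSet v).Finite ∧ (G.neighborSet v).ncard = d

/-- locally finite -/
def LF (G : SimpleGraph V) : Prop := ∀ v, (G.neighborSet v).Finite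

/-- vertex-transitive -/
def Tr (G : SimpleGraph V) : Prop := ∀ u v : V, ∃ φ : G ≃g G, φ u = v

/-- a legal run of `n` steps from the state `(U, v)` to `v'`; all vertices after the first lie in
`S` and `E` is the set of crossed edges -/
inductive Run (G : SimpleGraph V) (S : Set V) :
    ℕ → Set (Sym2 V) → V → Set (Sym2 V) → V → Prop
  | nil (U : Set (Sym2 V)) (v : V) : Run G S 0 U v ∅ v
  | cons {n : ℕ} {U E : Set (Sym2 V)} {v w v' : V} : w ∈ nx G U v → w ∈ S →
      Run G S n (insert s(v, w) U) w E v' → Run G S (n + 1) U v (insert s(v, w) E) v'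

open Classical in
/-- probability to avoid `K` during the next `n` steps -/
noncomputable def qn (G : SimpleGraph V) (K : Set V) : ℕ → Set (Sym2 V) → V → ℝ≥0∞
  | 0, _, _ => 1
  | n + 1, U, v => ∑' w, if w ∈ nx G U v ∧ w ∉ K then
      ((nx G U v).ncard : ℝ≥0∞)⁻¹ * qn G K n (insert s(v, w) U) w else 0

theorem qn_realize : True := by have := @qn.eq_def; trivial

/-- probability to avoid `K` for ever -/
noncomputable def Qe (G : SimpleGraph V) (K : Set V) (U : Set (Sym2 V)) (v : V) : ℝ≥0∞ :=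
  ⨅ n, qn G K n U v

/-- a run inside `S` followed by avoiding `K` for ever has weight at least `c` -/
def Es (G : SimpleGraph V) (d : ℕ) (S K : Set V) (U : Set (Sym2 V)) (v : V) (c : ℝ≥0∞) : Prop :=
  ∃ n E v', Run G S n U v E v' ∧ v' ∉ K ∧ c ≤ (d : ℝ≥0∞)⁻¹ ^ n * Qe G K (U ∪ E) v'

/-- the trajectory -/
def pth {Ω : Type} (X : ℕ → Ω → V) (ω : Ω) : ℕ → V := fun t => X t ω

/-- trajectories that avoid `K` from some time on -/
def Ev (K : Set V) : Set (ℕ → V) := {y | ∃ T, ∀ s > T, y s ∉ K}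

/-- `U` and `U'` agree on the edges at vertices of `S` -/
def Ag (G : SimpleGraph V) (S : Set V) (U U' : Set (Sym2 V)) : Prop :=
  ∀ a ∈ S, ∀ b, G.Adj a b → (s(a, b) ∈ U ↔ s(a, b) ∈ U')

/-- a path from `a` to `b` whose vertices after the first lie in `S` -/
def Cn (G : SimpleGraph V) (S : Set V) (a b : V) : Prop :=
  Relation.ReflTransGen (fun p q => G.Adj p q ∧ q ∈ S) a b

/-- `S` is connected (or empty) -/
def Con (G : SimpleGraph V) (S : Set V) : Prop := ∀ a ∈ S, ∀ b ∈ S, Cn G S a b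

/-- all neighbours of `F` lie in `F ∪ W` -/
def Clo (G : SimpleGraph V) (F W : Set V) : Prop := ∀ a ∈ F, ∀ b, G.Adj a b → b ∈ F ∨ b ∈ W

/-- the component of `a` after removing `W` -/
def Cp (G : SimpleGraph V) (W : Set V) (a : V) : Set V := {b | Cn G Wᶜ a b}

/-- no cut vertex -/
def Two (G : SimpleGraph V) : Prop := ∀ v a b : V, a ≠ v → b ≠ v → Cn G {v}ᶜ a b

/-- number of edges of `H` at `v` -/
noncomputable def dg (G : SimpleGraph V) (H : Set (Sym2 V)) (v : V) : ℕ :=
  {w | G.Adj v w ∧ s(v, w) ∈ H}.ncard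

/-- `a` is joined to `W` by a path of edges of `X` outside `W` -/
def Lk (G : SimpleGraph V) (X : Set (Sym2 V)) (W : Set V) (a : V) : Prop :=
  ∃ w ∈ W, Relation.ReflTransGen (fun p q => G.Adj p q ∧ s(p, q) ∈ X ∧ q ∉ W) w a

/-- all end points of elements of `J` lie in `S` -/
def Ins (S : Set V) (J : Set (Sym2 V)) : Prop := ∀ a b, s(a, b) ∈ J → a ∈ S

/-- the edges from `A` to `B` -/
def St (G : SimpleGraph V) (A B : Set V) : Set (Sym2 V) :=
  {e | ∃ a ∈ A, ∃ b ∈ B, G.Adj a b ∧ e = s(a, b)}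

/-- `E t x` depends only on `x 0, ..., x t` -/
def Adp (E : ℕ → (ℕ → V) → Prop) : Prop := ∀ t x y, (∀ s ≤ t, x s = y s) → E t x → E t y

/-- the graph has at least `k` ends -/
def Ends (G : SimpleGraph V) (k : ℕ) : Prop :=
  ∃ (S : Finset V) (c : V → Fin k), (∀ u v, u ∉ S → v ∉ S → G.Adj u v → c u = c v) ∧
    ∀ i, {v | v ∉ S ∧ c v = i}.Infinite

/-- a finite connected separator `W` with near side `N`, far side `F`, a finite zone `Y` and a
standard state `X` that can be created from every point of `N ∩ Y` -/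
structure Cut (G : SimpleGraph V) : Type where
  W : Set V
  N : Set V
  F : Set V
  Y : Set V
  X : Set (Sym2 V)
  fin : Y.Finite
  sub : W ⊆ Y
  nb : ∀ a ∈ W, ∀ b, G.Adj a b → b ∈ Y
  ne : W.Nonempty
  con : Con G W
  cloN : Clo G N W
  cloF : Clo G F W
  dNW : Disjoint N W
  dFW : Disjoint F W
  dNF : Disjoint N F
  make : ∀ x ∈ N, x ∈ Y → ∃ n E w, Run G Y n ∅ x E w ∧ w ∈ W ∧ (∀ a ∈ W, Exh G E a) ∧ Ag G F E X

/-- from the standard state the walk escapes to the far side with positive probability -/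
def Good (G : SimpleGraph V) (d : ℕ) (C : Cut G) : Prop :=
  ∃ c ≠ 0, ∀ U, ∀ w ∈ C.W, (∀ a ∈ C.W, Exh G U a) → Ag G C.F U C.X → Es G d (C.W ∪ C.F) C.Fᶜ U w c

/-- time `t` is the first entry into the zone, coming from the near side -/
def Ent (G : SimpleGraph V) (C : Cut G) (t : ℕ) (x : ℕ → V) : Prop :=
  x 0 ∈ C.N ∧ x 0 ∉ C.Y ∧ (∀ s < t, x s ∉ C.Y) ∧ x t ∈ C.Y ∧ ∀ s < t, G.Adj (x s) (x (s + 1))

/-- only the edges that meet `β` -/
def rs (G : SimpleGraph V) (β : Set V) : SimpleGraph V where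
  Adj a b := G.Adj a b ∧ (a ∈ β ∨ b ∈ β)
  symm := ⟨fun _ _ h => ⟨h.1.symm, h.2.symm⟩⟩
  loopless := ⟨fun _ h => G.irrefl h.1⟩

/-- the edges between `N` and its complement are removed -/
def ct (G : SimpleGraph V) (N : Set V) : SimpleGraph V where
  Adj a b := G.Adj a b ∧ (a ∈ N ↔ b ∈ N)
  symm := ⟨fun _ _ h => ⟨h.1.symm, h.2.symm⟩⟩
  loopless := ⟨fun _ h => G.irrefl h.1⟩

/-- the walk on the branch `β` at `v` escapes with positive probability -/
def Bad (G : SimpleGraph V) (β : Set V) (v : V) : Prop :=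
  ∃ n E p, Run (rs G β) univ n ∅ v E p ∧ p ∈ β ∧ Qe (rs G β) βᶜ E p ≠ 0

/-- the automorphism group is unimodular -/
def Unimod (G : SimpleGraph V) : Prop :=
  ∀ u v : V, {w | ∃ φ : G ≃g G, φ u = u ∧ φ v = w}.ncard =
    {w | ∃ φ : G ≃g G, φ v = v ∧ φ u = w}.ncard

/-- every finite set spans a subgraph of average degree at most `δ` -/
def Iso (G : SimpleGraph V) (δ : ℝ) : Prop :=
  ∀ S : Finset V, ((∑ v ∈ S, {w | w ∈ S ∧ G.Adj v w}.ncard : ℕ) : ℝ) ≤ δ * S.card

/-- at most `a ^ n` walks of length `n` between two vertices -/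
def Few (G : SimpleGraph V) (a : ℝ) : Prop :=
  ∀ (n : ℕ) (u v : V), (({p : G.Walk u v | p.length = n}.ncard : ℕ) : ℝ) ≤ a ^ n

section Pairing
variable {G : SimpleGraph V} [G.LocallyFinite]

/-- the trail that leaves `w` through `z` comes back for the first time through `z'`, after
`L + 1` steps -/
def Ret (ω : Om G) (w z z' : V) (L : ℕ) : Prop :=
  orb ω w z L = (z', w) ∧ ∀ j < L, (orb ω w z j).2 ≠ w

/-- all trails that leave `w` come back -/
def Fin1 (ω : Om G) (w : V) : Prop := ∀ z, G.Adj w z → ∃ z' L, Ret ω w z z' L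

/-- all loops of the pairing are finite -/
def AllFin (ω : Om G) : Prop := ∀ w, Fin1 ω w

open Classical in
/-- a new ordering at `w` -/
noncomputable def upd (ω : Om G) (w : V) (r : Rk G w) : Om G := Function.update ω (0, w) r

/-- some trail from `v` into `γ` needs more than `n` steps to come back -/
def Deep (G : SimpleGraph V) [G.LocallyFinite] (n : ℕ) (v : V) (γ : Set V) : Set (Om G) :=
  {ω | ∃ z ∈ γ, G.Adj v z ∧ ∀ j < n, (orb ω v z j).2 ≠ v}

/-- the directed edges of the trail that starts with `(a, b)` -/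
def Ob (ω : Om G) (a b : V) : Set (V × V) := range (orb ω a b)

/-- the number of arrivals at `v` of the trail that starts with `(a, v)` -/
noncomputable def Jn (ω : Om G) (a v : V) : ℕ := {b | (b, v) ∈ Ob ω a v}.ncard

open Classical in
/-- the mass sent from `v` to `u` -/
noncomputable def mass (ω : Om G) (v u : V) : ℝ≥0∞ :=
  ∑' a, if G.Adj a v then (Jn ω a v : ℝ≥0∞)⁻¹ * ({z | (u, z) ∈ Ob ω a v}.ncard : ℕ) *
    (((Prod.fst '' Ob ω a v).ncard : ℕ) : ℝ≥0∞)⁻¹ else 0

/-- successive exits from `w` after an arrival through `a`, for the outside pairing `π` -/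
noncomputable def dep {w : V} (π : V → V) (r : Rk G w) (a : V) : ℕ → V
  | 0 => par r a
  | j + 1 => par r (π (dep π r a j))

theorem dep_realize : True := by have := @dep.eq_def; trivial

/-- the arrivals at `w` -/
def Arr {w : V} (π : V → V) (r : Rk G w) (a : V) : Set V :=
  insert a (range fun j => π (dep π r a j))

end Pairing

/-- `π` is a pairing of the neighbours of `w` -/
def Prs (G : SimpleGraph V) (w : V) (π : V → V) : Prop :=
  ∀ z, G.Adj w z → G.Adj w (π z) ∧ π (π z) = z ∧ π z ≠ z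

theorem Reg.lf {G : SimpleGraph V} {d : ℕ} (h : Reg G d) : LF G := fun v => (h v).1

theorem Bd.lf {G : SimpleGraph V} {d : ℕ} (h : Bd G d) : LF G := fun v => (h v).1

theorem Reg.bd {G : SimpleGraph V} {d : ℕ} (h : Reg G d) (hd : d ≠ 0) : Bd G d := fun v =>
  ⟨(h v).1, (h v).2.le, Set.nonempty_of_ncard_ne_zero (by rw [(h v).2]; exact hd)⟩

theorem meas_Ev [Countable V] [MeasurableSpace V] [DiscreteMeasurableSpace V] (K : Set V) :
    MeasurableSet (Ev K) :=
  measurableSet_setOfPred.2 (.exists fun _ => .forall fun s => measurable_const.imp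
    ((Measurable.of_discrete (f := fun v : V => v ∉ K)).comp (measurable_pi_apply s)))

end Pool.Agent.P3fb035
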