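import Pool.Agent.P.MP_3fb035_pr.QGa

/-! Parity of finite edge sets. -/

set_option autoImplicit false

open MeasureTheory Set
open scoped ENNReal symmDiff

namespace Pool.Agent.P3fb035

open Pool.Agent.Lib.GRW

variable {V : Type} {G : SimpleGraph V}

variable {A B H X : Set (Sym2 V)} {S : Set V} {a b v : V} {d : ℕ}

theorem qg2_odd (hA : A.Finite) (hB : B.Finite) (u : V) :
    Odd (dg G (A ∆ B) u) ↔ (Odd (dg G A u) ↔ ¬ Odd (dg G B u)) := by
  have h := dg_symmDiff (G := G) hA hB u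
  simp only [Nat.odd_iff]
  omega

theorem qg2_fin (hA : A.Finite) (hB : B.Finite) : (A ∆ B).Finite :=
  (hA.union hB).subset symmDiff_subset_union

theorem qg2_edge (hab : G.Adj a b) (u : V) :
    Odd (dg G ({s(a, b)} : Set (Sym2 V)) u) ↔ u = a ∨ u = b := by
  have h := dg_erase (G := G) (finite_singleton s(a, b)) hab (mem_singleton _) u
  have h0 : dg G (({s(a, b)} : Set (Sym2 V)) \ {s(a, b)}) u = 0 :=
    dg_zero fun z _ hz => hz.2 hz.1
  rw [h, h0]
  by_cases hu : u = a ∨ u = b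
  · rw [if_pos hu]
    exact ⟨fun _ => hu, fun _ => odd_one⟩
  · rw [if_neg hu]
    exact ⟨fun h1 => absurd h1 (by decide), fun h1 => absurd h1 hu⟩

theorem qg2_ins (hA : Ins S A) (hB : Ins S B) : Ins S (A ∆ B) := fun x y hxy => by
  rcases symmDiff_subset_union hxy with h | h
  · exact hA x y h
  · exact hB x y h

theorem qg2_nil : ∀ u, ¬ Odd (dg G (∅ : Set (Sym2 V)) u) := fun u => by
  rw [dg_zero (G := G) (A := ∅) fun z _ hz => hz]
  decide

theorem join (h : Cn G S a b) (ha : a ∈ S) :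
    ∃ J : Set (Sym2 V), J.Finite ∧ Ins S J ∧
      ∀ u, Odd (dg G J u) ↔ (u = a ∨ u = b) ∧ a ≠ b := by
  induction h with
  | refl =>
    exact ⟨∅, finite_empty, fun _ _ h => h.elim,
      fun u => ⟨fun h => absurd h (qg2_nil u), fun h => absurd rfl h.2⟩⟩
  | @tail p q hp hpq ih =>
    obtain ⟨J, hJ, hI, hO⟩ := ih
    have hpS : p ∈ S := by
      rcases Cn.mem hp with h | h
      · rw [h]; exact ha
      · exact h
    refine ⟨J ∆ {s(p, q)}, qg2_fin hJ (finite_singleton _), qg2_ins hI fun x y hxy => ?_,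
      fun u => ?_⟩
    · rcases Sym2.eq_iff.1 (mem_singleton_iff.1 hxy) with h | h
      · rw [h.1]; exact hpS
      · rw [h.1]; exact hpq.2
    · rw [qg2_odd hJ (finite_singleton _), hO u, qg2_edge hpq.1 u]
      have hne : p ≠ q := hpq.1.ne
      by_cases h1 : u = a <;> by_cases h2 : u = p <;> by_cases h3 : u = q <;>
        by_cases h4 : a = p <;> by_cases h5 : a = q <;> simp_all

theorem qg2_set (hS : Con G S) (hb : b ∈ S) {T : Set V} (hT : T.Finite)
    (hTS : ∀ u ∈ T, u ∈ S ∧ u ≠ b) :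
    ∃ J : Set (Sym2 V), J.Finite ∧ Ins S J ∧ ∀ u, u ≠ b → (Odd (dg G J u) ↔ u ∈ T) := by
  induction T, hT using Set.Finite.induction_on with
  | empty =>
    exact ⟨∅, finite_empty, fun _ _ h => h.elim,
      fun u _ => ⟨fun h => absurd h (qg2_nil u), fun h => h.elim⟩⟩
  | @insert x T hx _ ih =>
    obtain ⟨J, hJ, hI, hO⟩ := ih fun u hu => hTS u (mem_insert_of_mem _ hu)
    obtain ⟨hxS, hxb⟩ := hTS x (mem_insert _ _)
    obtain ⟨J0, hJ0, hI0, hO0⟩ := join (hS x hxS b hb) hxS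
    refine ⟨J ∆ J0, qg2_fin hJ hJ0, qg2_ins hI hI0, fun u hu => ?_⟩
    rw [qg2_odd hJ hJ0, hO u hu, hO0 u, mem_insert_iff]
    by_cases h1 : u = x
    · subst h1
      simp [hx, hxb]
    · simp [h1, hu]

theorem fix (hS : Con G S) (hb : b ∈ S) (hX : X.Finite) :
    ∃ J : Set (Sym2 V), J.Finite ∧ Ins S J ∧ ∀ u ∈ S, u ≠ b → Even (dg G (X ∆ J) u) := by
  obtain ⟨J, hJ, hI, hO⟩ := qg2_set (G := G) hS hb
    (T := {u | Odd (dg G X u) ∧ u ∈ S ∧ u ≠ b}) ((odd_fin hX).subset fun u hu => hu.1)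
    fun u hu => hu.2
  refine ⟨J, hJ, hI, fun u hu hub => ?_⟩
  rw [← Nat.not_odd_iff_even, qg2_odd hX hJ, hO u hub]
  simp only [mem_ofPred_eq]
  tauto

theorem flip (hr : Reg G d) (hd : Odd d) (hX : X.Finite) (hv : v ∉ S) (hS : Con G S) (hb : b ∈ S)
    (hN : ∀ z, G.Adj v z → z ∉ S → s(v, z) ∈ X) (hev : Even (dg G X v))
    (he : ∀ u ∈ S, u ≠ b → Even (dg G X u)) :
    ∃ X' : Set (Sym2 V), X'.Finite ∧ Exh G X' v ∧
      (∀ a c, a ∉ S → a ≠ v → G.Adj a c → (s(a, c) ∈ X' ↔ s(a, c) ∈ X)) ∧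
      (∀ a c, s(a, c) ∈ X' → s(a, c) ∈ X ∨ a ∈ S ∨ a = v) ∧
      (∀ u ∈ S, u ≠ b → Even (dg G X' u)) ∧ (Odd (dg G X' b) ↔ Even (dg G X b)) := by
  have hl : LF G := fun w => (hr w).1
  have hX1 : (X ∪ St G {v} univ).Finite := hX.union (st_fin hl (finite_singleton v) univ)
  obtain ⟨J, hJ, hI, hE⟩ := fix hS hb hX1
  have hX' := qg2_fin hX1 hJ
  have hst : ∀ a c, a ∉ S → a ≠ v → s(a, c) ∈ St G {v} univ → s(a, c) ∈ X := by
    intro a c haS hav h
    obtain ⟨hac, h | h⟩ := mem_st.1 h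
    · exact absurd h.1 hav
    · have e : c = v := h.1
      subst e
      rw [Sym2.eq_swap]
      exact hN a hac.symm haS
  have hexh : Exh G ((X ∪ St G {v} univ) ∆ J) v := fun z hz =>
    mem_symmDiff.2 (Or.inl ⟨Or.inr (mem_st.2 ⟨hz, Or.inl ⟨rfl, mem_univ z⟩⟩),
      fun h => hv (hI v z h)⟩)
  have hout : ∀ a c, a ∉ S → a ≠ v → G.Adj a c →
      (s(a, c) ∈ (X ∪ St G {v} univ) ∆ J ↔ s(a, c) ∈ X) := by
    intro a c haS hav _
    have hn : s(a, c) ∉ J := fun h => haS (hI a c h)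
    constructor
    · intro h
      rcases mem_symmDiff.1 h with h | h
      · rcases h.1 with h | h
        · exact h
        · exact hst a c haS hav h
      · exact absurd h.1 hn
    · exact fun h => mem_symmDiff.2 (Or.inl ⟨Or.inl h, hn⟩)
  refine ⟨(X ∪ St G {v} univ) ∆ J, hX', hexh, hout, fun a c h => ?_, hE, ?_⟩
  · by_cases haS : a ∈ S
    · exact Or.inr (Or.inl haS)
    by_cases hav : a = v
    · exact Or.inr (Or.inr hav)
    rcases symmDiff_subset_union h with (h | h) | h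
    · exact Or.inl h
    · exact Or.inl (hst a c haS hav h)
    · exact absurd (hI a c h) haS
  · have hvb : v ≠ b := fun e => hv (e ▸ hb)
    have h := pair_odd (G := G) (qg2_fin hX' hX) hvb (fun u huv hub => ?_) ?_
    · rw [qg2_odd hX' hX, Nat.not_odd_iff_even] at h
      exact h
    · rw [← Nat.not_odd_iff_even, qg2_odd hX' hX]
      by_cases hu : u ∈ S
      · have h1 := Nat.not_odd_iff_even.2 (hE u hu hub)
        have h2 := Nat.not_odd_iff_even.2 (he u hu hub)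
        tauto
      · rw [dg_congr fun c hc => hout u c hu huv hc]
        tauto
    · rw [qg2_odd hX' hX, dg_exh hr hexh]
      exact ⟨fun _ => Nat.not_odd_iff_even.2 hev, fun _ => hd⟩

end Pool.Agent.P3fb035
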