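import Pool.Agent.P.MP_3fb035_pr.QR1
import Pool.Agent.P.MP_3fb035_pr.QG2

/-! Burning a finite set of edges. -/

set_option autoImplicit false

open MeasureTheory Set
open scoped ENNReal symmDiff

namespace Pool.Agent.P3fb035

open Pool.Agent.Lib.GRW

variable {V : Type} {G : SimpleGraph V}

/-- walking inside `W` on old edges to a vertex that has an edge of `H` -/
theorem qe1_walk {S W : Set V} (hWS : W ⊆ S) {H U : Set (Sym2 V)}
    (hx : ∀ a ∈ W, Exh G (U ∪ H) a) {v a : V} (h : Cn G W v a) (ha : a ∈ W)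
    (hb : ∃ b, G.Adj a b ∧ s(a, b) ∈ H) (hv : v ∈ W) :
    ∃ n E p, Run G S n U v E p ∧ E ⊆ U ∧ p ∈ W ∧ ∃ b, G.Adj p b ∧ s(p, b) ∈ H := by
  induction h using Relation.ReflTransGen.head_induction_on with
  | refl => exact ⟨0, ∅, a, Run.nil U a, empty_subset _, ha, hb⟩
  | @head p q hpq _ ih =>
    by_cases hp : ∃ b, G.Adj p b ∧ s(p, b) ∈ H
    · exact ⟨0, ∅, p, Run.nil U p, empty_subset _, hv, hp⟩
    · have hex : Exh G U p := fun z hz => (hx p hv z hz).elim id fun h' => (hp ⟨z, hz, h'⟩).elim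
      obtain ⟨n, E, r, hr, hE, hrW, hrb⟩ := ih hpq.2
      have he : s(p, q) ∈ U := hex q hpq.1
      have hi : insert s(p, q) U = U := insert_eq_of_mem he
      refine ⟨n + 1, insert s(p, q) E, r, Run.cons ⟨hpq.1, Or.inr hex⟩ (hWS hpq.2) ?_,
        insert_subset he hE, hrW, hrb⟩
      rw [hi]
      exact hr

/-- the conclusion of `eb0` -/
def qe1_C (G : SimpleGraph V) (S W : Set V) (H U : Set (Sym2 V)) (v : V) : Prop :=
  ∃ n E w, Run G S n U v E w ∧ w ∈ W ∧ E ⊆ U ∪ H ∧ (∀ u ∉ W, Even (dg G (H \ E) u)) ∧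
    ∀ a ∈ W, ∀ b, G.Adj a b → s(a, b) ∈ H → s(a, b) ∈ E

theorem qe1_par {W : Set V} {H : Set (Sym2 V)} (hH : H.Finite) {v z : V} (hz : G.Adj v z)
    (he : s(v, z) ∈ H) (hp : ∀ u ∉ W, Odd (dg G H u) ↔ u = v) :
    ∀ u ∉ W, Odd (dg G (H \ {s(v, z)}) u) ↔ u = z := by
  intro u hu
  have h1 := dg_erase hH hz he u
  have h2 := hp u hu
  have hne : v ≠ z := hz.ne
  rw [Nat.odd_iff] at h2 ⊢
  by_cases huv : u = v
  · rw [if_pos (Or.inl huv)] at h1
    have h3 := h2.2 huv
    have h4 : u ≠ z := fun h => hne (huv.symm.trans h)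
    constructor
    · intro h5
      omega
    · intro h5
      exact (h4 h5).elim
  · by_cases huz : u = z
    · rw [if_pos (Or.inr huz)] at h1
      have h3 : ¬dg G H u % 2 = 1 := fun h => huv (h2.1 h)
      constructor
      · intro _
        exact huz
      · intro _
        omega
    · rw [if_neg (not_or.2 ⟨huv, huz⟩)] at h1
      have h3 : ¬dg G H u % 2 = 1 := fun h => huv (h2.1 h)
      constructor
      · intro h5
        omega
      · intro h5
        exact (huz h5).elim

theorem qe1_step {S W : Set V} {H U : Set (Sym2 V)} {v z : V} (hd : Disjoint H U)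
    (hz : G.Adj v z) (he : s(v, z) ∈ H) (hzS : z ∈ S)
    (h : qe1_C G S W (H \ {s(v, z)}) (insert s(v, z) U) z) : qe1_C G S W H U v := by
  obtain ⟨n, E, w, hr, hw, hE, hev, hall⟩ := h
  have heU : s(v, z) ∉ U := fun h' => disjoint_left.1 hd he h'
  refine ⟨n + 1, insert s(v, z) E, w, Run.cons ⟨hz, Or.inl heU⟩ hzS hr, hw, ?_, ?_, ?_⟩
  · refine insert_subset (Or.inr he) fun e hE' => ?_
    rcases hE hE' with h1 | h1
    · rcases h1 with h1 | h1
      · exact Or.inr (h1 ▸ he)
      · exact Or.inl h1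
    · exact Or.inr h1.1
  · have h1 : H \ insert s(v, z) E = (H \ {s(v, z)}) \ E := by
      ext e
      simp only [mem_sdiff, mem_insert_iff, mem_singleton_iff, not_or, and_assoc]
    rw [h1]
    exact hev
  · intro a ha b hab hH'
    by_cases h1 : s(a, b) = s(v, z)
    · exact Or.inl h1
    · exact Or.inr (hall a ha b hab ⟨hH', h1⟩)

theorem qe1_main {S W : Set V} (hW : Con G W) (hWS : W ⊆ S) (k : ℕ) :
    ∀ (H : Set (Sym2 V)) (U : Set (Sym2 V)) (v : V), H.Finite → H.ncard = k → Disjoint H U →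
      (∀ a b, G.Adj a b → s(a, b) ∈ H → a ∈ S) →
      (W.Subsingleton ∨ ∀ a ∈ W, Exh G (U ∪ H) a) →
      (∀ u ∉ W, Odd (dg G H u) ↔ u = v) → qe1_C G S W H U v := by
  induction k using Nat.strong_induction_on with
  | _ k ih =>
    intro H U v hH hk hd hS hx hp
    have step : ∀ p, (∀ u ∉ W, Odd (dg G H u) ↔ u = p) → (∃ z, G.Adj p z ∧ s(p, z) ∈ H) →
        qe1_C G S W H U p := by
      rintro p hp' ⟨z, hz, he⟩
      have hzS : z ∈ S := hS z p hz.symm (by rw [Sym2.eq_swap]; exact he)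
      refine qe1_step hd hz he hzS ?_
      have hun : insert s(p, z) U ∪ (H \ {s(p, z)}) = U ∪ H := by
        ext e
        simp only [mem_union, mem_insert_iff, mem_sdiff, mem_singleton_iff]
        constructor
        · rintro ((h1 | h1) | h1)
          · exact Or.inr (h1 ▸ he)
          · exact Or.inl h1
          · exact Or.inr h1.1
        · rintro (h1 | h1)
          · exact Or.inl (Or.inr h1)
          · by_cases h2 : e = s(p, z)
            · exact Or.inl (Or.inl h2)
            · exact Or.inr ⟨h1, h2⟩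
      refine ih (H \ {s(p, z)}).ncard ?_ _ _ z (hH.subset sdiff_subset) rfl ?_ ?_ ?_
        (qe1_par hH hz he hp')
      · rw [← hk]
        exact ncard_sdiff_singleton_lt_of_mem he hH
      · refine disjoint_left.2 fun e h1 h2 => ?_
        rcases h2 with h2 | h2
        · exact h1.2 h2
        · exact disjoint_left.1 hd h1.1 h2
      · exact fun a b hab h1 => hS a b hab h1.1
      · rw [hun]
        exact hx
    by_cases hv : v ∈ W
    · by_cases hex : ∃ a ∈ W, ∃ b, G.Adj a b ∧ s(a, b) ∈ H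
      · obtain ⟨a, ha, hb⟩ := hex
        rcases hx with hx | hx
        · have h1 : a = v := hx ha hv
          exact step v hp (h1 ▸ hb)
        · obtain ⟨n, E, p, hr, hE, hpW, hpb⟩ := qe1_walk hWS hx (hW v hv a ha) ha hb hv
          have hp' : ∀ u ∉ W, Odd (dg G H u) ↔ u = p := fun u hu =>
            iff_of_false (fun h => hu ((hp u hu).1 h ▸ hv)) fun h => hu (h ▸ hpW)
          obtain ⟨m, E', w, hr', hw, hE', hev, hall⟩ := step p hp' hpb
          have hUE : U ∪ E = U := union_eq_self_of_subset_right hE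
          refine ⟨n + m, E ∪ E', w, hr.trans (by rw [hUE]; exact hr'), hw,
            union_subset (hE.trans subset_union_left) hE', ?_,
            fun c hc b hcb h1 => Or.inr (hall c hc b hcb h1)⟩
          have h1 : H \ (E ∪ E') = H \ E' := by
            ext e
            simp only [mem_sdiff, mem_union, not_or]
            exact ⟨fun h => ⟨h.1, h.2.2⟩,
              fun h => ⟨h.1, fun h2 => disjoint_left.1 hd h.1 (hE h2), h.2⟩⟩
          rw [h1]
          exact hev
      · refine ⟨0, ∅, v, Run.nil U v, hv, empty_subset _, fun u hu => ?_,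
          fun a ha b hab h1 => (hex ⟨a, ha, b, hab, h1⟩).elim⟩
        rw [sdiff_empty, ← Nat.not_odd_iff_even]
        exact fun h => hu ((hp u hu).1 h ▸ hv)
    · refine step v hp (dg_pos fun h => ?_)
      have h1 := (hp v hv).2 rfl
      rw [h] at h1
      exact Nat.not_odd_zero h1

theorem eb0 {S W : Set V} (hW : Con G W) (hWS : W ⊆ S) {H : Set (Sym2 V)} (hH : H.Finite)
    {U : Set (Sym2 V)} {v : V} (hd : Disjoint H U)
    (hS : ∀ a b, G.Adj a b → s(a, b) ∈ H → a ∈ S)
    (hx : W.Subsingleton ∨ ∀ a ∈ W, Exh G (U ∪ H) a)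
    (hp : ∀ u ∉ W, Odd (dg G H u) ↔ u = v) :
    ∃ n E w, Run G S n U v E w ∧ w ∈ W ∧ E ⊆ U ∪ H ∧ (∀ u ∉ W, Even (dg G (H \ E) u)) ∧
      ∀ a ∈ W, ∀ b, G.Adj a b → s(a, b) ∈ H → s(a, b) ∈ E := by
  exact qe1_main hW hWS H.ncard H U v hH rfl hd hS hx hp

end Pool.Agent.P3fb035
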