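import Pool.Agent.P.MP_3fb035_pr.QE3

/-! Burning a finite set of edges exactly. -/

set_option autoImplicit false

open MeasureTheory Set
open scoped ENNReal symmDiff

namespace Pool.Agent.P3fb035

open Pool.Agent.Lib.GRW

variable {V : Type} {G : SimpleGraph V}

theorem ebl {S W : Set V} (hW : Con G W) (hWS : W ⊆ S) {H : Set (Sym2 V)} (hH : H.Finite)
    {U : Set (Sym2 V)} {v : V} (hd : Disjoint H U)
    (hS : ∀ a b, G.Adj a b → s(a, b) ∈ H → a ∈ S)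
    (hx : W.Subsingleton ∨ ∀ a ∈ W, Exh G (U ∪ H) a)
    (hp : ∀ u ∉ W, Odd (dg G H u) ↔ u = v) :
    ∃ n E w, Run G S n U v E w ∧ w ∈ W ∧ E ⊆ U ∪ H ∧
      ∀ a, (a ∈ W ∨ a = v ∨ Lk G H W a) → ∀ b, G.Adj a b → s(a, b) ∈ H → s(a, b) ∈ E := by
  obtain ⟨n, E, w, h1, h2, h3, h4⟩ := eb hW hWS hH hd hS hx hp
  refine ⟨n, E, w, h1, h2, h3, fun a ha => ?_⟩
  rcases ha with ha | ha | ⟨w₀, hw, h⟩
  · exact h4 a (Or.inl ha)
  · exact h4 a (Or.inr (Or.inl ha))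
  · induction h with
    | refl => exact h4 _ (Or.inl hw)
    | tail _ h5 ih => exact h4 _ (Or.inr (Or.inr ⟨_, Sym2.eq_swap ▸ ih _ h5.1 h5.2.1⟩))

theorem Lk.loc {X H : Set (Sym2 V)} {W W' F : Set V} {a : V} (h : Lk G X W' a) (ha : a ∈ F)
    (hF : Clo G F W') (hW : W' ⊆ W) (hd : Disjoint F W) (hA : Ag G F X H) : Lk G H W a := by
  obtain ⟨w, hw, h⟩ := h
  induction h with
  | refl => exact ⟨w, hW hw, .refl⟩
  | @tail p q _ h5 ih =>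
    have h1 : G.Adj p q ∧ s(p, q) ∈ H ∧ q ∉ W :=
      ⟨h5.1, Sym2.eq_swap ▸ (hA q ha p h5.1.symm).1 (Sym2.eq_swap ▸ h5.2.1), disjoint_left.1 hd ha⟩
    rcases hF q ha p h5.1.symm with hp | hp
    · obtain ⟨w', h2, h3⟩ := ih hp
      exact ⟨w', h2, h3.tail h1⟩
    · exact ⟨p, hW hp, .single h1⟩

theorem prune {X : Set (Sym2 V)} {W : Set V} (hx : ∀ a ∈ W, Exh G X a)
    (he : ∀ u ∉ W, Even (dg G X u)) :
    ∃ X₁ ⊆ X, (∀ a ∈ W, Exh G X₁ a) ∧ (∀ u ∉ W, Even (dg G X₁ u)) ∧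
      ∀ a ∉ W, ∀ b, G.Adj a b → s(a, b) ∈ X₁ → Lk G X₁ W a := by
  have k1 : ∀ a ∉ W, ∀ b, G.Adj a b → s(a, b) ∈ {e | e ∈ X ∧ ∃ c ∈ e, Lk G X W c} →
      Lk G X W a := by
    rintro a ha b hab ⟨h1, c, h2, h3⟩
    rcases Sym2.mem_iff.1 h2 with rfl | rfl
    · exact h3
    · obtain ⟨w, h4, h5⟩ := h3
      exact ⟨w, h4, h5.tail ⟨hab.symm, Sym2.eq_swap ▸ h1, ha⟩⟩
  have k2 : ∀ a, Lk G X W a → Lk G {e | e ∈ X ∧ ∃ c ∈ e, Lk G X W c} W a := by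
    rintro a ⟨w, hw, h⟩
    refine ⟨w, hw, ?_⟩
    induction h with
    | refl => exact .refl
    | tail h4 h5 ih => exact ih.tail ⟨h5.1, ⟨h5.2.1, _, Sym2.mem_mk_left _ _, w, hw, h4⟩, h5.2.2⟩
  refine ⟨{e | e ∈ X ∧ ∃ c ∈ e, Lk G X W c}, fun e h => h.1,
    fun a ha z hz => ⟨hx a ha z hz, a, Sym2.mem_mk_left _ _, a, ha, .refl⟩, fun u hu => ?_,
    fun a ha b hab h => k2 a (k1 a ha b hab h)⟩
  by_cases h : Lk G X W u
  · rw [dg_congr (A := {e | e ∈ X ∧ ∃ c ∈ e, Lk G X W c}) (B := X) fun b _ =>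
      ⟨fun h1 => h1.1, fun h1 => ⟨h1, u, Sym2.mem_mk_left _ _, h⟩⟩]
    exact he u hu
  · rw [dg_zero fun b hb h1 => h (k1 u hu b hb h1)]
    exact Even.zero

end Pool.Agent.P3fb035
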