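import Pool.Agent.P.MP_3fb035_pr.QE1

/-! Burning a finite set of edges exactly: minimal leftover. -/

set_option autoImplicit false

open MeasureTheory Set
open scoped ENNReal symmDiff

namespace Pool.Agent.P3fb035

open Pool.Agent.Lib.GRW

variable {V : Type} {G : SimpleGraph V}

theorem qe3_aux {S W : Set V} {H : Set (Sym2 V)} (hH : H.Finite)
    {U : Set (Sym2 V)} {v : V} (hd : Disjoint H U)
    (hS : ∀ a b, G.Adj a b → s(a, b) ∈ H → a ∈ S) (k : ℕ) : ∀ n E w, (H \ E).ncard = k →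
      Run G S n U v E w → w ∈ W → E ⊆ U ∪ H → (∀ u ∉ W, Even (dg G (H \ E) u)) →
      (∀ a ∈ W, ∀ b, G.Adj a b → s(a, b) ∈ H → s(a, b) ∈ E) →
    ∃ n E w, Run G S n U v E w ∧ w ∈ W ∧ E ⊆ U ∪ H ∧
      ∀ a, (a ∈ W ∨ a = v ∨ ∃ b, s(a, b) ∈ E) → ∀ b, G.Adj a b → s(a, b) ∈ H → s(a, b) ∈ E := by
  induction k using Nat.strong_induction_on with
  | _ k ih =>
  intro n E w hk hr hw hE hev hall
  by_cases hc : ∀ a, (a ∈ W ∨ a = v ∨ ∃ b, s(a, b) ∈ E) → ∀ b, G.Adj a b → s(a, b) ∈ H →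
      s(a, b) ∈ E
  · exact ⟨n, E, w, hr, hw, hE, hc⟩
  push Not at hc
  obtain ⟨a, ha, b, hab, hb, hbE⟩ := hc
  have haW : a ∉ W := fun h => hbE (hall a h b hab hb)
  obtain ⟨n₁, n₂, E₁, E₂, r1, r2, rfl⟩ := hr.split (ha.resolve_left haW)
  obtain ⟨n', E', w', r3, hw', hE', hev', hall'⟩ := eb0 (G := G) (S := S) (W := {a})
    (H := H \ (E₁ ∪ E₂)) (U := U ∪ E₁) (v := a) (con_singleton a)
    (singleton_subset_iff.2 (hS a b hab hb)) hH.sdiff
    (disjoint_left.2 fun e he h => h.elim (disjoint_left.1 hd he.1) fun h => he.2 (Or.inl h))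
    (fun a b h h' => hS a b h h'.1) (Or.inl subsingleton_singleton) fun u hu => by
      refine iff_of_false (Nat.not_odd_iff_even.2 ?_) hu
      by_cases huW : u ∈ W
      · rw [dg_zero fun b h h' => h'.2 (hall u huW b h h'.1)]
        exact Even.zero
      · exact hev u huW
  obtain rfl : w' = a := hw'
  have r4 : Run G S n₂ (U ∪ (E₁ ∪ E')) w' E₂ w := by
    rw [← union_assoc]
    refine r2.lift subset_union_left fun e he => he.2.elim id fun h => (hE' h).elim id fun h => ?_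
    exact absurd (Or.inr he.1) h.2
  have e : H \ (E₁ ∪ E' ∪ E₂) = (H \ (E₁ ∪ E₂)) \ E' := by
    ext e
    simp only [mem_sdiff, mem_union]
    tauto
  refine ih _ ?_ _ _ w rfl ((r1.trans r3).trans r4) hw ?_ (fun u hu => ?_) fun c hc d h h' => ?_
  · rw [← hk, e]
    refine ncard_lt_ncard ⟨sdiff_subset, fun h => ?_⟩ hH.sdiff
    exact (h ⟨hb, hbE⟩).2 (hall' w' rfl b hab ⟨hb, hbE⟩)
  · refine union_subset (union_subset (subset_union_left.trans hE) fun e he => ?_)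
      (subset_union_right.trans hE)
    exact (hE' he).elim (fun h => h.elim Or.inl fun h => hE (Or.inl h)) fun h => Or.inr h.1
  · rw [e]
    by_cases hu' : u = w'
    · rw [dg_zero fun b h h' => h'.2 (hall' u hu' b h h'.1)]
      exact Even.zero
    · exact hev' u hu'
  · exact (hall c hc d h h').elim (fun h => Or.inl (Or.inl h)) Or.inr

theorem eb {S W : Set V} (hW : Con G W) (hWS : W ⊆ S) {H : Set (Sym2 V)} (hH : H.Finite)
    {U : Set (Sym2 V)} {v : V} (hd : Disjoint H U)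
    (hS : ∀ a b, G.Adj a b → s(a, b) ∈ H → a ∈ S)
    (hx : W.Subsingleton ∨ ∀ a ∈ W, Exh G (U ∪ H) a)
    (hp : ∀ u ∉ W, Odd (dg G H u) ↔ u = v) :
    ∃ n E w, Run G S n U v E w ∧ w ∈ W ∧ E ⊆ U ∪ H ∧
      ∀ a, (a ∈ W ∨ a = v ∨ ∃ b, s(a, b) ∈ E) → ∀ b, G.Adj a b → s(a, b) ∈ H → s(a, b) ∈ E := by
  obtain ⟨n, E, w, h1, h2, h3, h4, h5⟩ := eb0 hW hWS hH hd hS hx hp
  exact qe3_aux hH hd hS _ n E w rfl h1 h2 h3 h4 h5

end Pool.Agent.P3fb035
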