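import Pool.Agent.P.MP_3fb035_pr.QDef

/-! Connectivity: basic facts. -/

set_option autoImplicit false

open MeasureTheory Set
open scoped ENNReal symmDiff

namespace Pool.Agent.P3fb035

open Pool.Agent.Lib.GRW

variable {V : Type} {G : SimpleGraph V}

variable {S S' W F A B : Set V} {a b c v : V}

theorem Cn.rfl : Cn G S a a := Relation.ReflTransGen.refl

theorem Cn.trans (h : Cn G S a b) (h' : Cn G S b c) : Cn G S a c :=
  Relation.ReflTransGen.trans h h'

theorem Cn.single (h : G.Adj a b) (hb : b ∈ S) : Cn G S a b :=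
  Relation.ReflTransGen.single ⟨h, hb⟩

theorem Cn.mono (h : Cn G S a b) (hS : S ⊆ S') : Cn G S' a b := by
  induction h with
  | refl => exact Cn.rfl
  | tail _ h2 ih => exact Cn.trans ih (Cn.single h2.1 (hS h2.2))

theorem Cn.mem (h : Cn G S a b) : b = a ∨ b ∈ S := by
  induction h with
  | refl => exact Or.inl (Eq.refl _)
  | tail _ h2 _ => exact Or.inr h2.2

theorem Cn.symm (h : Cn G S a b) (ha : a ∈ S) : Cn G S b a := by
  induction h with
  | refl => exact Cn.rfl
  | tail h1 h2 ih =>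
    refine Cn.trans (Cn.single h2.1.symm ?_) ih
    rcases Cn.mem h1 with e | e
    · exact e ▸ ha
    · exact e

theorem cn_univ (hc : G.Preconnected) (a b : V) : Cn G univ a b := by
  obtain ⟨p⟩ := hc a b
  induction p with
  | nil => exact Cn.rfl
  | cons h _ ih => exact Cn.trans (Cn.single h (mem_univ _)) ih

theorem Cn.map (φ : G ≃g G) (h : Cn G (φ ⁻¹' S) a b) : Cn G S (φ a) (φ b) := by
  induction h with
  | refl => exact Cn.rfl
  | tail _ h2 ih => exact Cn.trans ih (Cn.single (φ.map_adj_iff.2 h2.1) h2.2)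

theorem Cn.pre (φ : G ≃g G) (h : Cn G S (φ a) (φ b)) : Cn G (φ ⁻¹' S) a b := by
  have e : φ.symm ⁻¹' (φ ⁻¹' S) = S := by
    ext x
    simp
  have := Cn.map (S := φ ⁻¹' S) φ.symm (e.symm ▸ h)
  simpa using this

theorem Con.pre (φ : G ≃g G) (h : Con G S) : Con G (φ ⁻¹' S) := by
  exact fun a ha b hb => Cn.pre φ (h _ ha _ hb)

theorem Clo.pre (φ : G ≃g G) (h : Clo G F W) : Clo G (φ ⁻¹' F) (φ ⁻¹' W) := by
  exact fun a ha b hb => h _ ha _ (φ.map_adj_iff.2 hb)

theorem cp_pre (φ : G ≃g G) (W : Set V) (a : V) :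
    φ ⁻¹' Cp G W (φ a) = Cp G (φ ⁻¹' W) a := by
  ext b
  exact ⟨fun h => Cn.pre φ h, fun h => Cn.map φ h⟩

theorem con_of_base (hv : v ∈ S) (h : ∀ a ∈ S, Cn G S v a) : Con G S := by
  exact fun a ha b hb => ((h a ha).symm hv).trans (h b hb)

theorem con_singleton (v : V) : Con G {v} := by
  rintro a rfl b rfl
  exact Cn.rfl

theorem Con.insert (h : Con G S) (ha : a ∈ S) (hv : G.Adj a v) : Con G (insert v S) := by
  refine con_of_base (mem_insert_of_mem _ ha) ?_
  rintro b (rfl | hb)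
  · exact Cn.single hv (mem_insert _ _)
  · exact (h a ha b hb).mono (subset_insert _ _)

theorem Two.con (h : Two G) (v : V) : Con G {v}ᶜ := fun a ha b hb => h v a b ha hb

theorem mem_cp (W : Set V) (a : V) : a ∈ Cp G W a := Cn.rfl

theorem cp_disj (ha : a ∉ W) : Disjoint (Cp G W a) W := by
  refine disjoint_left.2 fun b hb => ?_
  rcases Cn.mem hb with e | e
  · exact e ▸ ha
  · exact e

theorem cp_con (ha : a ∉ W) : Con G (Cp G W a) := by
  refine con_of_base (mem_cp W a) fun b hb => ?_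
  induction hb with
  | refl => exact Cn.rfl
  | tail h1 h2 ih => exact Cn.trans ih (Cn.single h2.1 (Relation.ReflTransGen.tail h1 h2))

theorem cp_clo (W : Set V) (a : V) : Clo G (Cp G W a) W := by
  intro b hb c hc
  by_cases h : c ∈ W
  · exact Or.inr h
  · exact Or.inl (Cn.trans hb (Cn.single hc h))

theorem cp_eq (ha : a ∉ W) (hb : b ∈ Cp G W a) : Cp G W b = Cp G W a := by
  ext c
  exact ⟨fun h => Cn.trans hb h, fun h => Cn.trans (Cn.symm hb ha) h⟩

theorem cp_disj_cp (ha : a ∉ W) (hb : b ∉ W) (h : b ∉ Cp G W a) :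
    Disjoint (Cp G W a) (Cp G W b) := by
  refine disjoint_left.2 fun c h1 h2 => h ?_
  exact Cn.trans h1 (Cn.symm h2 hb)

theorem clo_cn (hF : Clo G F W) (h : Cn G S a b) (hS : Disjoint S W) (ha : a ∈ F) : b ∈ F := by
  induction h with
  | refl => exact ha
  | tail _ h2 ih => exact (hF _ ih _ h2.1).resolve_right (disjoint_left.1 hS h2.2)

theorem Con.sub_cp (h : Con G S) (hS : Disjoint S W) (ha : a ∈ S) : S ⊆ Cp G W a := by
  exact fun b hb => (h a ha b hb).mono (disjoint_left.1 hS)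

theorem Clo.compl (hF : Clo G F W) : Clo G (F ∪ W)ᶜ W := by
  intro a ha b hb
  by_cases h : b ∈ W
  · exact Or.inr h
  · refine Or.inl fun hb' => ha ?_
    exact hF b (hb'.resolve_right h) a hb.symm

theorem Clo.mono (hF : Clo G F W) (hW : W ⊆ A) : Clo G F A := by
  exact fun a ha b hb => (hF a ha b hb).imp_right fun h => hW h

end Pool.Agent.P3fb035
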