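import Pool.Agent.P.MP_3fb035_pr.QH1
import Pool.Agent.P.MP_3fb035_pr.QG2

/-! A separator with an even completion. -/

set_option autoImplicit false

open MeasureTheory Set
open scoped ENNReal symmDiff

namespace Pool.Agent.P3fb035

open Pool.Agent.Lib.GRW

variable {V : Type} {G : SimpleGraph V}

/-- everything but evenness -/
def Qg3Inv (G : SimpleGraph V) (W₀ P W : Set V) (X : Set (Sym2 V)) : Prop :=
  W₀ ⊆ W ∧ W.Finite ∧ Con G W ∧ Disjoint P W ∧ X.Finite ∧ (∀ a ∈ W, Exh G X a) ∧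
    (∀ a ∈ P, ∀ b, G.Adj a b → s(a, b) ∈ X → b ∈ W) ∧ ∀ u, u ∉ W → u ∉ P → (Cp G W u).Infinite

theorem qg3_step {d : ℕ} (hr : Reg G d) (hd : Odd d) (hc : G.Preconnected) (h2 : Two G)
    {W₀ P W : Set V} {X : Set (Sym2 V)} (hne : W₀.Nonempty) (hP : Clo G P W₀)
    (h : Qg3Inv G W₀ P W X) {a : V} (ha : a ∉ W) (haP : a ∉ P) :
    ∃ W' X', Qg3Inv G W₀ P W' X' ∧ ∀ u, u ∉ W' → Odd (dg G X' u) →
      u ∉ W ∧ u ∉ Cp G W a ∧ Odd (dg G X u) := by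
  obtain ⟨i1, i2, i3, i4, i5, i6, i7, i8⟩ := h
  have g1 : ∀ u ∈ W, u ∉ Cp G W a := fun u hu => disjoint_right.1 (cp_disj ha) hu
  have g2 : ∀ u ∈ P, u ∉ Cp G W a := fun u hu h =>
    haP (clo_cn (hP.mono i1) (Cn.symm h ha) disjoint_compl_left hu)
  obtain ⟨v, hv, ⟨w, hw, hwv⟩, hS⟩ := noncut hr.lf hc h2 i2 (hne.mono i1) ha
  have hinf := (i8 a ha haP).sdiff (finite_singleton v)
  obtain ⟨b, hb⟩ := hinf.nonempty
  obtain ⟨J, j1, j2, j3⟩ := fix (cp_con ha) hb.1 i5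
  have g3 : ∀ u, u ∉ Cp G W a → ∀ z, s(u, z) ∈ X ∆ J ↔ s(u, z) ∈ X := fun u hu z => by
    have : s(u, z) ∉ J := fun h => hu (j2 u z h)
    simp [mem_symmDiff, this]
  have g4 : (X ∆ J).Finite := (i5.union j1).subset symmDiff_subset_union
  rcases Nat.even_or_odd (dg G (X ∆ J) b) with hb' | hb'
  · refine ⟨W, X ∆ J, ⟨i1, i2, i3, i4, g4, fun u hu z hz => (g3 u (g1 u hu) z).2 (i6 u hu z hz),
      fun u hu z hz e => i7 u hu z hz ((g3 u (g2 u hu) z).1 e), i8⟩, fun u hu ho => ?_⟩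
    have h1 : u ∉ Cp G W a := fun h1 => Nat.not_even_iff_odd.2 ho (by
      by_cases e : u = b
      · exact e ▸ hb'
      · exact j3 u h1 e)
    exact ⟨hu, h1, dg_congr (fun z _ => g3 u h1 z) ▸ ho⟩
  · obtain ⟨X', k1, k2, k3, -, k5, k6⟩ := flip hr hd g4 (v := v) (fun h => h.2 rfl) hS hb
      (fun z hz hz' => by
        have h1 : z ∈ W := (cp_clo W a v hv z hz).resolve_left fun h => hz' ⟨h, hz.ne'⟩
        rw [Sym2.eq_swap]
        exact (g3 z (g1 z h1) v).2 (i6 z h1 v hz.symm))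
      (j3 v hv fun e => hb.2 e.symm) fun u hu => j3 u hu.1
    have g5 : ∀ u, u ∉ Cp G W a → ∀ z, G.Adj u z → (s(u, z) ∈ X' ↔ s(u, z) ∈ X) :=
      fun u hu z hz => (k3 u z (fun h => hu h.1) (fun e => hu (e ▸ hv)) hz).trans (g3 u hu z)
    refine ⟨insert v W, X', ⟨i1.trans (subset_insert _ _), i2.insert v, i3.insert hw hwv,
      disjoint_insert_right.2 ⟨fun h => g2 v h hv, i4⟩, k1, ?_,
      fun u hu z hz e => Or.inr (i7 u hu z hz ((g5 u (g2 u hu) z hz).1 e)), fun u hu hu' => ?_⟩,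
      fun u hu ho => ?_⟩
    · rintro u (rfl | hu)
      · exact k2
      · exact fun z hz => (g5 u (g1 u hu) z hz).2 (i6 u hu z hz)
    · have h1 : u ∉ W := fun h => hu (Or.inr h)
      by_cases h3 : u ∈ Cp G W a
      · exact hinf.mono (hS.sub_cp (disjoint_insert_right.2 ⟨fun h => h.2 rfl,
          (cp_disj ha).mono_left sdiff_subset⟩) ⟨h3, fun e => hu (Or.inl e)⟩)
      · exact (i8 u h1 hu').mono ((cp_con h1).sub_cp (disjoint_insert_right.2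
          ⟨disjoint_left.1 (cp_disj_cp ha h1 h3) hv, cp_disj h1⟩) (mem_cp W u))
    · have h1 : u ∉ Cp G W a := fun h1 => by
        by_cases e : u = b
        · exact Nat.not_even_iff_odd.2 hb' (k6.1 (e ▸ ho))
        · exact Nat.not_even_iff_odd.2 ho (k5 u ⟨h1, fun e => hu (Or.inl e)⟩ e)
      exact ⟨fun h => hu (Or.inr h), h1, dg_congr (g5 u h1) ▸ ho⟩

theorem adjust {d : ℕ} (hr : Reg G d) (hd : Odd d) (hc : G.Preconnected) (h2 : Two G)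
    {W₀ P : Set V} (hW : W₀.Finite) (hne : W₀.Nonempty) (hcon : Con G W₀) (hP : Clo G P W₀)
    (hPW : Disjoint P W₀) :
    ∃ (W : Set V) (X : Set (Sym2 V)), W₀ ⊆ W ∧ W.Finite ∧ Con G W ∧ Disjoint P W ∧ X.Finite ∧
      (∀ a ∈ W, Exh G X a) ∧ (∀ a ∈ P, ∀ b, G.Adj a b → s(a, b) ∈ X → b ∈ W) ∧
      ∀ u, u ∉ W → u ∉ P → Even (dg G X u) ∧ (Cp G W u).Infinite := by
  obtain ⟨W₁, a1, a2, a3, a4, a5⟩ := absorb hr.lf hc hW hne hcon hP hPW
  obtain ⟨⟨W, X⟩, h, hm⟩ := exists_minimalFor_of_wellFoundedLT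
    (fun z : Set V × Set (Sym2 V) => Qg3Inv G W₀ P z.1 z.2)
    (fun z => {u | u ∉ z.1 ∧ Odd (dg G z.2 u)}.ncard)
    ⟨(W₁, St G W₁ univ), a1, a2, a3, a4, st_fin hr.lf a2 _,
      fun a ha z hz => mem_st.2 ⟨hz, Or.inl ⟨ha, trivial⟩⟩,
      fun a ha b _ e => ((mem_st.1 e).2.resolve_left fun h => disjoint_left.1 a4 ha h.1).1, a5⟩
  obtain ⟨i1, i2, i3, i4, i5, i6, i7, i8⟩ := id h
  refine ⟨W, X, i1, i2, i3, i4, i5, i6, i7, fun a ha haP => ⟨?_, i8 a ha haP⟩⟩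
  by_contra ho
  obtain ⟨W', X', h1, h3⟩ := qg3_step hr hd hc h2 hne hP h ha haP
  refine (show MinimalFor _ _ (W, X) from ⟨h, hm⟩).not_prop_of_lt (j := (W', X'))
    (ncard_lt_ncard ⟨fun u hu =>
    ⟨(h3 u hu.1 hu.2).1, (h3 u hu.1 hu.2).2.2⟩, fun e => ?_⟩
    ((odd_fin i5).subset fun u hu => hu.2)) h1
  have h4 := e ⟨ha, Nat.not_even_iff_odd.1 ho⟩
  exact (h3 a h4.1 h4.2).2.1 (mem_cp W a)

end Pool.Agent.P3fb035
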