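import Pool.Agent.P.MP_3fb035_pr.QH1
import Pool.Agent.P.MP_3fb035_pr.QE2

/-! Construction of cuts. -/

set_option autoImplicit false

open MeasureTheory Set
open scoped ENNReal symmDiff

namespace Pool.Agent.P3fb035

open Pool.Agent.Lib.GRW

variable {V : Type} {G : SimpleGraph V}

theorem mk_cut {d : ℕ} (hr : Reg G d) (hd : Odd d) (hc : G.Preconnected) (h2 : Two G)
    {W : Set V} {X : Set (Sym2 V)} (hW : W.Finite) (hne : W.Nonempty) (hcon : Con G W)
    (hX : X.Finite) (hx : ∀ a ∈ W, Exh G X a) (he : ∀ u ∉ W, Even (dg G X u))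
    (hk : ∀ a ∉ W, ∀ b, G.Adj a b → s(a, b) ∈ X → Lk G X W a) {a : V} (ha : a ∉ W)
    (hi : (Cp G W a).Infinite) :
    ∃ C : Cut G, C.F = (Cp G W a ∪ W)ᶜ ∧ C.X = X ∧ W ⊆ C.W ∧ C.N.Infinite ∧
      Cp G W a ⊆ C.N ∪ C.W := by
  have hl := hr.lf
  obtain ⟨v, hvΓ, ⟨w0, hw0, hadj⟩, hN⟩ := noncut hl hc h2 hW hne ha
  have hdis : Disjoint (Cp G W a) W := cp_disj ha
  have hclo : Clo G (Cp G W a) W := cp_clo W a
  have hvW : v ∉ W := fun h => Set.disjoint_left.1 hdis hvΓ h
  have hW' : (insert v W).Finite := hW.insert v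
  have hZ : (insert v W ∪ {b | ∃ a ∈ insert v W, G.Adj a b} ∪ {p | ∃ q, s(p, q) ∈ X}).Finite :=
    (hW'.union (nb_fin hl hW')).union (vx_fin hX)
  set Z := insert v W ∪ {b | ∃ a ∈ insert v W, G.Adj a b} ∪ {p | ∃ q, s(p, q) ∈ X} with hZdef
  obtain ⟨B, hB, hZB, hBN, hBc⟩ := fin_sup hN (hZ.subset (inter_subset_left (t := Cp G W a \ {v})))
    inter_subset_right
  have hcon' : Con G (insert v W) := hcon.insert hw0 hadj
  have hsub : insert v W ⊆ Z ∪ B := fun c hc => Or.inl (Or.inl (Or.inl hc))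
  have hFW : Disjoint (Cp G W a ∪ W)ᶜ (insert v W) := by
    refine Set.disjoint_left.2 fun c hc hc' => hc ?_
    rcases hc' with rfl | hc'
    · exact Or.inl hvΓ
    · exact Or.inr hc'
  have hBW : ∀ u ∈ B, u ∉ W := fun u hu h => Set.disjoint_left.1 hdis (hBN hu).1 h
  have hvB : v ∉ B := fun h => (hBN h).2 rfl
  refine ⟨⟨insert v W, Cp G W a \ {v}, (Cp G W a ∪ W)ᶜ, Z ∪ B, X, hZ.union hB, hsub,
    fun c hc b hb => Or.inl (Or.inl (Or.inr ⟨c, hc, hb⟩)), insert_nonempty v W, hcon', ?_,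
    hclo.compl.mono (subset_insert v W), ?_, hFW, ?_, ?_⟩, rfl, rfl, subset_insert v W,
    hi.sdiff (finite_singleton v), ?_⟩
  · intro c hc b hb
    rcases hclo c hc.1 b hb with h | h
    · by_cases hbv : b = v
      · exact Or.inr (Or.inl hbv)
      · exact Or.inl ⟨h, hbv⟩
    · exact Or.inr (Or.inr h)
  · refine Set.disjoint_left.2 fun c hc hc' => ?_
    rcases hc' with h | h
    · exact hc.2 h
    · exact Set.disjoint_left.1 hdis hc.1 h
  · exact Set.disjoint_left.2 fun c hc hc' => hc' (Or.inl hc.1)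
  · intro x hxN hxY
    have hxB : x ∈ B := hxY.elim (fun h => hZB ⟨h, hxN⟩) id
    have hnb : ∀ z, G.Adj v z → z ∉ B → s(v, z) ∈ X := by
      intro z hz hzB
      rcases hclo v hvΓ z hz with h | h
      · exact (hzB (hZB ⟨Or.inl (Or.inr ⟨v, mem_insert v W, hz⟩), h, hz.ne'⟩)).elim
      · rw [Sym2.eq_swap]
        exact hx z h v hz.symm
    obtain ⟨H, hH, hHv, h3, h4, h5, h6⟩ := flip hr hd hX hvB hBc hxB hnb (he v hvW)
      (fun u hu _ => he u (hBW u hu))
    have hexh : ∀ c ∈ insert v W, Exh G H c := by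
      intro c hc
      rcases hc with rfl | hc
      · exact hHv
      · intro z hz
        exact (h3 c z (fun h => hBW c h hc) (fun h => hvW (h ▸ hc)) hz).2 (hx c hc z hz)
    have hpar : ∀ u ∉ insert v W, Odd (dg G H u) ↔ u = x := by
      intro u hu
      have huv : u ≠ v := fun h => hu (Or.inl h)
      have huW : u ∉ W := fun h => hu (Or.inr h)
      constructor
      · intro ho
        by_contra hux
        by_cases huB : u ∈ B
        · exact (Nat.not_even_iff_odd.2 ho) (h5 u huB hux)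
        · rw [dg_congr (fun b hb => h3 u b huB huv hb)] at ho
          exact (Nat.not_even_iff_odd.2 ho) (he u huW)
      · rintro rfl
        exact h6.2 (he u huW)
    have hS : ∀ c b, G.Adj c b → s(c, b) ∈ H → c ∈ Z ∪ B := by
      intro c b _ hcb
      rcases h4 c b hcb with h | h | h
      · exact Or.inl (Or.inr ⟨b, h⟩)
      · exact Or.inr h
      · exact hsub (Or.inl h)
    obtain ⟨n, E, w, hrun, hw, hE, hall⟩ := ebl (S := Z ∪ B) (U := ∅) (v := x) hcon' hsub hH
      (disjoint_empty H) hS (Or.inr fun c hc z hz => Or.inr (hexh c hc z hz)) hpar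
    have hag : Ag G (Cp G W a ∪ W)ᶜ X H := fun c hc b hb =>
      (h3 c b (fun h => hc (Or.inl (hBN h).1)) (fun h => hc (Or.inl (h ▸ hvΓ))) hb).symm
    refine ⟨n, E, w, hrun, hw, fun c hc z hz => hall c (Or.inl hc) z hz (hexh c hc z hz), ?_⟩
    intro c hc b hb
    constructor
    · intro h
      rcases hE h with h | h
      · exact h.elim
      · exact (hag c hc b hb).2 h
    · intro h
      have hcW : c ∉ W := fun h => hc (Or.inr h)
      exact hall c (Or.inr (Or.inr ((hk c hcW b hb h).loc hc hclo.compl (subset_insert v W) hFW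
        hag))) b hb ((hag c hc b hb).1 h)
  · intro c hc
    by_cases hcv : c = v
    · exact Or.inr (Or.inl hcv)
    · exact Or.inl ⟨hc, hcv⟩

end Pool.Agent.P3fb035
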