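import Pool.Agent.P.MP_3fb035_pr.QH3

/-! Cut vertices and ends. -/

set_option autoImplicit false

open MeasureTheory Set
open scoped ENNReal symmDiff

namespace Pool.Agent.P3fb035

open Pool.Agent.Lib.GRW

variable {V : Type} {G : SimpleGraph V}

variable {W F F' : Set V} {d : ℕ}

theorem ends_two (h : Ends G 2) : ∃ S : Set V, S.Finite ∧ ∀ W : Set V, S ⊆ W → W.Finite →
    ∃ a b, a ∉ W ∧ b ∉ W ∧ b ∉ Cp G W a := by
  obtain ⟨S, c, h1, h2⟩ := h
  refine ⟨S, S.finite_toSet, fun W hS hW => ?_⟩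
  obtain ⟨a, ha, ha'⟩ := ((h2 0).sdiff hW).nonempty
  obtain ⟨b, hb, hb'⟩ := ((h2 1).sdiff hW).nonempty
  refine ⟨a, b, ha', hb', fun h3 => ?_⟩
  have h4 : ∀ z, Cn G Wᶜ a z → z ∉ W ∧ c z = 0 := fun z hz => by
    induction hz with
    | refl => exact ⟨ha', ha.2⟩
    | tail _ h5 ih => exact ⟨h5.2, (h1 _ _ (fun e => ih.1 (hS e)) (fun e => h5.2 (hS e)) h5.1).symm.trans ih.2⟩
  exact absurd ((h4 b h3).2.symm.trans hb.2) (by decide)

theorem ends_of_two (hW : W.Finite) (hF : Clo G F W) (h1 : F.Infinite) (h2 : Fᶜ.Infinite) :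
    Ends G 2 := by
  classical
  refine ⟨hW.toFinset, fun v => if v ∈ F then 0 else 1, fun u v hu hv huv => ?_, fun i => ?_⟩
  · rw [hW.mem_toFinset] at hu hv
    have e : u ∈ F ↔ v ∈ F := ⟨fun h => (hF u h v huv).resolve_right hv,
      fun h => (hF v h u huv.symm).resolve_right hu⟩
    simp only [e]
  · fin_cases i
    · refine (h1.sdiff hW).mono fun v hv => ⟨by simpa using hv.2, by simp [hv.1]⟩
    · refine (h2.sdiff hW).mono fun v hv => ⟨by simpa using hv.2, by simp [show v ∉ F from hv.1]⟩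

theorem ends_of_three (hW : W.Finite) (hF : Clo G F W) (hF' : Clo G F' W) (hd : Disjoint F F')
    (h1 : F.Infinite) (h2 : F'.Infinite) (h3 : (F ∪ F')ᶜ.Infinite) : Ends G 3 := by
  classical
  refine ⟨hW.toFinset, fun v => if v ∈ F then 0 else if v ∈ F' then 1 else 2,
    fun u v hu hv huv => ?_, fun i => ?_⟩
  · rw [hW.mem_toFinset] at hu hv
    have e : u ∈ F ↔ v ∈ F := ⟨fun h => (hF u h v huv).resolve_right hv,
      fun h => (hF v h u huv.symm).resolve_right hu⟩
    have e' : u ∈ F' ↔ v ∈ F' := ⟨fun h => (hF' u h v huv).resolve_right hv,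
      fun h => (hF' v h u huv.symm).resolve_right hu⟩
    simp only [e, e']
  · fin_cases i
    · refine (h1.sdiff hW).mono fun v hv => ⟨by simpa using hv.2, by simp [hv.1]⟩
    · refine (h2.sdiff hW).mono fun v hv => ⟨by simpa using hv.2, by
        simp [hv.1, disjoint_right.1 hd hv.1]⟩
    · refine (h3.sdiff hW).mono fun v hv => ⟨by simpa using hv.2, by
        simp [show v ∉ F from fun h => hv.1 (Or.inl h), show v ∉ F' from fun h => hv.1 (Or.inr h)]⟩

end Pool.Agent.P3fb035
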