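import Pool.Agent.P.MP_3fb035_pr.QG3
import Pool.Agent.P.MP_3fb035_pr.QG4
import Pool.Agent.P.MP_3fb035_pr.QH2

/-! A pair of opposite cuts. -/

set_option autoImplicit false

open MeasureTheory Set
open scoped ENNReal symmDiff

namespace Pool.Agent.P3fb035

open Pool.Agent.Lib.GRW

variable {V : Type} {G : SimpleGraph V}

theorem cuts2 {d : ℕ} (hr : Reg G d) (hd : Odd d) (hc : G.Preconnected) (h2 : Two G)
    (hE : Ends G 2) :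
    ∃ (W : Set V) (C₁ C₂ : Cut G) (w₀ : V), W.Finite ∧ w₀ ∈ W ∧ (W ⊆ C₁.W ∧ W ⊆ C₂.W) ∧
      (Clo G C₁.F W ∧ Clo G C₂.F W) ∧ (C₁.N.Infinite ∧ C₂.N.Infinite) ∧
      (C₁.F.Infinite ∧ C₂.F.Infinite) ∧ (∀ v ∉ W, v ∈ C₁.F ∨ v ∈ C₂.F) ∧
      (∃ n E w, Run G univ n ∅ w₀ E w ∧ w ∈ W ∧ (∀ a ∈ W, Exh G E a) ∧ Ag G C₁.F E C₁.X ∧
        Ag G C₂.F E C₂.X) ∧
      (¬Ends G 3 → ∀ v, v ∉ C₁.Y → v ∉ C₂.Y → v ∈ C₁.N ∨ v ∈ C₂.N) := by
  obtain ⟨S, hSf, hS⟩ := ends_two hE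
  obtain ⟨w₀, -⟩ := hS S subset_rfl hSf
  obtain ⟨W₀, hW0f, hW01, -, hW0c⟩ := fin_sup (G := G) (S := univ)
    (fun a _ b _ => cn_univ hc a b) (hSf.insert w₀) (subset_univ _)
  obtain ⟨W, X, hW1, hWf, hWc, -, hXf, hx, -, hev⟩ := adjust (P := ∅) hr hd hc h2 hW0f
    ⟨w₀, hW01 (mem_insert _ _)⟩ hW0c (fun _ h => h.elim) (empty_disjoint _)
  have hw : w₀ ∈ W := hW1 (hW01 (mem_insert _ _))
  have hinf : ∀ u ∉ W, (Cp G W u).Infinite := fun u hu => (hev u hu (notMem_empty u)).2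
  obtain ⟨X₁, hX1, hx1, he1, hk1⟩ := prune hx fun u hu => (hev u hu (notMem_empty u)).1
  have hX1f : X₁.Finite := hXf.subset hX1
  obtain ⟨a, b, ha, hb, hab⟩ := hS W (((subset_insert _ _).trans hW01).trans hW1) hWf
  obtain ⟨C₁, hF1, hC1, hs1, hN1, hp1⟩ :=
    mk_cut hr hd hc h2 hWf ⟨w₀, hw⟩ hWc hX1f hx1 he1 hk1 ha (hinf a ha)
  obtain ⟨C₂, hF2, hC2, hs2, hN2, hp2⟩ :=
    mk_cut hr hd hc h2 hWf ⟨w₀, hw⟩ hWc hX1f hx1 he1 hk1 hb (hinf b hb)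
  have hdis : Disjoint (Cp G W a) (Cp G W b) := cp_disj_cp ha hb hab
  refine ⟨W, C₁, C₂, w₀, hWf, hw, ⟨hs1, hs2⟩, ⟨hF1 ▸ (cp_clo W a).compl, hF2 ▸ (cp_clo W b).compl⟩,
    ⟨hN1, hN2⟩, ⟨?_, ?_⟩, fun v hv => ?_, ?_, fun h3 v hv1 hv2 => ?_⟩
  · rw [hF1]
    exact (hinf b hb).mono (disjoint_union_right.2 ⟨hdis.symm, cp_disj hb⟩).subset_compl_right
  · rw [hF2]
    exact (hinf a ha).mono (disjoint_union_right.2 ⟨hdis, cp_disj ha⟩).subset_compl_right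
  · rw [hF1, hF2]
    by_cases h : v ∈ Cp G W a
    · exact Or.inr fun h' => h'.elim (disjoint_left.1 hdis h) hv
    · exact Or.inl fun h' => h'.elim h hv
  · obtain ⟨n, E, w, hrun, hwW, hE1, hE2⟩ := ebl (U := ∅) (v := w₀) hWc (subset_univ W) hX1f
      (disjoint_empty _) (fun _ _ _ _ => mem_univ _) (Or.inr (by rw [empty_union]; exact hx1))
      fun u hu => iff_of_false (Nat.not_odd_iff_even.2 (he1 u hu)) fun e => hu (e ▸ hw)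
    rw [empty_union] at hE1
    have hA : Ag G univ E X₁ := fun p _ q hpq => ⟨fun h => hE1 h, fun h => by
      by_cases hp : p ∈ W
      · exact hE2 p (Or.inl hp) q hpq h
      · exact hE2 p (Or.inr (Or.inr (hk1 p hp q hpq h))) q hpq h⟩
    exact ⟨n, E, w, hrun, hwW, fun p hp q hpq => hE2 p (Or.inl hp) q hpq (hx1 p hp q hpq),
      hC1 ▸ hA.mono (subset_univ _), hC2 ▸ hA.mono (subset_univ _)⟩
  · have hv : v ∉ W := fun h => hv1 (C₁.sub (hs1 h))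
    by_cases h : v ∈ Cp G W a
    · exact Or.inl ((hp1 h).resolve_right fun h' => hv1 (C₁.sub h'))
    by_cases h' : v ∈ Cp G W b
    · exact Or.inr ((hp2 h').resolve_right fun h'' => hv2 (C₂.sub h''))
    exact absurd (ends_of_three hWf (cp_clo W a) (cp_clo W b) hdis (hinf a ha) (hinf b hb)
      ((hinf v hv).mono (disjoint_union_left.2
        ⟨cp_disj_cp ha hv h, cp_disj_cp hb hv h'⟩).subset_compl_left)) h3

end Pool.Agent.P3fb035
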