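import Pool.Agent.P.MP_3fb035_pr.QH1
import Pool.Agent.P.MP_3fb035_pr.QH2

/-! An odd pocket in a graph with one end. -/

set_option autoImplicit false

open MeasureTheory Set
open scoped ENNReal symmDiff

namespace Pool.Agent.P3fb035

open Pool.Agent.Lib.GRW

variable {V : Type} {G : SimpleGraph V}

theorem pocket0 [Infinite V] (hl : LF G) (hc : G.Preconnected) (h2 : Two G) (h1 : ¬Ends G 2)
    (o : V) : ∃ P : Set V, P.Finite ∧ o ∈ P ∧ Odd P.ncard ∧ Con G (P \ {o}) ∧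
      (∀ b, G.Adj o b → b ∈ P) ∧ Con G Pᶜ := by
  obtain ⟨N, hNf, hN1, hN2, hNc⟩ := fin_sup (h2.con o) (hl o) (fun b hb => hb.ne')
  have hoN : o ∉ N := fun h => hN2 h rfl
  obtain ⟨z, -, hz⟩ := Con.exists_adj (G := G) (S := univ) (fun a _ b _ => cn_univ hc a b)
    nontrivial_univ (mem_univ o)
  obtain ⟨W, hW1, hWf, hWc, -, hinf⟩ := absorb (P := ∅) hl hc (hNf.insert o) (insert_nonempty _ _)
    (hNc.insert (hN1 hz) hz.symm) (fun _ h => h.elim) (empty_disjoint _)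
  have hoW : o ∈ W := hW1 (mem_insert _ _)
  have hNW : N ⊆ W := (subset_insert _ _).trans hW1
  have hcc : Con G Wᶜ := fun a ha b hb => by
    by_contra h
    exact h1 (ends_of_two hWf (cp_clo W a) (hinf a ha (notMem_empty a))
      ((hinf b hb (notMem_empty b)).mono (cp_disj_cp ha hb h).subset_compl_left))
  have hpu : Con G (W \ {o}) := con_punct hWc hoW hNW hoN hNc fun b hb => hN1 hb
  by_cases hodd : Odd W.ncard
  · exact ⟨W, hWf, hoW, hodd, hpu, fun b hb => hNW (hN1 hb), hcc⟩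
  obtain ⟨a, ha⟩ := hWf.exists_notMem
  obtain ⟨v, hv, ⟨w, hw, hwv⟩, hcv⟩ := noncut hl hc h2 hWf ⟨o, hoW⟩ ha
  have hvW : v ∉ W := disjoint_left.1 (cp_disj ha) hv
  have hwo : w ≠ o := fun e => hvW (hNW (hN1 (show G.Adj o v from e ▸ hwv)))
  have hvo : v ≠ o := fun e => hvW (e ▸ hoW)
  have e1 : Cp G W a = Wᶜ := (cp_disj ha).subset_compl_right.antisymm fun b hb => hcc a ha b hb
  refine ⟨insert v W, hWf.insert v, mem_insert_of_mem _ hoW, ?_, ?_,
    fun b hb => mem_insert_of_mem _ (hNW (hN1 hb)), ?_⟩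
  · rw [ncard_insert_of_notMem hvW hWf]
    exact (Nat.not_odd_iff_even.1 hodd).add_one
  · rw [← insert_sdiff_singleton_comm hvo]
    exact hpu.insert ⟨hw, hwo⟩ hwv
  · have e2 : (insert v W)ᶜ = Cp G W a \ {v} := by
      rw [e1]; ext x; simp [and_comm]
    rw [e2]; exact hcv

end Pool.Agent.P3fb035
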