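import Pool.Agent.P.MP_3fb035_pr.QG6
import Pool.Agent.P.MP_3fb035_pr.QG3
import Pool.Agent.P.MP_3fb035_pr.QE1

/-! Leaving the pocket. -/

set_option autoImplicit false

open MeasureTheory Set
open scoped ENNReal symmDiff

namespace Pool.Agent.P3fb035

open Pool.Agent.Lib.GRW

variable {V : Type} {G : SimpleGraph V}

theorem pocket [Infinite V] {d : ℕ} (hr : Reg G d) (hd : Odd d) (hc : G.Preconnected) (h2 : Two G)
    (h1 : ¬Ends G 2) (o : V) :
    ∃ (W F : Set V) (n : ℕ) (E : Set (Sym2 V)) (w : V), Con G W ∧ Clo G F W ∧ Fᶜ.Finite ∧ o ∉ W ∧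
      o ∉ F ∧ Run G {o}ᶜ n ∅ o E w ∧ w ∈ W ∧ w ∉ F ∧ ∀ a ∈ W, Exh G E a := by
  have hl := hr.lf
  obtain ⟨P, hPf, hoP, hPo, hPc, hoN, hPc'⟩ := pocket0 hl hc h2 h1 o
  obtain ⟨W₀, hW₀, hAW, hW₀P, hW₀c⟩ := fin_sup (A := {b | b ∉ P ∧ ∃ a ∈ P, G.Adj a b}) hPc'
    ((nb_fin hl hPf).subset fun _ h => h.2) fun _ h => h.1
  have hclo : Clo G P W₀ := fun a ha b hab => by
    by_cases hb : b ∈ P
    · exact Or.inl hb
    · exact Or.inr (hAW ⟨hb, a, ha, hab⟩)
  obtain ⟨b₀, hb₀⟩ := hPf.infinite_compl.nonempty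
  obtain ⟨p, q, hp, hq, -, -, hpq⟩ := exit_edge (cn_univ hc o b₀) hoP hb₀
  obtain ⟨W, X, hWW, hWf, hWc, hPW, hXf, hXe, hXP, hXo⟩ := adjust hr hd hc h2 hW₀
    ⟨q, hAW ⟨hq, p, hp, hpq⟩⟩ hW₀c hclo (disjoint_left.2 fun _ h h' => hW₀P h' h)
  have hdis : ∀ a ∈ P, a ∉ W := fun a ha => disjoint_left.1 hPW ha
  obtain ⟨v, hv⟩ := (hr.bd (by rintro rfl; exact absurd hd (by decide)) o).2.2
  have hov : G.Adj o v := hv
  have hvP : v ∈ P := hoN v hov
  obtain ⟨J, hJf, hJ, hJe⟩ := fix hPc (show v ∈ P \ {o} from ⟨hvP, hov.ne'⟩) hXf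
  have hHf : (X ∆ J).Finite := (hXf.union hJf).subset symmDiff_le_sup
  have ho : ∀ b, G.Adj o b → s(o, b) ∉ X ∆ J := fun b hb h => by
    rcases mem_symmDiff.1 h with h | h
    · exact hdis b (hoN b hb) (hXP o hoP b hb h.1)
    · exact (hJ _ _ h.1).2 rfl
  have hWH : ∀ a ∈ W, ∀ b, G.Adj a b → s(a, b) ∈ X ∆ J := fun a ha b hb =>
    mem_symmDiff.2 (Or.inl ⟨hXe a ha b hb, fun h => hdis a (hJ _ _ h).1 ha⟩)
  have hev : ∀ u ∈ P, u ≠ v → Even (dg G (X ∆ J) u) := fun u hu huv => by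
    by_cases h : u = o
    · rw [h, dg_zero ho]; exact Even.zero
    · exact hJe u ⟨hu, h⟩ huv
  have hvo : Odd (dg G (X ∆ J) v) := by
    by_contra hcon
    have hSf : (St G P P).Finite := st_fin hl hPf P
    have hk := handshake (G := G) (H := St G P P ∆ J) ((hSf.union hJf).subset symmDiff_le_sup)
    have e : {u | Odd (dg G (St G P P ∆ J) u)} = P := by
      ext u
      constructor
      · intro h
        by_contra hu
        have h0 : dg G (St G P P ∆ J) u = 0 := dg_zero fun b _ h' => by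
          rcases mem_symmDiff.1 h' with h' | h'
          · rcases (mem_st.1 h'.1).2 with h'' | h''
            exacts [hu h''.1, hu h''.2]
          · exact hu (hJ _ _ h'.1).1
        rw [mem_ofPred_eq, h0] at h
        exact absurd h (by decide)
      · intro hu
        have e1 : Even (dg G (X ∆ J) u) := by
          by_cases h : u = v
          · rw [h]; exact Nat.not_odd_iff_even.1 hcon
          · exact hev u hu h
        have e2 : dg G (St G P P ∆ X) u = d := dg_exh hr fun z hz => by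
          by_cases hzP : z ∈ P
          · exact mem_symmDiff.2 (Or.inl ⟨mem_st.2 ⟨hz, Or.inl ⟨hu, hzP⟩⟩,
              fun h => hdis z hzP (hXP u hu z hz h)⟩)
          · refine mem_symmDiff.2 (Or.inr ⟨?_, fun h => ?_⟩)
            · rw [Sym2.eq_swap]
              exact hXe z (hWW (hAW ⟨hzP, u, hu, hz⟩)) u hz.symm
            · rcases (mem_st.1 h).2 with h | h
              exacts [hzP h.2, hzP h.1]
        have e3 := dg_symmDiff (G := G) hSf hXf u
        have e4 := dg_symmDiff (G := G) hSf hJf u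
        have e5 := dg_symmDiff (G := G) hXf hJf u
        rw [e2] at e3
        rw [Nat.even_iff] at e1
        rw [Nat.odd_iff] at hd
        rw [mem_ofPred_eq, Nat.odd_iff]
        omega
    rw [e] at hk
    exact Nat.not_odd_iff_even.2 hk hPo
  have r1 : Run G {o}ᶜ 1 ∅ o {s(o, v)} v :=
    Run.one ⟨hov, Or.inl (notMem_empty _)⟩ hov.ne'
  obtain ⟨n, E, w, r2, hw, -, -, hE⟩ := eb0 (G := G) (S := {o}ᶜ) hWc
    (fun a ha h => hdis a (by rw [mem_singleton_iff.1 h]; exact hoP) ha) hHf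
    (U := ∅ ∪ {s(o, v)}) (v := v)
    (by rw [empty_union, disjoint_singleton_right]; exact ho v hov)
    (fun a b hab h h' => by
      rw [mem_singleton_iff.1 h'] at hab h
      exact ho b hab h)
    (Or.inr fun a ha b hb => Or.inr (hWH a ha b hb))
    (fun u hu => by
      refine ⟨fun h => ?_, fun h => h ▸ hvo⟩
      by_contra huv
      refine Nat.not_odd_iff_even.2 ?_ h
      by_cases huP : u ∈ P
      · exact hev u huP huv
      · rw [dg_congr (B := X) fun b _ => ?_]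
        · exact (hXo u hu huP).1
        · have : s(u, b) ∉ J := fun h' => huP (hJ _ _ h').1
          simp [mem_symmDiff, this])
  refine ⟨W, (P ∪ W)ᶜ, 1 + n, {s(o, v)} ∪ E, w, hWc, (hclo.mono hWW).compl, ?_, hdis o hoP,
    fun h => h (Or.inl hoP), r1.trans r2, hw, fun h => h (Or.inr hw),
    fun a ha b hb => Or.inr (hE a ha b hb (hWH a ha b hb))⟩
  rw [compl_compl]
  exact hPf.union hWf

end Pool.Agent.P3fb035
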