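import Pool.Agent.P.MP_3fb035_pr.QG1

/-! Parity of finite edge sets: basic facts. -/

set_option autoImplicit false

open MeasureTheory Set
open scoped ENNReal symmDiff

namespace Pool.Agent.P3fb035

open Pool.Agent.Lib.GRW

variable {V : Type} {G : SimpleGraph V}

variable {A B H X : Set (Sym2 V)} {S : Set V} {a b v : V} {d : ℕ}

theorem qga_ncard {T T' : Set V} (hT : T.Finite) (hT' : T'.Finite) :
    (T ∆ T').ncard + 2 * (T ∩ T').ncard = T.ncard + T'.ncard := by
  have h1 := ncard_inter_add_ncard_sdiff_eq_ncard T T' hT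
  have h2 := ncard_inter_add_ncard_sdiff_eq_ncard T' T hT'
  rw [inter_comm] at h2
  rw [Set.symmDiff_def, ncard_union_eq disjoint_sdiff_sdiff hT.sdiff hT'.sdiff]
  omega

theorem dg_fin (hH : H.Finite) (v : V) : {w | G.Adj v w ∧ s(v, w) ∈ H}.Finite :=
  (hH.preimage (f := fun w => s(v, w)) fun _ _ _ _ h => Sym2.congr_right.1 h).subset
    fun _ h => h.2

theorem dg_congr (h : ∀ b, G.Adj v b → (s(v, b) ∈ A ↔ s(v, b) ∈ B)) : dg G A v = dg G B v :=
  congrArg ncard (Set.ext fun b => and_congr_right (h b))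

theorem dg_zero (h : ∀ b, G.Adj v b → s(v, b) ∉ A) : dg G A v = 0 := by
  rw [dg, eq_empty_of_forall_notMem (s := {w | G.Adj v w ∧ s(v, w) ∈ A}) fun b hb => h b hb.1 hb.2,
    ncard_empty]

theorem dg_pos (h : dg G A v ≠ 0) : ∃ b, G.Adj v b ∧ s(v, b) ∈ A :=
  nonempty_of_ncard_ne_zero h

theorem dg_exh (hr : Reg G d) (h : Exh G A v) : dg G A v = d :=
  (congrArg ncard (Set.ext fun b => and_iff_left_of_imp (h b))).trans (hr v).2

theorem dg_symmDiff (hA : A.Finite) (hB : B.Finite) (v : V) :
    dg G (A ∆ B) v % 2 = (dg G A v + dg G B v) % 2 := by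
  have h := qga_ncard (dg_fin (G := G) hA v) (dg_fin (G := G) hB v)
  have h1 : {w | G.Adj v w ∧ s(v, w) ∈ A} ∆ {w | G.Adj v w ∧ s(v, w) ∈ B} =
      {w | G.Adj v w ∧ s(v, w) ∈ A ∆ B} := by
    ext w
    simp only [mem_symmDiff, mem_ofPred_eq]
    tauto
  rw [h1] at h
  unfold dg
  omega

theorem qga_erase (hH : H.Finite) (hab : G.Adj a b) (he : s(a, b) ∈ H) :
    dg G H a = dg G (H \ {s(a, b)}) a + 1 := by
  have h1 : {w | G.Adj a w ∧ s(a, w) ∈ H \ {s(a, b)}} = {w | G.Adj a w ∧ s(a, w) ∈ H} \ {b} := by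
    ext w
    simp only [mem_sdiff, mem_ofPred_eq, mem_singleton_iff, Sym2.congr_right, and_assoc]
  rw [dg, dg, h1]
  exact (ncard_sdiff_singleton_add_one (s := {w | G.Adj a w ∧ s(a, w) ∈ H}) ⟨hab, he⟩
    (dg_fin hH a)).symm

open Classical in
theorem dg_erase (hH : H.Finite) (hab : G.Adj a b) (he : s(a, b) ∈ H) (v : V) :
    dg G H v = dg G (H \ {s(a, b)}) v + if v = a ∨ v = b then 1 else 0 := by
  split_ifs with h
  · rcases h with rfl | rfl
    · exact qga_erase hH hab he
    · rw [Sym2.eq_swap] at he ⊢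
      exact qga_erase hH hab.symm he
  · refine dg_congr fun w _ => (and_iff_left fun h1 => h ?_).symm
    rcases Sym2.eq_iff.1 h1 with h2 | h2
    · exact Or.inl h2.1
    · exact Or.inr h2.1

theorem odd_fin (hH : H.Finite) : {v | Odd (dg G H v)}.Finite :=
  (vx_fin hH).subset fun _ hv => by
    obtain ⟨b, hb⟩ := dg_pos (Odd.pos hv).ne'
    exact ⟨b, hb.2⟩

theorem handshake (hH : H.Finite) : Even {v | Odd (dg G H v)}.ncard := by
  classical
  induction H, hH using Set.Finite.induction_on with
  | empty =>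
    rw [eq_empty_of_forall_notMem (s := {v | Odd (dg G ∅ v)}) fun v hv => by
      rw [mem_ofPred_eq, dg_zero fun _ _ => notMem_empty _] at hv
      exact Nat.not_odd_zero hv, ncard_empty]
    exact Even.zero
  | @insert e H he hH ih =>
    induction e using Sym2.ind with
    | h a b =>
      by_cases hab : G.Adj a b
      · have h1 : {v | Odd (dg G (insert s(a, b) H) v)} = {v | Odd (dg G H v)} ∆ {a, b} := by
          ext v
          rw [mem_ofPred_eq, dg_erase (hH.insert _) hab (mem_insert _ _),
            insert_sdiff_self_of_notMem he, mem_symmDiff, mem_ofPred_eq, mem_insert_iff,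
            mem_singleton_iff]
          split_ifs with h
          · simp only [h, Nat.odd_add_one, not_true, and_false, true_and, false_or]
          · simp only [h, add_zero, not_false_iff, and_true, false_and, or_false]
        have h2 := qga_ncard (odd_fin (G := G) hH) (toFinite {a, b})
        rw [ncard_pair hab.ne, ← h1] at h2
        rw [Nat.even_iff] at ih ⊢
        omega
      · have h1 : ∀ v, dg G (insert s(a, b) H) v = dg G H v := fun v =>
          dg_congr fun w hw => or_iff_right fun h => hab (by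
            rw [← SimpleGraph.mem_edgeSet, ← h]
            exact hw)
        simpa only [h1] using ih

theorem pair_odd (hH : H.Finite) (hab : a ≠ b) (h : ∀ u, u ≠ a → u ≠ b → Even (dg G H u))
    (ha : Odd (dg G H a)) : Odd (dg G H b) := by
  by_contra hb
  have _ := hab
  have h1 : {v | Odd (dg G H v)} = {a} := by
    refine eq_singleton_iff_unique_mem.2 ⟨ha, fun u hu => by_contra fun hua => ?_⟩
    refine Nat.not_odd_iff_even.2 (h u hua ?_) hu
    rintro rfl
    exact hb hu
  have h2 := handshake (G := G) hH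
  rw [h1, ncard_singleton] at h2
  exact Nat.not_even_one h2

end Pool.Agent.P3fb035
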