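import Pool.Agent.P.MP_3fb035_pr.QG1

/-! Components of the complement of a finite set. -/

set_option autoImplicit false

open MeasureTheory Set
open scoped ENNReal symmDiff

namespace Pool.Agent.P3fb035

open Pool.Agent.Lib.GRW

variable {V : Type} {G : SimpleGraph V}

variable {W P : Set V} {a : V}

theorem qh1_exit (hc : G.Preconnected) (hne : W.Nonempty) (ha : a ∉ W) :
    ∃ v ∈ Cp G W a, ∃ w ∈ W, G.Adj w v := by
  obtain ⟨w, hw⟩ := hne
  obtain ⟨p, q, hp, hq, -, -, hpq⟩ := exit_edge (cn_univ hc a w) (mem_cp W a)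
    (disjoint_right.1 (cp_disj ha) hw)
  exact ⟨p, hp, q, (cp_clo W a p hp q hpq).resolve_left hq, hpq.symm⟩

theorem qh1_not {v b : V} (ha : a ∉ W) (hb : b ∈ Cp G W a) (hbv : b ≠ v) : b ∉ insert v W := by
  rintro (e | e)
  · exact hbv e
  · exact disjoint_left.1 (cp_disj ha) hb e

theorem qh1_sub {v b : V} (ha : a ∉ W) (hb : b ∈ Cp G W a) (hbv : b ≠ v) :
    Cp G (insert v W) b ⊆ Cp G W a \ {v} := fun x hx =>
  ⟨Cn.trans hb (Cn.mono hx (compl_subset_compl.2 (subset_insert v W))), fun e =>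
    disjoint_left.1 (cp_disj (qh1_not ha hb hbv)) hx (Or.inl e)⟩

theorem qh1_meet {v b : V} (h2 : Two G) (hne : W.Nonempty) (ha : a ∉ W) (hv : v ∈ Cp G W a)
    (hb : b ∈ Cp G W a) (hbv : b ≠ v) : ∃ u ∈ Cp G (insert v W) b, ∃ w ∈ W, G.Adj w u := by
  obtain ⟨w, hw⟩ := hne
  have hwv : w ≠ v := fun e => disjoint_left.1 (cp_disj ha) hv (e ▸ hw)
  obtain ⟨p, q, hp, hq, hq', -, hpq⟩ := exit_edge (h2 v b w hbv hwv) (mem_cp (insert v W) b)
    (disjoint_right.1 (cp_disj (qh1_not ha hb hbv)) (Or.inr hw))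
  exact ⟨p, hp, q, ((cp_clo _ b p hp q hpq).resolve_left hq).resolve_left hq', hpq.symm⟩

theorem noncut (hl : LF G) (hc : G.Preconnected) (h2 : Two G) (hW : W.Finite) (hne : W.Nonempty)
    (ha : a ∉ W) : ∃ v ∈ Cp G W a, (∃ w ∈ W, G.Adj w v) ∧ Con G (Cp G W a \ {v}) := by
  by_contra h
  push Not at h
  have hA : {u | ∃ w ∈ W, G.Adj w u}.Finite := nb_fin hl hW
  have key : ∀ n : ℕ, ∀ v ∈ Cp G W a, ∀ b ∈ Cp G W a, b ≠ v →
      ({u | ∃ w ∈ W, G.Adj w u} ∩ Cp G (insert v W) b).ncard = n → False := by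
    intro n
    induction n using Nat.strong_induction_on with
    | _ n ih =>
      intro v hv b hb hbv hn
      obtain ⟨u, hu, hw⟩ := qh1_meet h2 hne ha hv hb hbv
      have s1 := qh1_sub ha hb hbv
      have huv : v ≠ u := fun e => (s1 hu).2 e.symm
      have hvW : v ∉ insert u W := qh1_not ha hv huv
      obtain ⟨b', hb', hb''⟩ : ∃ b' ∈ Cp G W a \ {u}, b' ∉ Cp G (insert u W) v := by
        by_contra h'
        push Not at h'
        refine h u (s1 hu).1 hw ?_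
        rw [show Cp G W a \ {u} = Cp G (insert u W) v from Subset.antisymm h' (qh1_sub ha hv huv)]
        exact cp_con hvW
      have d1 := cp_disj_cp hvW (qh1_not ha hb'.1 hb'.2) hb''
      have c1 : Con G (Cp G W a \ Cp G (insert v W) b) := by
        refine con_diff (cp_con ha) hv (fun e => (s1 e).2 rfl) fun x hx y hy hxy => ?_
        rcases cp_clo _ _ x hx y hxy with e | e | e
        · exact Or.inl e
        · exact Or.inr e
        · exact absurd e (disjoint_left.1 (cp_disj ha) hy)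
      have s2 : Cp G W a \ Cp G (insert v W) b ⊆ Cp G (insert u W) v := by
        refine c1.sub_cp (disjoint_left.2 ?_) ⟨hv, fun e => (s1 e).2 rfl⟩
        rintro x ⟨hx, hx'⟩ (rfl | e)
        · exact hx' hu
        · exact disjoint_left.1 (cp_disj ha) hx e
      have s3 := qh1_sub ha hb'.1 hb'.2
      refine ih _ ?_ u (s1 hu).1 b' hb'.1 hb'.2 rfl
      rw [← hn]
      refine ncard_lt_ncard ⟨fun x hx => ⟨hx.1, ?_⟩, fun e => ?_⟩ (hA.inter_of_left _)
      · by_contra hx'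
        exact disjoint_left.1 d1 (s2 ⟨(s3 hx.2).1, hx'⟩) hx.2
      · exact (s3 (e ⟨hw, hu⟩).2).2 rfl
  obtain ⟨v, hv, hw⟩ := qh1_exit hc hne ha
  by_cases e : (Cp G W a \ {v}).Nonempty
  · obtain ⟨b, hb, hbv⟩ := e
    exact key _ v hv b hb hbv rfl
  · exact h v hv hw fun x hx => absurd ⟨x, hx⟩ e

theorem absorb (hl : LF G) (hc : G.Preconnected) (hW : W.Finite) (hne : W.Nonempty)
    (hcon : Con G W) (hP : Clo G P W) (hPW : Disjoint P W) :
    ∃ W₁ : Set V, W ⊆ W₁ ∧ W₁.Finite ∧ Con G W₁ ∧ Disjoint P W₁ ∧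
      ∀ u, u ∉ W₁ → u ∉ P → (Cp G W₁ u).Infinite := by
  have hsub : ∀ a, a ∉ W → a ∉ P → (Cp G W a).Finite →
      Cp G W a ⊆ W ∪ {a | a ∉ W ∧ a ∉ P ∧ (Cp G W a).Finite} := by
    intro a h1 h2 h3 x hx
    refine Or.inr ⟨disjoint_left.1 (cp_disj h1) hx, fun e => h2 ?_, by rwa [cp_eq h1 hx]⟩
    exact clo_cn hP (Cn.symm hx h1) disjoint_compl_left e
  refine ⟨W ∪ {a | a ∉ W ∧ a ∉ P ∧ (Cp G W a).Finite}, subset_union_left, hW.union ?_, ?_, ?_, ?_⟩
  · have f1 : {z | (∃ w ∈ W, G.Adj w z) ∧ (Cp G W z).Finite}.Finite :=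
      (nb_fin hl hW).subset fun z hz => hz.1
    refine (f1.biUnion (t := fun z => Cp G W z) fun z hz => hz.2).subset ?_
    rintro a ⟨h1, -, h3⟩
    obtain ⟨v, hv, hw⟩ := qh1_exit hc hne h1
    refine mem_biUnion (x := v) ⟨hw, by rwa [cp_eq h1 hv]⟩ ?_
    rw [cp_eq h1 hv]
    exact mem_cp W a
  · obtain ⟨w0, hw0⟩ := id hne
    refine con_of_base (v := w0) (Or.inl hw0) ?_
    rintro a (h1 | ⟨h1, h2, h3⟩)
    · exact (hcon w0 hw0 a h1).mono subset_union_left
    · obtain ⟨v, hv, w, hw, e⟩ := qh1_exit hc hne h1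
      exact (((hcon w0 hw0 w hw).mono subset_union_left).trans
        (Cn.single e (hsub a h1 h2 h3 hv))).trans
        ((cp_con h1 v hv a (mem_cp W a)).mono (hsub a h1 h2 h3))
  · exact disjoint_union_right.2 ⟨hPW, disjoint_left.2 fun x hx e => e.2.1 hx⟩
  · intro u h1 h2
    have huW : u ∉ W := fun e => h1 (Or.inl e)
    have hi : (Cp G W u).Infinite := fun e => h1 (Or.inr ⟨huW, h2, e⟩)
    refine hi.mono ((cp_con huW).sub_cp (disjoint_left.2 ?_) (mem_cp W u))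
    rintro x hx (e | e)
    · exact disjoint_left.1 (cp_disj huW) hx e
    · exact hi (by rw [← cp_eq huW hx]; exact e.2.2)

theorem fb (hl : LF G) (hc : G.Preconnected) (a b y : V) :
    {c | ∃ φ : G ≃g G, φ a = b ∧ φ y = c}.Finite := by
  have h := cn_univ hc a y
  unfold Cn at h
  induction h with
  | refl =>
    refine (finite_singleton b).subset ?_
    rintro c ⟨φ, h1, h2⟩
    exact h2.symm.trans h1
  | @tail p q _ hpq ih =>
    refine (nb_fin hl ih).subset ?_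
    rintro c ⟨φ, h1, rfl⟩
    exact ⟨φ p, ⟨φ, h1, rfl⟩, φ.map_adj_iff.2 hpq.1⟩

end Pool.Agent.P3fb035
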