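import Pool.Agent.P.MP_3fb035_pr.QG1

/-! Cut vertices. -/

set_option autoImplicit false

open MeasureTheory Set
open scoped ENNReal symmDiff

namespace Pool.Agent.P3fb035

open Pool.Agent.Lib.GRW

variable {V : Type} {G : SimpleGraph V}

variable {W F F' : Set V} {d : ℕ}

theorem cp_nb (hc : G.Preconnected) {v a : V} (ha : a ≠ v) : ∃ b ∈ Cp G {v} a, G.Adj v b := by
  have hv : v ∉ Cp G {v} a := fun h => disjoint_left.1 (cp_disj (W := {v}) ha) h rfl
  obtain ⟨p, q, hp, hq, -, -, hpq⟩ := exit_edge (cn_univ hc a v) (mem_cp {v} a) hv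
  rcases cp_clo {v} a p hp q hpq with h | h
  · exact absurd h hq
  · rw [mem_singleton_iff] at h
    exact ⟨p, hp, h ▸ hpq.symm⟩

theorem nofin [Infinite V] (hc : G.Preconnected) (ht : Tr G) {v a : V} (ha : a ≠ v) :
    (Cp G {v} a).Infinite := by
  intro hfin
  obtain ⟨φ, hφ⟩ := ht v a
  have hne : φ a ≠ a := fun e => ha (φ.injective (e.trans hφ.symm))
  have hpre : φ ⁻¹' ({a} : Set V) = {v} := by
    ext z
    rw [mem_preimage, mem_singleton_iff, mem_singleton_iff]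
    exact ⟨fun e => φ.injective (e.trans hφ.symm), fun e => e ▸ hφ⟩
  have himg : φ '' Cp G {v} a = Cp G {a} (φ a) := by
    rw [← hpre, ← cp_pre, image_preimage_eq _ φ.surjective]
  have hcard : (Cp G {a} (φ a)).ncard = (Cp G {v} a).ncard := by
    rw [← himg, ncard_image_of_injective _ φ.injective]
  have hv : v ∉ Cp G {v} a := fun h => disjoint_left.1 (cp_disj (W := {v}) ha) h rfl
  have ha' : a ∉ Cp G {a} (φ a) := fun h => disjoint_left.1 (cp_disj (W := {a}) hne) h rfl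
  by_cases h : v ∈ Cp G {a} (φ a)
  · have h1 : Con G (univ \ Cp G {v} a) :=
      con_diff (fun x _ y _ => cn_univ hc x y) (mem_univ v) hv
        fun x hx y _ hxy => cp_clo {v} a x hx y hxy
    have h2 : univ \ Cp G {v} a ⊆ Cp G {a} v :=
      h1.sub_cp (disjoint_singleton_right.2 fun e => e.2 (mem_cp _ _)) ⟨mem_univ v, hv⟩
    rw [cp_eq (W := {a}) hne h, ← himg] at h2
    exact infinite_univ.sdiff hfin ((hfin.image φ).subset h2)
  · obtain ⟨b, hb, hab⟩ := cp_nb hc hne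
    have hb' : b ∈ Cp G {v} a := (cp_clo {v} a a (mem_cp _ _) b hab).resolve_right fun e =>
      h (mem_singleton_iff.1 e ▸ hb)
    have hsub : Cp G {a} (φ a) ⊆ Cp G {v} a := fun c hc' =>
      clo_cn (cp_clo {v} a) (cp_con (W := {a}) hne b hb c hc') (disjoint_singleton_right.2 h) hb'
    have := ncard_lt_ncard ⟨hsub, fun e => ha' (e (mem_cp _ _))⟩ hfin
    exact this.ne hcard

theorem cut_all (hc : G.Preconnected) (ht : Tr G) (h2 : ¬Two G) (v : V) :
    ∃ a b, G.Adj v a ∧ G.Adj v b ∧ b ∉ Cp G {v} a := by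
  obtain ⟨w, a, b, ha, hb, hab⟩ : ∃ w a b : V, a ≠ w ∧ b ≠ w ∧ ¬ Cn G {w}ᶜ a b := by
    by_contra hn
    exact h2 fun w a b ha hb => by_contra fun e => hn ⟨w, a, b, ha, hb, e⟩
  obtain ⟨φ, hφ⟩ := ht v w
  obtain ⟨a, rfl⟩ := φ.surjective a
  obtain ⟨b, rfl⟩ := φ.surjective b
  subst hφ
  have ha0 : a ≠ v := fun e => ha (by rw [e])
  have hb0 : b ≠ v := fun e => hb (by rw [e])
  have hpre : φ ⁻¹' ({φ v} : Set V)ᶜ = {v}ᶜ := by
    ext z
    rw [mem_preimage, mem_compl_singleton_iff, mem_compl_singleton_iff]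
    exact φ.injective.ne_iff
  have h0 : b ∉ Cp G {v} a := fun e => hab (Cn.map φ (hpre ▸ e))
  obtain ⟨p, hp, hvp⟩ := cp_nb hc ha0
  obtain ⟨q, hq, hvq⟩ := cp_nb hc hb0
  refine ⟨p, q, hvp, hvq, ?_⟩
  rw [cp_eq (W := {v}) ha0 hp]
  exact fun e => disjoint_left.1 (cp_disj_cp (W := {v}) ha0 hb0 h0) e hq

/-- a branch at `v` that does not contain `a` -/
theorem other_branch (hc : G.Preconnected) (ht : Tr G) (h2 : ¬Two G) {v a : V} (ha : a ≠ v) :
    ∃ b, G.Adj v b ∧ a ∉ Cp G {v} b ∧ b ∉ Cp G {v} a := by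
  obtain ⟨p, q, hp, hq, hpq⟩ := cut_all hc ht h2 v
  have key : ∀ b, a ∉ Cp G {v} b → b ∉ Cp G {v} a := fun b hb e =>
    hb (cp_eq (W := {v}) ha e ▸ mem_cp _ _)
  by_cases h : a ∈ Cp G {v} p
  · have h' : a ∉ Cp G {v} q :=
      disjoint_left.1 (cp_disj_cp (W := {v}) hp.ne' hq.ne' hpq) h
    exact ⟨q, hq, h', key q h'⟩
  · exact ⟨p, hp, h, key p h⟩

theorem not_two (h : ∃ v a b : V, a ≠ v ∧ b ≠ v ∧ ∀ p : G.Walk a b, v ∈ p.support) : ¬Two G := by
  obtain ⟨v, a, b, ha, hb, hp⟩ := h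
  intro h2
  have key : ∀ c, Cn G {v}ᶜ a c → ∃ p : G.Walk a c, v ∉ p.support := by
    intro c hc
    induction hc with
    | refl => exact ⟨.nil, by simpa using ha.symm⟩
    | tail _ hq ih =>
      obtain ⟨p, hp⟩ := ih
      refine ⟨p.concat hq.1, ?_⟩
      rw [SimpleGraph.Walk.support_concat]
      simp only [List.mem_append, List.mem_singleton, not_or]
      exact ⟨hp, fun e => hq.2 e.symm⟩
  obtain ⟨p, hp'⟩ := key b (h2 v a b ha hb)
  exact hp' (hp p)

theorem odd_branch (hr : Reg G d) (hd : Odd d) (u : V) :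
    ∃ b, G.Adj u b ∧ Odd {z | G.Adj u z ∧ z ∈ Cp G {u} b}.ncard := by
  classical
  by_contra hn
  push Not at hn
  have hfin := (hr u).1
  have hcard : hfin.toFinset.card = d := by rw [← (hr u).2, ncard_eq_toFinset_card _ hfin]
  rw [← hcard, Finset.card_eq_sum_card_image (fun z => Cp G {u} z)] at hd
  refine (Nat.not_even_iff_odd.2 hd) (Finset.even_sum _ fun C hC => ?_)
  obtain ⟨b, hb, rfl⟩ := Finset.mem_image.1 hC
  have hb' : G.Adj u b := by simpa using hb
  have e : {z | G.Adj u z ∧ z ∈ Cp G {u} b} =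
      ↑(hfin.toFinset.filter fun z => Cp G {u} z = Cp G {u} b) := by
    ext z
    simp only [mem_ofPred_eq, Finset.coe_filter, Finite.mem_toFinset, SimpleGraph.mem_neighborSet]
    exact and_congr_right fun _ => ⟨fun h => cp_eq (W := {u}) hb'.ne' h, fun h => h ▸ mem_cp _ _⟩
  have := hn b hb'
  rw [e, ncard_coe_finset] at this
  exact Nat.not_odd_iff_even.1 this

end Pool.Agent.P3fb035
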