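import Pool.Agent.P.MP_3fb035_pr.QR1

/-! The cut lemma. -/

set_option autoImplicit false

open MeasureTheory Set
open scoped ENNReal symmDiff

namespace Pool.Agent.P3fb035

open Pool.Agent.Lib.GRW

variable {V : Type} {G : SimpleGraph V}

variable {S S' K W F : Set V} {d n : ℕ} {U U' E : Set (Sym2 V)} {v p p' w : V} {c c' : ℝ≥0∞}

theorem Es.pre (h : Run G S n U v E p) (he : Es G d S K (U ∪ E) p c) :
    Es G d S K U v ((d : ℝ≥0∞)⁻¹ ^ n * c) := by
  obtain ⟨m, E', v', hr, hv, hc⟩ := he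
  refine ⟨n + m, E ∪ E', v', h.trans hr, hv, ?_⟩
  rw [pow_add, mul_assoc, ← union_assoc]
  exact mul_le_mul_right hc _

theorem Es.mono (he : Es G d S K U v c) (hS : S ⊆ S') (hc : c' ≤ c) : Es G d S' K U v c' := by
  obtain ⟨m, E', v', hr, hv, h⟩ := he
  exact ⟨m, E', v', hr.mono hS, hv, hc.trans h⟩

theorem Es.loc {G' : SimpleGraph V} (he : Es G d S K U v c) (hv : v ∈ S) (hK : Kᶜ ⊆ S)
    (hG : ∀ a ∈ S, ∀ b, G.Adj a b ↔ G'.Adj a b) (hU : Ag G S U U') : Es G' d S K U' v c := by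
  obtain ⟨m, E', v', hr, hv', h⟩ := he
  refine ⟨m, E', v', hr.loc hv hG hU, hv', ?_⟩
  rw [← Qe_loc hv' (fun a ha => hG a (hK ha)) ((hU.mono hK).union Ag.rfl)]
  exact h

theorem cut_run (hW : Con G W) (hF : Clo G F W) (h : Run G S n U p E p')
    (hx : ∀ a ∈ W, Exh G U' a) (hU : Ag G F U U') (h1 : p ∈ F → w = p) (h2 : p ∉ F → w ∈ W) :
    ∃ n' E' w', Run G (W ∪ F) n' U' w E' w' ∧ Ag G F (U ∪ E) (U' ∪ E') ∧
      (p' ∈ F → w' = p') ∧ (p' ∉ F → w' ∈ W) := by
  induction h generalizing U' w with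
  | nil U v => exact ⟨0, ∅, w, Run.nil _ _, hU.union Ag.rfl, h1, h2⟩
  | @cons n U E v z v' hz hS hr ih =>
    have hi : ∀ U'', Ag G F U U'' → Ag G F (insert s(v, z) U) (insert s(v, z) U'') :=
      fun U'' h a ha b hb => or_congr Iff.rfl (h a ha b hb)
    have hxi : ∀ a ∈ W, Exh G (insert s(v, z) U') a :=
      fun a ha => (hx a ha).mono (subset_insert _ _)
    by_cases hv : v ∈ F
    · obtain rfl := h1 hv
      have hz' : z ∈ nx G U' w := by
        rw [← nx_congr (G := G) (G' := G) (fun _ => Iff.rfl) (hU w hv)]; exact hz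
      have hzF := hF w hv z hz.1
      obtain ⟨n', E', w', r, a, b⟩ := ih hxi (hi U' hU) (fun _ => rfl) hzF.resolve_left
      refine ⟨n' + 1, _, w', Run.cons hz' hzF.symm r, ?_, b⟩
      rw [union_insert, union_insert, ← insert_union, ← insert_union]
      exact a
    · by_cases hzF : z ∈ F
      · have hvW : v ∈ W := (hF z hzF v hz.1.symm).resolve_left hv
        obtain ⟨m, E₀, e0, r0⟩ := run_exh (hW w (h2 hv) v hvW) (hx w (h2 hv)) hx
        have e1 : U' ∪ E₀ = U' := union_eq_self_of_subset_right e0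
        obtain ⟨n', E', w', r, a, b⟩ := ih hxi (hi U' hU) (fun _ => rfl) (fun h => absurd hzF h)
        have r1 : Run G (W ∪ F) (n' + 1) (U' ∪ E₀) v (insert s(v, z) E') w' := by
          rw [e1]
          exact Run.cons ⟨hz.1, Or.inr (hx v hvW)⟩ (Or.inr hzF) r
        refine ⟨_, _, w', (r0.mono subset_union_left).trans r1, ?_, b⟩
        rw [← union_assoc, e1, union_insert, union_insert, ← insert_union, ← insert_union]
        exact a
      · have hA : Ag G F (insert s(v, z) U) U' := by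
          intro a ha b hb
          rw [← hU a ha b hb, mem_insert_iff, or_iff_right]
          intro e
          rcases Sym2.eq_iff.1 e with e | e
          · exact hv (e.1 ▸ ha)
          · exact hzF (e.1 ▸ ha)
        obtain ⟨n', E', w', r, a, b⟩ := ih hx hA (fun h => absurd h hzF) (fun _ => h2 hv)
        refine ⟨n', E', w', r, ?_, b⟩
        rw [union_insert, ← insert_union]
        exact a

theorem es_cut (hW : Con G W) (hF : Clo G F W) (he : Es G d S Fᶜ U p c) (hc : c ≠ 0)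
    (hp : p ∉ F) (hx : ∀ a ∈ W, Exh G U' a) (hU : Ag G F U U') (hw : w ∈ W) :
    ∃ c' ≠ 0, Es G d (W ∪ F) Fᶜ U' w c' := by
  obtain ⟨m, E, v', hr, hv, h⟩ := he
  have hvF : v' ∈ F := not_not.1 hv
  obtain ⟨n', E', w', r, a, b, -⟩ := cut_run hW hF hr hx hU (fun h => absurd h hp) fun _ => hw
  obtain rfl := b hvF
  have e : Qe G Fᶜ (U ∪ E) w' = Qe G Fᶜ (U' ∪ E') w' :=
    Qe_loc hv (fun _ _ _ => Iff.rfl) (by rw [compl_compl]; exact a)
  refine ⟨_, ?_, n', E', w', r, hv, le_rfl⟩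
  refine mul_ne_zero (pow_ne_zero _ (ENNReal.inv_ne_zero.2 (ENNReal.natCast_ne_top d))) ?_
  rw [← e]
  intro h0
  rw [h0, mul_zero] at h
  exact hc (le_zero_iff.1 h)

theorem good_of (C : Cut G) (hW : W ⊆ C.W) (hF : Clo G C.F W) (hx : ∀ a ∈ W, Exh G U a)
    (hU : Ag G C.F U C.X) (hp : p ∉ C.F) (he : Es G d S C.Fᶜ U p c) (hc : c ≠ 0) :
    Good G d C := by
  have hX : ∀ a ∈ C.W, Exh G (U ∪ St G C.W univ) a :=
    fun a ha z hz => Or.inr ⟨a, ha, z, trivial, hz, rfl⟩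
  have hA : Ag G C.F U (U ∪ St G C.W univ) := by
    intro a ha b hb
    refine ⟨Or.inl, fun h => h.elim id ?_⟩
    rintro ⟨a', ha', b', -, -, e⟩
    have hn : a ∉ C.W := fun h => disjoint_left.1 C.dFW ha h
    rcases Sym2.eq_iff.1 e with e | e
    · exact absurd (e.1 ▸ ha') hn
    · have hb' : b ∈ C.W := e.2 ▸ ha'
      have hbW : b ∈ W := (hF a ha b hb).resolve_left fun h => disjoint_left.1 C.dFW h hb'
      rw [Sym2.eq_swap]
      exact hx b hbW a hb.symm
  have H : ∀ w ∈ C.W, ∃ c' ≠ 0, Es G d (C.W ∪ C.F) C.Fᶜ (U ∪ St G C.W univ) w c' :=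
    fun w hw => es_cut C.con C.cloF he hc hp hX hA hw
  choose! f hf0 hf using H
  obtain ⟨w₀, hw₀, hm⟩ := exists_min_image C.W f (C.fin.subset C.sub) C.ne
  refine ⟨f w₀, hf0 w₀ hw₀, fun U' w hw hx' hU' => ?_⟩
  refine ((hf w hw).mono Subset.rfl (hm w hw)).loc (Or.inl hw)
    (by rw [compl_compl]; exact subset_union_right) (fun _ _ _ => Iff.rfl) ?_
  exact (ag_of_exh hX hx').sup (hA.symm.trans (hU.trans hU'.symm))

end Pool.Agent.P3fb035
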