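import Pool.Agent.P.MP_3fb035_pr.QB2
import Pool.Agent.P.MP_3fb035_pr.QR2

/-! Creation of the standard state. -/

set_option autoImplicit false

open MeasureTheory Set
open scoped ENNReal symmDiff

namespace Pool.Agent.P3fb035

open Pool.Agent.Lib.GRW

variable {V : Type} {G : SimpleGraph V}
variable [Countable V] [MeasurableSpace V] [DiscreteMeasurableSpace V]
  {Ω : Type} [MeasurableSpace Ω] {P : Measure Ω} {X : ℕ → Ω → V}

variable {d : ℕ}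

section
omit [Countable V] [MeasurableSpace V] [DiscreteMeasurableSpace V]

theorem ent_adp (C : Cut G) : Adp (Ent G C) := by
  rintro t x y hxy ⟨h0, h1, h2, h3, h4⟩
  refine ⟨hxy 0 (Nat.zero_le _) ▸ h0, hxy 0 (Nat.zero_le _) ▸ h1, fun s hs => hxy s hs.le ▸ h2 s hs,
    hxy t le_rfl ▸ h3, fun s hs => ?_⟩
  rw [← hxy s hs.le, ← hxy (s + 1) hs]
  exact h4 s hs

theorem ent_near {C : Cut G} {t : ℕ} {x : ℕ → V} (h : Ent G C t x) : ∀ s ≤ t, x s ∈ C.N := by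
  obtain ⟨h0, -, h2, -, h4⟩ := h
  intro s
  induction s with
  | zero => exact fun _ => h0
  | succ s ih =>
    intro hs
    rcases C.cloN _ (ih (Nat.le_of_succ_le hs)) _ (h4 s hs) with h | h
    · exact h
    · exact absurd (C.nb _ h _ (h4 s hs).symm) (h2 s hs)

theorem ent_exists {C : Cut G} {y : ℕ → V} (h0 : y 0 ∈ C.N) (h1 : y 0 ∉ C.Y)
    (ha : ∀ s, G.Adj (y s) (y (s + 1))) {T : ℕ} (hT : y T ∈ C.Y) : ∃ t ≤ T, Ent G C t y := by
  classical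
  have he : ∃ t, y t ∈ C.Y := ⟨T, hT⟩
  exact ⟨Nat.find he, Nat.find_min' he hT, h0, h1, fun s hs => Nat.find_min he hs,
    Nat.find_spec he, fun s _ => ha s⟩

theorem k0 (C : Cut G) : ∃ n₀ : ℕ, ∀ t x, Ent G C t x → ∃ n ≤ n₀, ∃ E w,
    Run G C.Y n (us x t) (x t) E w ∧ w ∈ C.W ∧ (∀ a ∈ C.W, Exh G (us x t ∪ E) a) ∧
      Ag G C.F (us x t ∪ E) C.X := by
  have hm : ∀ v, ∃ n, v ∈ C.N → v ∈ C.Y → ∃ E w, Run G C.Y n ∅ v E w ∧ w ∈ C.W ∧
      (∀ a ∈ C.W, Exh G E a) ∧ Ag G C.F E C.X := by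
    intro v
    by_cases hv : v ∈ C.N ∧ v ∈ C.Y
    · obtain ⟨n, hn⟩ := C.make v hv.1 hv.2
      exact ⟨n, fun _ _ => hn⟩
    · exact ⟨0, fun h1 h2 => absurd ⟨h1, h2⟩ hv⟩
  choose f hf using hm
  obtain ⟨n₀, hn₀⟩ := (C.fin.image f).bddAbove
  refine ⟨n₀, fun t x h => ?_⟩
  have hN := ent_near h
  obtain ⟨-, -, h2, h3, -⟩ := h
  obtain ⟨E, w, hr, hw, hx, ha⟩ := hf (x t) (hN t le_rfl) h3
  refine ⟨f (x t), hn₀ (mem_image_of_mem f h3), E, w, hr.lift (empty_subset _) ?_, hw,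
    fun a haW => (hx a haW).mono subset_union_right, fun a haF b hb => ?_⟩
  · rintro e ⟨he, s, hs, rfl⟩
    rcases (hr.edge he).2 with h | h
    · exact h2 s hs (h ▸ h3)
    · exact h2 s hs h
  · rw [← ha a haF b hb]
    refine ⟨fun h => h.resolve_left fun hu => ?_, Or.inr⟩
    obtain ⟨s, hs, rfl⟩ := us_mem hu
    exact Set.disjoint_left.1 C.dNF (hN s hs) haF

theorem k1 (hd : d ≠ 0) {C : Cut G} (hg : Good G d C) :
    ∃ c ≠ 0, ∀ t x, Ent G C t x → Es G d (C.Y ∪ C.F) C.Fᶜ (us x t) (x t) c := by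
  obtain ⟨n₀, hn₀⟩ := k0 C
  obtain ⟨c₀, hc₀, hE⟩ := hg
  have h1 : (d : ℝ≥0∞)⁻¹ ≤ 1 := ENNReal.inv_le_one.2 (by exact_mod_cast Nat.one_le_iff_ne_zero.2 hd)
  refine ⟨(d : ℝ≥0∞)⁻¹ ^ n₀ * c₀, mul_ne_zero (pow_ne_zero _
    (ENNReal.inv_ne_zero.2 (ENNReal.natCast_ne_top d))) hc₀, fun t x h => ?_⟩
  obtain ⟨n, hn, E, w, hr, hw, hx, ha⟩ := hn₀ t x h
  have he := (hE _ w hw hx ha).mono (union_subset_union_left C.F C.sub) le_rfl
  exact (Es.pre (hr.mono subset_union_left) he).mono subset_rfl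
    (mul_le_mul_left (pow_le_pow_right_of_le_one' h1 hn) _)

end

theorem b1 (hb : Bd G d) (hc : G.Preconnected) (ht : Tr G) {C : Cut G} (hg : Good G d C)
    (hN : C.N.Infinite) {o : V} (h : IsWalk (ker G ∅) o P X) : P (pth X ⁻¹' Nv o) ≠ 0 := by
  have hd : d ≠ 0 := by
    have := (Set.ncard_pos (hb o).1).2 (hb o).2.2
    have := (hb o).2.1
    omega
  obtain ⟨c, hc0, hE⟩ := k1 hd hg
  obtain ⟨a, ha⟩ := (hN.sdiff C.fin).nonempty
  obtain ⟨w, hw⟩ := C.ne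
  obtain ⟨p, q, hp, hq, -, -, hpq⟩ := exit_edge (cn_univ hc a w) ha fun h => h.2 (C.sub hw)
  have hqY : q ∈ C.Y := by
    rcases C.cloN p hp.1 q hpq with h | h
    · by_contra hn
      exact hq ⟨h, hn⟩
    · exact C.sub h
  have hpF : p ∉ C.F := Set.disjoint_left.1 C.dNF hp.1
  have hen : Ent G C 1 fun s => if s = 0 then p else q := by
    refine ⟨hp.1, hp.2, fun s hs => ?_, hqY, fun s hs => ?_⟩
    · obtain rfl : s = 0 := by omega
      exact hp.2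
    · obtain rfl : s = 0 := by omega
      exact hpq
  have he := hE 1 _ hen
  rw [us_succ, us_zero] at he
  have he' : Es G d (C.Y ∪ C.F) C.Fᶜ (∅ ∪ {s(p, q)}) q c := by
    rw [empty_union, ← insert_empty_eq]
    exact he
  have hr : Run G (C.Y ∪ C.F) 1 ∅ p {s(p, q)} q :=
    Run.one ⟨hpq, Or.inl (notMem_empty _)⟩ (Or.inl hqY)
  obtain ⟨Ω', m', P', X', h'⟩ := exists_ker hb ∅ p
  rw [(law_tr ht h h').2]
  exact nv_of_es hb h' (mul_ne_zero (pow_ne_zero _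
    (ENNReal.inv_ne_zero.2 (ENNReal.natCast_ne_top d))) hc0) (Es.pre hr he')
    (fun h => h.elim hp.2 hpF) hpF

end Pool.Agent.P3fb035
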