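import Pool.Agent.P.MP_3fb035_pr.QK3

/-! A good cut forces transience; escape from a pocket. -/

set_option autoImplicit false

open MeasureTheory Set
open scoped ENNReal symmDiff

namespace Pool.Agent.P3fb035

open Pool.Agent.Lib.GRW

variable {V : Type} {G : SimpleGraph V}
variable [Countable V] [MeasurableSpace V] [DiscreteMeasurableSpace V]
  {Ω : Type} [MeasurableSpace Ω] {P : Measure Ω} {X : ℕ → Ω → V}

variable {d : ℕ}

omit [Countable V] [MeasurableSpace V] [DiscreteMeasurableSpace V] in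
theorem qk2_start (hb : Bd G d) {S : Set V} {n : ℕ} {E : Set (Sym2 V)} {o w : V}
    (hr : Run G S n ∅ o E w) (h : IsWalk (ker G ∅) o P X) :
    ∃ y : ℕ → V, P (cyl X n y) ≠ 0 ∧ y n = w ∧ ∅ ∪ us y n = E := by
  have hr' : Run G S n (∅ ∪ us (fun _ => o) 0) ((fun _ : ℕ => o) 0) E w := by
    rw [us_zero, union_empty]
    exact hr
  obtain ⟨y, h1, h2, h3, h4⟩ := hist_of hr'
  rw [zero_add] at h2 h3
  refine ⟨y, cyl_ne_zero hb h ⟨h1 0 le_rfl, fun s hs => (h4 s (Nat.zero_le s) (by omega)).1⟩, h2, ?_⟩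
  rw [h3, us_zero, empty_union, empty_union]

omit [Countable V] [MeasurableSpace V] [DiscreteMeasurableSpace V] in
theorem qk2_or {C A B : Set Ω} (hC : P C ≠ 0) (h : ∀ᵐ ω ∂P, ω ∈ A ∨ ω ∈ B) :
    P (C ∩ A) ≠ 0 ∨ P (C ∩ B) ≠ 0 := by
  by_contra hc
  rw [not_or, not_not, not_not, measure_eq_zero_iff_ae_notMem, measure_eq_zero_iff_ae_notMem] at hc
  refine hC (measure_eq_zero_iff_ae_notMem.2 ?_)
  filter_upwards [h, hc.1, hc.2] with ω h1 h2 h3 h4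
  exact h1.elim (fun e => h2 ⟨h4, e⟩) fun e => h3 ⟨h4, e⟩

theorem qk2_ev (hb : Bd G d) (hc : G.Preconnected) {o : V} (h : IsWalk (ker G ∅) o P X)
    (h0 : P (pth X ⁻¹' Of o) = 0) {K : Set V} (hK : K.Finite) : ∀ᵐ ω ∂P, pth X ω ∈ Ev K := by
  filter_upwards [ae_ev hb hc h o, measure_eq_zero_iff_ae_notMem.1 h0] with ω h1 h2
  exact h1 h2 K hK

theorem b2 (hb : Bd G d) (hc : G.Preconnected) {W F : Set V} {n : ℕ} {E : Set (Sym2 V)} {o w : V}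
    (hW : Con G W) (hF : Clo G F W) (hf : Fᶜ.Finite) (hoW : o ∉ W) (hoF : o ∉ F)
    (hr : Run G {o}ᶜ n ∅ o E w) (hw : w ∈ W) (hwF : w ∉ F) (hx : ∀ a ∈ W, Exh G E a)
    (h : IsWalk (ker G ∅) o P X) (h0 : P (pth X ⁻¹' Of o) = 0) : P (pth X ⁻¹' Nv o) ≠ 0 := by
  obtain ⟨y, h1, h2, h3⟩ := qk2_start hb hr h
  have h4 : P (cyl X n y ∩ pth X ⁻¹' Ev Fᶜ) ≠ 0 :=
    (qk2_or h1 ((qk2_ev hb hc h h0 hf).mono fun _ e => Or.inl e)).elim id id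
  obtain ⟨c, c0, he⟩ := n3 h d h4
  rw [h2, h3] at he
  obtain ⟨c', c1, he'⟩ := es_cut hW hF he c0 hwF hx Ag.rfl hw
  have h5 : W ∪ F ⊆ {o}ᶜ := by
    rintro a (ha | ha) rfl
    · exact hoW ha
    · exact hoF ha
  have h6 : Es G d {o}ᶜ Fᶜ (∅ ∪ E) w c' := by
    rw [empty_union]
    exact he'.mono h5 le_rfl
  refine nv_of_es hb h (mul_ne_zero (pow_ne_zero n ?_) c1) (Es.pre hr h6) (fun e => e rfl) hoF
  exact ENNReal.inv_ne_zero.2 (ENNReal.natCast_ne_top d)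

theorem t2m (hb : Bd G d) (hc : G.Preconnected) {W : Set V} {C₁ C₂ : Cut G} {o w : V} {n : ℕ}
    {E : Set (Sym2 V)} (hW : W.Finite) (hs : W ⊆ C₁.W ∧ W ⊆ C₂.W)
    (hF : Clo G C₁.F W ∧ Clo G C₂.F W) (hv : ∀ v ∉ W, v ∈ C₁.F ∨ v ∈ C₂.F)
    (hr : Run G univ n ∅ o E w) (hw : w ∈ W) (hx : ∀ a ∈ W, Exh G E a) (h1 : Ag G C₁.F E C₁.X)
    (h2 : Ag G C₂.F E C₂.X) (h : IsWalk (ker G ∅) o P X) (h0 : P (pth X ⁻¹' Of o) = 0) :
    Good G d C₁ ∨ Good G d C₂ := by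
  obtain ⟨y, k1, k2, k3⟩ := qk2_start hb hr h
  have k4 : ∀ᵐ ω ∂P, ω ∈ pth X ⁻¹' Ev C₁.Fᶜ ∨ ω ∈ pth X ⁻¹' Ev C₂.Fᶜ := by
    filter_upwards [qk2_ev hb hc h h0 hW, ae_adj h] with ω a1 a2
    rcases stay hF.1 a2.2 a1 with a3 | a3
    · refine Or.inr (Ev.anti (Ev.union a3 a1) fun v hv' => ?_)
      by_cases e : v ∈ W
      · exact Or.inr e
      · exact Or.inl ((hv v e).resolve_right hv')
    · exact Or.inl a3
  rcases qk2_or k1 k4 with k5 | k5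
  · obtain ⟨c, c0, he⟩ := n3 h d k5
    rw [k2, k3] at he
    exact Or.inl (good_of C₁ hs.1 hF.1 hx h1
      (fun e => disjoint_left.1 C₁.dFW e (hs.1 hw)) he c0)
  · obtain ⟨c, c0, he⟩ := n3 h d k5
    rw [k2, k3] at he
    exact Or.inr (good_of C₂ hs.2 hF.2 hx h2
      (fun e => disjoint_left.1 C₂.dFW e (hs.2 hw)) he c0)

end Pool.Agent.P3fb035
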