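import Pool.Agent.P.MP_3fb035_pr.QK1
import Pool.Agent.P.MP_3fb035_pr.QC

/-! A good cut forces transience. -/

set_option autoImplicit false

open MeasureTheory Set
open scoped ENNReal symmDiff

namespace Pool.Agent.P3fb035

open Pool.Agent.Lib.GRW

variable {V : Type} {G : SimpleGraph V}
variable [Countable V] [MeasurableSpace V] [DiscreteMeasurableSpace V]
  {Ω : Type} [MeasurableSpace Ω] {P : Measure Ω} {X : ℕ → Ω → V}

variable {d : ℕ}

theorem a0 (hb : Bd G d) (hc : G.Preconnected) (ht : Tr G) {C : Cut G} (hg : Good G d C)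
    (hN : C.N.Infinite) {o : V} (h : IsWalk (ker G ∅) o P X) : P (pth X ⁻¹' Of o) = 0 := by
  have hd : d ≠ 0 := by
    obtain ⟨h1, h2, h3⟩ := hb o
    have := (Set.ncard_pos h1).2 h3
    omega
  obtain ⟨c, hc0, hk⟩ := k1 hd hg
  have hE : Adp fun t (x : ℕ → V) => ∃ φ : G ≃g G, Ent G C t fun s => φ (x s) := by
    rintro t x y hxy ⟨φ, hφ⟩
    exact ⟨φ, ent_adp C t _ _ (fun s hs => congrArg φ (hxy s hs)) hφ⟩
  have key := bc h hE (meas_Of o).compl hc0 (by
    rintro t x ⟨φ, hφ⟩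
    by_cases h0 : P (cyl X t x) = 0
    · rw [h0, mul_zero]
      exact zero_le
    have hx0 : x 0 = o := (val_of_ne_zero h h0).1
    have h1 := p3 hb (walk_map φ h) (S := C.Y ∪ C.F) (K := C.Fᶜ) (t := t) (x := fun s => φ (x s))
      (c := c) (by rw [empty_union]; exact hk t _ hφ)
    have h2 : cyl (fun t ω => φ (X t ω)) t (fun s => φ (x s)) = cyl X t x := by
      ext ω
      exact forall₂_congr fun s _ => φ.injective.eq_iff
    rw [h2] at h1
    refine h1.trans (measure_mono (inter_subset_inter_right _ fun ω hω hO => ?_))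
    have h3 : φ o ∈ C.Fᶜ := by
      have : φ (x 0) ∈ C.N := hφ.1
      rw [hx0] at this
      exact Set.disjoint_left.1 C.dNF this
    refine Ev.not_of hω.2 h3 fun N => ?_
    obtain ⟨n, hn, e⟩ := hO N
    exact ⟨n, hn, congrArg φ e⟩)
  refine measure_eq_zero_iff_ae_notMem.2 ?_
  filter_upwards [key, often_cn hb h, ae_adj h] with ω h1 h2 h3 hO
  refine h1 (fun m => ?_) hO
  obtain ⟨a, haN, ha⟩ := hN.exists_notMem_finite (ball_fin hb.lf C.fin m)
  obtain ⟨φ, rfl⟩ := ht o a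
  obtain ⟨w, hw⟩ := C.ne
  obtain ⟨T, -, hT⟩ := h2 o (φ.symm w) (cn_univ hc _ _) hO 0
  have e0 : φ (pth X ω 0) = φ o := congrArg φ h3.1
  have hadj : ∀ s, G.Adj (φ (pth X ω s)) (φ (pth X ω (s + 1))) := fun s =>
    φ.map_adj_iff.2 (h3.2 s)
  obtain ⟨t, -, hE⟩ := ent_exists (C := C) (y := fun s => φ (pth X ω s)) (T := T)
    (e0 ▸ haN) (fun hY => ha ⟨fun s => φ (pth X ω s), 0, Nat.zero_le _, e0, hY,
      fun s _ => hadj s⟩) hadj (by
        show φ (pth X ω T) ∈ C.Y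
        rw [hT, RelIso.apply_symm_apply]
        exact C.sub hw)
  refine ⟨t, ?_, φ, hE⟩
  by_contra hlt
  exact ha ⟨fun s => φ (pth X ω s), t, (not_le.1 hlt).le, e0, hE.2.2.2.1, fun s _ => hadj s⟩

end Pool.Agent.P3fb035
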