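import Pool.Agent.P.MP_3fb035_pr.QH2

/-! No three far points on a sphere. -/

set_option autoImplicit false

open MeasureTheory Set
open scoped ENNReal symmDiff

namespace Pool.Agent.P3fb035

open Pool.Agent.Lib.GRW

variable {V : Type} {G : SimpleGraph V}

/-- a finite connected set `W` that separates the infinite sets `F` and `N` -/
structure Ql0Sp (G : SimpleGraph V) (W F N : Set V) : Prop where
  fin : W.Finite
  con : Con G W
  c1 : Clo G F W
  c2 : Clo G N W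
  i1 : F.Infinite
  i2 : N.Infinite
  d1 : Disjoint F W
  d2 : Disjoint N W
  d : Disjoint F N
  cov : ∀ v, v ∈ W ∨ v ∈ F ∨ v ∈ N

theorem Ql0Sp.symm {W F N : Set V} (h : Ql0Sp G W F N) : Ql0Sp G W N F :=
  ⟨h.fin, h.con, h.c2, h.c1, h.i2, h.i1, h.d2, h.d1, h.d.symm,
    fun v => (h.cov v).imp_right Or.symm⟩

theorem Ql0Sp.pre {W F N : Set V} (h : Ql0Sp G W F N) (φ : G ≃g G) :
    Ql0Sp G (φ ⁻¹' W) (φ ⁻¹' F) (φ ⁻¹' N) :=
  ⟨h.fin.preimage φ.injective.injOn, h.con.pre φ, h.c1.pre φ, h.c2.pre φ,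
    h.i1.preimage (by rw [φ.surjective.range_eq]; exact subset_univ _),
    h.i2.preimage (by rw [φ.surjective.range_eq]; exact subset_univ _),
    h.d1.preimage φ, h.d2.preimage φ, h.d.preimage φ, fun v => h.cov (φ v)⟩

theorem ql0_base (hc : G.Connected) (h2 : Ends G 2) :
    ∃ (W F N : Set V) (w : V), Ql0Sp G W F N ∧ w ∈ W := by
  obtain ⟨S, c, h1, h2⟩ := h2
  obtain ⟨w⟩ := hc.nonempty
  obtain ⟨W, w1, w2, -, w3⟩ := fin_sup (G := G) (S := univ) (A := insert w (S : Set V))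
    (fun a _ b _ => cn_univ hc.preconnected a b) (S.finite_toSet.insert w) (subset_univ _)
  have hS : ∀ v, v ∉ W → v ∉ S := fun v hv h => hv (w2 (mem_insert_of_mem _ h))
  have cl : ∀ i, Clo G {v | v ∉ W ∧ c v = i} W := fun i a ha b hab => by
    by_cases hb : b ∈ W
    · exact Or.inr hb
    · exact Or.inl ⟨hb, (h1 a b (hS a ha.1) (hS b hb) hab).symm.trans ha.2⟩
  have inf : ∀ i, {v | v ∉ W ∧ c v = i}.Infinite := fun i =>
    ((h2 i).sdiff w1).mono fun v hv => ⟨hv.2, hv.1.2⟩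
  have dj : ∀ i, Disjoint {v | v ∉ W ∧ c v = i} W := fun i =>
    Set.disjoint_left.2 fun v hv => hv.1
  refine ⟨W, _, _, w, ⟨w1, w3, cl 0, cl 1, inf 0, inf 1, dj 0, dj 1,
    Set.disjoint_left.2 fun v h h' => absurd (h.2.symm.trans h'.2) (by decide), fun v => ?_⟩,
    w2 (mem_insert _ _)⟩
  by_cases hv : v ∈ W
  · exact Or.inl hv
  · have : ∀ i : Fin 2, i = 0 ∨ i = 1 := by decide
    exact Or.inr ((this (c v)).imp (fun h => ⟨hv, h⟩) fun h => ⟨hv, h⟩)

theorem ql0_dist (hc : G.Connected) (φ : G ≃g G) (u v : V) :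
    G.dist (φ u) (φ v) ≤ G.dist u v := by
  obtain ⟨p, hp⟩ := hc.exists_walk_length_eq_dist u v
  have h := SimpleGraph.dist_le (p.map φ.toHom)
  rwa [SimpleGraph.Walk.length_map, hp] at h

theorem ql0_all (hc : G.Connected) (ht : Tr G) (h2 : Ends G 2) : ∃ R : ℕ, ∀ x o : V,
    R < G.dist o x → ∃ W F N : Set V, Ql0Sp G W F N ∧ x ∈ W ∧ (∀ y ∈ W, G.dist x y ≤ R) ∧
      o ∈ N := by
  obtain ⟨W, F, N, w, h, hw⟩ := ql0_base hc h2
  obtain ⟨R, hR⟩ := (h.fin.image (G.dist w)).bddAbove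
  refine ⟨R, fun x o ho => ?_⟩
  obtain ⟨φ, hφ⟩ := ht x w
  have h1 : x ∈ φ ⁻¹' W := by rwa [mem_preimage, hφ]
  have h2 : ∀ y ∈ φ ⁻¹' W, G.dist x y ≤ R := fun y hy => by
    have := ql0_dist hc φ.symm (φ x) (φ y)
    rw [φ.symm_apply_apply, φ.symm_apply_apply, hφ] at this
    exact this.trans (hR ⟨φ y, hy, rfl⟩)
  rcases (h.pre φ).cov o with h3 | h3 | h3
  · have := h2 o h3
    rw [G.dist_comm] at this
    omega
  · exact ⟨_, _, _, (h.pre φ).symm, h1, h2, h3⟩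
  · exact ⟨_, _, _, h.pre φ, h1, h2, h3⟩

theorem ql0_geo (hc : G.Connected) (o : V) {u b : V} (p : G.Walk u b) (k : ℕ)
    (hk : G.dist o u ≤ k) : Cn G {y | G.dist o y + G.dist y b ≤ k + p.length} u b := by
  induction p generalizing k with
  | nil => exact Cn.rfl
  | @cons u v b h q ih =>
    have h1 : G.dist o v ≤ k + 1 := by
      have := hc.dist_triangle (u := o) (v := u) (w := v)
      rw [SimpleGraph.dist_eq_one_iff_adj.2 h] at this
      omega
    have h2 := SimpleGraph.dist_le q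
    have h3 := ih (k + 1) h1
    rw [SimpleGraph.Walk.length_cons, ← add_assoc, add_right_comm]
    exact (Cn.single h (add_le_add h1 h2)).trans h3

theorem ql0_near (hc : G.Connected) {R : ℕ} {o a b : V} {W F N W' F' N' : Set V}
    (s : Ql0Sp G W F N) (s' : Ql0Sp G W' F' N') (hb : b ∈ W') (ra : ∀ y ∈ W, G.dist a y ≤ R)
    (rb : ∀ y ∈ W', G.dist b y ≤ R) (ho : o ∈ N) (e : G.dist o a = G.dist o b)
    (h : 2 * R < G.dist a b) : W' ⊆ N := by
  obtain ⟨p, hp⟩ := hc.exists_walk_length_eq_dist o b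
  have h1 : b ∈ N := by
    refine clo_cn s.c2 (ql0_geo hc o p 0 (by simp)) (Set.disjoint_left.2 fun y hy hy' => ?_) ho
    have t0 : G.dist o y + G.dist y b ≤ 0 + p.length := hy
    have t1 := hc.dist_triangle (u := o) (v := y) (w := a)
    have t2 := hc.dist_triangle (u := a) (v := y) (w := b)
    have t3 := ra y hy'
    rw [G.dist_comm (u := y) (v := a)] at t1
    omega
  refine fun y hy => clo_cn s.c2 (s'.con b hb y hy) (Set.disjoint_left.2 fun z hz hz' => ?_) h1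
  have t2 := hc.dist_triangle (u := a) (v := z) (w := b)
  have t3 := ra z hz'
  have t4 := rb z hz
  rw [G.dist_comm (u := z) (v := b)] at t2
  omega

theorem ql0_far (hc : G.Connected) {R : ℕ} {o a b : V} {W F N W' F' N' : Set V}
    (s : Ql0Sp G W F N) (s' : Ql0Sp G W' F' N') (ha : a ∈ W) (hb : b ∈ W')
    (ra : ∀ y ∈ W, G.dist a y ≤ R) (rb : ∀ y ∈ W', G.dist b y ≤ R) (ho : o ∈ N) (ho' : o ∈ N')
    (e : G.dist o a = G.dist o b) (h : 2 * R < G.dist a b) : F ⊆ N' := fun v hv => by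
  have h1 := ql0_near hc s s' hb ra rb ho e h
  have h2 := ql0_near hc s' s ha rb ra ho' e.symm (by rwa [G.dist_comm])
  obtain ⟨w, hw, hp⟩ := to_sep hc.preconnected s.c1 ⟨a, ha⟩ hv
  exact clo_cn s'.c2 (hp.symm (Or.inl hv))
    ((disjoint_union_left.2 ⟨s.d, s.d2.symm⟩).mono_right h1) (h2 hw)

theorem far_three (hc : G.Connected) (ht : Tr G) (h2 : Ends G 2) (h3 : ¬Ends G 3) :
    ∃ R : ℕ, ∀ (o : V) (n : ℕ), R < n → ∀ a b c, G.dist o a = n → G.dist o b = n →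
      G.dist o c = n → G.dist a b ≤ R ∨ G.dist a c ≤ R ∨ G.dist b c ≤ R := by
  obtain ⟨R, hR⟩ := ql0_all hc ht h2
  refine ⟨2 * R, fun o n hn a b c ha hb hc' => ?_⟩
  by_contra hcon
  simp only [not_or, not_le] at hcon
  obtain ⟨hab, hac, hbc⟩ := hcon
  obtain ⟨Wa, Fa, Na, sa, a1, a2, a3⟩ := hR a o (by omega)
  obtain ⟨Wb, Fb, Nb, sb, b1, b2, b3⟩ := hR b o (by omega)
  obtain ⟨Wc, Fc, Nc, sc, c1, c2, c3⟩ := hR c o (by omega)
  have h1 := ql0_far hc sa sb a1 b1 a2 b2 a3 b3 (ha.trans hb.symm) hab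
  have h2 := ql0_far hc sc sa c1 a1 c2 a2 c3 a3 (hc'.trans ha.symm) (by rwa [G.dist_comm])
  have h4 := ql0_far hc sc sb c1 b1 c2 b2 c3 b3 (hc'.trans hb.symm) (by rwa [G.dist_comm])
  refine h3 (ends_of_three (sa.fin.union sb.fin) (sa.c1.mono subset_union_left)
    (sb.c1.mono subset_union_right) (sb.d.symm.mono_left h1) sa.i1 sb.i1 (sc.i1.mono ?_))
  rintro v hv (h | h)
  · exact Set.disjoint_left.1 sa.d h (h2 hv)
  · exact Set.disjoint_left.1 sb.d h (h4 hv)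

end Pool.Agent.P3fb035
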