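import Pool.Agent.P.MP_3fb035_pr.QL0

/-! Graphs with two ends have linear growth. -/

set_option autoImplicit false

open MeasureTheory Set
open scoped ENNReal symmDiff

namespace Pool.Agent.P3fb035

open Pool.Agent.Lib.GRW

variable {V : Type} {G : SimpleGraph V}

theorem ql1_union {A : Set V} (hA : A.Finite) (f : V → Set V) (k : ℕ)
    (h : ∀ u, (f u).ncard ≤ k) : (⋃ u ∈ A, f u).ncard ≤ A.ncard * k := by
  induction A, hA using Set.Finite.induction_on with
  | empty => simp
  | @insert a s ha hs ih =>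
    rw [biUnion_insert, ncard_insert_of_notMem ha hs, add_mul, one_mul, add_comm (s.ncard * k)]
    exact (ncard_union_le _ _).trans (Nat.add_le_add (h a) ih)

theorem ball_card {d : ℕ} (hb : Bd G d) (hc : G.Connected) (n : ℕ) (o : V) :
    {v | G.dist o v ≤ n}.Finite ∧ {v | G.dist o v ≤ n}.ncard ≤ (d + 1) ^ n := by
  induction n with
  | zero =>
    have e : {v | G.dist o v ≤ 0} = {o} := by
      ext v
      simp only [mem_setOf_eq, Nat.le_zero, hc.dist_eq_zero_iff, mem_singleton_iff]
      exact eq_comm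
    rw [e]; simp
  | succ n ih =>
    have hs : {v | G.dist o v ≤ n + 1} ⊆
        ⋃ u ∈ {v | G.dist o v ≤ n}, insert u (G.neighborSet u) := by
      intro v hv
      obtain ⟨p, hp⟩ := hc.exists_walk_length_eq_dist v o
      rw [mem_setOf_eq, SimpleGraph.dist_comm, ← hp] at hv
      cases p with
      | nil => exact mem_biUnion (by simp) (mem_insert _ _)
      | @cons _ u _ h q =>
        refine mem_biUnion (x := u) ?_ (mem_insert_of_mem _ h.symm)
        rw [mem_setOf_eq, SimpleGraph.dist_comm]
        have := SimpleGraph.dist_le q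
        rw [SimpleGraph.Walk.length_cons] at hv
        omega
    have hf : (⋃ u ∈ {v | G.dist o v ≤ n}, insert u (G.neighborSet u)).Finite :=
      ih.1.biUnion fun u _ => (hb u).1.insert u
    refine ⟨hf.subset hs, (ncard_le_ncard hs hf).trans ?_⟩
    refine (ql1_union ih.1 _ (d + 1) fun u =>
      (ncard_insert_le _ _).trans (Nat.succ_le_succ (hb u).2.1)).trans ?_
    rw [pow_succ]
    exact Nat.mul_le_mul_right _ ih.2

theorem lg {d : ℕ} (hb : Bd G d) (hc : G.Connected) (ht : Tr G) (h2 : Ends G 2) (h3 : ¬Ends G 3)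
    (o : V) : ∃ C : ℕ, ∀ n, {v | G.dist o v ≤ n}.Finite ∧
      {v | G.dist o v ≤ n}.ncard ≤ C * (n + 1) := by
  obtain ⟨R, hR⟩ := far_three hc ht h2 h3
  have hS : ∀ n, {v | G.dist o v = n}.ncard ≤ 2 * (d + 1) ^ R := by
    intro n
    have key : ∃ a b, {v | G.dist o v = n} ⊆ {v | G.dist a v ≤ R} ∪ {v | G.dist b v ≤ R} := by
      rcases le_or_gt n R with h | h
      · exact ⟨o, o, fun v hv => Or.inl (le_trans (le_of_eq hv) h)⟩
      by_cases h1 : ∃ a b, G.dist o a = n ∧ G.dist o b = n ∧ R < G.dist a b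
      · obtain ⟨a, b, ha, hb', hab⟩ := h1
        refine ⟨a, b, fun c hc' => ?_⟩
        rcases hR o n h a b c ha hb' hc' with e | e
        · omega
        · exact e
      · rcases eq_empty_or_nonempty {v | G.dist o v = n} with e | ⟨a, ha⟩
        · exact ⟨o, o, by rw [e]; exact empty_subset _⟩
        · refine ⟨a, a, fun c hc' => Or.inl ?_⟩
          by_contra h4
          exact h1 ⟨a, c, ha, hc', not_le.1 h4⟩
    obtain ⟨a, b, hab⟩ := key
    have ha := ball_card hb hc R a
    have hb' := ball_card hb hc R b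
    have h4 := (ncard_le_ncard hab (ha.1.union hb'.1)).trans (ncard_union_le _ _)
    omega
  refine ⟨2 * (d + 1) ^ R, fun n => ⟨(ball_card hb hc n o).1, ?_⟩⟩
  induction n with
  | zero =>
    have e : {v | G.dist o v ≤ 0} = {v | G.dist o v = 0} := by
      ext v; simp only [mem_setOf_eq, Nat.le_zero]
    rw [e, zero_add, mul_one]
    exact hS 0
  | succ n ih =>
    have e : {v | G.dist o v ≤ n + 1} = {v | G.dist o v ≤ n} ∪ {v | G.dist o v = n + 1} := by
      ext v; simp only [mem_setOf_eq, mem_union]; omega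
    rw [e, mul_add _ (n + 1) 1, mul_one]
    exact (ncard_union_le _ _).trans (Nat.add_le_add ih (hS _))

end Pool.Agent.P3fb035
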