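import Pool.Agent.P.MP_3fb035_pr.QDef

/-! Linear growth gives recurrence of the simple random walk. -/

set_option autoImplicit false

open MeasureTheory Set
open scoped ENNReal symmDiff

namespace Pool.Agent.P3fb035

open Pool.Agent.Lib.GRW

variable {V : Type} {G : SimpleGraph V}
variable [G.LocallyFinite]

variable [Countable V] [MeasurableSpace V] [DiscreteMeasurableSpace V]

theorem ql2_meas (u v : V) (n : ℕ) : MeasurableSet {ω : Om G | Ys u ω n = v} :=
  meas_Ys u (measurableSet_setOfPred.2 (meas_eq n v))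

theorem ck (u v : V) (n m : ℕ) : Pm G {ω | Ys u ω (n + m) = v} =
    ∑' y, Pm G {ω | Ys u ω n = y} * Pm G {ω | Ys y ω m = v} := by
  have h : {ω : Om G | Ys u ω (n + m) = v} =
      ⋃ y, {ω | Ys u ω n = y ∧ (fun k => Ys u ω (n + k)) ∈ {z : ℕ → V | z m = v}} := by
    ext ω
    exact ⟨fun e => mem_iUnion.2 ⟨_, rfl, e⟩, fun e => (mem_iUnion.1 e).elim fun _ e' => e'.2⟩
  rw [h, measure_iUnion]
  · exact tsum_congr fun y => markov' u y n (measurableSet_setOfPred.2 (meas_eq m v))
  · intro y y' hne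
    exact disjoint_left.2 fun ω e e' => hne (e.1.symm.trans e'.1)
  · exact fun y => (ql2_meas u y n).inter (ql2_meas u v (n + m))

omit [Countable V] [MeasurableSpace V] [DiscreteMeasurableSpace V] in
theorem ql2_one (hG : ∀ v, ∃ w, G.Adj v w) {d : ℕ} (hd : ∀ v, G.degree v = d) (u v : V) :
    Pm G {ω | Ys u ω 1 = v} = Pm G {ω | Ys v ω 1 = u} := by
  have h1 := Ys_one hG u v
  have h2 := Ys_one hG v u
  rw [hd] at h1 h2
  refine h1.trans (Eq.trans ?_ h2.symm)
  by_cases h : G.Adj u v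
  · rw [if_pos h, if_pos h.symm]
  · rw [if_neg h, if_neg fun h' => h h'.symm]

theorem p_symm (hG : ∀ v, ∃ w, G.Adj v w) {d : ℕ} (hd : ∀ v, G.degree v = d) (n : ℕ) (u v : V) :
    Pm G {ω | Ys u ω n = v} = Pm G {ω | Ys v ω n = u} := by
  induction n generalizing u v with
  | zero =>
    congr 1
    ext ω
    exact eq_comm
  | succ n ih =>
    rw [ck u v n 1, add_comm n 1, ck v u 1 n]
    exact tsum_congr fun y => by rw [ih u y, ql2_one hG hd y v, mul_comm]

omit [Countable V] [MeasurableSpace V] [DiscreteMeasurableSpace V] in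
theorem ql2_walk (hG : ∀ v, ∃ w, G.Adj v w) (o : V) (ω : Om G) (n : ℕ) :
    ∃ p : G.Walk o (Ys o ω n), p.length = n := by
  induction n with
  | zero => exact ⟨.nil, rfl⟩
  | succ n ih =>
    obtain ⟨p, hp⟩ := ih
    exact ⟨p.concat (hop_spec hG (ω (n + 1, Ys o ω n))).1, by
      rw [SimpleGraph.Walk.length_concat, hp]⟩

theorem ql2_green (a : V) (h : Pm G (Ys a ⁻¹' Nv a) ≠ 0) :
    ∑' n, Pm G {ω | Ys a ω n = a} ≠ ∞ := by
  have h1 : ∑' n, Pm G {ω | Ys a ω n = a ∧ (fun m => Ys a ω (n + m)) ∈ Nv a} ≠ ∞ := by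
    rw [← measure_iUnion]
    · exact measure_ne_top _ _
    · intro n n' hne
      refine disjoint_left.2 fun ω h h' => ?_
      rcases lt_or_gt_of_ne hne with e | e
      · exact h.2 (n' - n) (by omega) ((congrArg (Ys a ω) (by omega)).trans h'.1)
      · exact h'.2 (n - n') (by omega) ((congrArg (Ys a ω) (by omega)).trans h.1)
    · exact fun n => (meas_Ys a (measurableSet_setOfPred.2 (meas_eq n a))).inter
        ((measurable_pi_lambda _ fun m => (measurable_pi_apply (n + m)).comp (meas_Ys a))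
          (meas_Nv a))
  simp only [markov' a a _ (meas_Nv a), ENNReal.tsum_mul_right] at h1
  exact fun e => h1 (by rw [e, ENNReal.top_mul h])

theorem ql2_lower (hG : ∀ v, ∃ w, G.Adj v w) {d : ℕ} (hd : ∀ v, G.degree v = d) (o : V) (n : ℕ)
    (B : Finset V) (hB : ∀ v, G.dist o v ≤ n → v ∈ B) :
    1 ≤ (B.card : ℝ) * (Pm G {ω | Ys o ω (n + n) = o}).toReal := by
  have h1 : ∑ y ∈ B, Pm G {ω | Ys o ω n = y} = 1 := by
    rw [← measure_biUnion_finset (f := fun y => {ω : Om G | Ys o ω n = y}) (fun y _ y' _ hne =>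
      disjoint_left.2 fun ω e e' => hne (Eq.trans (Eq.symm e) e')) fun y _ => ql2_meas o y n]
    have : (⋃ y ∈ B, {ω : Om G | Ys o ω n = y}) = univ := by
      refine eq_univ_of_forall fun ω => mem_iUnion₂.2 ⟨Ys o ω n, hB _ ?_, rfl⟩
      obtain ⟨p, hp⟩ := ql2_walk hG o ω n
      exact (SimpleGraph.dist_le p).trans hp.le
    rw [this, measure_univ]
  have h2 : ∑ y ∈ B, (Pm G {ω | Ys o ω n = y}).toReal = 1 := by
    rw [← ENNReal.toReal_sum fun y _ => measure_ne_top _ _, h1, ENNReal.toReal_one]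
  have h3 : ∑ y ∈ B, Pm G {ω | Ys o ω n = y} * Pm G {ω | Ys o ω n = y} ≤
      Pm G {ω | Ys o ω (n + n) = o} := by
    rw [ck o o n n]
    refine le_trans (le_of_eq (Finset.sum_congr rfl fun y _ => ?_)) (ENNReal.sum_le_tsum B)
    rw [p_symm hG hd n y o]
  have h4 := ENNReal.toReal_mono (measure_ne_top _ _) h3
  rw [ENNReal.toReal_sum fun y _ => ENNReal.mul_ne_top (measure_ne_top _ _) (measure_ne_top _ _)]
    at h4
  simp only [← sq, ENNReal.toReal_pow] at h4
  have h5 := sq_sum_le_card_mul_sum_sq (s := B) (f := fun y => (Pm G {ω | Ys o ω n = y}).toReal)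
  rw [h2, one_pow] at h5
  exact h5.trans (mul_le_mul_of_nonneg_left h4 (Nat.cast_nonneg _))

theorem srw_rec (hG : ∀ v, ∃ w, G.Adj v w) {d : ℕ} (hd : ∀ v, G.degree v = d) (o : V) {C : ℕ}
    (hC : ∀ n, {v | G.dist o v ≤ n}.Finite ∧ {v | G.dist o v ≤ n}.ncard ≤ C * (n + 1)) :
    Pm G (Ys o ⁻¹' Nv o) = 0 := by
  by_contra h
  have h1 := ENNReal.summable_toReal (ql2_green o h)
  have h2 : Summable fun n : ℕ => (C : ℝ) * (Pm G {ω | Ys o ω (n + n) = o}).toReal :=
    (h1.comp_injective (i := fun n : ℕ => n + n) fun a b e => by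
      simp only at e
      omega).mul_left _
  have h3 : Summable fun n : ℕ => 1 / ((n + 1 : ℕ) : ℝ) := by
    refine Summable.of_nonneg_of_le (fun n => by positivity) (fun n => ?_) h2
    have h4 := ql2_lower hG hd o n (hC n).1.toFinset fun v hv => (hC n).1.mem_toFinset.2 hv
    have h5 : (((hC n).1.toFinset.card : ℕ) : ℝ) ≤ (C : ℝ) * ((n + 1 : ℕ) : ℝ) := by
      have := (hC n).2
      rw [ncard_eq_toFinset_card _ (hC n).1] at this
      exact_mod_cast this
    have h6 := h4.trans (mul_le_mul_of_nonneg_right h5 ENNReal.toReal_nonneg)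
    rw [div_le_iff₀ (by positivity)]
    linarith
  exact Real.not_summable_one_div_natCast
    ((summable_nat_add_iff (f := fun n : ℕ => 1 / (n : ℝ)) 1).1 h3)

end Pool.Agent.P3fb035
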