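import Pool.Agent.P.MP_3fb035_pr.QH1

/-! The mass transport principle. -/

set_option autoImplicit false

open MeasureTheory Set
open scoped ENNReal symmDiff

namespace Pool.Agent.P3fb035

open Pool.Agent.Lib.GRW

variable {V : Type} {G : SimpleGraph V}

theorem qm1_sum {S : Set V} (hS : S.Finite) (hne : S.Nonempty) (c : ℝ≥0∞) :
    ∑' x, S.indicator (fun _ => c * (S.ncard : ℝ≥0∞)⁻¹) x = c := by
  have h0 : (S.ncard : ℝ≥0∞) ≠ 0 := Nat.cast_ne_zero.2 ((ncard_pos hS).2 hne).ne'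
  rw [← _root_.tsum_subtype, ENNReal.tsum_set_const, ← hS.cast_ncard_eq, ENat.toENNReal_coe,
    mul_left_comm, ENNReal.mul_inv_cancel h0 (ENNReal.natCast_ne_top _), mul_one]

theorem qm1_move (ψ : G ≃g G) (a b y : V) :
    {c | ∃ φ : G ≃g G, φ a = ψ b ∧ φ y = c}.ncard = {c | ∃ φ : G ≃g G, φ a = b ∧ φ y = c}.ncard := by
  rw [← ncard_image_of_injective {c | ∃ φ : G ≃g G, φ a = b ∧ φ y = c} ψ.injective]
  congr 1
  ext c
  constructor
  · rintro ⟨φ, h1, rfl⟩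
    exact ⟨ψ.symm (φ y), ⟨φ.trans ψ.symm, by simp [h1], rfl⟩, by simp⟩
  · rintro ⟨_, ⟨φ, h1, rfl⟩, rfl⟩
    exact ⟨φ.trans ψ, by simp [h1], rfl⟩

theorem qm1_eq (hu : Unimod G) (ψ : G ≃g G) {o u v : V} (h1 : ψ v = o) (h2 : ψ o = u) :
    {c | ∃ φ : G ≃g G, φ u = o ∧ φ o = c}.ncard = {c | ∃ φ : G ≃g G, φ v = o ∧ φ o = c}.ncard := by
  have e : {c | ∃ φ : G ≃g G, φ u = o ∧ φ o = c} = {c | ∃ φ : G ≃g G, φ o = o ∧ φ v = c} := by
    ext c
    constructor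
    · rintro ⟨φ, k1, k2⟩
      exact ⟨ψ.trans φ, by simp [h2, k1], by simp [h1, k2]⟩
    · rintro ⟨φ, k1, k2⟩
      refine ⟨ψ.symm.trans φ, ?_, ?_⟩
      · rw [← h2]; simp [k1]
      · rw [← k2, ← h1]; simp
  rw [e, hu o v, ← qm1_move ψ v v o, h1]

theorem mtp (hl : LF G) (hc : G.Preconnected) (ht : Tr G) (hu : Unimod G) {F : V → V → ℝ≥0∞}
    (hF : ∀ (φ : G ≃g G) (u v : V), F (φ u) (φ v) = F u v) (o : V) :
    ∑' v, F o v = ∑' u, F u o := by
  let A : V → Set V := fun v => {c | ∃ φ : G ≃g G, φ v = o ∧ φ o = c}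
  have fin : ∀ v, (A v).Finite := fun v => fb hl hc v o o
  have ne : ∀ v, (A v).Nonempty := fun v => by
    obtain ⟨φ, h⟩ := ht v o
    exact ⟨φ o, φ, h, rfl⟩
  have sy : ∀ u v, u ∈ A v → v ∈ A u := by
    rintro u v ⟨φ, h1, h2⟩
    exact ⟨φ.symm, by rw [← h2]; simp, by rw [← h1]; simp⟩
  have key : ∀ v u, (A v).indicator (fun _ => F o v * ((A v).ncard : ℝ≥0∞)⁻¹) u =
      (A u).indicator (fun _ => F u o * ((A u).ncard : ℝ≥0∞)⁻¹) v := by
    intro v u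
    by_cases h : u ∈ A v
    · rw [indicator_of_mem h, indicator_of_mem (sy u v h)]
      obtain ⟨φ, h1, h2⟩ := h
      have e := hF φ o v
      rw [h1, h2] at e
      rw [e, qm1_eq hu φ h1 h2]
    · rw [indicator_of_notMem h, indicator_of_notMem fun k => h (sy v u k)]
  calc ∑' v, F o v
      = ∑' v, ∑' u, (A v).indicator (fun _ => F o v * ((A v).ncard : ℝ≥0∞)⁻¹) u :=
        tsum_congr fun v => (qm1_sum (fin v) (ne v) _).symm
    _ = ∑' u, ∑' v, (A u).indicator (fun _ => F u o * ((A u).ncard : ℝ≥0∞)⁻¹) v := by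
        rw [ENNReal.tsum_comm]
        exact tsum_congr fun u => tsum_congr fun v => key v u
    _ = ∑' u, F u o := tsum_congr fun u => qm1_sum (fin u) (ne u) _

end Pool.Agent.P3fb035
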