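import Pool.Agent.P.MP_3fb035_pr.QM6

/-! Automorphisms act on the sample space. -/

set_option autoImplicit false

open MeasureTheory Set
open scoped ENNReal symmDiff

namespace Pool.Agent.P3fb035

open Pool.Agent.Lib.GRW

variable {V : Type} {G : SimpleGraph V}
variable [G.LocallyFinite]

theorem qm2_mem (φ : G ≃g G) {ω ω' : Om G} (h : ∀ a b k, G.Adj a b →
    orb ω' (φ a) (φ b) k = (φ (orb ω a b k).1, φ (orb ω a b k).2)) {a v : V} (hav : G.Adj a v)
    (x y : V) : (x, y) ∈ Ob ω' (φ a) (φ v) ↔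
      ∃ x' y', (x', y') ∈ Ob ω a v ∧ φ x' = x ∧ φ y' = y := by
  constructor
  · rintro ⟨k, hk⟩
    rw [h a v k hav, Prod.mk.injEq] at hk
    exact ⟨_, _, ⟨k, rfl⟩, hk.1, hk.2⟩
  · rintro ⟨x', y', ⟨k, hk⟩, rfl, rfl⟩
    exact ⟨k, by rw [h a v k hav, hk]⟩

theorem mass_act (φ : G ≃g G) {ω ω' : Om G} (h : ∀ a b k, G.Adj a b →
    orb ω' (φ a) (φ b) k = (φ (orb ω a b k).1, φ (orb ω a b k).2)) (v u : V) :
    mass ω' (φ v) (φ u) = mass ω v u := by
  classical
  unfold mass
  rw [← φ.toEquiv.tsum_eq]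
  refine tsum_congr fun a => ?_
  have e0 : φ.toEquiv a = φ a := rfl
  rw [e0]
  by_cases hav : G.Adj a v
  · have inj : Function.Injective φ := φ.injective
    have e1 : {b | (b, φ v) ∈ Ob ω' (φ a) (φ v)} = φ '' {b | (b, v) ∈ Ob ω a v} := by
      ext b
      simp only [mem_ofPred_eq, qm2_mem φ h hav, mem_image]
      constructor
      · rintro ⟨x, y, hxy, rfl, e⟩
        exact ⟨x, inj e ▸ hxy, rfl⟩
      · rintro ⟨x, hx, rfl⟩
        exact ⟨x, v, hx, rfl, rfl⟩
    have e2 : {z | (φ u, z) ∈ Ob ω' (φ a) (φ v)} = φ '' {z | (u, z) ∈ Ob ω a v} := by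
      ext b
      simp only [mem_ofPred_eq, qm2_mem φ h hav, mem_image]
      constructor
      · rintro ⟨x, y, hxy, e, rfl⟩
        exact ⟨y, inj e ▸ hxy, rfl⟩
      · rintro ⟨y, hy, rfl⟩
        exact ⟨u, y, hy, rfl, rfl⟩
    have e3 : Prod.fst '' Ob ω' (φ a) (φ v) = φ '' (Prod.fst '' Ob ω a v) := by
      ext b
      constructor
      · rintro ⟨⟨x, y⟩, hxy, rfl⟩
        obtain ⟨x', y', h', rfl, rfl⟩ := (qm2_mem φ h hav x y).1 hxy
        exact ⟨x', ⟨(x', y'), h', rfl⟩, rfl⟩
      · rintro ⟨_, ⟨⟨x, y⟩, hxy, rfl⟩, rfl⟩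
        exact ⟨(φ x, φ y), (qm2_mem φ h hav _ _).2 ⟨x, y, hxy, rfl, rfl⟩, rfl⟩
    rw [if_pos hav, if_pos (φ.map_adj_iff.2 hav), Jn, Jn, e1, e2, e3,
      ncard_image_of_injective _ inj, ncard_image_of_injective _ inj,
      ncard_image_of_injective _ inj]
  · rw [if_neg hav, if_neg fun e => hav (φ.map_adj_iff.1 e)]

variable [Countable V] [MeasurableSpace V] [DiscreteMeasurableSpace V]

theorem qm2_meas (a v : V) (e : V × V) : Measurable fun ω : Om G => e ∈ Ob ω a v :=
  Measurable.exists fun k =>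
    (Measurable.of_discrete (f := fun p : V × V => p = e)).comp (meas_orb a v k)

theorem meas_Jn (a v : V) : Measurable fun ω : Om G => Jn ω a v :=
  measurable_ncard.comp (measurable_set_iff.2 fun b => qm2_meas a v (b, v))

theorem meas_mass (v u : V) : Measurable fun ω : Om G => mass ω v u := by
  classical
  unfold mass
  refine Measurable.ennreal_tsum fun a => ?_
  by_cases hav : G.Adj a v
  · simp only [if_pos hav]
    have hc : Measurable fun n : ℕ => (n : ℝ≥0∞) := Measurable.of_discrete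
    have h2 : Measurable fun ω : Om G => {z | (u, z) ∈ Ob ω a v}.ncard :=
      measurable_ncard.comp (measurable_set_iff.2 fun z => qm2_meas a v (u, z))
    have h3 : Measurable fun ω : Om G => (Prod.fst '' Ob ω a v).ncard := by
      refine measurable_ncard.comp (measurable_set_iff.2 fun x => ?_)
      have : (fun ω : Om G => x ∈ Prod.fst '' Ob ω a v) = fun ω => ∃ y, (x, y) ∈ Ob ω a v := by
        funext ω
        simp
      rw [this]
      exact Measurable.exists fun y => qm2_meas a v (x, y)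
    exact ((hc.comp (meas_Jn a v)).inv.mul (hc.comp h2)).mul (hc.comp h3).inv
  · simp only [if_neg hav]
    exact measurable_const

end Pool.Agent.P3fb035
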