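import Pool.Agent.P.MP_3fb035_pr.QM5

/-! Incoming and outgoing mass. -/

set_option autoImplicit false

open MeasureTheory Set
open scoped ENNReal symmDiff

namespace Pool.Agent.P3fb035

open Pool.Agent.Lib.GRW

variable {V : Type} {G : SimpleGraph V}
variable [G.LocallyFinite]

variable {ω : Om G} {a b : V}

theorem qm3_iso (he : ∀ v, Even (G.degree v)) (hf : AllFin ω) {δ : ℝ} (hδ : Iso G δ)
    (hab : G.Adj a b) : ((Ob ω a b).ncard : ℝ) ≤ δ / 2 * (Prod.fst '' Ob ω a b).ncard := by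
  classical
  have hO := ob_fin hf hab
  have hS := hO.image Prod.fst
  have h1 := hδ hS.toFinset
  rw [← ncard_eq_toFinset_card _ hS] at h1
  have h2 : ∀ e ∈ Ob ω a b, e.1 ∈ hS.toFinset ∧ e.2 ∈ hS.toFinset ∧ G.Adj e.1 e.2 := by
    rintro _ ⟨k, rfl⟩
    exact ⟨hS.mem_toFinset.2 ⟨_, ⟨k, rfl⟩, rfl⟩, hS.mem_toFinset.2 ⟨_, ⟨k + 1, rfl⟩, rfl⟩,
      orb_adj ω hab k⟩
  have h3 : Disjoint hO.toFinset (hO.toFinset.image Prod.swap) := by
    refine Finset.disjoint_left.2 fun e h g => ?_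
    obtain ⟨e', h', rfl⟩ := Finset.mem_image.1 g
    rw [hO.mem_toFinset] at h h'
    rw [← ob_eq hf hab h'] at h
    obtain ⟨j, hj⟩ := h
    exact orb_pal he (h2 _ h').2.2 j hj
  have h4 : hO.toFinset ∪ hO.toFinset.image Prod.swap ⊆ hS.toFinset.biUnion fun x =>
      (hS.toFinset.filter fun w => G.Adj x w).image fun w => (x, w) := by
    intro e h
    have h5 : e.1 ∈ hS.toFinset ∧ e.2 ∈ hS.toFinset ∧ G.Adj e.1 e.2 := by
      rcases Finset.mem_union.1 h with h | h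
      · exact h2 e (hO.mem_toFinset.1 h)
      · obtain ⟨e', h', rfl⟩ := Finset.mem_image.1 h
        have := h2 e' (hO.mem_toFinset.1 h')
        exact ⟨this.2.1, this.1, this.2.2.symm⟩
    exact Finset.mem_biUnion.2 ⟨e.1, h5.1,
      Finset.mem_image.2 ⟨e.2, Finset.mem_filter.2 h5.2, rfl⟩⟩
  have h5 := (Finset.card_le_card h4).trans Finset.card_biUnion_le
  rw [Finset.card_union_of_disjoint h3, Finset.card_image_of_injective _ Prod.swap_injective,
    ← ncard_eq_toFinset_card _ hO] at h5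
  have h6 : (Ob ω a b).ncard + (Ob ω a b).ncard ≤
      ∑ v ∈ hS.toFinset, {w | w ∈ hS.toFinset ∧ G.Adj v w}.ncard :=
    h5.trans (Finset.sum_le_sum fun x _ => Finset.card_image_le.trans (by
      rw [← ncard_coe_finset, Finset.coe_filter]))
  have h7 : (((Ob ω a b).ncard + (Ob ω a b).ncard : ℕ) : ℝ) ≤ _ := (Nat.cast_le.2 h6).trans h1
  push_cast at h7
  linarith

theorem qm3_sum {O : Set (V × V)} (hO : O.Finite) :
    ∑' u, (({z | (u, z) ∈ O}.ncard : ℕ) : ℝ≥0∞) ≤ O.ncard := by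
  classical
  rw [tsum_eq_sum (s := hO.toFinset.image Prod.fst), ← Nat.cast_sum, Nat.cast_le,
    ncard_eq_toFinset_card _ hO, Finset.card_eq_sum_card_image Prod.fst]
  · refine Finset.sum_le_sum fun u _ => ?_
    rw [← ncard_coe_finset]
    refine ncard_le_ncard_of_injOn (fun z => (u, z)) (fun z hz => ?_)
      (fun _ _ _ _ h => congrArg Prod.snd h) (Finset.finite_toSet _)
    exact Finset.mem_coe.2 (Finset.mem_filter.2 ⟨hO.mem_toFinset.2 hz, rfl⟩)
  · intro u hu
    rw [show {z | (u, z) ∈ O} = ∅ from eq_empty_of_forall_notMem fun z hz =>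
      hu (Finset.mem_image.2 ⟨_, hO.mem_toFinset.2 hz, rfl⟩)]
    simp

open Classical in
theorem mass_out [Countable V] (he : ∀ v, Even (G.degree v)) (hf : AllFin ω) {δ : ℝ}
    (hδ : Iso G δ) (v : V) : ∑' u, mass ω v u ≤
      ENNReal.ofReal (δ / 2) * ∑' a, if G.Adj a v then (Jn ω a v : ℝ≥0∞)⁻¹ else 0 := by
  simp only [mass]
  rw [ENNReal.tsum_comm, ← ENNReal.tsum_mul_left]
  refine ENNReal.tsum_le_tsum fun a => ?_
  split_ifs with h
  · rw [ENNReal.tsum_mul_right, ENNReal.tsum_mul_left, mul_assoc, mul_comm]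
    refine mul_le_mul_left (ENNReal.div_le_of_le_mul ((qm3_sum (ob_fin hf h)).trans ?_)) _
    rw [← ENNReal.ofReal_natCast, ← ENNReal.ofReal_natCast (ncard (Prod.fst '' _)),
      ← ENNReal.ofReal_mul' (Nat.cast_nonneg _)]
    exact ENNReal.ofReal_le_ofReal (qm3_iso he hf hδ h)
  · simp

end Pool.Agent.P3fb035
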