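import Pool.Agent.P.MP_3fb035_pr.QW2

/-! The mean of the inverse cycle length. -/

set_option autoImplicit false

open MeasureTheory Set
open scoped ENNReal symmDiff

namespace Pool.Agent.P3fb035

open Pool.Agent.Lib.GRW

variable {V : Type} {G : SimpleGraph V}
variable [G.LocallyFinite]

variable {w a : V} {π : V → V}

/-- the central binomial probabilities -/
noncomputable def qw3a (m : ℕ) : ℝ := ∏ i ∈ Finset.range m, (2 * (i : ℝ) + 1) / (2 * i + 2)

theorem qw3a_pos (m : ℕ) : 0 < qw3a m := Finset.prod_pos fun i _ => by positivity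

theorem qw3a_succ (m : ℕ) : ((m : ℝ) + 1) * qw3a (m + 1) = (m + 1 / 2) * qw3a m := by
  rw [qw3a, Finset.prod_range_succ, ← qw3a]
  field_simp

theorem qw3_sum (k : ℕ) : ∑ j ∈ Finset.range k, qw3a (k - (j + 1)) / ((j : ℝ) + 1) =
    2 * qw3a k * ∑ i ∈ Finset.range k, 1 / (2 * (i : ℝ) + 1) := by
  induction k with
  | zero => simp
  | succ k ih =>
    have hk : (k : ℝ) + 1 ≠ 0 := by positivity
    refine mul_left_cancel₀ hk ?_
    have e : ∀ j ∈ Finset.range k, ((k : ℝ) + 1) * (qw3a (k + 1 - (j + 1)) / ((j : ℝ) + 1)) =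
        (k + 1 / 2) * (qw3a (k - (j + 1)) / ((j : ℝ) + 1)) + (qw3a (k - j) - qw3a (k - (j + 1))) := by
      intro j hj
      obtain ⟨m, rfl⟩ := Nat.exists_eq_add_of_lt (Finset.mem_range.1 hj)
      have e1 : j + m + 1 + 1 - (j + 1) = m + 1 := by omega
      have e2 : j + m + 1 - (j + 1) = m := by omega
      have e3 : j + m + 1 - j = m + 1 := by omega
      have hj1 : (j : ℝ) + 1 ≠ 0 := by positivity
      rw [e1, e2, e3]
      push_cast
      field_simp
      linear_combination 2 * qw3a_succ m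
    rw [Finset.sum_range_succ, mul_add, Finset.mul_sum, Finset.sum_congr rfl e,
      Finset.sum_add_distrib, ← Finset.mul_sum, ih,
      Finset.sum_range_sub' (fun j => qw3a (k - j)) k, Finset.sum_range_succ, Nat.sub_self,
      Nat.sub_self, Nat.sub_zero, mul_div_cancel₀ _ hk]
    have h1 := qw3a_succ k
    have h2 : (2 * (k : ℝ) + 1) * (1 / (2 * (k : ℝ) + 1)) = 1 := by field_simp
    linear_combination (-2 * (∑ i ∈ Finset.range k, 1 / (2 * (i : ℝ) + 1) + 1 / (2 * (k : ℝ) + 1))) *
      h1 - qw3a k * h2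

omit [G.LocallyFinite] in
theorem ewens_sum {k : ℕ} (hk : k ≠ 0) {q p : ℕ → ℝ} (h0 : q 0 = 1)
    (h1 : ∀ j < k, q (j + 1) = q j - p j) (h2 : ∀ j < k, q j = (2 * ((k : ℝ) - j) - 1) * p j) :
    q k = 0 ∧ ∑ j ∈ Finset.range k, p j / (j + 1) =
      (∑ i ∈ Finset.range k, 1 / (2 * (i : ℝ) + 1)) / k := by
  have hk0 : (0 : ℝ) < k := by positivity
  have ha := qw3a_pos k
  have st : ∀ j m, k = j + m + 1 → q j * (k * qw3a k) = (m + 1) * qw3a (m + 1) →
      p j * (k * qw3a k) = qw3a m / 2 := fun j m e h => by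
    have e1 : (k : ℝ) = j + m + 1 := by exact_mod_cast e
    rw [h2 j (by omega), qw3a_succ] at h
    refine mul_left_cancel₀ (show 2 * (m : ℝ) + 1 ≠ 0 by positivity) ?_
    linear_combination h - 2 * p j * (k * qw3a k) * e1
  have hq : ∀ j m, k = j + m → q j * (k * qw3a k) = m * qw3a m := by
    intro j
    induction j with
    | zero =>
      intro m e
      rw [h0, e]
      simp
    | succ j ih =>
      intro m e
      have h3 := st j m (by omega) (by exact_mod_cast ih (m + 1) (by omega))
      have e1 : (k : ℝ) = j + 1 + m := by exact_mod_cast e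
      rw [h1 j (by omega), h2 j (by omega)]
      linear_combination 2 * (m : ℝ) * h3 + 2 * p j * (k * qw3a k) * e1
  refine ⟨?_, ?_⟩
  · have := hq k 0 rfl
    rw [Nat.cast_zero, zero_mul] at this
    exact (mul_eq_zero.1 this).resolve_right (by positivity)
  · have e : ∀ j ∈ Finset.range k, p j / (j + 1) =
        qw3a (k - (j + 1)) / ((j : ℝ) + 1) / (2 * (k * qw3a k)) := by
      intro j hj
      obtain ⟨m, hm⟩ := Nat.exists_eq_add_of_lt (Finset.mem_range.1 hj)
      have h3 := st j m hm (by exact_mod_cast hq j (m + 1) (by omega))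
      rw [show k - (j + 1) = m by omega, show qw3a m = 2 * (p j * (k * qw3a k)) by linarith]
      field_simp
    rw [Finset.sum_congr rfl e, ← Finset.sum_div, qw3_sum]
    field_simp

theorem inv_arr {k : ℕ} (hk : G.degree w = 2 * k) (hπ : Prs G w π) (ha : G.Adj w a) :
    ∫⁻ r, (((Arr π r a).ncard : ℕ) : ℝ≥0∞)⁻¹ ∂unif (Rk G w) ≤
      ENNReal.ofReal ((∑ i ∈ Finset.range k, 1 / (2 * (i : ℝ) + 1)) / k) := by
  classical
  have hk0 : k ≠ 0 := by
    rintro rfl
    have := (G.degree_pos_iff_exists_adj w).2 ⟨a, ha⟩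
    omega
  let A : ℕ → Set (Rk G w) := fun j => {r | ∀ l < j, dep π r a l ≠ π a}
  let C : ℕ → Set (Rk G w) := fun j => {r | (∀ l < j, dep π r a l ≠ π a) ∧ dep π r a j = π a}
  have hm : ∀ s : Set (Rk G w), MeasurableSet s := fun _ => trivial
  obtain ⟨e1, e2⟩ := ewens_sum hk0 (q := fun j => (unif (Rk G w)).real (A j))
    (p := fun j => (unif (Rk G w)).real (C j)) (by simp [A]) (fun j _ => by
      have e : A j = A (j + 1) ∪ C j := by
        ext r
        simp only [A, C, mem_union, mem_ofPred_eq, Nat.forall_lt_succ_right]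
        tauto
      have hd : Disjoint (A (j + 1)) (C j) :=
        disjoint_left.2 fun r h1 h2 => h1 j j.lt_succ_self h2.2
      rw [e, measureReal_union hd (hm _)]
      ring) (fun j hj => by
      have e := congrArg ENNReal.toReal (close_prob hk hπ ha hj)
      rw [ENNReal.toReal_mul, ENNReal.toReal_natCast] at e
      have e' : ((2 * (k - j) - 1 : ℕ) : ℝ) = 2 * ((k : ℝ) - j) - 1 := by
        rw [Nat.cast_sub (by omega), Nat.cast_mul, Nat.cast_sub hj.le]
        simp
      rw [e'] at e
      exact e)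
  have hn : unif (Rk G w) (A k) = 0 := (measureReal_eq_zero_iff (measure_ne_top _ _)).1 e1
  rw [← e2, ENNReal.ofReal_sum_of_nonneg fun j _ => by positivity]
  calc ∫⁻ r, (((Arr π r a).ncard : ℕ) : ℝ≥0∞)⁻¹ ∂unif (Rk G w)
      ≤ ∫⁻ r, ∑ j ∈ Finset.range k, (C j).indicator (fun _ => (((j + 1 : ℕ) : ℝ≥0∞))⁻¹) r
          ∂unif (Rk G w) := by
        refine lintegral_mono_ae ?_
        filter_upwards [measure_eq_zero_iff_ae_notMem.1 hn] with r hr
        have hex : ∃ l, dep π r a l = π a := dep_close hπ ha r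
        have hlt : Nat.find hex < k := by
          by_contra h
          exact hr fun l hl => Nat.find_min hex (by omega)
        have hc : r ∈ C (Nat.find hex) := ⟨fun l hl => Nat.find_min hex hl, Nat.find_spec hex⟩
        refine le_trans ?_ (Finset.single_le_sum (f := fun j => (C j).indicator
          (fun _ => (((j + 1 : ℕ) : ℝ≥0∞))⁻¹) r) (fun _ _ => zero_le) (Finset.mem_range.2 hlt))
        rw [indicator_of_mem hc, arr_card hπ ha r hc.2 hc.1]
    _ = _ := by
        rw [lintegral_finsetSum _ fun j _ => measurable_const.indicator (hm _)]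
        refine Finset.sum_congr rfl fun j _ => ?_
        rw [lintegral_indicator_const (hm _), ENNReal.ofReal_div_of_pos (by positivity),
          ofReal_measureReal (measure_ne_top _ _), ← Nat.cast_succ, ENNReal.ofReal_natCast,
          ENNReal.div_eq_inv_mul]

end Pool.Agent.P3fb035
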