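import Pool.Agent.P.MP_3fb035_pr.QM1
import Pool.Agent.P.MP_3fb035_pr.QM2
import Pool.Agent.P.MP_3fb035_pr.QM3
import Pool.Agent.P.MP_3fb035_pr.QW3

/-! An isoperimetric criterion for infinite trails. -/

set_option autoImplicit false

open MeasureTheory Set
open scoped ENNReal symmDiff

namespace Pool.Agent.P3fb035

open Pool.Agent.Lib.GRW

variable {V : Type} {G : SimpleGraph V}
variable [G.LocallyFinite]

variable [Countable V] [MeasurableSpace V] [DiscreteMeasurableSpace V]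

theorem inv_Jn (he : ∀ v, Even (G.degree v)) (hf : ∀ᵐ ω ∂Pm G, AllFin ω) {k : ℕ} {a v : V}
    (hk : G.degree v = 2 * k) (ha : G.Adj a v) :
    ∫⁻ ω, (Jn ω a v : ℝ≥0∞)⁻¹ ∂Pm G ≤
      ENNReal.ofReal ((∑ i ∈ Finset.range k, 1 / (2 * (i : ℝ) + 1)) / k) := by
  have hm : Measurable fun ω : Om G => (Jn ω a v : ℝ≥0∞)⁻¹ :=
    (Measurable.of_discrete (f := fun n : ℕ => (n : ℝ≥0∞)⁻¹)).comp (meas_Jn a v)
  have h1 : ∫⁻ ω, (Jn ω a v : ℝ≥0∞)⁻¹ ∂Pm G =
      ∫⁻ ω, {ω : Om G | Fin1 ω v}.indicator (fun ω => (Jn ω a v : ℝ≥0∞)⁻¹) ω ∂Pm G := by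
    refine lintegral_congr_ae (hf.mono fun ω hω => ?_)
    exact (indicator_of_mem (s := {ω : Om G | Fin1 ω v}) (hω v)
      fun ω => (Jn ω a v : ℝ≥0∞)⁻¹).symm
  rw [h1, resample v (hm.indicator (meas_fin1 v))]
  refine (lintegral_mono fun ω => ?_).trans (le_of_eq (by
    rw [lintegral_const, measure_univ, mul_one]))
  by_cases hω : Fin1 ω v
  · obtain ⟨π, hπ, hr⟩ := exists_prs he hω
    refine le_trans (le_of_eq (lintegral_congr fun r => ?_)) (inv_arr hk hπ ha.symm)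
    rw [indicator_of_mem (s := {ω : Om G | Fin1 ω v}) ((fin1_upd r).2 hω), Jn,
      link_arr (π := π) (fun z hz => (hr z hz).imp fun L hL => (ret_upd r).2 hL) ha.symm, upd_self]
  · refine le_trans (le_of_eq ((lintegral_congr fun r => ?_).trans lintegral_zero)) zero_le
    exact indicator_of_notMem (s := {ω : Om G | Fin1 ω v}) (fun h => hω ((fin1_upd r).1 h)) _

theorem cheeger (hc : G.Connected) (ht : Tr G) (hu : Unimod G) {k : ℕ}
    (hk : ∀ v, G.degree v = 2 * k) {δ : ℝ} (hδ : Iso G δ)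
    (hlt : δ * ∑ i ∈ Finset.range k, 1 / (2 * (i : ℝ) + 1) < 2 * k) :
    ¬∀ᵐ ω ∂Pm G, AllFin ω := by
  classical
  intro hf
  obtain ⟨o⟩ := hc.nonempty
  have he : ∀ v, Even (G.degree v) := fun v => by rw [hk v]; exact even_two_mul k
  have hk0 : k ≠ 0 := by
    rintro rfl
    simp at hlt
  have hkp : (0 : ℝ) < k := by exact_mod_cast Nat.pos_of_ne_zero hk0
  have hl : LF G := fun v => (G.neighborSet v).toFinite
  have hF : ∀ (φ : G ≃g G) (u v : V),
      ∫⁻ ω, mass ω (φ u) (φ v) ∂Pm G = ∫⁻ ω, mass ω u v ∂Pm G := by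
    intro φ u v
    obtain ⟨T, hT, h⟩ := exists_act φ
    rw [← hT.lintegral_comp (meas_mass (φ u) (φ v))]
    exact lintegral_congr fun ω => mass_act φ (h ω) u v
  have h1 := mtp hl hc.preconnected ht hu (F := fun u v => ∫⁻ ω, mass ω u v ∂Pm G) hF o
  rw [← lintegral_tsum fun v => (meas_mass o v).aemeasurable,
    ← lintegral_tsum fun v => (meas_mass v o).aemeasurable] at h1
  have h2 : ∫⁻ ω, ∑' v, mass ω v o ∂Pm G = ((2 * k : ℕ) : ℝ≥0∞) := by
    rw [lintegral_congr_ae (hf.mono fun ω hω => mass_in hω o), lintegral_const, measure_univ,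
      mul_one, hk]
  have hm : ∀ a, Measurable fun ω : Om G => if G.Adj a o then (Jn ω a o : ℝ≥0∞)⁻¹ else 0 := by
    intro a
    split_ifs
    · exact (Measurable.of_discrete (f := fun n : ℕ => (n : ℝ≥0∞)⁻¹)).comp (meas_Jn a o)
    · exact measurable_const
  set H : ℝ := ∑ i ∈ Finset.range k, 1 / (2 * (i : ℝ) + 1) with hH
  have hH0 : 0 ≤ H := Finset.sum_nonneg fun i _ => by positivity
  have h3 : ∑' a, ∫⁻ ω, (if G.Adj a o then (Jn ω a o : ℝ≥0∞)⁻¹ else 0) ∂Pm G ≤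
      ((2 * k : ℕ) : ℝ≥0∞) * ENNReal.ofReal (H / k) := by
    rw [tsum_eq_sum (s := G.neighborFinset o) fun a ha => by
      rw [SimpleGraph.mem_neighborFinset, G.adj_comm] at ha
      simp only [if_neg ha, lintegral_zero]]
    rw [← hk o, ← SimpleGraph.card_neighborFinset_eq_degree, ← nsmul_eq_mul]
    refine Finset.sum_le_card_nsmul _ _ _ fun a ha => ?_
    rw [SimpleGraph.mem_neighborFinset, G.adj_comm] at ha
    simp only [if_pos ha]
    exact inv_Jn he hf (hk o) ha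
  have h4 : ∫⁻ ω, ∑' v, mass ω o v ∂Pm G ≤
      ENNReal.ofReal (δ / 2) * (((2 * k : ℕ) : ℝ≥0∞) * ENNReal.ofReal (H / k)) := by
    refine (lintegral_mono_ae (hf.mono fun ω hω => mass_out he hω hδ o)).trans ?_
    rw [lintegral_const_mul' _ _ ENNReal.ofReal_ne_top, lintegral_tsum fun a => (hm a).aemeasurable]
    exact mul_le_mul_right h3 _
  rw [h1, h2, ← ENNReal.ofReal_natCast, ← ENNReal.ofReal_mul (Nat.cast_nonneg _),
    ← ENNReal.ofReal_mul' (by positivity)] at h4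
  have h5 : δ / 2 * (((2 * k : ℕ) : ℝ) * (H / k)) = δ * H := by
    push_cast
    field_simp
  rw [h5] at h4
  refine absurd h4 (not_le.2 ((ENNReal.ofReal_lt_ofReal_iff ?_).2 ?_))
  · push_cast
    positivity
  · push_cast
    exact hlt

end Pool.Agent.P3fb035
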