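import Pool.Agent.P.MP_3fb035_pr.QW4

/-! Closed trails; incoming mass. -/

set_option autoImplicit false

open MeasureTheory Set
open scoped ENNReal symmDiff

namespace Pool.Agent.P3fb035

open Pool.Agent.Lib.GRW

variable {V : Type} {G : SimpleGraph V}
variable [G.LocallyFinite]

variable {ω : Om G} {a b : V}

theorem ob_period (hf : AllFin ω) (hab : G.Adj a b) : ∃ n ≥ 1, orb ω a b n = (a, b) := by
  have h1 : ∀ m, ∃ K ≥ m, (orb ω a b K).2 = b := by
    intro m
    induction m with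
    | zero => exact ⟨0, le_rfl, rfl⟩
    | succ m ih =>
      obtain ⟨K, hK, e⟩ := ih
      obtain ⟨z', L, hL, -⟩ := hf _ _ (orb_adj ω hab (K + 1))
      rw [orb_add] at hL
      exact ⟨K + 1 + L, by omega, by rw [hL]; exact e⟩
  have h2 : {K | (orb ω a b K).2 = b}.Infinite :=
    infinite_of_forall_exists_gt fun m => (h1 (m + 1)).imp fun K hK => ⟨hK.2, hK.1⟩
  obtain ⟨K, hK, K', hK', hlt, e⟩ := h2.exists_lt_map_eq_of_mapsTo
    (f := fun K => (orb ω a b K).1) (t := G.neighborSet b)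
    (fun K hK => by have := (orb_adj ω hab K).symm; rwa [hK] at this) (toFinite _)
  have h3 := orb_rev (ω := ω) hab (le_refl K)
  have h4 := orb_rev (ω := ω) hab hlt.le
  rw [← Prod.ext e (hK.trans hK'.symm), h3, Nat.sub_self] at h4
  exact ⟨K' - K, by omega, (Prod.swap_injective h4).symm⟩

theorem qm5_per {n : ℕ} (h : orb ω a b n = (a, b)) (q k : ℕ) :
    orb ω a b (n * q + k) = orb ω a b k := by
  induction q with
  | zero => rw [mul_zero, zero_add]
  | succ q ih => rw [mul_add, mul_one, add_comm (n * q), add_assoc, ← orb_add, h, ih]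

theorem ob_fin (hf : AllFin ω) (hab : G.Adj a b) : (Ob ω a b).Finite := by
  obtain ⟨n, hn, h⟩ := ob_period hf hab
  refine ((finite_Iio n).image (orb ω a b)).subset ?_
  rintro _ ⟨k, rfl⟩
  exact ⟨k % n, Nat.mod_lt _ hn, by rw [← qm5_per h (k / n), Nat.div_add_mod]⟩

theorem ob_eq (hf : AllFin ω) (hab : G.Adj a b) {e : V × V} (he : e ∈ Ob ω a b) :
    Ob ω e.1 e.2 = Ob ω a b := by
  obtain ⟨n, hn, h⟩ := ob_period hf hab
  obtain ⟨K, rfl⟩ := he
  refine Subset.antisymm ?_ ?_ <;> rintro _ ⟨k, rfl⟩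
  · exact ⟨K + k, (orb_add ..).symm⟩
  · have := Nat.le_mul_of_pos_left K hn
    exact ⟨n * K - K + k, by rw [orb_add, ← qm5_per h K k]; congr 1; omega⟩

theorem qm5_adj (hab : G.Adj a b) {e : V × V} (he : e ∈ Ob ω a b) : G.Adj e.1 e.2 := by
  obtain ⟨K, rfl⟩ := he
  exact orb_adj ω hab K

theorem qm5_snd (hf : AllFin ω) (hab : G.Adj a b) :
    Prod.snd '' Ob ω a b = Prod.fst '' Ob ω a b := by
  obtain ⟨n, hn, h⟩ := ob_period hf hab
  refine Subset.antisymm ?_ ?_ <;> rintro _ ⟨_, ⟨k, rfl⟩, rfl⟩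
  · exact ⟨_, ⟨k + 1, rfl⟩, rfl⟩
  · refine ⟨_, ⟨n - 1 + k, rfl⟩, ?_⟩
    rw [← qm5_per h 1 k, show n * 1 + k = n - 1 + k + 1 by omega]
    rfl

open Classical in
theorem qm5_tsum {S : Set V} (hS : S.Finite) (c : ℝ≥0∞) :
    ∑' x, (if x ∈ S then c else 0) = S.ncard * c := by
  rw [tsum_eq_sum (s := hS.toFinset) fun x hx => if_neg (by simpa using hx),
    Finset.sum_congr rfl fun x hx => if_pos (by simpa using hx), Finset.sum_const, nsmul_eq_mul,
    ncard_eq_toFinset_card S hS]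

theorem qm5_one {S : Set V} (hS : S.Finite) (h : S.Nonempty) :
    (S.ncard : ℝ≥0∞) * (S.ncard : ℝ≥0∞)⁻¹ = 1 :=
  ENNReal.mul_inv_cancel (Nat.cast_ne_zero.2 ((ncard_pos hS).2 h).ne') (ENNReal.natCast_ne_top _)

theorem mass_in [Countable V] (hf : AllFin ω) (u : V) : ∑' v, mass ω v u = G.degree u := by
  classical
  have h1 : ∀ v, mass ω v u = ∑ z ∈ G.neighborFinset u, ∑' a, if a ∈ {b | (b, v) ∈ Ob ω u z} then
      (({b | (b, v) ∈ Ob ω u z}.ncard : ℕ) : ℝ≥0∞)⁻¹ *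
        (((Prod.fst '' Ob ω u z).ncard : ℕ) : ℝ≥0∞)⁻¹ else 0 := by
    intro v
    rw [← Summable.tsum_finsetSum fun _ _ => ENNReal.summable]
    refine tsum_congr fun a => ?_
    split_ifs with ha
    · have h2 : {z | (u, z) ∈ Ob ω a v} =
          ↑((G.neighborFinset u).filter fun z => (u, z) ∈ Ob ω a v) := by
        ext z
        simpa using fun h => qm5_adj ha h
      rw [h2, ncard_coe_finset, Finset.card_filter, Nat.cast_sum, Finset.mul_sum, Finset.sum_mul]
      refine Finset.sum_congr rfl fun z hz => ?_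
      rw [SimpleGraph.mem_neighborFinset] at hz
      by_cases h3 : (u, z) ∈ Ob ω a v
      · have h4 : Ob ω u z = Ob ω a v := ob_eq hf ha h3
        rw [if_pos h3, h4, if_pos ⟨0, rfl⟩, Nat.cast_one, mul_one, Jn]
      · rw [if_neg h3, Nat.cast_zero, mul_zero, zero_mul, if_neg]
        exact fun h4 => h3 ((ob_eq hf hz h4).ge ⟨0, rfl⟩)
    · exact (Finset.sum_eq_zero fun z hz => if_neg fun h =>
        ha (qm5_adj ((G.mem_neighborFinset u z).1 hz) h)).symm
  rw [tsum_congr h1, Summable.tsum_finsetSum fun _ _ => ENNReal.summable,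
    ← G.card_neighborFinset_eq_degree, Finset.card_eq_sum_ones, Nat.cast_sum]
  refine Finset.sum_congr rfl fun z hz => ?_
  rw [SimpleGraph.mem_neighborFinset] at hz
  have h2 := (ob_fin hf hz).image Prod.fst
  rw [Nat.cast_one, ← qm5_one h2 ⟨_, _, ⟨0, rfl⟩, rfl⟩, ← qm5_tsum h2]
  refine tsum_congr fun v => ?_
  have h3 : {b | (b, v) ∈ Ob ω u z}.Finite := h2.subset fun b hb => ⟨_, hb, rfl⟩
  rw [qm5_tsum h3, ← mul_assoc]
  split_ifs with hv
  · rw [← qm5_snd hf hz] at hv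
    obtain ⟨e, he, rfl⟩ := hv
    rw [qm5_one h3 ⟨e.1, he⟩, one_mul]
  · rw [← qm5_snd hf hz] at hv
    rw [show {b | (b, v) ∈ Ob ω u z} = ∅ from eq_empty_of_forall_notMem fun b hb =>
      hv ⟨_, hb, rfl⟩, ncard_empty, Nat.cast_zero, zero_mul, zero_mul]

end Pool.Agent.P3fb035
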