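import Pool.Agent.P.MP_3fb035_pr.QDef

/-! Automorphisms act on the sample space. -/

set_option autoImplicit false

open MeasureTheory Set
open scoped ENNReal symmDiff

namespace Pool.Agent.P3fb035

open Pool.Agent.Lib.GRW

variable {V : Type} {G : SimpleGraph V}
variable [G.LocallyFinite]

omit [G.LocallyFinite] in
theorem qm6_adj (φ : G ≃g G) {v w : V} (h : φ v = w) (u : V) :
    G.Adj v (φ.symm u) ↔ G.Adj w u := by
  rw [← φ.map_adj_iff, h, RelIso.apply_symm_apply]

theorem qm6_deg (φ : G ≃g G) {v w : V} (h : φ v = w) : G.degree w = G.degree v := by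
  subst h
  exact φ.degree_eq v

/-- transport of an ordering along an automorphism -/
def qm6Tr (φ : G ≃g G) {v w : V} (h : φ v = w) (r : Rk G v) : Rk G w :=
  ⟨fun u => r.1 (φ.symm u), fun u hu => by
      rw [qm6_deg φ h]
      exact r.out _ (by rwa [qm6_adj φ h]),
    fun u hu => by
      rw [qm6_deg φ h]
      exact r.lt _ (by rwa [qm6_adj φ h]),
    fun u u' hu hu' e => φ.symm.injective
      (r.inj _ _ (by rwa [qm6_adj φ h]) (by rwa [qm6_adj φ h]) e)⟩

/-- the transport as an equivalence -/
def qm6Eq (φ : G ≃g G) {v w : V} (h : φ v = w) : Rk G v ≃ Rk G w where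
  toFun := qm6Tr φ h
  invFun := qm6Tr φ.symm (by rw [← h, RelIso.symm_apply_apply])
  left_inv r := Rk.ext' G (funext fun u => congrArg r.1 (φ.symm_apply_apply u))
  right_inv r := Rk.ext' G (funext fun u => congrArg r.1 (φ.apply_symm_apply u))

theorem qm6_unif {α β : Type} [Finite α] [Nonempty α] [MeasurableSpace α]
    [DiscreteMeasurableSpace α] [Finite β] [Nonempty β] [MeasurableSpace β]
    [DiscreteMeasurableSpace β] (e : α ≃ β) : MeasurePreserving e (unif α) (unif β) := by
  refine ⟨Measurable.of_discrete, Measure.ext_of_singleton fun a => ?_⟩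
  rw [Measure.map_apply Measurable.of_discrete (measurableSet_singleton a)]
  have : e ⁻¹' {a} = {e.symm a} := by
    ext b
    simp [Equiv.eq_symm_apply]
  rw [this, unif_singleton, unif_singleton, Nat.card_congr e]

theorem qm6_par (φ : G ≃g G) {v w u : V} (r : Rk G v) (r' : Rk G w) (h : φ v = w)
    (e : ∀ z, r'.1 (φ z) = r.1 z) (hu : G.Adj v u) : par r' (φ u) = φ (par r u) := by
  have h1 : G.Adj w (φ u) := by rw [← h, φ.map_adj_iff]; exact hu
  have h2 := par_spec r hu
  have h3 := par_spec r' h1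
  have h4 : G.Adj w (φ (par r u)) := by rw [← h, φ.map_adj_iff]; exact h2.1
  refine r'.inj _ _ h3.1 h4 ?_
  have h5 := qm6_deg φ h
  have h6 := e u
  have h7 := e (par r u)
  omega

theorem exists_act (φ : G ≃g G) : ∃ T : Om G → Om G, MeasurePreserving T (Pm G) (Pm G) ∧
    ∀ ω a b k, G.Adj a b →
      orb (T ω) (φ a) (φ b) k = (φ (orb ω a b k).1, φ (orb ω a b k).2) := by
  let e : ∀ i : ℕ × V, Rk G (φ.symm i.2) ≃ Rk G i.2 := fun i => qm6Eq φ (φ.apply_symm_apply i.2)
  refine ⟨fun ω i => e i (ω (i.1, φ.symm i.2)), ?_, ?_⟩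
  · have h1 : MeasurePreserving (fun (ω : Om G) (i : ℕ × V) => ω (i.1, φ.symm i.2)) (Pm G)
        (Measure.infinitePi fun i : ℕ × V => unif (Rk G (φ.symm i.2))) :=
      ⟨measurable_pi_lambda _ fun i => measurable_pi_apply (i.1, φ.symm i.2),
        Measure.map_infinitePi_infinitePi_of_inj (P := fun i : ℕ × V => unif (Rk G i.2))
          (f := fun i : ℕ × V => (i.1, φ.symm i.2)) fun i j h => by
            simp only [Prod.mk.injEq] at h
            exact Prod.ext h.1 (φ.symm.injective h.2)⟩
    have h2 : MeasurePreserving (fun (ω : ∀ i : ℕ × V, Rk G (φ.symm i.2)) (i : ℕ × V) => e i (ω i))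
        (Measure.infinitePi fun i : ℕ × V => unif (Rk G (φ.symm i.2))) (Pm G) := by
      refine ⟨measurable_pi_lambda _ fun j =>
        (qm6_unif (e j)).measurable.comp (measurable_pi_apply j), ?_⟩
      rw [Measure.infinitePi_map_pi _ fun j => (qm6_unif (e j)).measurable, Pm]
      congr 1
      funext j
      exact (qm6_unif (e j)).map_eq
    exact h2.comp h1
  · intro ω a b k hab
    induction k with
    | zero => rfl
    | succ k ih =>
      rw [orb, orb, ih]
      refine Prod.ext rfl (qm6_par φ _ _ rfl (fun z => ?_) (orb_adj ω hab k).symm)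
      have h1 : ∀ v v' : V, v' = v → (ω (0, v')).1 = (ω (0, v)).1 := by
        rintro v _ rfl
        rfl
      change (ω (0, φ.symm (φ (orb ω a b k).2))).1 (φ.symm (φ z)) = _
      rw [h1 _ _ (φ.symm_apply_apply _), φ.symm_apply_apply]

end Pool.Agent.P3fb035
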