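import Pool.Agent.P.MP_3fb035_pr.QB1
import Pool.Agent.P.MP_3fb035_pr.QG1

/-! Runs: basic facts. -/

set_option autoImplicit false

open MeasureTheory Set
open scoped ENNReal symmDiff

namespace Pool.Agent.P3fb035

open Pool.Agent.Lib.GRW

variable {V : Type} {G : SimpleGraph V}

variable {S S' K : Set V} {n m : ℕ} {U U' U'' E E' : Set (Sym2 V)} {v p q u : V}

theorem Ag.rfl : Ag G S U U := fun _ _ _ _ => Iff.rfl

theorem Ag.symm (h : Ag G S U U') : Ag G S U' U := fun a ha b hb => (h a ha b hb).symm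

theorem Ag.trans (h : Ag G S U U') (h' : Ag G S U' U'') : Ag G S U U'' :=
  fun a ha b hb => (h a ha b hb).trans (h' a ha b hb)

theorem Ag.mono (h : Ag G S U U') (hS : S' ⊆ S) : Ag G S' U U' := fun a ha => h a (hS ha)

theorem Ag.union (h : Ag G S U U') (h' : Ag G S E E') : Ag G S (U ∪ E) (U' ∪ E') :=
  fun a ha b hb => or_congr (h a ha b hb) (h' a ha b hb)

theorem Ag.sup (h : Ag G S U U') (h' : Ag G S' U U') : Ag G (S ∪ S') U U' :=
  fun a ha => ha.elim (h a) (h' a)

theorem ag_of_exh (h : ∀ a ∈ S, Exh G U a) (h' : ∀ a ∈ S, Exh G U' a) : Ag G S U U' :=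
  fun a ha b hb => iff_of_true (h a ha b hb) (h' a ha b hb)

theorem Run.one (hw : p ∈ nx G U v) (hS : p ∈ S) : Run G S 1 U v {s(v, p)} p := by
  have := Run.cons hw hS (Run.nil (G := G) (S := S) (insert s(v, p) U) p)
  rwa [insert_empty_eq] at this

theorem Run.trans (h : Run G S n U v E p) (h' : Run G S m (U ∪ E) p E' q) :
    Run G S (n + m) U v (E ∪ E') q := by
  induction h with
  | nil U v => simpa only [union_empty, empty_union, Nat.zero_add] using h'
  | @cons n U E v w v' hw hS _ ih =>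
    rw [Nat.add_right_comm, insert_union]
    refine Run.cons hw hS (ih ?_)
    rwa [insert_union, ← union_insert]

theorem Run.mono (h : Run G S n U v E p) (hS : S ⊆ S') : Run G S' n U v E p := by
  induction h with
  | nil U v => exact Run.nil U v
  | cons hw hS' _ ih => exact Run.cons hw (hS hS') ih

theorem Run.end_mem (h : Run G S n U v E p) : p = v ∨ p ∈ S := by
  induction h with
  | nil U v => exact Or.inl rfl
  | cons hw hS _ ih => exact Or.inr (ih.elim (fun e => e ▸ hS) id)

theorem Run.edge (h : Run G S n U v E p) {a b : V} (he : s(a, b) ∈ E) :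
    G.Adj a b ∧ (a = v ∨ a ∈ S) := by
  induction h with
  | nil U v => exact he.elim
  | @cons n U E v w v' hw hS _ ih =>
    rcases he with he | he
    · rcases Sym2.eq_iff.1 he with ⟨rfl, rfl⟩ | ⟨rfl, rfl⟩
      · exact ⟨hw.1, Or.inl rfl⟩
      · exact ⟨hw.1.symm, Or.inr hS⟩
    · exact ⟨(ih he).1, Or.inr ((ih he).2.elim (fun e => e ▸ hS) id)⟩

theorem Run.finite (h : Run G S n U v E p) : E.Finite := by
  induction h with
  | nil U v => exact finite_empty
  | cons _ _ _ ih => exact ih.insert _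

theorem Run.lift (h : Run G S n U v E p) (h1 : U ⊆ U') (h2 : E ∩ U' ⊆ U) :
    Run G S n U' v E p := by
  induction h generalizing U' with
  | nil U v => exact Run.nil U' v
  | @cons n U E v w v' hw hS _ ih =>
    refine Run.cons ⟨hw.1, hw.2.imp (fun h3 h4 => h3 (h2 ⟨mem_insert _ _, h4⟩)) fun h3 => h3.mono h1⟩
      hS (ih (insert_subset_insert h1) ?_)
    rintro e ⟨he, he' | he'⟩
    · exact Or.inl he'
    · exact Or.inr (h2 ⟨Or.inr he, he'⟩)

theorem Run.loc {G' : SimpleGraph V} (h : Run G S n U v E p) (hv : v ∈ S)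
    (hG : ∀ a ∈ S, ∀ b, G.Adj a b ↔ G'.Adj a b) (hU : Ag G S U U') : Run G' S n U' v E p := by
  induction h generalizing U' with
  | nil U v => exact Run.nil U' v
  | @cons n U E v w v' hw hS _ ih =>
    refine Run.cons (nx_congr (hG v hv) (hU v hv) ▸ hw) hS (ih hS ?_)
    exact fun a ha b hb => or_congr Iff.rfl (hU a ha b hb)

end Pool.Agent.P3fb035
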