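import Pool.Agent.P.MP_3fb035_pr.QR0

/-! Runs. -/

set_option autoImplicit false

open MeasureTheory Set
open scoped ENNReal symmDiff

namespace Pool.Agent.P3fb035

open Pool.Agent.Lib.GRW

variable {V : Type} {G : SimpleGraph V}

variable {S S' K : Set V} {n m : ℕ} {U U' U'' E E' : Set (Sym2 V)} {v p q u : V}

theorem Run.split (h : Run G S n U v E p) (hu : u = v ∨ ∃ b, s(u, b) ∈ E) :
    ∃ n₁ n₂ E₁ E₂, Run G S n₁ U v E₁ u ∧ Run G S n₂ (U ∪ E₁) u E₂ p ∧ E = E₁ ∪ E₂ := by
  induction h with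
  | nil U v =>
    obtain rfl : u = v := hu.resolve_right fun ⟨_, hb⟩ => hb
    exact ⟨0, 0, ∅, ∅, Run.nil _ _, Run.nil _ _, (union_empty _).symm⟩
  | @cons n U E v w v' hw hS hr ih =>
    by_cases huv : u = v
    · subst huv
      refine ⟨0, n + 1, ∅, insert s(u, w) E, Run.nil _ _, ?_, (empty_union _).symm⟩
      rw [union_empty]
      exact Run.cons hw hS hr
    · obtain ⟨b, hb⟩ := hu.resolve_left huv
      have hu' : u = w ∨ ∃ b, s(u, b) ∈ E := by
        rcases hb with hb | hb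
        · rcases Sym2.eq_iff.1 hb with h1 | h1
          · exact absurd h1.1 huv
          · exact Or.inl h1.1
        · exact Or.inr ⟨b, hb⟩
      obtain ⟨n₁, n₂, E₁, E₂, h1, h2, rfl⟩ := ih hu'
      refine ⟨n₁ + 1, n₂, insert s(v, w) E₁, E₂, Run.cons hw hS h1, ?_, insert_union.symm⟩
      rw [union_insert, ← insert_union]
      exact h2

theorem Run.restrict (h : Run G S n U v E p) (hv : v ∈ S')
    (hS : ∀ a ∈ S', ∀ b, G.Adj a b → b ∈ S') : Run G S' n U v E p := by
  induction h with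
  | nil U v => exact Run.nil _ _
  | cons hw _ _ ih =>
    have hw' := hS _ hv _ hw.1
    exact Run.cons hw hw' (ih hw')

theorem Run.sub {G' : SimpleGraph V} (h : Run G' S n U v E p) (hle : G' ≤ G)
    (hx : ∀ a b, G.Adj a b → ¬G'.Adj a b → s(a, b) ∈ U) : Run G S n U v E p := by
  induction h with
  | nil U v => exact Run.nil _ _
  | @cons n U E v w v' hw hS _ ih =>
    refine Run.cons ⟨hle hw.1, hw.2.imp_right fun he z hz => ?_⟩ hS
      (ih fun a b h1 h2 => mem_insert_of_mem _ (hx a b h1 h2))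
    by_cases hz' : G'.Adj v z
    · exact he z hz'
    · exact hx v z hz hz'

theorem run_exh (h : Cn G S v p) (hv : Exh G U v) (hS : ∀ c ∈ S, Exh G U c) :
    ∃ n E, E ⊆ U ∧ Run G S n U v E p := by
  induction h using Relation.ReflTransGen.head_induction_on with
  | refl => exact ⟨0, ∅, empty_subset _, Run.nil _ _⟩
  | @head a c hac _ ih =>
    obtain ⟨n, E, hE, hr⟩ := ih (hS c hac.2)
    have he : s(a, c) ∈ U := hv c hac.1
    refine ⟨n + 1, insert s(a, c) E, insert_subset he hE,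
      Run.cons ⟨hac.1, Or.inr hv⟩ hac.2 ?_⟩
    rw [insert_eq_of_mem he]
    exact hr

theorem Qe_le_one : Qe G K U v ≤ 1 := by
  refine (iInf_le _ 0).trans ?_
  rw [qn]

theorem Qe_loc {G' : SimpleGraph V} (hv : v ∉ K) (hG : ∀ a ∉ K, ∀ b, G.Adj a b ↔ G'.Adj a b)
    (hU : Ag G Kᶜ U U') : Qe G K U v = Qe G' K U' v := by
  have key : ∀ (n : ℕ) (U U' : Set (Sym2 V)) (v : V), v ∉ K → Ag G Kᶜ U U' →
      qn G K n U v = qn G' K n U' v := by
    intro n
    induction n with
    | zero => intro U U' v _ _; rw [qn, qn]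
    | succ n ih =>
      intro U U' v hv hU
      rw [qn, qn, nx_congr (hG v hv) (hU v hv)]
      refine tsum_congr fun w => ?_
      by_cases hw : w ∈ nx G' U' v ∧ w ∉ K
      · rw [if_pos hw, if_pos hw, ih (insert s(v, w) U) (insert s(v, w) U') w hw.2
          fun a ha b hb => or_congr_right (hU a ha b hb)]
      · rw [if_neg hw, if_neg hw]
  exact iInf_congr fun n => key n U U' v hv hU

end Pool.Agent.P3fb035
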