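import Pool.Agent.P.MP_3fb035_pr.QB1
import Pool.Agent.P.MP_3fb035_pr.QG2

/-! The probability of a trajectory. -/

set_option autoImplicit false

open MeasureTheory Set
open scoped ENNReal symmDiff

namespace Pool.Agent.P3fb035

open Pool.Agent.Lib.GRW

variable {V : Type} {G : SimpleGraph V}
variable [Countable V] [MeasurableSpace V] [DiscreteMeasurableSpace V]
  {Ω : Type} [MeasurableSpace Ω] {P : Measure Ω} {X : ℕ → Ω → V}

private theorem qs1_step (D : ℕ) : (D + 3) ^ (D + 1) ≤ 3 * (D + 1) * (D + 2) ^ D := by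
  rcases Nat.lt_or_ge D 2 with h | h
  · interval_cases D <;> norm_num
  have hD : (2 : ℝ) ≤ D := by exact_mod_cast h
  have h1 : (1 + ((D + 2 : ℕ) : ℝ)⁻¹) ^ (D + 2) ≤ Real.exp 1 := Real.one_add_inv_pow_le_exp
  have h2 : Real.exp 1 ≤ 11 / 4 := Real.exp_one_lt_d9.le.trans (by norm_num)
  have h3 : (1 + ((D + 2 : ℕ) : ℝ)⁻¹) = ((D : ℝ) + 3) / (D + 2) := by
    push_cast
    field_simp
    ring
  rw [h3, div_pow, div_le_iff₀ (by positivity)] at h1
  have h4 : ((D : ℝ) + 3) ^ (D + 1) ≤ 3 * (D + 1) * ((D : ℝ) + 2) ^ D := by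
    refine le_of_mul_le_mul_right ?_ (show (0 : ℝ) < D + 3 by positivity)
    have h5 : (0 : ℝ) ≤ ((D : ℝ) + 2) ^ D := by positivity
    have h6 : 11 / 4 * ((D : ℝ) + 2) ^ 2 ≤ 3 * (D + 1) * (D + 3) := by nlinarith
    calc ((D : ℝ) + 3) ^ (D + 1) * (D + 3) = ((D : ℝ) + 3) ^ (D + 2) := by ring
      _ ≤ 11 / 4 * ((D : ℝ) + 2) ^ (D + 2) :=
          h1.trans (mul_le_mul_of_nonneg_right h2 (by positivity))
      _ = 11 / 4 * ((D : ℝ) + 2) ^ 2 * ((D : ℝ) + 2) ^ D := by ring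
      _ ≤ 3 * (D + 1) * (D + 3) * ((D : ℝ) + 2) ^ D := mul_le_mul_of_nonneg_right h6 h5
      _ = _ := by ring
  exact_mod_cast h4

private theorem qs1_full (D : ℕ) : (D + 2) ^ D ≤ ∏ i ∈ Finset.Ioc 0 D, (3 * i) := by
  induction D with
  | zero => simp
  | succ D ih =>
    rw [Finset.prod_Ioc_succ_top (Nat.zero_le D), mul_comm]
    exact (qs1_step D).trans (Nat.mul_le_mul_left _ ih)

omit [Countable V] [MeasurableSpace V] [DiscreteMeasurableSpace V] in
theorem pot_ge {d D a : ℕ} (hd : d ≠ 0) (hD : d ≤ D + 2) :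
    d ^ (D - a) ≤ ∏ i ∈ Finset.Ioc a D, (3 * i) := by
  rcases Nat.lt_or_ge D a with h | h
  · rw [Nat.sub_eq_zero_of_le h.le, Finset.Ioc_eq_empty (by omega)]
    simp
  rcases Nat.lt_or_ge (3 * (a + 1)) d with h' | h'
  · have h1 : ∏ i ∈ Finset.Ioc 0 a, (3 * i) ≤ d ^ a := by
      have := Finset.prod_le_pow_card (Finset.Ioc 0 a) (fun i => 3 * i) d fun i hi => by
        have := (Finset.mem_Ioc.1 hi).2
        omega
      rwa [Nat.card_Ioc, Nat.sub_zero] at this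
    refine Nat.le_of_mul_le_mul_left ?_ (Nat.pow_pos (n := a) (Nat.pos_of_ne_zero hd))
    calc d ^ a * d ^ (D - a) = d ^ D := by rw [← pow_add, Nat.add_sub_cancel' h]
      _ ≤ (D + 2) ^ D := Nat.pow_le_pow_left hD D
      _ ≤ ∏ i ∈ Finset.Ioc 0 D, (3 * i) := qs1_full D
      _ = (∏ i ∈ Finset.Ioc 0 a, (3 * i)) * ∏ i ∈ Finset.Ioc a D, (3 * i) :=
          (Finset.prod_Ioc_consecutive _ (Nat.zero_le a) h).symm
      _ ≤ _ := Nat.mul_le_mul_right _ h1
  · have := Finset.pow_card_le_prod (Finset.Ioc a D) (fun i => 3 * i) d fun i hi => by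
      have := (Finset.mem_Ioc.1 hi).1
      omega
    rwa [Nat.card_Ioc] at this

/-- the potential of one vertex -/
private noncomputable def qs1Psi (d D a : ℕ) : ℝ≥0∞ :=
  ∏ i ∈ Finset.Ioc a D, (3 * (i : ℝ≥0∞) * (d : ℝ≥0∞)⁻¹)

private theorem qs1_one_le {d D a : ℕ} (hd : d ≠ 0) (hD : d ≤ D + 2) : 1 ≤ qs1Psi d D a := by
  have h1 : ((d ^ (D - a) : ℕ) : ℝ≥0∞) ≤ ((∏ i ∈ Finset.Ioc a D, (3 * i) : ℕ) : ℝ≥0∞) :=
    Nat.cast_le.2 (pot_ge hd hD)
  have h2 : (d : ℝ≥0∞) * (d : ℝ≥0∞)⁻¹ = 1 :=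
    ENNReal.mul_inv_cancel (Nat.cast_ne_zero.2 hd) (ENNReal.natCast_ne_top d)
  push_cast at h1
  rw [qs1Psi, Finset.prod_mul_distrib, Finset.prod_const, Nat.card_Ioc]
  calc (1 : ℝ≥0∞) = (d : ℝ≥0∞) ^ (D - a) * (d : ℝ≥0∞)⁻¹ ^ (D - a) := by rw [← mul_pow, h2, one_pow]
    _ ≤ _ := mul_le_mul_left h1 _

private theorem qs1_psi_succ (d : ℕ) {D a : ℕ} (h : a + 1 ≤ D) :
    qs1Psi d D a = qs1Psi d D (a + 1) * (3 * ((a + 1 : ℕ) : ℝ≥0∞) * (d : ℝ≥0∞)⁻¹) := by
  rw [qs1Psi, qs1Psi, ← Finset.prod_Ioc_consecutive _ (Nat.le_succ a) h, Nat.Ioc_succ_singleton,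
    Finset.prod_singleton, mul_comm]

omit [Countable V] [MeasurableSpace V] [DiscreteMeasurableSpace V] in
private theorem qs1_dg_mono {d : ℕ} (hr : Reg G d) {A B : Set (Sym2 V)} (h : A ⊆ B) (v : V) :
    dg G A v ≤ dg G B v :=
  ncard_le_ncard (fun _ hw => ⟨hw.1, h hw.2⟩) ((hr v).1.subset fun _ hw => hw.1)

omit [Countable V] [MeasurableSpace V] [DiscreteMeasurableSpace V] in
private theorem qs1_dg_le {d : ℕ} (hr : Reg G d) (A : Set (Sym2 V)) (v : V) : dg G A v ≤ d :=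
  (ncard_le_ncard (t := G.neighborSet v) (fun _ hw => hw.1) (hr v).1).trans (hr v).2.le

omit [Countable V] [MeasurableSpace V] [DiscreteMeasurableSpace V] in
private theorem qs1_nx {d : ℕ} (hr : Reg G d) {U : Set (Sym2 V)} {v : V} (h : ¬ Exh G U v) :
    (nx G U v).ncard = d - dg G U v := by
  have e : G.neighborSet v = nx G U v ∪ {w | G.Adj v w ∧ s(v, w) ∈ U} := by
    ext w
    simp only [nx, h, or_false, SimpleGraph.mem_neighborSet, mem_union, mem_ofPred_eq]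
    tauto
  have h1 := (hr v).2
  rw [e, ncard_union_eq (disjoint_left.2 fun w hw hw' => (hw.2.resolve_right h) hw'.2)
    ((hr v).1.subset fun _ hw => hw.1) ((hr v).1.subset fun _ hw => hw.1)] at h1
  unfold dg
  omega

omit [Countable V] [MeasurableSpace V] [DiscreteMeasurableSpace V] in
private theorem qs1_gain {d : ℕ} (hr : Reg G d) (hd : d ≠ 0) {t s : ℕ} (hts : t ≤ s) {y : ℕ → V}
    {T : Finset V} (h0 : y s ∈ T) (h1 : y (s + 1) ∈ T) :
    ker G ∅ y s (y (s + 1)) * ∏ v ∈ T, qs1Psi d (d - dg G (us y t) v) (d - dg G (us y (s + 1)) v) ≤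
      (∏ v ∈ T, qs1Psi d (d - dg G (us y t) v) (d - dg G (us y s) v)) * (9 / (d : ℝ≥0∞)) := by
  classical
  have hc : (d : ℝ≥0∞) * (d : ℝ≥0∞)⁻¹ = 1 :=
    ENNReal.mul_inv_cancel (Nat.cast_ne_zero.2 hd) (ENNReal.natCast_ne_top d)
  rw [ker, empty_union]
  split_ifs with hw
  swap
  · rw [zero_mul]
    exact zero_le
  by_cases he : s(y s, y (s + 1)) ∈ us y s
  · have hx : Exh G (us y s) (y s) := hw.2.resolve_left (not_not.2 he)
    have e : nx G (us y s) (y s) = G.neighborSet (y s) := by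
      ext w
      simp only [nx, hx, or_true, and_true, SimpleGraph.mem_neighborSet, mem_ofPred_eq]
    rw [e, (hr _).2, us_succ, insert_eq_of_mem he, mul_comm, div_eq_mul_inv]
    exact mul_le_mul_right (le_mul_of_one_le_left' (by norm_num)) _
  · have hx : ¬ Exh G (us y s) (y s) := fun hx => he (hx _ hw.1)
    have hdg : ∀ v, dg G (us y (s + 1)) v =
        dg G (us y s) v + if v = y s ∨ v = y (s + 1) then 1 else 0 := fun v => by
      have := dg_erase (us_finite y (s + 1)) hw.1 (by rw [us_succ]; exact mem_insert _ _) v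
      rwa [us_succ, insert_sdiff_self_of_notMem he, ← us_succ] at this
    have hψ : ∀ v ∈ T, qs1Psi d (d - dg G (us y t) v) (d - dg G (us y (s + 1)) v) =
        qs1Psi d (d - dg G (us y t) v) (d - dg G (us y s) v) *
          if v = y s ∨ v = y (s + 1) then
            3 * ((d - dg G (us y s) v : ℕ) : ℝ≥0∞) * (d : ℝ≥0∞)⁻¹ else 1 := fun v _ => by
      have a := hdg v
      have b := qs1_dg_le hr (us y (s + 1)) v
      have c := qs1_dg_mono hr (us_mono y hts) v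
      split_ifs at a ⊢ with hv
      · have e : d - dg G (us y s) v = d - dg G (us y (s + 1)) v + 1 := by omega
        rw [e]
        exact qs1_psi_succ d (by omega)
      · rw [a, add_zero, mul_one]
    have hk : d - dg G (us y s) (y s) ≠ 0 := by
      have a := hdg (y s)
      have b := qs1_dg_le hr (us y (s + 1)) (y s)
      rw [if_pos (Or.inl rfl)] at a
      omega
    have hk' : ((d - dg G (us y s) (y s) : ℕ) : ℝ≥0∞)⁻¹ * ((d - dg G (us y s) (y s) : ℕ) : ℝ≥0∞) = 1 :=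
      ENNReal.inv_mul_cancel (Nat.cast_ne_zero.2 hk) (ENNReal.natCast_ne_top _)
    have hle : ((d - dg G (us y s) (y (s + 1)) : ℕ) : ℝ≥0∞) * (d : ℝ≥0∞)⁻¹ ≤ 1 := by
      rw [← hc]
      exact mul_le_mul_left (Nat.cast_le.2 (Nat.sub_le _ _)) _
    rw [Finset.prod_congr rfl hψ, Finset.prod_mul_distrib,
      Finset.prod_eq_mul_of_mem (y s) (y (s + 1)) h0 h1 hw.1.ne
        (fun v _ hv => if_neg (not_or.2 hv)), if_pos (Or.inl rfl), if_pos (Or.inr rfl),
      qs1_nx hr hx, mul_left_comm]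
    refine mul_le_mul_right ?_ _
    generalize ((d - dg G (us y s) (y s) : ℕ) : ℝ≥0∞) = k at hk' ⊢
    generalize ((d - dg G (us y s) (y (s + 1)) : ℕ) : ℝ≥0∞) = l at hle ⊢
    rw [div_eq_mul_inv]
    calc k⁻¹ * (3 * k * (d : ℝ≥0∞)⁻¹ * (3 * l * (d : ℝ≥0∞)⁻¹))
        = k⁻¹ * k * (9 * (d : ℝ≥0∞)⁻¹) * (l * (d : ℝ≥0∞)⁻¹) := by ring
      _ ≤ 1 * (9 * (d : ℝ≥0∞)⁻¹) * 1 := by rw [hk']; exact mul_le_mul_right hle _
      _ = _ := by rw [one_mul, mul_one]

omit [Countable V] [MeasurableSpace V] [DiscreteMeasurableSpace V] in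
theorem pw {d : ℕ} (hr : Reg G d) (hd : d ≠ 0) {o : V} (h : IsWalk (ker G ∅) o P X) {t : ℕ}
    {y : ℕ → V} (hy : ∀ v, dg G (us y t) v ≤ 2) (n : ℕ) :
    P (cyl X (t + n) y) ≤ P (cyl X t y) * (9 / (d : ℝ≥0∞)) ^ n := by
  classical
  have key : ∀ (T : Finset V) (m : ℕ), (∀ s ≤ t + m, y s ∈ T) →
      P (cyl X (t + m) y) * ∏ v ∈ T, qs1Psi d (d - dg G (us y t) v) (d - dg G (us y (t + m)) v) ≤
        P (cyl X t y) * (9 / (d : ℝ≥0∞)) ^ m := by
    intro T m
    induction m with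
    | zero => intro _; simp [qs1Psi]
    | succ m ih =>
      intro hT
      rw [← add_assoc, h.cyl_succ, mul_assoc, pow_succ, ← mul_assoc (P (cyl X t y))]
      refine (mul_le_mul_right (qs1_gain hr hd (Nat.le_add_right t m) (hT _ (by omega))
        (hT _ (by omega))) _).trans ?_
      rw [← mul_assoc]
      exact mul_le_mul_left (ih fun s hs => hT s (by omega)) _
  refine le_trans (le_mul_of_one_le_right' ?_)
    (key ((Finset.range (t + n + 1)).image y) n fun s hs =>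
      Finset.mem_image_of_mem y (Finset.mem_range.2 (by omega)))
  refine Finset.one_le_prod' fun v _ => qs1_one_le hd ?_
  have := hy v
  omega

end Pool.Agent.P3fb035
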