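import Pool.Agent.P.MP_3fb035_pr.QS3

/-! Graphs with small spectral radius. -/

set_option autoImplicit false

open MeasureTheory Set
open scoped ENNReal symmDiff

namespace Pool.Agent.P3fb035

open Pool.Agent.Lib.GRW

variable {V : Type} {G : SimpleGraph V}
variable [Countable V] [MeasurableSpace V] [DiscreteMeasurableSpace V]
  {Ω : Type} [MeasurableSpace Ω] {P : Measure Ω} {X : ℕ → Ω → V}

variable {d : ℕ}

omit [Countable V] [MeasurableSpace V] [DiscreteMeasurableSpace V] in
theorem qs2_ne [Infinite V] (hr : Reg G d) (hc : G.Preconnected) (o : V) : d ≠ 0 := by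
  obtain ⟨v, hv⟩ := exists_ne o
  obtain ⟨p⟩ := hc o v
  cases p with
  | nil => exact absurd rfl hv
  | cons h _ =>
    rw [← (hr o).2]
    exact Set.ncard_ne_zero_of_mem (show _ ∈ G.neighborSet o from h) (hr o).1

omit [Countable V] [MeasurableSpace V] [DiscreteMeasurableSpace V] in
theorem qs2_bound (hd : d ≠ 0) {θ : ℝ} (hw : Few G (θ * d)) (n : ℕ) (u v : V) :
    (({p : G.Walk u v | p.length = n}.ncard : ℕ) : ℝ≥0∞) * (9 / (d : ℝ≥0∞)) ^ n ≤
      ENNReal.ofReal (θ * 9) ^ n := by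
  have h0 : 0 ≤ θ * d := by simpa using (Nat.cast_nonneg _).trans (hw 1 u v)
  have h1 := ENNReal.ofReal_le_ofReal (hw n u v)
  rw [ENNReal.ofReal_natCast, ENNReal.ofReal_pow h0] at h1
  refine (mul_le_mul_left h1 _).trans (le_of_eq ?_)
  rw [← mul_pow, ENNReal.ofReal_mul' (Nat.cast_nonneg _), ENNReal.ofReal_natCast, mul_assoc,
    ENNReal.mul_div_cancel (Nat.cast_ne_zero.2 hd) (ENNReal.natCast_ne_top d),
    ENNReal.ofReal_mul' (by norm_num), ENNReal.ofReal_ofNat]

theorem sr [Infinite V] (hr : Reg G d) (hc : G.Preconnected) {θ : ℝ} (hθ : θ < 1 / 9)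
    (hw : Few G (θ * d)) {o : V} (h : IsWalk (ker G ∅) o P X) :
    P (pth X ⁻¹' Of o) = 0 ∧ P (pth X ⁻¹' Nv o) ≠ 0 := by
  have := h.1
  have hd := qs2_ne hr hc o
  have hr1 : ENNReal.ofReal (θ * 9) < 1 := ENNReal.ofReal_lt_one.2 (by linarith)
  have hs : ∑' n, ENNReal.ofReal (θ * 9) ^ n ≠ ∞ := by
    rw [ENNReal.tsum_geometric]
    exact ENNReal.inv_ne_top.2 (tsub_pos_iff_lt.2 hr1).ne'
  constructor
  · have h1 : ∀ n, P {ω | X n ω = o} ≤ ENNReal.ofReal (θ * 9) ^ n := by
      intro n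
      have h2 := hit_le hr hd h (t := 0) (x := fun _ => o) (fun v => by simp [us_zero, dg]) n o
      rw [h.cyl_start, one_mul, inter_comm, measure_inter_conull
        ((prob_compl_eq_zero_iff (h.meas_cyl _ _)).2 h.cyl_start), Nat.zero_add] at h2
      exact h2.trans (qs2_bound hd hw n o o)
    have h2 := measure_setOfPred_frequently_eq_zero (μ := P) (p := fun n ω => X n ω = o)
      (ne_top_of_le_ne_top hs (ENNReal.tsum_le_tsum h1))
    simp only [Filter.frequently_atTop] at h2
    exact h2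
  · intro h0
    obtain ⟨t, ht⟩ :=
      ((ENNReal.tendsto_sum_nat_add _ hs).eventually (gt_mem_nhds zero_lt_one)).exists
    obtain ⟨x, x1, x2, x3, x4⟩ := geodesic hr.lf hc o t
    have h1 : P (⋃ n : Fin t, cyl X t x ∩ {ω | X (t + n) ω = o}) = 0 := by
      refine measure_iUnion_null fun n => le_zero_iff.1 ((hit_le hr hd h x3 n o).trans ?_)
      have : {p : G.Walk (x t) o | p.length = n} = ∅ :=
        eq_empty_of_forall_notMem fun p hp => absurd (hp ▸ x4 p) (not_le.2 n.2)
      simp [this]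
    have h2 : cyl X t x ⊆ (pth X ⁻¹' Nv o ∪ ⋃ n : Fin t, cyl X t x ∩ {ω | X (t + n) ω = o}) ∪
        ⋃ k, cyl X t x ∩ {ω | X (t + (k + t)) ω = o} := by
      intro ω hω
      by_cases h3 : ω ∈ pth X ⁻¹' Nv o
      · exact Or.inl (Or.inl h3)
      obtain ⟨m, h4⟩ := not_forall.1 h3
      obtain ⟨h4, h5⟩ := Classical.not_imp.1 h4
      have h6 : X m ω = o := not_not.1 h5
      have h7 : t < m := lt_of_not_ge fun e => x2 m h4 e ((hω m e).symm.trans h6)
      rcases lt_or_ge m (t + t) with e | e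
      · exact Or.inl (Or.inr (mem_iUnion.2 ⟨⟨m - t, by omega⟩, hω,
          (congrArg (X · ω) (by simp only; omega)).trans h6⟩))
      · exact Or.inr (mem_iUnion.2 ⟨m - (t + t), hω,
          (congrArg (X · ω) (by omega)).trans h6⟩)
    have h3 := (measure_mono (μ := P) h2).trans (measure_union_le _ _)
    rw [measure_union_null h0 h1, zero_add] at h3
    have h4 := h3.trans ((measure_iUnion_le _).trans (ENNReal.tsum_le_tsum fun k =>
      (hit_le hr hd h x3 (k + t) o).trans (mul_le_mul_right (qs2_bound hd hw _ _ _) _)))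
    rw [ENNReal.tsum_mul_left] at h4
    have h5 := ENNReal.mul_lt_mul_right (cyl_ne_zero (hr.bd hd) h x1) (measure_ne_top P _) ht
    rw [mul_one] at h5
    exact absurd h4 (not_le.2 h5)

end Pool.Agent.P3fb035
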