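import Pool.Agent.P.MP_3fb035_pr.QS1

/-! Hitting probabilities; geodesics. -/

set_option autoImplicit false

open MeasureTheory Set
open scoped ENNReal symmDiff

namespace Pool.Agent.P3fb035

open Pool.Agent.Lib.GRW

variable {V : Type} {G : SimpleGraph V}
variable [Countable V] [MeasurableSpace V] [DiscreteMeasurableSpace V]
  {Ω : Type} [MeasurableSpace Ω] {P : Measure Ω} {X : ℕ → Ω → V}

variable {d : ℕ}

omit [Countable V] [MeasurableSpace V] [DiscreteMeasurableSpace V] in
theorem qs3_walk (n : ℕ) : ∀ (y : ℕ → V) (a b : V), (∀ s, G.Adj (y s) (y (s + 1))) → y 0 = a →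
    y n = b → ∃ p : G.Walk a b, p.length = n ∧ ∀ s ≤ n, p.getVert s = y s := by
  induction n with
  | zero =>
    rintro y _ _ _ rfl rfl
    exact ⟨.nil, rfl, fun s hs => by rw [Nat.le_zero.1 hs]; rfl⟩
  | succ n ih =>
    rintro y _ b hy rfl hb
    obtain ⟨p, h1, h2⟩ := ih (fun s => y (s + 1)) (y 1) b (fun s => hy _) rfl hb
    refine ⟨.cons (hy 0) p, by simp [h1], fun s hs => ?_⟩
    cases s with
    | zero => rfl
    | succ s => exact h2 s (by omega)

theorem hit_le (hr : Reg G d) (hd : d ≠ 0) {o : V} (h : IsWalk (ker G ∅) o P X) {t : ℕ}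
    {x : ℕ → V} (hx : ∀ v, dg G (us x t) v ≤ 2) (n : ℕ) (b : V) :
    P (cyl X t x ∩ {ω | X (t + n) ω = b}) ≤
      P (cyl X t x) * (({p : G.Walk (x t) b | p.length = n}.ncard : ℕ) * (9 / (d : ℝ≥0∞)) ^ n) := by
  classical
  let _ : G.LocallyFinite := fun v => (hr v).1.fintype
  let g : G.Walk (x t) b → ℕ → V := fun p s => if s ≤ t then x s else p.getVert (s - t)
  have hg : ∀ p, ∀ s ≤ t, g p s = x s := fun p s hs => if_pos hs
  rw [← G.coe_finsetWalkLength_eq, ncard_coe_finset]
  calc _ ≤ P (⋃ p ∈ G.finsetWalkLength n (x t) b, cyl X (t + n) (g p)) := by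
        refine measure_mono_ae ((ae_adj h).mono fun ω hω hm => ?_)
        obtain ⟨p, h1, h2⟩ := qs3_walk n (fun s => X (t + s) ω) (x t) b (fun s => hω.2 (t + s))
          (hm.1 t le_rfl) hm.2
        refine mem_iUnion₂.2 ⟨p, SimpleGraph.mem_finsetWalkLength_iff.2 h1, fun s hs => ?_⟩
        by_cases hst : s ≤ t
        · rw [hg p s hst, hm.1 s hst]
        · simp only [g, if_neg hst]
          rw [h2 _ (by omega), show t + (s - t) = s by omega]
    _ ≤ ∑ p ∈ G.finsetWalkLength n (x t) b, P (cyl X (t + n) (g p)) :=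
        measure_biUnion_finset_le _ _
    _ ≤ ∑ _p ∈ G.finsetWalkLength n (x t) b, P (cyl X t x) * (9 / (d : ℝ≥0∞)) ^ n := by
        refine Finset.sum_le_sum fun p _ => ?_
        rw [← cyl_congr (hg p)]
        exact pw hr hd h (by rw [us_congr (hg p)]; exact hx) n
    _ = _ := by
        rw [Finset.sum_const, nsmul_eq_mul]
        ring

omit [Countable V] [MeasurableSpace V] [DiscreteMeasurableSpace V] in
theorem geodesic [Infinite V] (hl : LF G) (hc : G.Preconnected) (o : V) (t : ℕ) :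
    ∃ x : ℕ → V, Val G ∅ o t x ∧ (∀ s, 1 ≤ s → s ≤ t → x s ≠ o) ∧ (∀ v, dg G (us x t) v ≤ 2) ∧
      ∀ p : G.Walk (x t) o, t ≤ p.length := by
  obtain ⟨u, hu⟩ := (ball_fin hl (finite_singleton o) t).exists_notMem
  obtain ⟨q, hq⟩ := (hc o u).exists_walk_length_eq_dist
  have ht : t < q.length := by
    by_contra hlt
    refine hu ⟨q.reverse.getVert, q.reverse.length, by simpa using hlt, q.reverse.getVert_zero,
      q.reverse.getVert_length, fun s hs => q.reverse.adj_getVert_succ hs⟩
  have hi : ∀ {i j}, i ≤ t → j ≤ t → q.getVert i = q.getVert j → i = j := fun hi hj e =>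
    (q.isPath_of_length_eq_dist hq).getVert_injOn (hi.trans ht.le) (hj.trans ht.le) e
  refine ⟨q.getVert, ⟨q.getVert_zero, fun s hs => ⟨q.adj_getVert_succ (hs.trans ht), Or.inl ?_⟩⟩,
    fun s h1 h2 e => ?_, fun v => ?_, fun p => ?_⟩
  · rw [empty_union]
    rintro ⟨r, hr, e⟩
    rcases Sym2.eq_iff.1 e with ⟨-, e⟩ | ⟨e, -⟩
    · have := hi (by omega) (by omega) e
      omega
    · have := hi (by omega) (by omega) e
      omega
  · have := hi h2 (Nat.zero_le t) (e.trans q.getVert_zero.symm)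
    omega
  · by_cases hv : ∃ i ≤ t, q.getVert i = v
    · obtain ⟨i, hi', rfl⟩ := hv
      refine (ncard_le_ncard (t := {q.getVert (i + 1), q.getVert (i - 1)}) ?_).trans
        ((ncard_insert_le _ _).trans (by simp))
      rintro w ⟨-, r, hr, e⟩
      rcases Sym2.eq_iff.1 e with ⟨e1, rfl⟩ | ⟨rfl, e1⟩
      · rw [hi hr.le hi' e1]
        exact Or.inl rfl
      · rw [← hi (by omega) hi' e1]
        exact Or.inr rfl
    · rw [dg_zero fun b _ hb => hv (us_mem hb)]
      omega
  · have := SimpleGraph.dist_le (p.reverse.append (q.drop t))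
    rw [SimpleGraph.Walk.length_append, SimpleGraph.Walk.length_reverse,
      SimpleGraph.Walk.drop_length] at this
    omega

end Pool.Agent.P3fb035
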