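import Pool.Agent.P.MP_3fb035_pr.QK1
import Pool.Agent.P.MP_3fb035_pr.QH1
import Pool.Agent.P.MP_3fb035_pr.QH2

/-! Entries happen at arbitrarily late times. -/

set_option autoImplicit false

open MeasureTheory Set
open scoped ENNReal symmDiff

namespace Pool.Agent.P3fb035

open Pool.Agent.Lib.GRW

variable {V : Type} {G : SimpleGraph V}

/-- the standard state of `C` is present at time `T`, after a first entry at a time `≥ m` -/
def Cre (G : SimpleGraph V) (C : Cut G) (m T : ℕ) (x : ℕ → V) : Prop :=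
  ∃ t, m ≤ t ∧ t ≤ T ∧ Ent G C t x ∧ x T ∈ C.W ∧ (∀ a ∈ C.W, Exh G (us x T) a) ∧
    Ag G C.F (us x T) C.X

theorem cre_adp (C : Cut G) (m : ℕ) : Adp (Cre G C m) := by
  rintro T x y h ⟨t, h1, h2, h3, h4, h5, h6⟩
  rw [us_congr h] at h5 h6
  exact ⟨t, h1, h2, ent_adp C t x y (fun s hs => h s (hs.trans h2)) h3, h T le_rfl ▸ h4, h5, h6⟩

theorem ent_io (hl : LF G) (hc : G.Preconnected) (ht : Tr G) {C₁ C₂ : Cut G} {w₀ : V}
    (h1 : w₀ ∈ C₁.W) (h2 : w₀ ∈ C₂.W) (hv : ∀ v, v ∉ C₁.Y → v ∉ C₂.Y → v ∈ C₁.N ∨ v ∈ C₂.N)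
    {y : ℕ → V} (ha : ∀ s, G.Adj (y s) (y (s + 1))) (hy : ∀ K : Set V, K.Finite → y ∈ Ev K)
    (m : ℕ) : ∃ t ≥ m, ∃ (C : Cut G) (φ : G ≃g G), (C = C₁ ∨ C = C₂) ∧
      Ent G C t fun s => φ (y s) := by
  have hB : (⋃ a ∈ C₁.Y ∪ C₂.Y, ⋃ s ∈ Iic m,
      {c | ∃ ψ : G ≃g G, ψ a = y s ∧ ψ w₀ = c}).Finite :=
    (C₁.fin.union C₂.fin).biUnion fun a _ => (finite_Iic m).biUnion fun s _ => fb hl hc a (y s) w₀
  obtain ⟨T, hT⟩ := hy _ hB
  obtain ⟨φ, hφ⟩ := ht (y (T + 1)) w₀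
  have hout : ∀ s ≤ m, φ (y s) ∉ C₁.Y ∪ C₂.Y := fun s hs hY =>
    hT (T + 1) (Nat.lt_succ_self T) (mem_biUnion hY (mem_biUnion (mem_Iic.2 hs)
      ⟨φ.symm, φ.symm_apply_apply _, by rw [← hφ]; exact φ.symm_apply_apply _⟩))
  have key : ∀ C : Cut G, (C = C₁ ∨ C = C₂) → φ (y 0) ∈ C.N → ∃ t ≥ m, ∃ (C : Cut G)
      (φ : G ≃g G), (C = C₁ ∨ C = C₂) ∧ Ent G C t fun s => φ (y s) := by
    intro C hC hN
    have hY : C.Y ⊆ C₁.Y ∪ C₂.Y := by
      rcases hC with rfl | rfl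
      · exact subset_union_left
      · exact subset_union_right
    have hw : w₀ ∈ C.Y := by
      rcases hC with rfl | rfl
      · exact C.sub h1
      · exact C.sub h2
    obtain ⟨t, -, hE⟩ := ent_exists (C := C) (y := fun s => φ (y s)) hN
      (fun h => hout 0 (Nat.zero_le m) (hY h)) (fun s => φ.map_adj_iff.2 (ha s)) (T := T + 1)
      (by rw [← hφ] at hw; exact hw)
    refine ⟨t, ?_, C, φ, hC, hE⟩
    by_contra hlt
    exact hout t (not_le.1 hlt).le (hY hE.2.2.2.1)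
  have h0 := hout 0 (Nat.zero_le m)
  rcases hv _ (fun h => h0 (Or.inl h)) (fun h => h0 (Or.inr h)) with h | h
  · exact key C₁ (Or.inl rfl) h
  · exact key C₂ (Or.inr rfl) h

end Pool.Agent.P3fb035
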