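import Pool.Agent.P.MP_3fb035_pr.QT0

/-! Two creations give three ends. -/

set_option autoImplicit false

open MeasureTheory Set
open scoped ENNReal symmDiff

namespace Pool.Agent.P3fb035

open Pool.Agent.Lib.GRW

variable {V : Type} {G : SimpleGraph V}

theorem qt1_ev {y : ℕ → V} (ha : ∀ s, G.Adj (y s) (y (s + 1)))
    (hy : ∀ K : Set V, K.Finite → y ∈ Ev K) (C : Cut G) (φ : G ≃g G)
    (hn : (fun s => φ (y s)) ∉ Ev C.Fᶜ) : y ∈ Ev (φ ⁻¹' C.F ∪ φ ⁻¹' C.W) := by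
  have hW := hy _ ((C.fin.subset C.sub).preimage φ.injective.injOn)
  exact Ev.union ((stay (C.cloF.pre φ) ha hW).resolve_right hn) hW

theorem three (hc : G.Preconnected) {y : ℕ → V} (ha : ∀ s, G.Adj (y s) (y (s + 1)))
    (hy : ∀ K : Set V, K.Finite → y ∈ Ev K)
    (h : ∀ m, ∃ (C : Cut G) (φ : G ≃g G) (T : ℕ), C.F.Infinite ∧
      Cre G C m T (fun s => φ (y s)) ∧ (fun s => φ (y s)) ∉ Ev C.Fᶜ) : Ends G 3 := by
  obtain ⟨C, φ, T, hi, ⟨t, -, -, -, hT, hE, -⟩, hn⟩ := h 0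
  obtain ⟨T₁, h1⟩ := qt1_ev ha hy C φ hn
  obtain ⟨C', ψ, T', hi', ⟨t', m1, m2, hent, hT', -, -⟩, hn'⟩ := h (max T T₁ + 1)
  have h2 := qt1_ev ha hy C' ψ hn'
  have hWN : φ ⁻¹' C.W ⊆ ψ ⁻¹' C'.N := by
    intro a haW
    have : Nontrivial V := nontrivial_of_nontrivial hi.nontrivial
    obtain ⟨z, hz⟩ := hc.exists_adj_of_nontrivial (φ a)
    obtain ⟨s, hs, e⟩ := us_mem (hE _ haW z hz)
    obtain rfl : y s = a := φ.injective e
    exact ent_near hent s (by have := le_max_left T T₁; omega)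
  have hWW : Disjoint (ψ ⁻¹' C'.W) (φ ⁻¹' C.W) :=
    Set.disjoint_left.2 fun a h3 h4 => Set.disjoint_left.1 C'.dNW (hWN h4) h3
  have hFW : Disjoint (φ ⁻¹' C.F ∪ φ ⁻¹' C.W) (ψ ⁻¹' C'.W) := by
    refine Set.disjoint_union_left.2 ⟨Set.disjoint_left.2 fun b h3 h4 => ?_, hWW.symm⟩
    exact h1 T' (by have := le_max_right T T₁; omega)
      (Or.inl (clo_cn (C.cloF.pre φ) (C'.con.pre ψ b h4 (y T') hT') hWW h3))
  have hFN : φ ⁻¹' C.F ⊆ ψ ⁻¹' C'.N := by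
    intro a haF
    obtain ⟨w, hw, hp⟩ := to_sep hc (C.cloF.pre φ) ⟨y T, hT⟩ haF
    exact clo_cn (C'.cloN.pre ψ) (hp.symm (Or.inl haF)) hFW (hWN hw)
  refine ends_of_three (W := φ ⁻¹' C.W ∪ ψ ⁻¹' C'.W) (F := φ ⁻¹' C.F) (F' := ψ ⁻¹' C'.F)
    (((C.fin.subset C.sub).preimage φ.injective.injOn).union
      ((C'.fin.subset C'.sub).preimage ψ.injective.injOn))
    ((C.cloF.pre φ).mono subset_union_left) ((C'.cloF.pre ψ).mono subset_union_right)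
    (Set.disjoint_left.2 fun a h3 h4 => Set.disjoint_left.1 C'.dNF (hFN h3) h4)
    (hi.preimage (by rw [φ.surjective.range_eq]; exact subset_univ _))
    (hi'.preimage (by rw [ψ.surjective.range_eq]; exact subset_univ _)) fun hf => ?_
  obtain ⟨T₂, h3⟩ := Ev.union (Ev.union ⟨T₁, h1⟩ h2) (hy _ hf)
  refine h3 (T₂ + 1) (Nat.lt_succ_self _) ?_
  by_cases h4 : y (T₂ + 1) ∈ φ ⁻¹' C.F ∪ ψ ⁻¹' C'.F
  · exact Or.inl (h4.imp Or.inl Or.inl)
  · exact Or.inr h4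

end Pool.Agent.P3fb035
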