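import Pool.Agent.P.MP_3fb035_pr.QT1
import Pool.Agent.P.MP_3fb035_pr.QC

/-! Graphs with two ends. -/

set_option autoImplicit false

open MeasureTheory Set
open scoped ENNReal symmDiff

namespace Pool.Agent.P3fb035

open Pool.Agent.Lib.GRW

variable {V : Type} {G : SimpleGraph V}
variable [Countable V] [MeasurableSpace V] [DiscreteMeasurableSpace V]
  {Ω : Type} [MeasurableSpace Ω] {P : Measure Ω} {X : ℕ → Ω → V}

variable {d : ℕ}

omit [Countable V] [MeasurableSpace V] [DiscreteMeasurableSpace V] [MeasurableSpace Ω] in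
theorem qt2_cyl (φ : G ≃g G) (t : ℕ) (x : ℕ → V) :
    cyl (fun t ω => φ (X t ω)) t (fun s => φ (x s)) = cyl X t x := by
  ext ω
  simp only [cyl, mem_ofPred_eq, EmbeddingLike.apply_eq_iff_eq]

omit [Countable V] [MeasurableSpace V] [DiscreteMeasurableSpace V] in
theorem qt2_adp {E : ℕ → (ℕ → V) → Prop} (hE : Adp E) (φ : G ≃g G) {t : ℕ} {x y : ℕ → V}
    (h : ∀ s ≤ t, x s = y s) (hx : E t fun s => φ (x s)) : E t fun s => φ (y s) :=
  hE t _ _ (fun s hs => congrArg φ (h s hs)) hx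

theorem cre_prob (hb : Bd G d) (C : Cut G) : ∃ c ≠ 0, ∀ (o : V) (X : ℕ → Ω → V),
    IsWalk (ker G ∅) o P X → ∀ m t x, m ≤ t → Ent G C t x →
      c * P (cyl X t x) ≤ P (cyl X t x ∩ pth X ⁻¹' {y | ∃ T, Cre G C m T y}) := by
  obtain ⟨n₀, hn₀⟩ := k0 C
  refine ⟨(d : ℝ≥0∞)⁻¹ ^ n₀, pow_ne_zero _ (ENNReal.inv_ne_zero.2 (ENNReal.natCast_ne_top d)),
    fun o X h m t x hm hx => ?_⟩
  obtain ⟨n, hn, E, w, hr, hw, he, ha⟩ := hn₀ t x hx
  rw [← empty_union (us x t)] at hr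
  obtain ⟨y, hy, hyw, hyE, hys⟩ := hist_of hr
  have hd : 1 ≤ d := ((Set.ncard_pos (hb o).1).2 (hb o).2.2).trans_le (hb o).2.1
  have hd' : (d : ℝ≥0∞)⁻¹ ≤ 1 := ENNReal.inv_le_one.2 (by exact_mod_cast hd)
  have hC : Cre G C m (t + n) y := by
    refine ⟨t, hm, Nat.le_add_right _ _, ent_adp C t x y (fun s hs => (hy s hs).symm) hx, ?_⟩
    rw [hyw, hyE]
    exact ⟨hw, he, ha⟩
  calc (d : ℝ≥0∞)⁻¹ ^ n₀ * P (cyl X t x) ≤ (d : ℝ≥0∞)⁻¹ ^ n * P (cyl X t y) := by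
        rw [cyl_congr hy]
        exact mul_le_mul_left (pow_le_pow_right_of_le_one' hd' hn) _
    _ ≤ P (cyl X (t + n) y) := cyl_ge hb h fun s h1 h2 => (hys s h1 h2).1
    _ ≤ _ := by
        refine measure_mono fun ω hω => ?_
        exact ⟨fun s hs => (hω s (by omega)).trans (hy s hs),
          t + n, cre_adp C m _ y _ (fun s hs => (hω s hs).symm) hC⟩

theorem cre_null {C : Cut G} (hg : ¬Good G d C) {o : V} (h : IsWalk (ker G ∅) o P X) {m T : ℕ}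
    {x : ℕ → V} (hx : Cre G C m T x) : P (cyl X T x ∩ pth X ⁻¹' Ev C.Fᶜ) = 0 := by
  by_contra hp
  obtain ⟨c, hc, he⟩ := n3 h d hp
  obtain ⟨t, -, -, -, hw, hx, ha⟩ := hx
  rw [empty_union] at he
  exact hg (good_of C subset_rfl C.cloF hx ha (disjoint_right.1 C.dFW hw) he hc)

theorem t3 (hb : Bd G d) (hc : G.Preconnected) (ht : Tr G) (h3 : ¬Ends G 3) {C₁ C₂ : Cut G}
    {w₀ : V} (h1 : w₀ ∈ C₁.W) (h2 : w₀ ∈ C₂.W) (hF : C₁.F.Infinite ∧ C₂.F.Infinite)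
    (hv : ∀ v, v ∉ C₁.Y → v ∉ C₂.Y → v ∈ C₁.N ∨ v ∈ C₂.N) {o : V}
    (h : IsWalk (ker G ∅) o P X) (h0 : P (pth X ⁻¹' Of o) ≠ 1) : Good G d C₁ ∨ Good G d C₂ := by
  by_contra hg
  rw [not_or] at hg
  have := h.1
  obtain ⟨c₁, hc₁, p₁⟩ := cre_prob (P := P) hb C₁
  obtain ⟨c₂, hc₂, p₂⟩ := cre_prob (P := P) hb C₂
  let D : ℕ → Cut G × (G ≃g G) → ℕ → (ℕ → V) → Prop := fun m i T y =>
    (i.1 = C₁ ∨ i.1 = C₂) ∧ Cre G i.1 m T fun s => i.2 (y s)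
  have hD : ∀ m i, Adp (D m i) := fun m i t x y hxy hx =>
    ⟨hx.1, qt2_adp (cre_adp i.1 m) i.2 hxy hx.2⟩
  have a1 : ∀ m, ∀ᵐ ω ∂P, (∀ m', ∃ t ≥ m', m ≤ t ∧ ∃ (C : Cut G) (φ : G ≃g G),
      (C = C₁ ∨ C = C₂) ∧ Ent G C t fun s => φ (pth X ω s)) →
      pth X ω ∈ {y | ∃ T, ∃ i, D m i T y} := by
    intro m
    refine bc h (E := fun t y => m ≤ t ∧ ∃ (C : Cut G) (φ : G ≃g G),
      (C = C₁ ∨ C = C₂) ∧ Ent G C t fun s => φ (y s)) ?_ ?_ (c := min c₁ c₂) ?_ ?_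
    · rintro t x y hxy ⟨hm, C, φ, hC, hx⟩
      exact ⟨hm, C, φ, hC, qt2_adp (ent_adp C) φ hxy hx⟩
    · rw [ofPred_exists]
      exact MeasurableSet.iUnion fun T => Adp.meas (E := fun T y => ∃ i, D m i T y)
        (fun t x y hxy hx => hx.imp fun i hi => hD m i t x y hxy hi) T
    · exact (lt_min (pos_iff_ne_zero.2 hc₁) (pos_iff_ne_zero.2 hc₂)).ne'
    · rintro t x ⟨hm, C, φ, hC, hx⟩
      have key : min c₁ c₂ * P (cyl (fun t ω => φ (X t ω)) t fun s => φ (x s)) ≤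
          P (cyl (fun t ω => φ (X t ω)) t (fun s => φ (x s)) ∩
            pth (fun t ω => φ (X t ω)) ⁻¹' {y | ∃ T, Cre G C m T y}) := by
        rcases hC with rfl | rfl
        · exact (mul_le_mul_left (min_le_left _ _) _).trans (p₁ _ _ (walk_map φ h) m t _ hm hx)
        · exact (mul_le_mul_left (min_le_right _ _) _).trans (p₂ _ _ (walk_map φ h) m t _ hm hx)
      rw [qt2_cyl] at key
      refine key.trans (measure_mono (inter_subset_inter_right _ ?_))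
      rintro ω ⟨T, hT⟩
      exact ⟨T, (C, φ), hC, hT⟩
  have a2 : ∀ m, ∀ᵐ ω ∂P, ∀ T, (∃ i, D m i T (pth X ω)) → ∃ i, D m i T (pth X ω) ∧
      pth X ω ∉ {y : ℕ → V | (fun s => i.2 (y s)) ∈ Ev i.1.Fᶜ} := by
    intro m
    refine ae_pick (hD m) (B := fun i => {y : ℕ → V | (fun s => i.2 (y s)) ∈ Ev i.1.Fᶜ}) ?_
    rintro ⟨C, φ⟩ T x ⟨hC, hx⟩
    have hn : ¬Good G d C := by
      rcases hC with rfl | rfl
      · exact hg.1
      · exact hg.2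
    have key := cre_null hn (walk_map φ h) hx
    rw [qt2_cyl] at key
    exact key
  refine h0 ((prob_compl_eq_zero_iff (h.meas_pre (meas_Of o))).1 ?_)
  have a3 : ∀ᵐ ω ∂P, pth X ω ∈ Of o := by
    filter_upwards [ae_all_iff.2 a1, ae_all_iff.2 a2, ae_ev hb hc h o, ae_adj h] with ω b1 b2 b3 b4
    by_contra hn
    refine h3 (three hc b4.2 (b3 hn) fun m => ?_)
    obtain ⟨T, hT⟩ := b1 m fun m' => by
      obtain ⟨t, ht', h'⟩ := ent_io hb.lf hc ht h1 h2 hv b4.2 (b3 hn) (max m m')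
      exact ⟨t, le_of_max_le_right ht', le_of_max_le_left ht', h'⟩
    obtain ⟨⟨C, φ⟩, ⟨hC, hx⟩, hB⟩ := b2 m T hT
    refine ⟨C, φ, T, ?_, hx, hB⟩
    rcases hC with rfl | rfl
    · exact hF.1
    · exact hF.2
  exact a3

end Pool.Agent.P3fb035
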