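import Pool.Agent.P.MP_3fb035_pr.QB2
import Pool.Agent.P.MP_3fb035_pr.QR1
import Pool.Agent.P.MP_3fb035_pr.QC

/-! The run induced on a branch. -/

set_option autoImplicit false

open MeasureTheory Set
open scoped ENNReal symmDiff

namespace Pool.Agent.P3fb035

open Pool.Agent.Lib.GRW

variable {V : Type} {G : SimpleGraph V}
variable [Countable V] [MeasurableSpace V] [DiscreteMeasurableSpace V]
  {Ω : Type} [MeasurableSpace Ω] {P : Measure Ω} {X : ℕ → Ω → V}

variable {d : ℕ} {β : Set V} {v : V}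

omit [Countable V] [MeasurableSpace V] [DiscreteMeasurableSpace V] in
theorem qv0_ag {U U' : Set (Sym2 V)} (hU : Ag G β U U') {a b : V} (h : G.Adj a b)
    (hab : a ∈ β ∨ b ∈ β) : s(a, b) ∈ U ↔ s(a, b) ∈ U' := by
  rcases hab with ha | hb
  · exact hU a ha b h
  · rw [Sym2.eq_swap]; exact hU b hb a h.symm

omit [Countable V] [MeasurableSpace V] [DiscreteMeasurableSpace V] in
theorem qv0_ins {U U' : Set (Sym2 V)} (hU : Ag G β U U') {q w : V} (hq : q ∉ β) (hw : w ∉ β) :
    Ag G β (insert s(q, w) U) U' := fun a ha b hb => by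
  rw [← hU a ha b hb, mem_insert_iff]
  refine or_iff_right fun e => ?_
  rcases Sym2.eq_iff.1 e with ⟨rfl, -⟩ | ⟨rfl, -⟩
  · exact hq ha
  · exact hw ha

omit [Countable V] [MeasurableSpace V] [DiscreteMeasurableSpace V] in
theorem ind_run (hβ : Clo G β {v}) (hv : v ∉ β) {n : ℕ} {U U' E : Set (Sym2 V)} {q q' p : V}
    (h : Run G univ n U q E p) (hU : Ag G β U U') (h1 : q ∈ β → q' = q) (h2 : q ∉ β → q' = v) :
    ∃ n' E' p', Run (rs G β) univ n' U' q' E' p' ∧ Ag G β (U ∪ E) (U' ∪ E') ∧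
      (p ∈ β → p' = p) ∧ (p ∉ β → p' = v) := by
  induction h generalizing U' q' with
  | nil U q => exact ⟨0, ∅, q', Run.nil _ _, hU.union Ag.rfl, h1, h2⟩
  | @cons n U E q w p hw _ _ ih =>
    by_cases hc : q ∈ β ∨ w ∈ β
    · have e : q' = q := by
        by_cases hq : q ∈ β
        · exact h1 hq
        · rw [h2 hq]
          exact ((hβ w (hc.resolve_left hq) q hw.1.symm).resolve_left hq).symm
      subst e
      have hw' : w ∈ nx (rs G β) U' q' := ⟨⟨hw.1, hc⟩, hw.2.imp
        (fun h3 h4 => h3 ((qv0_ag hU hw.1 hc).2 h4))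
        fun h3 z hz => (qv0_ag hU hz.1 hz.2).1 (h3 z hz.1)⟩
      obtain ⟨n', E', p', r, a, b1, b2⟩ := ih (U' := insert s(q', w) U') (q' := w)
        (fun a ha b hb => or_congr Iff.rfl (hU a ha b hb)) (fun _ => rfl)
        (fun h3 => (hβ q' (hc.resolve_right h3) w hw.1).resolve_left h3)
      refine ⟨n' + 1, insert s(q', w) E', p', Run.cons hw' trivial r, ?_, b1, b2⟩
      rwa [union_insert, union_insert, ← insert_union, ← insert_union]
    · rw [not_or] at hc
      obtain ⟨n', E', p', r, a, b1, b2⟩ := ih (U' := U') (q' := q') (qv0_ins hU hc.1 hc.2)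
        (fun h3 => absurd h3 hc.2) (fun _ => h2 hc.1)
      refine ⟨n', E', p', r, ?_, b1, b2⟩
      rwa [union_insert, ← insert_union]

omit [Countable V] [MeasurableSpace V] [DiscreteMeasurableSpace V] in
/-- a walker outside `β` that never gets the chance to take the next step of the induced run -/
theorem no_chance (hl : LF G) (hβ : Clo G β {v}) (hv : v ∉ β) {U U' : Set (Sym2 V)} {v₀ w : V}
    {y : ℕ → V} (hy : ∀ t, Val G U v₀ t y) {t : ℕ} (hU : Ag G β (U ∪ us y t) U') (ht : y t ∉ β)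
    (hw : w ∈ nx (rs G β) U' v)
    (hn : ∀ T ≥ t, (∀ s, t ≤ s → s ≤ T → y s ∉ β) → y T = v → w ∉ nx G (U ∪ us y T) v) :
    y ∉ Of v := by
  have hwβ : w ∈ β := hw.1.2.resolve_left hv
  have key : ∀ T, t ≤ T → (∀ s, t ≤ s → s ≤ T → y s ∉ β) ∧ Ag G β (U ∪ us y T) U' := by
    intro T hT
    induction T, hT using Nat.le_induction with
    | base => exact ⟨fun s h1 h2 => by rwa [le_antisymm h2 h1], hU⟩
    | succ T hT ih =>
      obtain ⟨i1, i2⟩ := ih
      have hT' : y T ∉ β := i1 T hT le_rfl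
      have st := (hy (T + 1)).2 T (Nat.lt_succ_self T)
      have hnew : y (T + 1) ∉ β := fun hb => by
        have e : y T = v := (hβ _ hb _ st.1.symm).resolve_left hT'
        have h3 := hn T hT i1 e
        rw [e] at st
        have h4 : ¬ (s(v, w) ∉ U ∪ us y T ∨ Exh G (U ∪ us y T) v) := fun h => h3 ⟨hw.1.1, h⟩
        rw [not_or, not_not] at h4
        have h5 : Exh (rs G β) U' v :=
          hw.2.resolve_left fun h => h ((qv0_ag i2 hw.1.1 (Or.inr hwβ)).1 h4.1)
        exact st.2.elim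
          (fun h => h ((qv0_ag i2 st.1 (Or.inr hb)).2 (h5 _ ⟨st.1, Or.inr hb⟩))) h4.2
      refine ⟨fun s h1 h2 => ?_, ?_⟩
      · rcases Nat.le_succ_iff.1 h2 with h | rfl
        · exact i1 s h1 h
        · exact hnew
      · rw [us_succ, union_insert]
        exact qv0_ins i2 hT' hnew
  intro ho
  obtain ⟨T₀, hT₀⟩ := exh_of_often hl hy ho
  obtain ⟨n, hn1, hn2⟩ := ho (max T₀ t)
  have h1 : t ≤ n := (le_max_right _ _).trans hn1
  exact hn n h1 (key n h1).1 hn2 ⟨hw.1.1, Or.inr (hT₀ n ((le_max_left _ _).trans hn1))⟩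

end Pool.Agent.P3fb035
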