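import Pool.Agent.P.MP_3fb035_pr.QV0

/-! The walk induced on a branch. -/

set_option autoImplicit false

open MeasureTheory Set
open scoped ENNReal symmDiff

namespace Pool.Agent.P3fb035

open Pool.Agent.Lib.GRW

variable {V : Type} {G : SimpleGraph V}
variable [Countable V] [MeasurableSpace V] [DiscreteMeasurableSpace V]
  {Ω : Type} [MeasurableSpace Ω] {P : Measure Ω} {X : ℕ → Ω → V}

variable {d : ℕ} {β : Set V} {v : V}

omit [Countable V] [MeasurableSpace V] [DiscreteMeasurableSpace V] in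
theorem qv1_inv_le (hb : Bd G d) (v : V) : (d : ℝ≥0∞)⁻¹ ≤ 1 := by
  obtain ⟨h1, h2, h3⟩ := hb v
  have h4 : 1 ≤ d := le_trans ((Set.ncard_pos h1).2 h3) h2
  exact ENNReal.inv_le_one.2 (by exact_mod_cast h4)

omit [Countable V] [MeasurableSpace V] [DiscreteMeasurableSpace V] in
theorem qv1_ag {U U' : Set (Sym2 V)} {t T : ℕ} {x y : ℕ → V} (hU : Ag G β (U ∪ us x t) U')
    (htT : t ≤ T) (hyx : ∀ s ≤ t, y s = x s) (hout : ∀ s, t ≤ s → s ≤ T → y s ∉ β) :
    Ag G β (U ∪ us y T) U' := by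
  intro a ha b hab
  rw [← hU a ha b hab, ← us_congr hyx]
  refine or_congr Iff.rfl ⟨?_, fun h => us_mono y htT h⟩
  rintro ⟨s, hs, he⟩
  by_cases hst : s < t
  · exact ⟨s, hst, he⟩
  · exfalso
    have h1 := hout s (not_lt.1 hst) hs.le
    have h2 := hout (s + 1) (Nat.le_succ_of_le (not_lt.1 hst)) hs
    rcases Sym2.eq_iff.1 he with ⟨h3, -⟩ | ⟨-, h3⟩
    · exact h1 (h3 ▸ ha)
    · exact h2 (h3 ▸ ha)

theorem cvl (hb : Bd G d) (hβ : Clo G β {v}) (hv : v ∉ β) {U : Set (Sym2 V)} {v₀ : V}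
    (h : IsWalk (ker G U) v₀ P X) {n : ℕ} {U' E' : Set (Sym2 V)} {q' p : V}
    (hr : Run (rs G β) univ n U' q' E' p) (hp : p ∈ β) (t : ℕ) (x : ℕ → V)
    (hU : Ag G β (U ∪ us x t) U') (h1 : x t ∈ β → q' = x t) (h2 : x t ∉ β → q' = v) :
    (d : ℝ≥0∞)⁻¹ ^ n * Qe (rs G β) βᶜ (U' ∪ E') p * P (cyl X t x) ≤
      P (cyl X t x ∩ pth X ⁻¹' (Of v)ᶜ) := by
  classical
  have hP : IsProbabilityMeasure P := h.1
  have hH : MeasurableSet (Of v)ᶜ := (meas_Of v).compl
  induction hr generalizing t x with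
  | nil U' q' =>
    have hx : x t ∈ β := by
      by_contra hx
      exact hv (h2 hx ▸ hp)
    obtain rfl := h1 hx
    have e1 : Qe G βᶜ (U ∪ us x t) (x t) = Qe (rs G β) βᶜ U' (x t) :=
      Qe_loc (not_not.2 hx)
        (fun a ha b => ⟨fun hab => ⟨hab, Or.inl (not_not.1 ha)⟩, fun hab => hab.1⟩)
        (by rwa [compl_compl])
    rw [pow_zero, one_mul, union_empty, ← e1, mul_comm, ← q_cyl h βᶜ t x]
    refine measure_mono (inter_subset_inter_right _ fun ω hω hO => ?_)
    obtain ⟨m, hm, hmv⟩ := hO (t + 1)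
    exact hω m hm (hmv ▸ hv)
  | @cons n U' E' q' w p hw _ hr ih =>
    have eU : U' ∪ insert s(q', w) E' = insert s(q', w) U' ∪ E' := by
      rw [union_insert, insert_union]
    set c : ℝ≥0∞ := (d : ℝ≥0∞)⁻¹ ^ (n + 1) * Qe (rs G β) βᶜ (U' ∪ insert s(q', w) E') p with hc
    have step : ∀ (T : ℕ) (y : ℕ → V), Ag G β (U ∪ us y T) U' → y T = q' →
        w ∈ nx G (U ∪ us y T) (y T) → c * P (cyl X T y) ≤ P (cyl X T y ∩ pth X ⁻¹' (Of v)ᶜ) := by
      intro T y hA hy hwy
      set y' := Function.update y (T + 1) w with hy'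
      have hyy : ∀ s ≤ T, y' s = y s := fun s hs =>
        Function.update_of_ne (by omega) _ _
      have hyw : y' (T + 1) = w := Function.update_self _ _ _
      have hA' : Ag G β (U ∪ us y' (T + 1)) (insert s(q', w) U') := by
        rw [us_succ, hyw, hyy T le_rfl, hy, us_congr hyy, union_insert]
        intro a ha b hab
        exact or_congr Iff.rfl (hA a ha b hab)
      have h3 : y' (T + 1) ∉ β → w = v := by
        rw [hyw]
        intro hwβ
        have hq : q' ∈ β := hw.1.2.resolve_right hwβ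
        exact (hβ q' hq w hw.1.1).resolve_left hwβ
      have i1 := ih hp (T + 1) y' hA' (fun _ => hyw.symm) h3
      have i2 : (d : ℝ≥0∞)⁻¹ ^ 1 * P (cyl X T y') ≤ P (cyl X (T + 1) y') := by
        refine cyl_ge hb h fun s hs hs' => ?_
        obtain rfl : s = T := by omega
        rw [hyw, hyy s le_rfl, us_congr hyy]
        exact hwy
      rw [cyl_congr hyy, pow_one] at i2
      have i3 : cyl X (T + 1) y' ⊆ cyl X T y := fun ω hω s hs =>
        (hω s (Nat.le_succ_of_le hs)).trans (hyy s hs)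
      calc c * P (cyl X T y)
          = (d : ℝ≥0∞)⁻¹ ^ n * Qe (rs G β) βᶜ (insert s(q', w) U' ∪ E') p *
              ((d : ℝ≥0∞)⁻¹ * P (cyl X T y)) := by
            rw [hc, eU, pow_succ]; ring
        _ ≤ (d : ℝ≥0∞)⁻¹ ^ n * Qe (rs G β) βᶜ (insert s(q', w) U' ∪ E') p *
              P (cyl X (T + 1) y') := by gcongr
        _ ≤ _ := i1
        _ ≤ _ := measure_mono (inter_subset_inter_left _ i3)
    by_cases hx : x t ∈ β
    · refine step t x hU (h1 hx).symm ?_
      rw [nx_congr (G' := rs G β) (U' := U') (fun b => ⟨fun hab => ⟨hab, Or.inl hx⟩, fun hab => hab.1⟩)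
        (hU _ hx), ← h1 hx]
      exact hw
    · obtain rfl := h2 hx
      let E : ℕ → (ℕ → V) → Prop := fun T y => t ≤ T ∧ (∀ s ≤ t, y s = x s) ∧
        (∀ s, t ≤ s → s ≤ T → y s ∉ β) ∧ y T = q' ∧ w ∈ nx G (U ∪ us y T) q'
      have hE : Adp E := by
        rintro T y z hyz ⟨a1, a2, a3, a4, a5⟩
        refine ⟨a1, fun s hs => (hyz s (hs.trans a1)).symm.trans (a2 s hs),
          fun s hs hs' => hyz s hs' ▸ a3 s hs hs', (hyz T le_rfl).symm.trans a4, ?_⟩
        rwa [← us_congr hyz]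
      have i1 := sd h hE hH (c := c) fun T y hy =>
        step T y (qv1_ag hU hy.1 hy.2.1 hy.2.2.1) hy.2.2.2.1 (by rw [hy.2.2.2.1]; exact hy.2.2.2.2)
      set A : Set Ω := pth X ⁻¹' {y | ∃ T, E T y} with hA
      have hAm : MeasurableSet A := by
        refine h.meas_pre ?_
        rw [ofPred_exists]
        exact MeasurableSet.iUnion fun T => hE.meas T
      have hAc : A ⊆ cyl X t x := by
        rintro ω ⟨T, hT⟩
        exact hT.2.1
      have hc1 : c ≤ 1 :=
        mul_le_one' (pow_le_one' (qv1_inv_le hb q') _) Qe_le_one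
      have i2 : P (cyl X t x \ A) ≤ P ((cyl X t x ∩ pth X ⁻¹' (Of q')ᶜ) \ A) := by
        refine measure_mono_ae ?_
        filter_upwards [ae_val h] with ω hω hm
        refine ⟨⟨hm.1, ?_⟩, hm.2⟩
        have hyx : ∀ s ≤ t, pth X ω s = x s := hm.1
        refine no_chance hb.lf hβ hv hω (t := t) (U' := U') (w := w) ?_ ?_ hw ?_
        · rwa [us_congr hyx]
        · rwa [hyx t le_rfl]
        · exact fun T hT a3 a4 a5 => hm.2 ⟨T, hT, hyx, a3, a4, a5⟩
      calc c * P (cyl X t x) = c * P (cyl X t x ∩ A) + c * P (cyl X t x \ A) := by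
            rw [← mul_add, measure_inter_add_sdiff _ hAm]
        _ ≤ P ((cyl X t x ∩ pth X ⁻¹' (Of q')ᶜ) ∩ A) +
              P ((cyl X t x ∩ pth X ⁻¹' (Of q')ᶜ) \ A) := by
            refine add_le_add ?_ ((mul_le_of_le_one_left' hc1).trans i2)
            rw [inter_eq_right.2 hAc]
            refine i1.trans (measure_mono fun ω hω => ⟨⟨hAc hω.1, hω.2⟩, hω.1⟩)
        _ = _ := measure_inter_add_sdiff _ hAm

end Pool.Agent.P3fb035
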