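import Pool.Agent.P.MP_3fb035_pr.QV1
import Pool.Agent.P.MP_3fb035_pr.QR2

/-! Bad branches. -/

set_option autoImplicit false

open MeasureTheory Set
open scoped ENNReal symmDiff

namespace Pool.Agent.P3fb035

open Pool.Agent.Lib.GRW

variable {V : Type} {G : SimpleGraph V}
variable [Countable V] [MeasurableSpace V] [DiscreteMeasurableSpace V]
  {Ω : Type} [MeasurableSpace Ω] {P : Measure Ω} {X : ℕ → Ω → V}

variable {d : ℕ} {β N : Set V} {v : V}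

theorem qv2_bad {o : V} (h : IsWalk (ker G ∅) o P X) (hβ : Clo G β {o}) (ho : o ∉ β)
    (h0 : P (pth X ⁻¹' Ev βᶜ) ≠ 0) : Bad G β o := by
  have := h.1
  have h1 : P (cyl X 0 (fun _ => o) ∩ pth X ⁻¹' Ev βᶜ) ≠ 0 := by
    rwa [inter_comm, measure_inter_conull ((prob_compl_eq_zero_iff (h.meas_cyl _ _)).2 h.cyl_start)]
  obtain ⟨c, hc, n, E, p, hr, hp, hq⟩ := n3 h 1 h1
  rw [us_zero, empty_union] at hr hq
  obtain ⟨n', E', p', hr', hA, h2, -⟩ := ind_run hβ ho hr Ag.rfl (fun _ => rfl) (fun _ => rfl)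
  obtain rfl := h2 (not_not.1 hp)
  refine ⟨n', E', p', hr', not_not.1 hp, fun h3 => hc (le_antisymm ?_ zero_le)⟩
  rw [Qe_loc (G' := rs G β) (U' := E') hp
    (fun a ha b => ⟨fun h4 => ⟨h4, Or.inl (not_not.1 ha)⟩, fun h4 => h4.1⟩)
    (by simpa using hA), h3, mul_zero] at hq
  exact hq

theorem bad_of {o : V} (h : IsWalk (ker G ∅) o P X) (h0 : P (pth X ⁻¹' Of o) ≠ 1) :
    ∃ a, a ≠ o ∧ Bad G (Cp G {o} a) o := by
  have := h.1
  by_contra hn
  refine h0 ((prob_compl_eq_zero_iff (h.meas_pre (meas_Of o))).1 ?_)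
  have h1 : ∀ᵐ ω ∂P, ∀ a, a ≠ o → pth X ω ∉ Ev (Cp G {o} a)ᶜ := by
    refine ae_all_iff.2 fun a => ?_
    by_cases ha : a = o
    · exact .of_forall fun _ h2 => (h2 ha).elim
    · have h2 : P (pth X ⁻¹' Ev (Cp G {o} a)ᶜ) = 0 := by
        by_contra h3
        exact hn ⟨a, ha, qv2_bad h (cp_clo _ _)
          (fun h4 => disjoint_left.1 (cp_disj (W := {o}) ha) h4 rfl) h3⟩
      exact (measure_eq_zero_iff_ae_notMem.1 h2).mono fun _ h3 _ => h3
  refine measure_eq_zero_iff_ae_notMem.2 ?_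
  filter_upwards [h1, ae_adj h] with ω h2 h3 h4
  have h5 : ¬∀ N, ∃ n ≥ N, pth X ω n = o := h4
  push Not at h5
  obtain ⟨T, hT⟩ := h5
  have h6 : ∀ s, T ≤ s → pth X ω s ∈ Cp G {o} (pth X ω T) := fun s hs => by
    induction s, hs using Nat.le_induction with
    | base => exact mem_cp _ _
    | succ s hs ih => exact Cn.trans ih (Cn.single (h3.2 s) (hT _ (by omega)))
  exact h2 _ (hT T le_rfl) ⟨T, fun s hs h7 => h7 (h6 s hs.le)⟩

theorem a0cv (hb : Bd G d) (hc : G.Preconnected) (ht : Tr G) (hβ : Clo G β {v}) (hv : v ∉ β)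
    (hi : βᶜ.Infinite) (hB : Bad G β v) {o : V} (h : IsWalk (ker G ∅) o P X) :
    P (pth X ⁻¹' Of o) = 0 := by
  classical
  obtain ⟨n, E, p, hr, hp, hq⟩ := hB
  have hA : Adp fun t (x : ℕ → V) => ∃ φ : G ≃g G, φ (x t) = v ∧ ∀ s ≤ t, φ (x s) ∉ β := by
    rintro t x y hxy ⟨φ, h1, h2⟩
    exact ⟨φ, hxy t le_rfl ▸ h1, fun s hs => hxy s hs ▸ h2 s hs⟩
  have hc0 : (d : ℝ≥0∞)⁻¹ ^ n * Qe (rs G β) βᶜ (∅ ∪ E) p ≠ 0 :=
    mul_ne_zero (pow_ne_zero _ (ENNReal.inv_ne_zero.2 (ENNReal.natCast_ne_top d)))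
      (by rwa [empty_union])
  have ho : ∀ᵐ ω ∂P, ∀ φ : G ≃g G, pth X ω ∈ Of o → ∀ M, ∃ t ≥ M, φ (pth X ω t) = v := by
    filter_upwards [often_cn hb h] with ω h1 φ h2 M
    obtain ⟨t, h3, h4⟩ := h1 o (φ.symm v) (cn_univ hc _ _) h2 M
    exact ⟨t, h3, by rw [h4, RelIso.apply_symm_apply]⟩
  have h1 := bc h hA (meas_Of o).compl hc0 (by
    rintro t x ⟨φ, h1, h2⟩
    have h3 := cvl hb hβ hv (walk_map φ h) hr hp t (fun s => φ (x s))
      (fun a ha b _ => iff_of_false (fun h4 => by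
        obtain ⟨s, hs, h5⟩ := us_mem (h4.resolve_left (notMem_empty _))
        exact h2 s hs (h5.symm ▸ ha)) (notMem_empty _)) (fun _ => h1.symm) (fun _ => rfl)
    have h4 : cyl (fun t ω => φ (X t ω)) t (fun s => φ (x s)) = cyl X t x := by
      ext ω
      simp [cyl]
    rw [h4] at h3
    refine h3.trans (measure_mono_ae ?_)
    filter_upwards [ho] with ω h5 h6
    exact ⟨h6.1, fun h7 => h6.2 (h5 φ h7)⟩)
  refine measure_eq_zero_iff_ae_notMem.2 ?_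
  filter_upwards [h1, ho, ae_adj h] with ω h2 h3 h4 h5
  refine h2 (fun m => ?_) h5
  obtain ⟨a, ha, ha'⟩ := (hi.sdiff (ball_fin hb.lf (finite_singleton v) m)).nonempty
  obtain ⟨φ, rfl⟩ := ht o a
  have h6 : ∃ t, φ (pth X ω t) = v := (h3 φ h5 0).imp fun _ h7 => h7.2
  have h7 : ∀ s, G.Adj (φ (pth X ω s)) (φ (pth X ω (s + 1))) := fun s => φ.map_adj_iff.2 (h4.2 s)
  refine ⟨Nat.find h6, le_of_not_ge fun h8 => ha' ⟨fun s => φ (pth X ω s), _, h8, congrArg φ h4.1,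
    Nat.find_spec h6, fun s _ => h7 s⟩, φ, Nat.find_spec h6, fun s hs => ?_⟩
  induction s with
  | zero => rw [h4.1]; exact ha
  | succ s ih =>
    exact fun h8 => (hβ _ h8 _ (h7 s).symm).elim (ih (by omega)) (Nat.find_min h6 (by omega))

end Pool.Agent.P3fb035
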