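import Pool.Agent.P.MP_3fb035_pr.QV1
import Pool.Agent.P.MP_3fb035_pr.QR2

/-! The reflecting world. -/

set_option autoImplicit false

open MeasureTheory Set
open scoped ENNReal symmDiff

namespace Pool.Agent.P3fb035

open Pool.Agent.Lib.GRW

variable {V : Type} {G : SimpleGraph V}
variable [Countable V] [MeasurableSpace V] [DiscreteMeasurableSpace V]
  {Ω : Type} [MeasurableSpace Ω] {P : Measure Ω} {X : ℕ → Ω → V}

variable {d : ℕ} {β N : Set V} {v : V}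

omit [Countable V] [MeasurableSpace V] [DiscreteMeasurableSpace V] in
theorem bd_ct (hb : Bd G d) (hN : Con G N) (hN' : Con G Nᶜ) (h1 : N.Nontrivial)
    (h2 : Nᶜ.Nontrivial) : Bd (ct G N) d := by
  intro a
  have hsub : (ct G N).neighborSet a ⊆ G.neighborSet a := fun b hb => hb.1
  refine ⟨(hb a).1.subset hsub, (ncard_le_ncard hsub (hb a).1).trans (hb a).2.1, ?_⟩
  by_cases ha : a ∈ N
  · obtain ⟨b, hb1, hb2⟩ := hN.exists_adj h1 ha
    exact ⟨b, hb2, iff_of_true ha hb1⟩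
  · obtain ⟨b, hb1, hb2⟩ := hN'.exists_adj h2 ha
    exact ⟨b, hb2, iff_of_false ha hb1⟩

theorem refl_world (hb : Bd G d) (hb' : Bd (ct G N) d) (hN' : Con G Nᶜ)
    (hf : {z | z ∉ N ∧ ∃ a ∈ N, G.Adj z a}.Finite) (hβ : Clo G β {v}) (hv : v ∉ β)
    (hβN : Disjoint β N) (hvN : v ∉ N) (hB : Bad G β v) {y q : V} (hy : y ∈ N) {n : ℕ}
    {E : Set (Sym2 V)} (hr : Run G {y}ᶜ n ∅ y E q) (hq : q ∉ N) (hqβ : q ∉ β)
    (hE : ∀ a ∈ N, ∀ b ∉ N, G.Adj a b → s(a, b) ∈ E) (hEβ : Ag G β E ∅)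
    (h : IsWalk (ker G ∅) y P X) : P (pth X ⁻¹' Nv y) ≠ 0 := by
  obtain ⟨Ω', m', P', X', h'⟩ := exists_ker hb' E q
  have hd : (d : ℝ≥0∞)⁻¹ ≠ 0 := ENNReal.inv_ne_zero.2 (ENNReal.natCast_ne_top d)
  have hin : ∀ a ∈ β, ∀ b, G.Adj a b → (ct G N).Adj a b := by
    intro a ha b hab
    refine ⟨hab, iff_of_false (disjoint_left.1 hβN ha) ?_⟩
    rcases hβ a ha b hab with h1 | h1
    · exact disjoint_left.1 hβN h1
    · rw [mem_singleton_iff.1 h1]
      exact hvN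
  have hrs : rs (ct G N) β = rs G β := by
    ext a b
    constructor
    · exact fun h1 => ⟨h1.1.1, h1.2⟩
    · rintro ⟨h1, h2 | h2⟩
      · exact ⟨hin a h2 b h1, Or.inl h2⟩
      · exact ⟨(hin b h2 a h1.symm).symm, Or.inr h2⟩
  obtain ⟨n₀, E₀, p, r1, r2, r3⟩ := hB
  rw [← hrs] at r1 r3
  have c1 := cvl hb' (β := β) (v := v) (fun a ha b hab => hβ a ha b hab.1) hv h' r1 r2 0
    (fun _ => q) (by
      rw [us_zero, union_empty]
      exact fun a ha b hab => hEβ a ha b hab.1) (fun h1 => absurd h1 hqβ) (fun _ => rfl)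
  rw [IsWalk.cyl_start h', mul_one, empty_union] at c1
  have c2 : P' (cyl X' 0 (fun _ => q) ∩ pth X' ⁻¹' (Of v)ᶜ) ≠ 0 := fun h0 => by
    rw [h0, nonpos_iff_eq_zero] at c1
    exact mul_ne_zero (pow_ne_zero _ hd) r3 c1
  have hcn : ∀ {a b : V}, Cn G Nᶜ a b → a ∉ N → Cn (ct G N) univ a b := by
    intro a b hab ha
    induction hab with
    | refl => exact Cn.rfl
    | @tail b c h1 h2 ih =>
      have hbN : b ∉ N := by
        rcases Cn.mem (G := G) (S := Nᶜ) h1 with h3 | h3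
        · rw [h3]
          exact ha
        · exact h3
      exact Cn.trans ih (Cn.single ⟨h2.1, iff_of_false hbN h2.2⟩ (mem_univ _))
  have c3 : P' (cyl X' 0 (fun _ => q) ∩
      pth X' ⁻¹' Ev (N ∪ {z | z ∉ N ∧ ∃ a ∈ N, G.Adj z a})) ≠ 0 := fun h0 => by
    refine c2 (nonpos_iff_eq_zero.1 (le_trans (measure_mono_ae ?_) h0.le))
    filter_upwards [ae_adj h', often_cn hb' h'] with ω h1 h2 h3
    refine ⟨h3.1, Ev.union ⟨0, fun s _ => ?_⟩ (ev_fin hf fun a ha h4 => ?_)⟩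
    · have h5 : ∀ s, pth X' ω s ∉ N := by
        intro s
        induction s with
        | zero =>
          rw [h1.1]
          exact hq
        | succ s ih => exact fun h6 => ih ((h1.2 s).2.2 h6)
      exact h5 _
    · exact h3.2 (h2 a v (hcn (hN' a ha.1 v hvN) ha.1) h4)
  obtain ⟨c, hc, m, E₁, v', s1, s2, s3⟩ := n3 h' d c3
  rw [us_zero, union_empty] at s1 s3
  have s4 : Run (ct G N) Nᶜ m E q E₁ v' :=
    Run.restrict s1 hq fun a ha b hab h1 => ha (hab.2.2 h1)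
  have s5 : Run G Nᶜ m E q E₁ v' := by
    refine Run.sub s4 (fun a b hab => hab.1) fun a b hab hn => ?_
    by_cases ha : a ∈ N
    · exact hE a ha b (fun h1 => hn ⟨hab, iff_of_true ha h1⟩) hab
    · rw [Sym2.eq_swap]
      refine hE b ?_ a ha hab.symm
      by_contra h1
      exact hn ⟨hab, iff_of_false ha h1⟩
  have s6 : Run G {y}ᶜ m E q E₁ v' := s5.mono fun a ha h1 => ha (mem_singleton_iff.1 h1 ▸ hy)
  rw [Qe_loc (G := ct G N) (G' := G) (U := E ∪ E₁) (U' := E ∪ E₁) s2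
    (fun a ha b => ⟨fun h1 => h1.1, fun h1 =>
    ⟨h1, iff_of_false (fun h2 => ha (Or.inl h2))
      fun h2 => ha (Or.inr ⟨fun h3 => ha (Or.inl h3), b, h2, h1⟩)⟩⟩) Ag.rfl] at s3
  have s7 : Es G d {y}ᶜ (N ∪ {z | z ∉ N ∧ ∃ a ∈ N, G.Adj z a}) (∅ ∪ E) q c := by
    rw [empty_union]
    exact ⟨m, E₁, v', s6, s2, s3⟩
  exact nv_of_es hb h (mul_ne_zero (pow_ne_zero _ hd) hc) (Es.pre hr s7) (fun h1 => h1 rfl)
    (Or.inl hy)

end Pool.Agent.P3fb035
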