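import Pool.Agent.P.MP_3fb035_pr.QV5

/-! Sealing an odd branch. -/

set_option autoImplicit false

open MeasureTheory Set
open scoped ENNReal symmDiff

namespace Pool.Agent.P3fb035

open Pool.Agent.Lib.GRW

variable {V : Type} {G : SimpleGraph V}

variable {d : ℕ}

theorem seal_in (hl : LF G) (hc : G.Preconnected) {v a u b y : V} (ha : a ≠ v) (huv : u ≠ v)
    (hu : u ∉ Cp G {v} a) (hb : G.Adj u b) (ho : Odd {z | G.Adj u z ∧ z ∈ Cp G {u} b}.ncard)
    (hv : v ∈ Cp G {u} b) (hy : G.Adj u y) (hyb : y ∉ Cp G {u} b) : Seal G (Cp G {v} a) v := by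
  have hbu : b ∉ ({u} : Set V) := hb.ne'
  have hav : a ∉ ({v} : Set V) := ha
  have huΓ : u ∉ Cp G {u} b := fun h => disjoint_left.1 (cp_disj hbu) h rfl
  have hvβ : v ∉ Cp G {v} a := fun h => disjoint_left.1 (cp_disj hav) h rfl
  have cΓ := cp_clo (G := G) {u} b
  have cβ := cp_clo (G := G) {v} a
  have hβΓ : Cp G {v} a ⊆ Cp G {u} b := by
    obtain ⟨c, hc1, hc2⟩ := cp_nb hc ha
    have h1 : c ∈ Cp G {u} b := (cΓ v hv c hc2).resolve_right fun h => hu (h ▸ hc1)
    rw [← cp_eq hbu h1]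
    exact (cp_con hav).sub_cp (disjoint_singleton_right.2 hu) hc1
  have huβ : ∀ z ∈ Cp G {v} a, ¬G.Adj z u := fun z hz h => (cβ z hz u h).elim hu huv
  have hS0 : Con G (Cp G {u} b \ Cp G {v} a) :=
    con_diff (cp_con hbu) hv hvβ fun p hp q _ h => cβ p hp q h
  have hX : (St G {u} (Cp G {u} b)).Finite := st_fin hl (finite_singleton u) _
  obtain ⟨J, hJ, hI, hE⟩ := fix hS0 (⟨hv, hvβ⟩ : v ∈ Cp G {u} b \ Cp G {v} a) hX
  have hH : (St G {u} (Cp G {u} b) ∆ J).Finite := (hX.union hJ).subset symmDiff_subset_union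
  have h1 : ∀ p q, s(p, q) ∈ St G {u} (Cp G {u} b) ∆ J →
      p = u ∨ p ∈ Cp G {u} b \ Cp G {v} a := by
    intro p q h
    rcases symmDiff_subset_union h with h | h
    · obtain ⟨h2, h3 | h3⟩ := mem_st.1 h
      · exact Or.inl h3.1
      · refine Or.inr ⟨h3.2, fun h4 => huβ p h4 ?_⟩
        rw [← mem_singleton_iff.1 h3.1]
        exact h2
    · exact Or.inr (hI p q h)
  have h2 : ∀ q, G.Adj u q → (s(u, q) ∈ St G {u} (Cp G {u} b) ∆ J ↔ q ∈ Cp G {u} b) := by
    intro q hq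
    have h3 : s(u, q) ∉ J := fun h => huΓ (hI u q h).1
    rw [mem_symmDiff, mem_st]
    constructor
    · rintro (⟨⟨-, h | h⟩, -⟩ | ⟨h, -⟩)
      · exact h.2
      · exact absurd h.2 huΓ
      · exact absurd h h3
    · exact fun h => Or.inl ⟨⟨hq, Or.inl ⟨rfl, h⟩⟩, h3⟩
  have h3 : ∀ p q, s(p, q) ∈ St G {u} (Cp G {u} b) ∆ J → p ≠ y := by
    rintro p q h rfl
    exact (h1 p q h).elim hy.ne' fun h' => hyb h'.1
  obtain ⟨n, E, w, hr, hw, hsub, hall⟩ := eb (G := G) (S := {y}ᶜ) (con_singleton v)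
    (fun z hz hz' => hyb (by rw [← mem_singleton_iff.1 hz', mem_singleton_iff.1 hz]; exact hv))
    hH (U := ∅ ∪ {s(y, u)}) (v := u)
    (disjoint_right.2 fun e he he' => by
      rw [empty_union, mem_singleton_iff] at he
      rw [he] at he'
      exact h3 y u he' rfl)
    (fun p q _ h => h3 p q h) (Or.inl subsingleton_singleton) (by
      intro z hz
      constructor
      · intro hodd
        by_contra hzu
        by_cases hz0 : z ∈ Cp G {u} b \ Cp G {v} a
        · exact Nat.not_even_iff_odd.2 hodd (hE z hz0 hz)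
        · rw [dg_zero fun q _ h => (h1 z q h).elim hzu hz0] at hodd
          exact Nat.not_odd_zero hodd
      · rintro rfl
        have h4 : {q | G.Adj z q ∧ s(z, q) ∈ St G {z} (Cp G {z} b) ∆ J} =
            {q | G.Adj z q ∧ q ∈ Cp G {z} b} :=
          Set.ext fun q => and_congr_right fun hq => h2 q hq
        rw [dg, h4]
        exact ho)
  rw [mem_singleton_iff.1 hw] at hr
  have h0 : Run G {y}ᶜ 1 ∅ y {s(y, u)} u :=
    Run.one ⟨hy.symm, Or.inl (notMem_empty _)⟩ hy.ne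
  refine ⟨(Cp G {u} b)ᶜ, y, _, _, v, ?_, ?_, ⟨u, huΓ, y, hyb, hy.ne⟩, ?_, ?_,
    disjoint_compl_right.mono_left hβΓ, not_not.2 hv, hyb, h0.trans hr, not_not.2 hv, hvβ, ?_, ?_⟩
  · rw [compl_eq_univ_sdiff]
    exact con_diff (fun p _ q _ => cn_univ hc p q) (mem_univ u) huΓ fun p hp q _ h => cΓ p hp q h
  · rw [compl_compl]
    exact cp_con hbu
  · rw [compl_compl]
    exact ⟨a, hβΓ (mem_cp _ a), v, hv, ha⟩
  · refine (hl u).subset ?_
    rintro z ⟨hz, p, hp, h⟩
    have h4 : p = u := (cΓ z (not_not.1 hz) p h).resolve_left hp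
    rw [h4] at h
    exact h.symm
  · intro p hp q hq h
    have h4 : p = u := (cΓ q (not_not.1 hq) p h.symm).resolve_left hp
    subst h4
    exact Or.inr (hall p (Or.inr (Or.inl rfl)) q h ((h2 q h).2 (not_not.1 hq)))
  · intro p hp q _
    refine iff_of_false (fun h => ?_) (notMem_empty _)
    have h4 : s(p, q) ≠ s(y, u) := by
      intro h5
      rcases Sym2.eq_iff.1 h5 with h6 | h6
      · exact hyb (h6.1 ▸ hβΓ hp)
      · exact hu (h6.1 ▸ hp)
    rcases h with h | h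
    · exact h4 h
    · rcases hsub h with (h | h) | h
      · exact h
      · exact h4 h
      · exact (h1 p q h).elim (fun h5 => hu (h5 ▸ hp)) fun h5 => h5.2 hp

theorem seal_all [Infinite V] (hr : Reg G d) (hd : Odd d) (hc : G.Preconnected) (ht : Tr G)
    (h2 : ¬Two G) {v a : V} (ha : a ≠ v) : Seal G (Cp G {v} a) v := by
  obtain ⟨u, hvu, -, hu⟩ := other_branch hc ht h2 ha
  obtain ⟨b, hb, ho⟩ := odd_branch hr hd u
  by_cases hv : v ∈ Cp G {u} b
  · obtain ⟨y, hy, -, hyb⟩ := other_branch hc ht h2 hb.ne'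
    exact seal_in hr.lf hc ha hvu.ne' hu hb ho hv hy hyb
  · exact seal_out hr.lf hc ha hvu.ne' hu hb ho (nofin hc ht hb.ne') hv

end Pool.Agent.P3fb035
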