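import Pool.Agent.P.MP_3fb035_pr.QH2
import Pool.Agent.P.MP_3fb035_pr.QE2

/-! Sealing an odd branch from outside. -/

set_option autoImplicit false

open MeasureTheory Set
open scoped ENNReal symmDiff

namespace Pool.Agent.P3fb035

open Pool.Agent.Lib.GRW

variable {V : Type} {G : SimpleGraph V}

variable {d : ℕ}

/-- the data used in the reflecting world -/
def Seal (G : SimpleGraph V) (β : Set V) (v : V) : Prop :=
  ∃ (N : Set V) (y : V) (n : ℕ) (E : Set (Sym2 V)) (q : V), Con G N ∧ Con G Nᶜ ∧ N.Nontrivial ∧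
    Nᶜ.Nontrivial ∧ {z | z ∉ N ∧ ∃ a ∈ N, G.Adj z a}.Finite ∧ Disjoint β N ∧ v ∉ N ∧ y ∈ N ∧
    Run G {y}ᶜ n ∅ y E q ∧ q ∉ N ∧ q ∉ β ∧ (∀ a ∈ N, ∀ b ∉ N, G.Adj a b → s(a, b) ∈ E) ∧
    Ag G β E ∅

theorem seal_out (hl : LF G) (hc : G.Preconnected) {v a u b : V} (ha : a ≠ v) (huv : u ≠ v)
    (hu : u ∉ Cp G {v} a) (hb : G.Adj u b) (ho : Odd {z | G.Adj u z ∧ z ∈ Cp G {u} b}.ncard)
    (hi : (Cp G {u} b).Infinite) (hv : v ∉ Cp G {u} b) : Seal G (Cp G {v} a) v := by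
  have hbu : b ∉ ({u} : Set V) := fun h => hb.ne (mem_singleton_iff.1 h).symm
  have hav : a ∉ ({v} : Set V) := ha
  have hcN : Con G (Cp G {u} b) := cp_con hbu
  have huN : u ∉ Cp G {u} b := fun h => disjoint_left.1 (cp_disj hbu) h rfl
  have hclo : ∀ p ∈ Cp G {u} b, ∀ q, G.Adj p q → q ∈ Cp G {u} b ∨ q = u := cp_clo {u} b
  have hcc : Con G (Cp G {u} b)ᶜ := by
    rw [compl_eq_univ_sdiff]
    exact con_diff (fun p _ q _ => cn_univ hc p q) (mem_univ u) huN
      fun p hp q _ h => hclo p hp q h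
  have hdis : Disjoint (Cp G {v} a) (Cp G {u} b) := by
    refine disjoint_left.2 fun z hz hzN => ?_
    have h1 := (cp_con hav).sub_cp (disjoint_singleton_right.2 hu) hz
    rw [cp_eq hbu hzN] at h1
    obtain ⟨c, hc1, hc2⟩ := cp_nb hc ha
    rcases hclo c (h1 hc1) v hc2.symm with h | h
    · exact hv h
    · exact huv h.symm
  obtain ⟨Y, hYf, hAY, hYN, hYc⟩ := fin_sup (A := Cp G {u} b ∩ G.neighborSet u) hcN
    ((hl u).inter_of_right _) inter_subset_left
  have hbY : b ∈ Y := hAY ⟨mem_cp _ _, hb⟩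
  obtain ⟨y0, hy0, hy0'⟩ := (hi.sdiff hYf).nonempty
  obtain ⟨x, y, hxY, hyY, hyN, -, hxy⟩ := exit_edge (hcN b (mem_cp _ _) y0 hy0) hbY hy0'
  have hXf : (St G {u} (Cp G {u} b)).Finite := st_fin hl (finite_singleton u) _
  obtain ⟨J, hJf, hJ, hev⟩ := fix hYc hxY hXf
  have hHf : (St G {u} (Cp G {u} b) ∆ J).Finite := (hXf.union hJf).subset symmDiff_subset_union
  have huY : u ∉ Y := fun h => huN (hYN h)
  have hend : ∀ p q, s(p, q) ∈ St G {u} (Cp G {u} b) ∆ J → p ∈ Y ∨ p = u := by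
    intro p q h
    rcases symmDiff_subset_union h with h | h
    · obtain ⟨h1, h2 | h2⟩ := mem_st.1 h
      · exact Or.inr h2.1
      · have h3 : q = u := h2.1
        rw [h3] at h1
        exact Or.inl (hAY ⟨h2.2, h1.symm⟩)
    · exact Or.inl (hJ p q h)
  have hatu : ∀ w, G.Adj u w → (s(u, w) ∈ St G {u} (Cp G {u} b) ∆ J ↔ w ∈ Cp G {u} b) := by
    intro w hw
    have h1 : s(u, w) ∉ J := fun h => huY (hJ u w h)
    rw [mem_symmDiff, mem_st]
    constructor
    · rintro (⟨⟨-, h | h⟩, -⟩ | ⟨h, -⟩)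
      · exact h.2
      · exact absurd h.2 huN
      · exact absurd h h1
    · exact fun h => Or.inl ⟨⟨hw, Or.inl ⟨rfl, h⟩⟩, h1⟩
  have hou : Odd (dg G (St G {u} (Cp G {u} b) ∆ J) u) := by
    have : {w | G.Adj u w ∧ s(u, w) ∈ St G {u} (Cp G {u} b) ∆ J}
        = {z | G.Adj u z ∧ z ∈ Cp G {u} b} :=
      Set.ext fun w => and_congr_right (hatu w)
    rw [dg, this]
    exact ho
  have hoth : ∀ w, w ≠ u → w ≠ x → Even (dg G (St G {u} (Cp G {u} b) ∆ J) w) := by
    intro w h1 h2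
    by_cases h : w ∈ Y
    · exact hev w h h2
    · rw [dg_zero fun q _ hq => (hend w q hq).elim h h1]
      exact Even.zero
  have hux : u ≠ x := fun h => huY (h ▸ hxY)
  have hox := pair_odd hHf hux hoth hou
  have hyu : y ≠ u := fun h => huN (h ▸ hyN)
  have hyH : ∀ q, s(y, q) ∉ St G {u} (Cp G {u} b) ∆ J := fun q h => (hend y q h).elim hyY hyu
  have r1 : Run G {y}ᶜ 1 ∅ y {s(y, x)} x :=
    Run.one ⟨hxy.symm, Or.inl (notMem_empty _)⟩ hxy.ne
  obtain ⟨n, E, w, r2, hw, hE, -, hall⟩ := eb0 (G := G) (S := {y}ᶜ) (W := {u})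
    (con_singleton u) (singleton_subset_iff.2 hyu.symm) hHf (U := ∅ ∪ {s(y, x)}) (v := x)
    (by rw [empty_union]; exact disjoint_singleton_right.2 (hyH x))
    (fun p q _ h e => hyH q (by rwa [mem_singleton_iff.1 e] at h))
    (Or.inl subsingleton_singleton) (fun w hw => ⟨fun h => by
      by_contra e
      exact Nat.not_even_iff_odd.2 h (hoth w hw e), fun e => e ▸ hox⟩)
  have hwu : w = u := hw
  refine ⟨Cp G {u} b, y, 1 + n, {s(y, x)} ∪ E, w, hcN, hcc, hi.nontrivial,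
    ⟨u, huN, v, hv, huv⟩, (finite_singleton u).subset ?_, hdis, hv, hyN, r1.trans r2,
    hwu ▸ huN, hwu ▸ hu, ?_, ?_⟩
  · rintro z ⟨hz, p, hp, hzp⟩
    exact (hclo p hp z hzp.symm).resolve_left hz
  · intro p hp q hq hpq
    have h1 : q = u := (hclo p hp q hpq).resolve_left hq
    rw [h1] at hpq ⊢
    have h2 := hall u rfl p hpq.symm ((hatu p hpq.symm).2 hp)
    rw [Sym2.eq_swap] at h2
    exact Or.inr h2
  · intro p hp q _
    refine iff_of_false (fun h => ?_) (notMem_empty _)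
    have hpN : p ∉ Cp G {u} b := disjoint_left.1 hdis hp
    have h1 : s(p, q) = s(y, x) → False := fun e => by
      rcases Sym2.eq_iff.1 e with e | e
      · exact hpN (e.1 ▸ hyN)
      · exact hpN (e.1 ▸ hYN hxY)
    rcases h with h | h
    · exact h1 h
    · rcases hE h with (h | h) | h
      · exact h
      · exact h1 h
      · rcases hend p q h with h | h
        · exact hpN (hYN h)
        · exact hu (h ▸ hp)

end Pool.Agent.P3fb035
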