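import Pool.Agent.P.MP_3fb035_pr.QDef

/-! Resampling one coordinate. -/

set_option autoImplicit false

open MeasureTheory Set
open scoped ENNReal symmDiff

namespace Pool.Agent.P3fb035

open Pool.Agent.Lib.GRW

variable {V : Type} {G : SimpleGraph V}
variable [G.LocallyFinite]

theorem upd_self (ω : Om G) (w : V) (r : Rk G w) : upd ω w r (0, w) = r := by
  unfold upd
  exact @Function.update_self _ _ (_) _ _ _

theorem upd_ne (ω : Om G) (w : V) (r : Rk G w) {i : ℕ × V} (h : i ≠ (0, w)) :
    upd ω w r i = ω i := by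
  unfold upd
  exact @Function.update_of_ne _ _ (_) _ _ h _ _

theorem meas_upd (w : V) (r : Rk G w) : Measurable fun ω : Om G => upd ω w r := by
  refine measurable_pi_lambda _ fun i => ?_
  by_cases h : i = (0, w)
  · subst h
    simp only [upd_self]
    exact measurable_const
  · simp only [upd_ne _ _ _ h]
    exact measurable_pi_apply i

theorem qw0_self (ω : Om G) (w : V) : upd ω w (ω (0, w)) = ω := by
  funext i
  by_cases h : i = (0, w)
  · subst h
    exact upd_self ..
  · exact upd_ne _ _ _ h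

theorem qw0_coord (w : V) (r : Rk G w) :
    Pm G {ω | ω (0, w) = r} = unif (Rk G w) {r} := by
  have h := (measurePreserving_eval_infinitePi (fun i : ℕ × V => unif (Rk G i.2))
    (0, w)).measure_preimage (s := {r}) (measurableSet_singleton r).nullMeasurableSet
  exact h

theorem qw0_measure (w : V) [Fintype (Rk G w)] :
    Pm G = ∑ r : Rk G w, unif (Rk G w) {r} • (Pm G).map fun ω => upd ω w r := by
  ext B hB
  have m1 : ∀ r : Rk G w, MeasurableSet {ω : Om G | ω (0, w) = r} := fun r =>
    measurable_pi_apply (X := fun i : ℕ × V => Rk G i.2) (0, w)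
      (show MeasurableSet ({r} : Set (Rk G w)) from trivial)
  have h1 : B = ⋃ r : Rk G w, {ω : Om G | ω (0, w) = r} ∩ (fun ω => upd ω w r) ⁻¹' B := by
    ext ω
    simp only [mem_iUnion, mem_inter_iff, mem_ofPred_eq, mem_preimage]
    constructor
    · exact fun h => ⟨_, rfl, by rwa [qw0_self]⟩
    · rintro ⟨r, rfl, h⟩
      rwa [qw0_self] at h
  rw [Measure.finsetSum_apply]
  conv_lhs => rw [h1]
  rw [measure_iUnion (fun r r' hr => Set.disjoint_left.mpr fun ω h h' =>
    hr (h.1.symm.trans h'.1)) fun r => (m1 r).inter (meas_upd w r hB), tsum_fintype]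
  refine Finset.sum_congr rfl fun r _ => ?_
  rw [Measure.smul_apply, Measure.map_apply (meas_upd w r) hB, smul_eq_mul, ← qw0_coord]
  refine dep_inter _ (T := {(0, w)}) (T' := {(0, w)}ᶜ) disjoint_compl_right
    (fun ω ω' h h' => (h _ rfl).symm.trans h') (fun ω ω' h h' => ?_) (m1 r) (meas_upd w r hB)
  have h2 : upd ω' w r = upd ω w r := by
    funext i
    by_cases hi : i = (0, w)
    · subst hi
      rw [upd_self, upd_self]
    · rw [upd_ne _ _ _ hi, upd_ne _ _ _ hi, h i hi]
  rw [mem_preimage, h2]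
  exact h'

theorem resample (w : V) {f : Om G → ℝ≥0∞} (hf : Measurable f) :
    ∫⁻ ω, f ω ∂Pm G = ∫⁻ ω, ∫⁻ r, f (upd ω w r) ∂unif (Rk G w) ∂Pm G := by
  have := Fintype.ofFinite (Rk G w)
  conv_lhs => rw [qw0_measure w]
  have hm : ∀ r : Rk G w, Measurable fun ω : Om G => f (upd ω w r) := fun r =>
    hf.comp (meas_upd w r)
  rw [lintegral_finsetSum_measure]
  simp only [lintegral_fintype]
  rw [lintegral_finsetSum _ fun r _ => (hm r).mul_const _]
  refine Finset.sum_congr rfl fun r _ => ?_
  rw [lintegral_smul_measure, lintegral_map hf (meas_upd w r),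
    lintegral_mul_const _ (hm r), smul_eq_mul, mul_comm]

theorem resample_lb (w : V) {A B : Set (Om G)} (hA : MeasurableSet A) (hB : MeasurableSet B)
    (hd : ∀ ω r, upd ω w r ∈ A ↔ ω ∈ A) {c : ℝ≥0∞}
    (h : ∀ ω ∈ A, c ≤ unif (Rk G w) {r | upd ω w r ∈ B}) : c * Pm G A ≤ Pm G (A ∩ B) := by
  rw [← lintegral_indicator_one (hA.inter hB),
    resample w (measurable_one.indicator (hA.inter hB)), ← lintegral_indicator_const hA]
  refine lintegral_mono fun ω => ?_
  by_cases hω : ω ∈ A
  · rw [indicator_of_mem hω]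
    refine (h ω hω).trans (le_of_eq ?_)
    rw [← lintegral_indicator_one MeasurableSet.of_discrete]
    refine lintegral_congr fun r => ?_
    by_cases hr : upd ω w r ∈ B
    · rw [indicator_of_mem (show r ∈ {r | upd ω w r ∈ B} from hr),
        indicator_of_mem (show upd ω w r ∈ A ∩ B from ⟨(hd ω r).mpr hω, hr⟩)]
      rfl
    · rw [indicator_of_notMem (show r ∉ {r | upd ω w r ∈ B} from hr),
        indicator_of_notMem (show upd ω w r ∉ A ∩ B from fun h' => hr h'.2)]
  · rw [indicator_of_notMem hω]
    exact zero_le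

end Pool.Agent.P3fb035
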