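import Pool.Agent.P.MP_3fb035_pr.QDef

/-! Cycles of two pairings of the neighbours of a vertex. -/

set_option autoImplicit false

open MeasureTheory Set
open scoped ENNReal symmDiff

namespace Pool.Agent.P3fb035

open Pool.Agent.Lib.GRW

variable {V : Type} {G : SimpleGraph V}
variable [G.LocallyFinite]

variable {w a : V} {π : V → V}

/-- one step of the exit sequence -/
noncomputable def qw1_sg (π : V → V) (r : Rk G w) (x : V) : V := par r (π x)

theorem qw1_adj (hπ : Prs G w π) (r : Rk G w) {x : V} (hx : G.Adj w x) :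
    G.Adj w (qw1_sg π r x) := (par_spec r (hπ x hx).1).1

theorem qw1_it_adj (hπ : Prs G w π) (r : Rk G w) (m : ℕ) {x : V} (hx : G.Adj w x) :
    G.Adj w ((qw1_sg π r)^[m] x) := by
  induction m with
  | zero => exact hx
  | succ m ih =>
    rw [Function.iterate_succ_apply']
    exact qw1_adj hπ r ih

omit [G.LocallyFinite] in
theorem qw1_pi_inj (hπ : Prs G w π) {x y : V} (hx : G.Adj w x) (hy : G.Adj w y)
    (h : π x = π y) : x = y := by
  rw [← (hπ x hx).2.1, h, (hπ y hy).2.1]

theorem qw1_inj (hπ : Prs G w π) (r : Rk G w) {x y : V} (hx : G.Adj w x) (hy : G.Adj w y)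
    (h : qw1_sg π r x = qw1_sg π r y) : x = y := by
  refine qw1_pi_inj hπ hx hy ?_
  rw [← par_par r (hπ x hx).1, ← par_par r (hπ y hy).1]
  exact congrArg (par r) h

theorem qw1_it_inj (hπ : Prs G w π) (r : Rk G w) (m : ℕ) {x y : V} (hx : G.Adj w x)
    (hy : G.Adj w y) (h : (qw1_sg π r)^[m] x = (qw1_sg π r)^[m] y) : x = y := by
  induction m with
  | zero => exact h
  | succ m ih =>
    rw [Function.iterate_succ_apply', Function.iterate_succ_apply'] at h
    exact ih (qw1_inj hπ r (qw1_it_adj hπ r m hx) (qw1_it_adj hπ r m hy) h)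

theorem qw1_dep (hπ : Prs G w π) (ha : G.Adj w a) (r : Rk G w) (j : ℕ) :
    dep π r a j = (qw1_sg π r)^[j + 1] (π a) := by
  induction j with
  | zero =>
    show par r a = par r (π (π a))
    rw [(hπ a ha).2.1]
  | succ j ih =>
    rw [Function.iterate_succ_apply', ← ih]
    rfl

theorem qw1_dep_add (hπ : Prs G w π) (ha : G.Adj w a) (r : Rk G w) (i k : ℕ) :
    dep π r a (i + k) = (qw1_sg π r)^[k] (dep π r a i) := by
  rw [qw1_dep hπ ha, qw1_dep hπ ha, ← Function.iterate_add_apply,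
    show k + (i + 1) = i + k + 1 by omega]

theorem qw1_ne (he : Even (G.degree w)) (hπ : Prs G w π) (r : Rk G w) (m : ℕ) :
    ∀ x, G.Adj w x → (qw1_sg π r)^[m] x ≠ π x := by
  induction m using Nat.twoStepInduction with
  | zero => exact fun x hx => (hπ x hx).2.2.symm
  | one => exact fun x hx => par_ne he r (hπ x hx).1
  | more m ih _ =>
    intro x hx e
    have h1 := qw1_adj hπ r hx
    have h2 := qw1_it_adj hπ r m h1
    rw [Function.iterate_succ_apply', Function.iterate_succ_apply] at e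
    refine ih _ h1 ?_
    have h3 : π ((qw1_sg π r)^[m] (qw1_sg π r x)) = qw1_sg π r x := by
      rw [← par_par r (hπ _ h2).1]
      exact congrArg (par r) e
    rw [← (hπ _ h2).2.1, h3]

theorem dep_adj (hπ : Prs G w π) (ha : G.Adj w a) (r : Rk G w) (j : ℕ) :
    G.Adj w (dep π r a j) := by
  rw [qw1_dep hπ ha]
  exact qw1_it_adj hπ r _ (hπ a ha).1

theorem dep_close (hπ : Prs G w π) (ha : G.Adj w a) (r : Rk G w) : ∃ j, dep π r a j = π a := by
  have hfin : (G.neighborSet w).Finite := toFinite _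
  obtain ⟨i, j, hij, e⟩ := hfin.exists_lt_map_eq_of_forall_mem
    (f := fun n : ℕ => (qw1_sg π r)^[n] (π a)) fun n => qw1_it_adj hπ r n (hπ a ha).1
  obtain ⟨k, rfl⟩ := Nat.exists_eq_add_of_lt hij
  refine ⟨k, ?_⟩
  rw [qw1_dep hπ ha]
  refine qw1_it_inj hπ r i (qw1_it_adj hπ r _ (hπ a ha).1) (hπ a ha).1 ?_
  rw [← Function.iterate_add_apply, ← Nat.add_assoc]
  exact e.symm

theorem dep_pal (he : Even (G.degree w)) (hπ : Prs G w π) (ha : G.Adj w a) (r : Rk G w)
    (i j : ℕ) : dep π r a i ≠ a ∧ dep π r a i ≠ π (dep π r a j) := by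
  constructor
  · have h := qw1_ne he hπ r (i + 1) _ (hπ a ha).1
    rwa [(hπ a ha).2.1, ← qw1_dep hπ ha] at h
  · intro e
    rcases le_total i j with h | h
    · obtain ⟨k, rfl⟩ := Nat.exists_eq_add_of_le h
      refine qw1_ne he hπ r k _ (dep_adj hπ ha r i) ?_
      rw [← qw1_dep_add hπ ha, e, (hπ _ (dep_adj hπ ha r _)).2.1]
    · obtain ⟨k, rfl⟩ := Nat.exists_eq_add_of_le h
      refine qw1_ne he hπ r k _ (dep_adj hπ ha r j) ?_
      rw [← qw1_dep_add hπ ha, e]

theorem dep_inj (hπ : Prs G w π) (ha : G.Adj w a) (r : Rk G w) {i j : ℕ} (hij : i < j)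
    (h : ∀ l < j, dep π r a l ≠ π a) : dep π r a i ≠ dep π r a j := by
  intro e
  obtain ⟨k, rfl⟩ := Nat.exists_eq_add_of_lt hij
  refine h k (by omega) ?_
  refine qw1_it_inj hπ r (i + 1) (dep_adj hπ ha r k) (hπ a ha).1 ?_
  rw [← qw1_dep_add hπ ha, ← qw1_dep hπ ha, e, show k + (i + 1) = i + k + 1 by omega]

theorem arr_card (hπ : Prs G w π) (ha : G.Adj w a) (r : Rk G w) {m : ℕ}
    (hm : dep π r a m = π a) (h : ∀ l < m, dep π r a l ≠ π a) : (Arr π r a).ncard = m + 1 := by
  have hp : Function.IsPeriodicPt (qw1_sg π r) (m + 1) (dep π r a 0) := by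
    have h1 : Function.IsPeriodicPt (qw1_sg π r) (m + 1) (π a) := by
      show (qw1_sg π r)^[m + 1] (π a) = π a
      rw [← qw1_dep hπ ha, hm]
    rw [qw1_dep hπ ha]
    exact h1.apply_iterate _
  have hmod : ∀ j, dep π r a (j % (m + 1)) = dep π r a j := fun j => by
    have h1 := qw1_dep_add hπ ha r 0 j
    have h2 := qw1_dep_add hπ ha r 0 (j % (m + 1))
    rw [Nat.zero_add] at h1 h2
    rw [h1, h2]
    exact hp.iterate_mod_apply j
  have hA : Arr π r a = (fun j => π (dep π r a j)) '' (Finset.range (m + 1) : Set ℕ) := by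
    ext z
    constructor
    · rintro (rfl | ⟨j, rfl⟩)
      · refine ⟨m, by simp, ?_⟩
        show π (dep π r z m) = z
        rw [hm, (hπ z ha).2.1]
      · refine ⟨j % (m + 1), by simpa using Nat.mod_lt j (Nat.succ_pos m), ?_⟩
        show π (dep π r a (j % (m + 1))) = π (dep π r a j)
        rw [hmod]
    · rintro ⟨j, -, rfl⟩
      exact Or.inr ⟨j, rfl⟩
  rw [hA, InjOn.ncard_image, ncard_coe_finset, Finset.card_range]
  intro i hi j hj e
  have e' := qw1_pi_inj hπ (dep_adj hπ ha r i) (dep_adj hπ ha r j) e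
  have hi' : i < m + 1 := by simpa using hi
  have hj' : j < m + 1 := by simpa using hj
  rcases lt_trichotomy i j with c | c | c
  · exact absurd e' (dep_inj hπ ha r c fun l hl => h l (by omega))
  · exact c
  · exact absurd e'.symm (dep_inj hπ ha r c fun l hl => h l (by omega))

open Classical in
theorem par_sw {u u' z : V} (hu : G.Adj w u) (hu' : G.Adj w u') (hz : G.Adj w z) (r : Rk G w) :
    par (Rk.sw hu hu' r) z = Equiv.swap u u' (par r (Equiv.swap u u' z)) := by
  have h1 := par_spec (Rk.sw hu hu' r) hz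
  have h2 := par_spec r ((adj_swap hu hu' z).2 hz)
  have h3 : r.1 (Equiv.swap u u' z) + r.1 (Equiv.swap u u' (par (Rk.sw hu hu' r) z)) + 1 =
      G.degree w := h1.2
  have h4 : Equiv.swap u u' (par (Rk.sw hu hu' r) z) = par r (Equiv.swap u u' z) :=
    r.inj _ _ ((adj_swap hu hu' _).2 h1.1) h2.1 (by omega)
  rw [← h4, Equiv.swap_apply_self]

open Classical in
theorem dep_sw (hπ : Prs G w π) (ha : G.Adj w a) (r : Rk G w) {u u' : V} (hu : G.Adj w u)
    (hu' : G.Adj w u') {j : ℕ} (h0 : a ≠ u ∧ a ≠ u')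
    (h : ∀ i < j, (dep π r a i ≠ u ∧ dep π r a i ≠ u') ∧
      π (dep π r a i) ≠ u ∧ π (dep π r a i) ≠ u') :
    (∀ i < j, dep π (Rk.sw hu hu' r) a i = dep π r a i) ∧
      dep π (Rk.sw hu hu' r) a j = Equiv.swap u u' (dep π r a j) := by
  have key : ∀ i ≤ j, dep π (Rk.sw hu hu' r) a i = Equiv.swap u u' (dep π r a i) := by
    intro i
    induction i with
    | zero =>
      intro _
      show par (Rk.sw hu hu' r) a = Equiv.swap u u' (par r a)
      rw [par_sw hu hu' ha, Equiv.swap_apply_of_ne_of_ne h0.1 h0.2]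
    | succ i ih =>
      intro hi
      obtain ⟨⟨h1, h2⟩, h3, h4⟩ := h i hi
      show par (Rk.sw hu hu' r) (π (dep π (Rk.sw hu hu' r) a i)) =
        Equiv.swap u u' (par r (π (dep π r a i)))
      rw [ih (by omega), Equiv.swap_apply_of_ne_of_ne h1 h2,
        par_sw hu hu' (hπ _ (dep_adj hπ ha r i)).1, Equiv.swap_apply_of_ne_of_ne h3 h4]
  refine ⟨fun i hi => ?_, key j le_rfl⟩
  rw [key i hi.le, Equiv.swap_apply_of_ne_of_ne (h i hi).1.1 (h i hi).1.2]

end Pool.Agent.P3fb035
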