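import Pool.Agent.P.MP_3fb035_pr.QX2

/-! Two given pairs lie on one cycle with probability at least two thirds. -/

set_option autoImplicit false

open MeasureTheory Set
open scoped ENNReal symmDiff

namespace Pool.Agent.P3fb035

open Pool.Agent.Lib.GRW

variable {V : Type} {G : SimpleGraph V}
variable [G.LocallyFinite]

variable {w a : V} {π : V → V}

/-- neighbours that are neither arrivals up to index `j` nor departures before index `j` -/
def qw2_Free (π : V → V) (r : Rk G w) (a : V) (j : ℕ) (u : V) : Prop :=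
  a ≠ u ∧ ∀ i < j, dep π r a i ≠ u ∧ π (dep π r a i) ≠ u

theorem qw2_close (he : Even (G.degree w)) (hπ : Prs G w π) (ha : G.Adj w a) (r : Rk G w) {j : ℕ}
    (h : ∀ l < j, dep π r a l ≠ π a) : qw2_Free π r a j (π a) := by
  refine ⟨(hπ a ha).2.2.symm, fun i hi => ⟨h i hi, fun e => (dep_pal he hπ ha r i i).1 ?_⟩⟩
  rw [← (hπ _ (dep_adj hπ ha r i)).2.1, e, (hπ a ha).2.1]

theorem qw2_next (he : Even (G.degree w)) (hπ : Prs G w π) (ha : G.Adj w a) (r : Rk G w) {j : ℕ}
    (h : ∀ l < j, dep π r a l ≠ π a) : qw2_Free π r a j (dep π r a j) :=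
  ⟨(dep_pal he hπ ha r j j).1.symm, fun i hi =>
    ⟨dep_inj hπ ha r hi h, (dep_pal he hπ ha r j i).2.symm⟩⟩

open Classical in
theorem qw2_sw (hπ : Prs G w π) (ha : G.Adj w a) (r : Rk G w) {u u' : V} (hu : G.Adj w u)
    (hu' : G.Adj w u') {j : ℕ} (h : qw2_Free π r a j u) (h' : qw2_Free π r a j u') :
    (∀ i < j, dep π (Rk.sw hu hu' r) a i = dep π r a i) ∧
      dep π (Rk.sw hu hu' r) a j = Equiv.swap u u' (dep π r a j) :=
  dep_sw hπ ha r hu hu' ⟨h.1, h'.1⟩ fun i hi =>
    ⟨⟨(h.2 i hi).1, (h'.2 i hi).1⟩, (h.2 i hi).2, (h'.2 i hi).2⟩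

theorem qw2_exch (he : Even (G.degree w)) (hπ : Prs G w π) (ha : G.Adj w a) (j : ℕ) {u : V}
    (hu : G.Adj w u) :
    unif (Rk G w) {r | (∀ l < j, dep π r a l ≠ π a) ∧ dep π r a j = u} =
      unif (Rk G w) {r | ((∀ l < j, dep π r a l ≠ π a) ∧ dep π r a j = π a) ∧
        qw2_Free π r a j u} := by
  classical
  have hc := (hπ a ha).1
  rw [← (unif_preserving (Rk.sw_sw hc hu)).measure_preimage
    (s := {r | ((∀ l < j, dep π r a l ≠ π a) ∧ dep π r a j = π a) ∧ qw2_Free π r a j u})
    MeasurableSet.of_discrete.nullMeasurableSet]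
  congr 1
  ext r
  simp only [mem_preimage, mem_ofPred_eq]
  constructor
  · rintro ⟨h1, h2⟩
    have h3 := qw2_next he hπ ha r h1
    rw [h2] at h3
    obtain ⟨h4, h5⟩ := qw2_sw hπ ha r hc hu (qw2_close he hπ ha r h1) h3
    refine ⟨⟨fun l hl => (h4 l hl).symm ▸ h1 l hl, by rw [h5, h2, Equiv.swap_apply_right]⟩,
      h3.1, fun i hi => (h4 i hi).symm ▸ h3.2 i hi⟩
  · rintro ⟨⟨h1, h2⟩, h3⟩
    obtain ⟨h4, h5⟩ := qw2_sw hπ ha _ hc hu (qw2_close he hπ ha _ h1) h3
    rw [Rk.sw_sw hc hu r] at h4 h5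
    exact ⟨fun l hl => (h4 l hl).symm ▸ h1 l hl, by rw [h5, h2, Equiv.swap_apply_left]⟩

open Classical in
theorem qw2_card {k : ℕ} (hk : G.degree w = 2 * k) (hπ : Prs G w π) (ha : G.Adj w a) (r : Rk G w)
    {j : ℕ} (h : ∀ l < j, dep π r a l ≠ π a) :
    ((G.neighborFinset w).filter (qw2_Free π r a j)).card = 2 * (k - j) - 1 := by
  have he : Even (G.degree w) := ⟨k, by omega⟩
  have hinj : Set.InjOn (dep π r a) (Finset.range j : Set ℕ) := by
    intro i hi i' hi' e
    simp only [Finset.coe_range, mem_Iio] at hi hi'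
    rcases lt_trichotomy i i' with h1 | h1 | h1
    · exact absurd e (dep_inj hπ ha r h1 fun l hl => h l (by omega))
    · exact h1
    · exact absurd e.symm (dep_inj hπ ha r h1 fun l hl => h l (by omega))
  have hinj' : Set.InjOn (fun i => π (dep π r a i)) (Finset.range j : Set ℕ) := by
    intro i hi i' hi' e
    refine hinj hi hi' ?_
    rw [← (hπ _ (dep_adj hπ ha r i)).2.1, show π (dep π r a i) = π (dep π r a i') from e,
      (hπ _ (dep_adj hπ ha r i')).2.1]
  let T : Finset V := insert a ((Finset.range j).image (dep π r a) ∪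
    (Finset.range j).image fun i => π (dep π r a i))
  have h1 : T.card = 1 + 2 * j := by
    rw [Finset.card_insert_of_notMem, Finset.card_union_of_disjoint,
      Finset.card_image_of_injOn hinj, Finset.card_image_of_injOn hinj', Finset.card_range]
    · omega
    · refine Finset.disjoint_left.2 fun x h1 h2 => ?_
      obtain ⟨i, -, rfl⟩ := Finset.mem_image.1 h1
      obtain ⟨i', -, e⟩ := Finset.mem_image.1 h2
      exact (dep_pal he hπ ha r i i').2 e.symm
    · intro h1
      rcases Finset.mem_union.1 h1 with h1 | h1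
      · obtain ⟨i, -, e⟩ := Finset.mem_image.1 h1
        exact (dep_pal he hπ ha r i i).1 e
      · obtain ⟨i, hi, e⟩ := Finset.mem_image.1 h1
        refine h i (Finset.mem_range.1 hi) ?_
        rw [← (hπ _ (dep_adj hπ ha r i)).2.1, e]
  have h2 : T ⊆ G.neighborFinset w := by
    intro x hx
    rw [SimpleGraph.mem_neighborFinset]
    rcases Finset.mem_insert.1 hx with rfl | hx
    · exact ha
    rcases Finset.mem_union.1 hx with hx | hx
    · obtain ⟨i, -, rfl⟩ := Finset.mem_image.1 hx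
      exact dep_adj hπ ha r i
    · obtain ⟨i, -, rfl⟩ := Finset.mem_image.1 hx
      exact (hπ _ (dep_adj hπ ha r i)).1
  have h3 : (G.neighborFinset w).filter (qw2_Free π r a j) = G.neighborFinset w \ T := by
    ext x
    simp only [Finset.mem_filter, Finset.mem_sdiff, T, Finset.mem_insert, Finset.mem_union,
      Finset.mem_image, Finset.mem_range, qw2_Free, not_or, not_exists, not_and]
    refine and_congr_right fun _ => ⟨fun h4 => ⟨h4.1.symm, fun i hi => (h4.2 i hi).1,
      fun i hi => (h4.2 i hi).2⟩, fun h4 => ⟨Ne.symm h4.1, fun i hi => ⟨h4.2.1 i hi, h4.2.2 i hi⟩⟩⟩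
  rw [h3, Finset.card_sdiff_of_subset h2, h1, G.card_neighborFinset_eq_degree, hk]
  omega

theorem close_prob {k : ℕ} (hk : G.degree w = 2 * k) (hπ : Prs G w π) (ha : G.Adj w a) {j : ℕ}
    (hj : j < k) :
    unif (Rk G w) {r | ∀ l < j, dep π r a l ≠ π a} = ((2 * (k - j) - 1 : ℕ) : ℝ≥0∞) *
      unif (Rk G w) {r | (∀ l < j, dep π r a l ≠ π a) ∧ dep π r a j = π a} := by
  classical
  have he : Even (G.degree w) := ⟨k, by omega⟩
  have h1 : {r : Rk G w | ∀ l < j, dep π r a l ≠ π a} = ⋃ u ∈ G.neighborFinset w,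
      {r | (∀ l < j, dep π r a l ≠ π a) ∧ dep π r a j = u} := by
    ext r
    simp only [mem_iUnion, mem_ofPred_eq, SimpleGraph.mem_neighborFinset]
    exact ⟨fun h => ⟨_, dep_adj hπ ha r j, h, rfl⟩, fun ⟨_, _, h, _⟩ => h⟩
  rw [h1, measure_biUnion_finset (fun u _ u' _ hne => disjoint_left.2 fun r e e' =>
      hne (e.2.symm.trans e'.2)) fun _ _ => MeasurableSet.of_discrete,
    Finset.sum_congr rfl fun u hu => qw2_exch he hπ ha j ((G.mem_neighborFinset _ _).1 hu),
    ← lintegral_indicator_const MeasurableSet.of_discrete]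
  simp only [← lintegral_indicator_one MeasurableSet.of_discrete]
  rw [← lintegral_finsetSum _ fun _ _ => Measurable.of_discrete]
  refine lintegral_congr fun r => ?_
  by_cases hr : (∀ l < j, dep π r a l ≠ π a) ∧ dep π r a j = π a
  · rw [indicator_of_mem (by exact hr), ← qw2_card hk hπ ha r hr.1, Finset.card_filter]
    push_cast
    refine Finset.sum_congr rfl fun u _ => ?_
    by_cases hu : qw2_Free π r a j u
    · rw [indicator_of_mem (by exact ⟨hr, hu⟩), if_pos hu]; rfl
    · rw [indicator_of_notMem (by exact fun h => hu h.2), if_neg hu]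
  · rw [indicator_of_notMem (by exact hr)]
    exact Finset.sum_eq_zero fun u _ => indicator_of_notMem (by exact fun h => hr h.1) _

end Pool.Agent.P3fb035
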