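import Pool.Agent.P.MP_3fb035_pr.QX4

/-! Trails of the pairing that return to a vertex. -/

set_option autoImplicit false

open MeasureTheory Set
open scoped ENNReal symmDiff

namespace Pool.Agent.P3fb035

open Pool.Agent.Lib.GRW

variable {V : Type} {G : SimpleGraph V}
variable [G.LocallyFinite]

variable {ω : Om G} {w a b z z' : V} {L : ℕ}

theorem qw4_succ {K : ℕ} (h : orb ω a b K = (z, w)) : orb ω a b (K + 1) = (w, par (ω (0, w)) z) := by
  rw [orb, h]

theorem qw4_add {K : ℕ} (h : orb ω a b K = (z, w)) (k : ℕ) : orb ω a b (K + k) = orb ω z w k := by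
  rw [← orb_add, h]

theorem qw4_adj {K : ℕ} (hab : G.Adj a b) (h : orb ω a b K = (z, w)) : G.Adj z w := by
  have := orb_adj ω hab K
  rwa [h] at this

theorem link_dep {π : V → V} (hπ : ∀ z, G.Adj w z → ∃ L, Ret ω w z (π z) L) (ha : G.Adj w a)
    (j : ℕ) : ∃ K ≥ 1, orb ω a w K = (w, dep π (ω (0, w)) a j) := by
  induction j with
  | zero => exact ⟨1, le_rfl, rfl⟩
  | succ j ih =>
    obtain ⟨K, -, h⟩ := ih
    obtain ⟨L, hL⟩ := hπ _ (qw4_adj ha.symm h)
    exact ⟨K + L + 1, by omega, qw4_succ ((qw4_add h L).trans hL.1)⟩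

theorem link_arr {π : V → V} (hπ : ∀ z, G.Adj w z → ∃ L, Ret ω w z (π z) L) (ha : G.Adj w a) :
    {b | (b, w) ∈ Ob ω a w} = Arr π (ω (0, w)) a := by
  classical
  have key : ∀ K, (orb ω a w K).2 = w → (orb ω a w K).1 ∈ Arr π (ω (0, w)) a := fun K => by
    induction K using Nat.strong_induction_on with
    | _ K ih =>
      intro hK
      rcases K with _ | K
      · exact mem_insert _ _
      have h1 : (orb ω a w (Nat.findGreatest (fun k => (orb ω a w k).2 = w) K)).2 = w :=
        Nat.findGreatest_spec (P := fun k => (orb ω a w k).2 = w) (Nat.zero_le K) rfl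
      have h2 := Nat.findGreatest_le (P := fun k => (orb ω a w k).2 = w) K
      have h3 : ∀ k, Nat.findGreatest (fun k => (orb ω a w k).2 = w) K < k → k ≤ K →
          (orb ω a w k).2 ≠ w := fun k => Nat.findGreatest_is_greatest
      generalize Nat.findGreatest (fun k => (orb ω a w k).2 = w) K = M at h1 h2 h3
      have h4 := qw4_succ (Prod.ext rfl h1 : orb ω a w M = ((orb ω a w M).1, w))
      obtain ⟨j, hj⟩ : ∃ j, par (ω (0, w)) (orb ω a w M).1 = dep π (ω (0, w)) a j := by
        rcases ih M (by omega) h1 with e | ⟨j, e⟩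
        · exact ⟨0, by rw [e]; rfl⟩
        · exact ⟨j + 1, by rw [← e]; rfl⟩
      rw [hj] at h4
      obtain ⟨L, hL⟩ := hπ _ (qw4_adj ha.symm h4)
      have h5 : Ret ω w (dep π (ω (0, w)) a j) (orb ω a w (K + 1)).1 (K - M) := by
        refine ⟨?_, fun i hi => ?_⟩
        · rw [← qw4_add h4, show M + 1 + (K - M) = K + 1 by omega]
          exact Prod.ext rfl hK
        · rw [← qw4_add h4]
          exact h3 _ (by omega) (by omega)
      exact Or.inr ⟨j, (ret_unique hL h5).1⟩
  ext b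
  constructor
  · rintro ⟨K, hK⟩
    have := key K (by rw [hK])
    rwa [hK] at this
  · rintro (rfl | ⟨j, rfl⟩)
    · exact ⟨0, rfl⟩
    · obtain ⟨K, -, h⟩ := link_dep hπ ha j
      obtain ⟨L, hL⟩ := hπ _ (qw4_adj ha.symm h)
      exact ⟨K + L, (qw4_add h L).trans hL.1⟩

section
variable [Countable V] [MeasurableSpace V] [DiscreteMeasurableSpace V]

theorem meas_fin1 (w : V) : MeasurableSet {ω : Om G | Fin1 ω w} := by
  exact measurableSet_setOfPred.2 (.forall fun z => measurable_const.imp (.exists fun z' =>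
    .exists fun L => .and
      ((measurable_of_countable fun p : V × V => p = (z', w)).comp (meas_orb w z L))
      (.forall fun j => measurable_const.imp
        ((measurable_of_countable fun p : V × V => p.2 ≠ w).comp (meas_orb w z j)))))

theorem qw4_esc (hG : ∀ v, ∃ w, G.Adj v w) (he : ∀ v, Even (G.degree v)) {v f : V}
    (h : Pm G {ω | (fun t => Xm v t ω) ∈ Nv v} = 0) (hf : G.Adj v f) : Pm G (Esc v f) = 0 := by
  have h1 := dep_inter (fun i : ℕ × V => unif (Rk G i.2)) (T := {(0, v)}ᶜ) (T' := {(0, v)})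
    (E' := {ω | ω (0, v) ∈ {r : Rk G v | r.1 f = 0}}) disjoint_compl_left (dep_esc v f)
    (fun ω ω' e hω => by rwa [mem_ofPred_eq, ← e _ rfl])
    (measurableSet_setOfPred.2 (.forall fun k => measurable_const.imp (meas_orb_ne v f v k)))
    (measurable_pi_apply (0, v) MeasurableSet.of_discrete)
  have h2 : Pm G (Esc v f ∩ {ω | ω (0, v) ∈ {r : Rk G v | r.1 f = 0}}) = 0 :=
    measure_mono_null (fun ω hω => escape hG he rfl (Xm_nxt hG v ω) hf hω.2 hω.1) h
  have h3 := Pm_coord (G := G) (0, v) {r : Rk G v | r.1 f = 0}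
  rw [unif_first hf] at h3
  rw [Pm] at h2 h3
  rw [h2, h3] at h1
  exact (mul_eq_zero.1 h1.symm).resolve_right (by simp)

theorem fin_ae (hG : ∀ v, ∃ w, G.Adj v w) (he : ∀ v, Even (G.degree v))
    (h : ∀ v, Pm G {ω | (fun t => Xm v t ω) ∈ Nv v} = 0) : ∀ᵐ ω ∂Pm G, AllFin ω := by
  classical
  have h1 : ∀ᵐ ω ∂Pm G, ∀ v f, G.Adj v f → ω ∉ Esc v f :=
    ae_all_iff.2 fun v => ae_all_iff.2 fun f => ae_all_iff.2 fun hf =>
      measure_eq_zero_iff_ae_notMem.1 (qw4_esc hG he (h v) hf)
  filter_upwards [h1] with ω hω v f hf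
  have h2 : ∃ m, (orb ω v f m).2 = v := by
    by_contra h3
    refine hω v f hf fun k hk e => h3 ?_
    obtain ⟨m, rfl⟩ := Nat.exists_eq_add_of_le' hk
    exact ⟨m, e⟩
  exact ⟨_, Nat.find h2, Prod.ext rfl (Nat.find_spec h2), fun j hj => Nat.find_min h2 hj⟩

end

end Pool.Agent.P3fb035
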