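import Pool.Agent.P.MP_3fb035_pr.QX5

/-! Deep trails: one step of the recursion. -/

set_option autoImplicit false

open MeasureTheory Set
open scoped ENNReal symmDiff

namespace Pool.Agent.P3fb035

open Pool.Agent.Lib.GRW

variable {V : Type} {G : SimpleGraph V}
variable [G.LocallyFinite]

variable {v z : V} {γ δ : Set V} {n : ℕ}

variable [Countable V] [MeasurableSpace V] [DiscreteMeasurableSpace V]

theorem deep_meas (n : ℕ) (v : V) (γ : Set V) : MeasurableSet (Deep G n v γ) :=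
  measurableSet_setOfPred.2 (.exists fun z => measurable_const.and (measurable_const.and
    (.forall fun j => measurable_const.imp
      ((measurable_of_countable fun p : V × V => p.2 ≠ v).comp (meas_orb v z j)))))

theorem deep_step (he : ∀ v, Even (G.degree v)) (hf : ∀ᵐ ω ∂Pm G, AllFin ω) (hγ : Clo G γ {v})
    (hz : z ∈ γ) (hvz : G.Adj v z) (hδ : Clo G δ {z}) (hv : v ∉ δ) (n : ℕ) :
    2 / 3 * Pm G (Deep G n z δ) ≤ Pm G (Deep G n z δ ∩ Deep G (n + 1) v γ) := by
  have hzδ : z ∉ δ := fun h => (hδ z h v hvz.symm).elim hv fun e => hvz.ne e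
  have hu : ∀ (ω : Om G) (r : Rk G z), ∀ i ∈ {i : ℕ × V | i.2 ∈ δ}, upd ω z r i = ω i :=
    fun ω r i hi => upd_ne ω z r fun e => hzδ (by rwa [e] at hi)
  have hd : ∀ (ω : Om G) (r : Rk G z), upd ω z r ∈ Deep G n z δ ↔ ω ∈ Deep G n z δ := fun ω r =>
    ⟨deep_dep hδ n _ _ (hu ω r), deep_dep hδ n _ _ fun i hi => (hu ω r i hi).symm⟩
  have h1 : Pm G (Deep G n z δ) ≤ Pm G (Deep G n z δ ∩ {ω | Fin1 ω z}) :=
    measure_mono_ae (hf.mono fun ω hω h => ⟨h, hω z⟩)
  have h2 := resample_lb z ((deep_meas n z δ).inter (meas_fin1 z)) (deep_meas (n + 1) v γ)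
    (fun ω r => and_congr (hd ω r) (fin1_upd r)) (c := 2 / 3) (by
      rintro ω ⟨⟨b, hb, hzb, hl⟩, hω⟩
      obtain ⟨π, hπ, hR⟩ := exists_prs he hω
      refine (two_thirds (he z) hπ hvz.symm hzb).trans (measure_mono ?_)
      rintro r ⟨j, hj⟩
      refine deep_link (π := π) hγ hz hvz hδ hv
        (fun y hy => (hR y hy).imp fun L hL => (ret_upd r).2 hL) hb hzb (fun i hi => ?_) (j := j) ?_
      · rw [orb_upd r hl i hi.le]
        exact hl i hi
      · rwa [upd_self])
  exact ((mul_le_mul_right h1 _).trans h2).trans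
    (measure_mono (inter_subset_inter_left _ inter_subset_left))

end Pool.Agent.P3fb035
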