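import Pool.Agent.P.MP_3fb035_pr.QW5
import Pool.Agent.P.MP_3fb035_pr.QH2

/-! Even degree and cut vertices: infinite trails exist. -/

set_option autoImplicit false

open MeasureTheory Set
open scoped ENNReal symmDiff

namespace Pool.Agent.P3fb035

open Pool.Agent.Lib.GRW

variable {V : Type} {G : SimpleGraph V}
variable [G.LocallyFinite]

omit [G.LocallyFinite] in
theorem two_ninths {p q r : ℝ} (hp : 2 / 9 ≤ p) (hq : 2 / 9 ≤ q) (h1 : 2 / 3 * p ≤ r)
    (h2 : 2 / 3 * q ≤ r) (h : 2 / 3 * p + 2 / 3 * q - p * q ≤ r) : 2 / 9 ≤ r := by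
  by_cases h3 : 1 / 3 ≤ p
  · linarith
  by_cases h4 : 1 / 3 ≤ q
  · linarith
  nlinarith [mul_nonneg (sub_nonneg.2 hp) (sub_nonneg.2 (not_le.1 h4).le)]

variable [Countable V] [MeasurableSpace V] [DiscreteMeasurableSpace V]

theorem deep_ge (hc : G.Preconnected) (ht : Tr G) (h2 : ¬Two G) (he : ∀ v, Even (G.degree v))
    (hf : ∀ᵐ ω ∂Pm G, AllFin ω) (n : ℕ) {v a : V} (ha : G.Adj v a) :
    2 / 9 ≤ Pm G (Deep G n v (Cp G {v} a)) := by
  induction n generalizing v a with
  | zero =>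
    have h0 : Deep G 0 v (Cp G {v} a) = univ :=
      eq_univ_of_forall fun ω => ⟨a, mem_cp _ _, ha, fun j hj => absurd hj (Nat.not_lt_zero j)⟩
    rw [h0, measure_univ]
    exact ENNReal.div_le_of_le_mul (by norm_num)
  | succ n ih =>
    obtain ⟨ω₀, hω₀⟩ := hf.exists
    obtain ⟨z, L, hr⟩ := hω₀ v a ha
    have hγ := cp_clo (G := G) {v} a
    have hz := (ret_symm ha hr).1
    have hne := ret_ne he ha hr
    have hzγ := ret_mem hγ (mem_cp _ _) ha hr
    obtain ⟨b, hab, hb, -⟩ := other_branch hc ht h2 ha.ne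
    obtain ⟨b', hzb, hb', -⟩ := other_branch hc ht h2 hz.ne
    have h3 : z ∉ Cp G {a} b := fun h =>
      (cp_clo {a} b z h v hz.symm).elim hb fun e => ha.ne e
    have h4 : a ∉ Cp G {z} b' := fun h =>
      (cp_clo {z} b' a h v ha.symm).elim hb' fun e => hz.ne e
    have hd : Disjoint (Cp G {a} b) (Cp G {z} b') := by
      refine disjoint_left.2 fun c h5 h6 => ?_
      have h7 := (cp_con (G := G) (W := {a}) hab.ne').sub_cp (W := {z})
        (disjoint_singleton_right.2 h3) h5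
      rw [cp_eq (W := {z}) hzb.ne' h6] at h7
      exact (cp_clo {z} b' b (h7 (mem_cp _ _)) a hab.symm).elim h4 fun e => hne e.symm
    have e1 := deep_step he hf hγ (mem_cp _ _) ha (cp_clo {a} b) hb n
    have e2 := deep_step he hf hγ hzγ hz (cp_clo {z} b') hb' n
    have e3 := dep_inter (fun i : ℕ × V => unif (Rk G i.2))
      (T := {i : ℕ × V | i.2 ∈ Cp G {a} b}) (T' := {i : ℕ × V | i.2 ∈ Cp G {z} b'})
      (disjoint_left.2 fun i h h' => disjoint_left.1 hd h h') (deep_dep (cp_clo {a} b) n)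
      (deep_dep (cp_clo {z} b') n) (deep_meas _ _ _) (deep_meas _ _ _)
    change Pm G _ = Pm G _ * Pm G _ at e3
    have e4 := ih hab
    have e5 := ih hzb
    generalize Deep G n a (Cp G {a} b) = D at e1 e3 e4
    have hm := deep_meas (G := G) n z (Cp G {z} b')
    generalize Deep G n z (Cp G {z} b') = D' at e2 e3 e5 hm
    have hm' := deep_meas (G := G) (n + 1) v (Cp G {v} a)
    generalize Deep G (n + 1) v (Cp G {v} a) = B at e1 e2 hm' ⊢
    have e6 := measure_union_add_inter (μ := Pm G) (D ∩ B) (hm.inter hm')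
    have e7 : Pm G (D ∩ B ∪ D' ∩ B) ≤ Pm G B :=
      measure_mono (union_subset inter_subset_right inter_subset_right)
    have e8 : Pm G (D ∩ B ∩ (D' ∩ B)) ≤ Pm G (D ∩ D') :=
      measure_mono (inter_subset_inter inter_subset_left inter_subset_left)
    have e9 : Pm G (D ∩ B) ≤ Pm G B := measure_mono inter_subset_right
    have e10 : Pm G (D' ∩ B) ≤ Pm G B := measure_mono inter_subset_right
    have c1 : ((2 : ℝ≥0∞) / 9).toReal = 2 / 9 := by simp [ENNReal.toReal_div]
    have c2 : ((2 : ℝ≥0∞) / 3).toReal = 2 / 3 := by simp [ENNReal.toReal_div]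
    have c3 : (2 : ℝ≥0∞) / 9 ≠ ∞ := ENNReal.div_ne_top (by simp) (by simp)
    have f1 := ENNReal.toReal_mono (measure_ne_top _ _) e1
    have f2 := ENNReal.toReal_mono (measure_ne_top _ _) e2
    have f3 := congrArg ENNReal.toReal e3
    have f4 := ENNReal.toReal_mono (measure_ne_top _ _) e4
    have f5 := ENNReal.toReal_mono (measure_ne_top _ _) e5
    have f6 := congrArg ENNReal.toReal e6
    have f7 := ENNReal.toReal_mono (measure_ne_top _ _) e7
    have f8 := ENNReal.toReal_mono (measure_ne_top _ _) e8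
    have f9 := ENNReal.toReal_mono (measure_ne_top _ _) e9
    have f10 := ENNReal.toReal_mono (measure_ne_top _ _) e10
    rw [ENNReal.toReal_add (measure_ne_top _ _) (measure_ne_top _ _),
      ENNReal.toReal_add (measure_ne_top _ _) (measure_ne_top _ _)] at f6
    rw [ENNReal.toReal_mul] at f1 f2 f3
    rw [c2] at f1 f2
    rw [c1] at f4 f5
    rw [← ENNReal.toReal_le_toReal c3 (measure_ne_top _ _), c1]
    exact two_ninths f4 f5 (by linarith) (by linarith) (by linarith)

theorem cv_even (hc : G.Preconnected) (ht : Tr G) (h2 : ¬Two G) (he : ∀ v, Even (G.degree v)) :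
    ¬∀ᵐ ω ∂Pm G, AllFin ω := by
  intro hf
  obtain ⟨v, -⟩ := not_forall.1 h2
  obtain ⟨a, -, ha, -⟩ := cut_all hc ht h2 v
  have h1 : Antitone fun n => Deep G n v (Cp G {v} a) :=
    fun n m hnm ω ⟨z, h1, h3, h4⟩ => ⟨z, h1, h3, fun j hj => h4 j (hj.trans_le hnm)⟩
  have h3 := h1.measure_iInter (μ := Pm G) (fun n => (deep_meas n v _).nullMeasurableSet)
    ⟨0, measure_ne_top _ _⟩
  have h4 : Pm G (⋂ n, Deep G n v (Cp G {v} a)) = 0 := by
    refine measure_mono_null (t := {ω | ¬AllFin ω}) (fun ω hω h5 => ?_) (ae_iff.1 hf)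
    choose! z L h6 using h5 v
    obtain ⟨y, -, h7, h8⟩ := mem_iInter.1 hω ((G.neighborFinset v).sup L + 1)
    exact h8 (L y) (Nat.lt_succ_of_le (Finset.le_sup ((G.mem_neighborFinset _ _).2 h7)))
      (by rw [(h6 y h7).1])
  have h5 : (2 : ℝ≥0∞) / 9 ≤ 0 := by
    rw [← h4, h3]
    exact le_iInf fun n => deep_ge hc ht h2 he hf n ha
  simp at h5

end Pool.Agent.P3fb035
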