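import Pool.Agent.P.MP_3fb035_pr.QW1

/-! Two given pairs lie on one cycle with probability at least two thirds. -/

set_option autoImplicit false

open MeasureTheory Set
open scoped ENNReal symmDiff

namespace Pool.Agent.P3fb035

open Pool.Agent.Lib.GRW

variable {V : Type} {G : SimpleGraph V}
variable [G.LocallyFinite]

variable {w a : V} {π : V → V}

theorem qx2_half (he : Even (G.degree w)) (hπ : Prs G w π) (ha : G.Adj w a) {b : V}
    (hb : G.Adj w b) (hba : b ≠ a) :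
    unif (Rk G w) {r | ∀ j, dep π r a j ≠ b ∧ dep π r a j ≠ π b} ≤
      unif (Rk G w) {r | ∃ m, dep π r a m = b ∧ ∀ i < m, dep π r a i ≠ π b} := by
  classical
  have hc := (hπ a ha).1
  rw [← (unif_preserving (Rk.sw_sw hb hc)).measure_preimage
    (MeasurableSet.of_discrete (s := {r : Rk G w | ∃ m, dep π r a m = b ∧
      ∀ i < m, dep π r a i ≠ π b})).nullMeasurableSet]
  refine measure_mono fun r hr => ?_
  have hex := dep_close hπ ha r
  obtain ⟨h1, h2⟩ := dep_sw hπ ha r hb hc (j := Nat.find hex) ⟨hba.symm, (hπ a ha).2.2.symm⟩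
    fun i hi => ⟨⟨(hr i).1, Nat.find_min hex hi⟩, fun h => (hr i).2 (by
      rw [← h, (hπ _ (dep_adj hπ ha r i)).2.1]), fun h => (dep_pal he hπ ha r i i).1 (by
      rw [← (hπ _ (dep_adj hπ ha r i)).2.1, h, (hπ a ha).2.1])⟩
  refine ⟨Nat.find hex, ?_, fun i hi => ?_⟩
  · rw [h2, Nat.find_spec hex, Equiv.swap_apply_right]
  · rw [h1 i hi]
    exact (hr i).2

theorem two_thirds (he : Even (G.degree w)) (hπ : Prs G w π) (ha : G.Adj w a) {b : V}
    (hb : G.Adj w b) :
    (2 / 3 : ℝ≥0∞) ≤ unif (Rk G w) {r | ∃ j, dep π r a j = b ∨ dep π r a j = π b} := by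
  have one : ∀ S : Set (Rk G w), (∀ r, r ∈ S) → (2 / 3 : ℝ≥0∞) ≤ unif (Rk G w) S := fun S hS => by
    rw [eq_univ_of_forall hS, measure_univ]
    exact ENNReal.div_le_of_le_mul (by norm_num)
  by_cases hba : b = a
  · exact one _ fun r => (dep_close hπ ha r).imp fun j h => Or.inr (by rw [h, hba])
  by_cases hbc : b = π a
  · exact one _ fun r => (dep_close hπ ha r).imp fun j h => Or.inl (by rw [h, hbc])
  obtain ⟨hb', hbb, hne⟩ := hπ b hb
  have h1 := qx2_half he hπ ha hb hba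
  have h2 := qx2_half he hπ ha hb' fun h => hbc (by rw [← h, hbb])
  rw [hbb] at h2
  set S : Set (Rk G w) := {r | ∃ j, dep π r a j = b ∨ dep π r a j = π b} with hS
  have e1 : {r : Rk G w | ∀ j, dep π r a j ≠ b ∧ dep π r a j ≠ π b} = Sᶜ := by
    ext r
    simp only [hS, mem_compl_iff, mem_ofPred_eq, not_exists, not_or]
  have e2 : {r : Rk G w | ∀ j, dep π r a j ≠ π b ∧ dep π r a j ≠ b} = Sᶜ := by
    rw [← e1]
    simp only [and_comm]
  rw [e1] at h1
  rw [e2] at h2
  have hd : Disjoint {r : Rk G w | ∃ m, dep π r a m = b ∧ ∀ i < m, dep π r a i ≠ π b}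
      {r : Rk G w | ∃ m, dep π r a m = π b ∧ ∀ i < m, dep π r a i ≠ b} := by
    refine disjoint_left.2 ?_
    rintro r ⟨m, k1, k2⟩ ⟨m', l1, l2⟩
    rcases lt_trichotomy m m' with h | h | h
    · exact l2 m h k1
    · exact hne (by rw [← l1, ← h, k1])
    · exact k2 m' h l1
  have h3 := add_le_add h1 h2
  rw [← measure_union hd MeasurableSet.of_discrete] at h3
  have h4 : unif (Rk G w) Sᶜ + unif (Rk G w) Sᶜ ≤ unif (Rk G w) S := by
    refine h3.trans (measure_mono ?_)
    rintro r (⟨m, k, _⟩ | ⟨m, k, _⟩)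
    · exact ⟨m, Or.inl k⟩
    · exact ⟨m, Or.inr k⟩
  have h5 : unif (Rk G w) S + unif (Rk G w) Sᶜ = 1 := by
    rw [measure_add_measure_compl MeasurableSet.of_discrete, measure_univ]
  refine ENNReal.div_le_of_le_mul ?_
  calc (2 : ℝ≥0∞) = (unif (Rk G w) S + unif (Rk G w) Sᶜ) + (unif (Rk G w) S + unif (Rk G w) Sᶜ) := by
        rw [h5]; norm_num
    _ = unif (Rk G w) S * 2 + (unif (Rk G w) Sᶜ + unif (Rk G w) Sᶜ) := by ring
    _ ≤ unif (Rk G w) S * 2 + unif (Rk G w) S := add_le_add le_rfl h4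
    _ = unif (Rk G w) S * 3 := by ring

end Pool.Agent.P3fb035
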