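import Pool.Agent.P.MP_3fb035_pr.QW0
import Pool.Agent.P.MP_3fb035_pr.QW1

/-! Trails of the pairing that return to a vertex: basic facts. -/

set_option autoImplicit false

open MeasureTheory Set
open scoped ENNReal symmDiff

namespace Pool.Agent.P3fb035

open Pool.Agent.Lib.GRW

variable {V : Type} {G : SimpleGraph V}
variable [G.LocallyFinite]

variable {ω : Om G} {w a b z z' : V} {L : ℕ}

theorem orb_rev (hab : G.Adj a b) {K j : ℕ} (hj : j ≤ K) :
    orb ω (orb ω a b K).2 (orb ω a b K).1 j = (orb ω a b (K - j)).swap := by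
  induction j with
  | zero => rfl
  | succ j ih =>
    obtain ⟨m, rfl⟩ : ∃ m, K = m + (j + 1) := ⟨K - (j + 1), by omega⟩
    have e1 : m + (j + 1) - j = m + 1 := by omega
    have e2 : m + (j + 1) - (j + 1) = m := by omega
    rw [orb, ih (by omega), e1, e2]
    exact Prod.ext rfl (par_par _ (orb_adj ω hab m).symm)

theorem orb_pal (he : ∀ v, Even (G.degree v)) (hab : G.Adj a b) (j : ℕ) :
    orb ω a b j ≠ (b, a) := by
  induction j using Nat.twoStepInduction generalizing a b with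
  | zero => exact fun h => hab.ne (congrArg Prod.fst h)
  | one => exact fun h => par_ne (he _) _ hab.symm (congrArg Prod.snd h)
  | more j ih _ =>
    intro h
    have h1 := orb_rev (ω := ω) hab (K := j + 2) (j := 1) (by omega)
    rw [h] at h1
    refine ih (orb_adj ω hab 1) ?_
    rw [orb_add, add_comm 1 j]
    have h2 : orb ω a b 1 = (orb ω a b (j + 1)).swap := h1
    rw [h2]
    rfl

theorem ret_unique {z'' : V} {L' : ℕ} (h : Ret ω w z z' L) (h' : Ret ω w z z'' L') :
    z' = z'' ∧ L = L' := by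
  have e : L = L' := by
    rcases lt_trichotomy L L' with hl | hl | hl
    · exact absurd (congrArg Prod.snd h.1) (h'.2 L hl)
    · exact hl
    · exact absurd (congrArg Prod.snd h'.1) (h.2 L' hl)
  subst e
  exact ⟨congrArg Prod.fst (h.1.symm.trans h'.1), rfl⟩

theorem ret_symm (hz : G.Adj w z) (h : Ret ω w z z' L) : G.Adj w z' ∧ Ret ω w z' z L := by
  have h1 := orb_adj ω hz L
  have h2 := fun j (hj : j ≤ L) => orb_rev (ω := ω) hz hj
  rw [h.1] at h1 h2
  refine ⟨h1.symm, ?_, fun j hj => ?_⟩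
  · rw [h2 L le_rfl, Nat.sub_self]
    rfl
  · obtain ⟨m, hm⟩ : ∃ m, L - j = m + 1 := ⟨L - j - 1, by omega⟩
    rw [h2 j hj.le, hm]
    exact h.2 m (by omega)

theorem ret_ne (he : ∀ v, Even (G.degree v)) (hz : G.Adj w z) (h : Ret ω w z z' L) : z' ≠ z := by
  rintro rfl
  exact orb_pal he hz L h.1

theorem orb_upd (r : Rk G w) {K : ℕ} (h : ∀ j < K, (orb ω a b j).2 ≠ w) :
    ∀ j ≤ K, orb (upd ω w r) a b j = orb ω a b j := by
  intro j hj
  induction j with
  | zero => rfl
  | succ j ih =>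
    rw [orb, orb, ih (by omega),
      upd_ne ω w r (i := (0, (orb ω a b j).2)) fun e => h j hj (congrArg Prod.snd e)]

theorem ret_upd (r : Rk G w) : Ret (upd ω w r) w z z' L ↔ Ret ω w z z' L := by
  have key : ∀ (ω : Om G) (r : Rk G w), Ret ω w z z' L → Ret (upd ω w r) w z z' L :=
    fun ω r h => ⟨(orb_upd r h.2 L le_rfl).trans h.1,
      fun j hj => by rw [orb_upd r h.2 j hj.le]; exact h.2 j hj⟩
  refine ⟨fun h => ?_, key ω r⟩
  have e : upd (upd ω w r) w (ω (0, w)) = ω := by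
    funext i
    by_cases hi : i = (0, w)
    · subst hi
      exact upd_self _ _ _
    · rw [upd_ne _ _ _ hi, upd_ne _ _ _ hi]
  exact e ▸ key _ (ω (0, w)) h

theorem fin1_upd (r : Rk G w) : Fin1 (upd ω w r) w ↔ Fin1 ω w := by
  simp only [Fin1, ret_upd]

theorem exists_prs (he : ∀ v, Even (G.degree v)) (h : Fin1 ω w) :
    ∃ π : V → V, Prs G w π ∧ ∀ z, G.Adj w z → ∃ L, Ret ω w z (π z) L := by
  have h1 : ∀ z, ∃ z', G.Adj w z → ∃ L, Ret ω w z z' L := fun z => by
    by_cases hz : G.Adj w z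
    · obtain ⟨z', hz'⟩ := h z hz
      exact ⟨z', fun _ => hz'⟩
    · exact ⟨z, fun h' => absurd h' hz⟩
  choose π hπ using h1
  refine ⟨π, fun z hz => ?_, hπ⟩
  obtain ⟨L, hL⟩ := hπ z hz
  obtain ⟨h2, h3⟩ := ret_symm hz hL
  obtain ⟨L', hL'⟩ := hπ _ h2
  exact ⟨h2, (ret_unique hL' h3).1, ret_ne he hz hL⟩

end Pool.Agent.P3fb035
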