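import Pool.Agent.P.MP_3fb035_pr.QW4
import Pool.Agent.P.MP_3fb035_pr.QW2
import Pool.Agent.P.MP_3fb035_pr.QG1

/-! Deep trails: deterministic part. -/

set_option autoImplicit false

open MeasureTheory Set
open scoped ENNReal symmDiff

namespace Pool.Agent.P3fb035

open Pool.Agent.Lib.GRW

variable {V : Type} {G : SimpleGraph V}
variable [G.LocallyFinite]

variable {v z : V} {γ δ : Set V} {n : ℕ}

theorem orb_mem {ω : Om G} (hγ : Clo G γ {v}) (hz : z ∈ γ) (hvz : G.Adj v z)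
    (h : ∀ j < n, (orb ω v z j).2 ≠ v) : ∀ j < n, (orb ω v z j).2 ∈ γ := by
  intro j
  induction j with
  | zero => exact fun _ => hz
  | succ j ih =>
    intro hj
    exact (hγ _ (ih (by omega)) _ (orb_adj ω hvz (j + 1))).resolve_right (h _ hj)

theorem ret_mem {ω : Om G} (hγ : Clo G γ {v}) (hz : z ∈ γ) (hvz : G.Adj v z) {z' : V}
    (h : Ret ω v z z' n) : z' ∈ γ := by
  cases n with
  | zero => exact absurd (congrArg Prod.snd h.1).symm hvz.ne
  | succ n =>
    have h1 : (orb ω v z n).2 = z' := congrArg Prod.fst h.1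
    exact h1 ▸ orb_mem hγ hz hvz h.2 n (Nat.lt_succ_self n)

theorem deep_dep (hγ : Clo G γ {v}) (n : ℕ) : Dep {i : ℕ × V | i.2 ∈ γ} (Deep G n v γ) := by
  rintro ω ω' h ⟨z, hz, hvz, hn⟩
  have hm := orb_mem hγ hz hvz hn
  have key : ∀ j < n, orb ω' v z j = orb ω v z j := by
    intro j
    induction j with
    | zero => exact fun _ => rfl
    | succ j ih =>
      intro hj
      rw [orb, orb, ih (by omega), h (0, (orb ω v z j).2) (hm j (by omega))]
  exact ⟨z, hz, hvz, fun j hj => by rw [key j hj]; exact hn j hj⟩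

theorem deep_link {ω : Om G} {π : V → V} (hγ : Clo G γ {v}) (hz : z ∈ γ) (hvz : G.Adj v z)
    (hδ : Clo G δ {z}) (hv : v ∉ δ) (hπ : ∀ y, G.Adj z y → ∃ L, Ret ω z y (π y) L) {b : V}
    (hb : b ∈ δ) (hzb : G.Adj z b) (hl : ∀ j < n, (orb ω z b j).2 ≠ z) {j : ℕ}
    (hj : dep π (ω (0, z)) v j = b ∨ dep π (ω (0, z)) v j = π b) : ω ∈ Deep G (n + 1) v γ := by
  classical
  obtain ⟨b', hb', hzb', hl', e⟩ : ∃ b' ∈ δ, G.Adj z b' ∧ (∀ j < n, (orb ω z b' j).2 ≠ z) ∧
      dep π (ω (0, z)) v j = b' := by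
    rcases hj with hj | hj
    · exact ⟨b, hb, hzb, hl, hj⟩
    · obtain ⟨L, hL⟩ := hπ b hzb
      have h1 : n ≤ L := not_lt.1 fun h => hl L h (congrArg Prod.snd hL.1)
      obtain ⟨h2, h3⟩ := ret_symm hzb hL
      exact ⟨π b, ret_mem hδ hb hzb hL, h2, fun j hj => h3.2 j (by omega), hj⟩
  obtain ⟨K, -, hK⟩ := link_dep hπ hvz.symm j
  rw [e] at hK
  obtain ⟨K0, h0, h1, h2⟩ : ∃ K0, K0 ≤ K ∧ (orb ω v z K0).1 = v ∧
      ∀ t, K0 < t → t ≤ K → (orb ω v z t).1 ≠ v :=
    ⟨Nat.findGreatest (fun t => (orb ω v z t).1 = v) K, Nat.findGreatest_le K,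
      Nat.findGreatest_spec (P := fun t => (orb ω v z t).1 = v) (Nat.zero_le K) rfl,
      fun t ht ht' => Nat.findGreatest_is_greatest ht ht'⟩
  have h3 : K0 < K := lt_of_le_of_ne h0 fun h => by
    rw [h, hK] at h1
    exact hvz.ne h1.symm
  have h4 : ∀ s t, t + s = K → K0 < t → (orb ω v z t).1 ∈ γ := by
    intro s
    induction s with
    | zero =>
      intro t ht _
      rw [show t = K from ht, hK]
      exact hz
    | succ s ih =>
      intro t ht ht'
      exact (hγ _ (ih (t + 1) (by omega) (by omega)) _ (orb_adj ω hvz t).symm).resolve_right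
        (h2 t ht' (by omega))
  refine ⟨(orb ω v z K0).2, h4 (K - (K0 + 1)) (K0 + 1) (by omega) (by omega), ?_, fun i hi => ?_⟩
  · have := orb_adj ω hvz K0
    rwa [h1] at this
  · have h5 := orb_add ω v z K0 i
    rw [h1] at h5
    rw [h5]
    rcases lt_or_ge (K0 + i) K with h6 | h6
    · exact h2 (K0 + i + 1) (by omega) h6
    · obtain ⟨c, hc⟩ := Nat.exists_eq_add_of_le h6
      have h7 := orb_add ω v z K c
      rw [hK] at h7
      rw [hc, ← h7]
      exact fun h8 => hv (h8 ▸ orb_mem hδ hb' hzb' hl' c (by omega))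

end Pool.Agent.P3fb035
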