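import Pool.Agent.P.MP_3fb035_pr.QG5
import Pool.Agent.P.MP_3fb035_pr.QG7
import Pool.Agent.P.MP_3fb035_pr.QK2
import Pool.Agent.P.MP_3fb035_pr.QT2
import Pool.Agent.P.MP_3fb035_pr.QV2
import Pool.Agent.P.MP_3fb035_pr.QV3
import Pool.Agent.P.MP_3fb035_pr.QV4
import Pool.Agent.P.MP_3fb035_pr.QW6
import Pool.Agent.P.MP_3fb035_pr.QS2
import Pool.Agent.P.MP_3fb035_pr.QL1
import Pool.Agent.P.MP_3fb035_pr.QL2
import Pool.Agent.P.MP_3fb035_pr.QM4

/-! Assembly. -/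

set_option autoImplicit false

open MeasureTheory Set
open scoped ENNReal symmDiff

namespace Pool.Agent.P3fb035

open Pool.Agent.Lib.GRW

variable {V : Type} {G : SimpleGraph V}

theorem reg_of_tr [G.LocallyFinite] (ht : Tr G) (o : V) : Reg G (G.degree o) := fun v => by
  obtain ⟨φ, rfl⟩ := ht o v
  refine ⟨Set.toFinite _, ?_⟩
  rw [← φ.degree_eq o, ← SimpleGraph.card_neighborSet_eq_degree, ← Nat.card_eq_fintype_card,
    Nat.card_coe_set_eq]

theorem deg_of_tr [G.LocallyFinite] (ht : Tr G) (o v : V) : G.degree v = G.degree o := by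
  obtain ⟨φ, rfl⟩ := ht o v
  exact φ.degree_eq o

section
variable [Infinite V] [Countable V] [MeasurableSpace V] [DiscreteMeasurableSpace V]
  {Ω : Type} [MeasurableSpace Ω] {P : Measure Ω} {X : ℕ → Ω → V} {d : ℕ} {o : V}

theorem odd_cut (hr : Reg G d) (hd : Odd d) (hc : G.Preconnected) (ht : Tr G) (h2 : ¬Two G)
    (h : IsWalk (ker G ∅) o P X) (h0 : P (pth X ⁻¹' Of o) ≠ 1) :
    P (pth X ⁻¹' Of o) = 0 ∧ P (pth X ⁻¹' Nv o) ≠ 0 := by
  have hb := hr.bd hd.pos.ne'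
  obtain ⟨a, ha, hB⟩ := bad_of h h0
  have hβ := cp_clo (G := G) {o} a
  have hv : o ∉ Cp G {o} a := fun e => disjoint_left.1 (cp_disj (W := {o}) ha) e rfl
  obtain ⟨b, hob, -, hba⟩ := other_branch hc ht h2 ha
  refine ⟨a0cv hb hc ht hβ hv ((nofin hc ht hob.ne').mono
    (disjoint_left.1 (cp_disj_cp (W := {o}) ha hob.ne' hba).symm)) hB h, ?_⟩
  obtain ⟨N, y, n, E, q, h1, h3, h4, h5, h6, h7, h8, h9, h10, h11, h12, h13, h14⟩ :=
    seal_all hr hd hc ht h2 ha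
  obtain ⟨Ω', _, P', X', h'⟩ := exists_ker hb ∅ y
  rw [(law_tr ht h h').2]
  exact refl_world hb (bd_ct hb h1 h3 h4 h5) h3 h6 hβ hv h7 h8 hB h9 h10 h11 h12 h13 h14 h'

theorem odd_pos (hr : Reg G d) (hd : Odd d) (hc : G.Preconnected) (ht : Tr G)
    (h : IsWalk (ker G ∅) o P X) (h0 : P (pth X ⁻¹' Of o) = 0) : P (pth X ⁻¹' Nv o) ≠ 0 := by
  have hb := hr.bd hd.pos.ne'
  by_cases h2 : Two G
  · by_cases hE : Ends G 2
    · obtain ⟨W, C₁, C₂, w₀, h1, -, h3, h4, h5, -, h7, ⟨n, E, w, h8, h9, h10, h11, h12⟩, -⟩ :=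
        cuts2 hr hd hc h2 hE
      obtain ⟨Ω', _, P', X', h'⟩ := exists_ker hb ∅ w₀
      rcases t2m hb hc h1 h3 h4 h7 h8 h9 h10 h11 h12 h' ((law_tr ht h h').1 ▸ h0) with hg | hg
      · exact b1 hb hc ht hg h5.1 h
      · exact b1 hb hc ht hg h5.2 h
    · obtain ⟨W, F, n, E, w, h1, h3, h4, h5, h6, h7, h8, h9, h10⟩ := pocket hr hd hc h2 hE o
      exact b2 hb hc h1 h3 h4 h5 h6 h7 h8 h9 h10 h h0
  · exact (odd_cut hr hd hc ht h2 h (by rw [h0]; exact zero_ne_one)).2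

theorem odd_two (hr : Reg G d) (hd : Odd d) (hc : G.Preconnected) (ht : Tr G) (hE : Ends G 2)
    (h3 : ¬Ends G 3) (h : IsWalk (ker G ∅) o P X) (h0 : P (pth X ⁻¹' Of o) ≠ 1) :
    P (pth X ⁻¹' Of o) = 0 := by
  have hb := hr.bd hd.pos.ne'
  by_cases h2 : Two G
  · obtain ⟨W, C₁, C₂, w₀, -, h1, h4, -, h5, h6, -, -, h7⟩ := cuts2 hr hd hc h2 hE
    rcases t3 hb hc ht h3 (h4.1 h1) (h4.2 h1) h6 (h7 h3) h h0 with hg | hg
    · exact a0 hb hc ht hg h5.1 h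
    · exact a0 hb hc ht hg h5.2 h
  · exact (odd_cut hr hd hc ht h2 h h0).1

theorem even_nv [G.LocallyFinite] (hc : G.Connected) (ht : Tr G) (he : ∀ v, Even (G.degree v))
    (hf : ¬∀ᵐ ω ∂Pm G, AllFin ω) (h : IsWalk (ker G ∅) o P X) : P (pth X ⁻¹' Nv o) ≠ 0 :=
  fun h0 => hf (fin_ae (exists_adj hc) he fun v =>
    ((law_tr ht h (isWalk_of_grw (isGRW_Xm (exists_adj hc) v))).2.symm.trans h0))

end

/-- exactly two ends, or a cut vertex, or spectral radius below `1 / 9` -/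
def Cls (G : SimpleGraph V) [G.LocallyFinite] (o : V) : Prop :=
  (Ends G 2 ∧ ¬Ends G 3) ∨ (∃ v a b : V, a ≠ v ∧ b ≠ v ∧ ∀ p : G.Walk a b, v ∈ p.support) ∨
    ∃ θ : ℝ, θ < 1 / 9 ∧ Few G (θ * G.degree o)

variable [Infinite V] [G.LocallyFinite] {Ω : Type} [MeasurableSpace Ω] {P : Measure Ω}
  {X : ℕ → Ω → V} {o : V}

theorem zero_one_cls (hc : G.Connected) (hG : (∀ v, Even (G.degree v)) ∨ (Tr G ∧ Cls G o))
    (h : IsGRW G o P X) :
    P {ω | {t | X t ω = o}.Infinite} = 0 ∨ P {ω | {t | X t ω = o}.Infinite} = 1 := by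
  by_cases he : ∀ v, Even (G.degree v)
  · exact even_zero_one hc he h
  obtain ⟨ht, hC⟩ := hG.resolve_left he
  have := countable_of_connected hc
  let : MeasurableSpace V := ⊤
  have : DiscreteMeasurableSpace V := ⟨fun _ => trivial⟩
  have hd : Odd (G.degree o) := Nat.not_even_iff_odd.1 fun e => he fun v => deg_of_tr ht o v ▸ e
  have hr := reg_of_tr ht o
  have hw := isWalk_of_grw h
  have e : {ω | {t | X t ω = o}.Infinite} = pth X ⁻¹' Of o := Set.ext fun ω => (of_iff _ o).symm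
  rw [e]
  refine (or_iff_not_imp_right).2 fun h0 => ?_
  rcases hC with ⟨h2, h3⟩ | h2 | ⟨θ, h2, h3⟩
  · exact odd_two hr hd hc.preconnected ht h2 h3 hw h0
  · exact (odd_cut hr hd hc.preconnected ht (not_two h2) hw h0).1
  · exact (sr hr hc.preconnected h2 h3 hw).1

theorem return_cls (hc : G.Connected) (ht : Tr G) (h : IsGRW G o P X)
    (hG : (Odd (G.degree o) ∧ (P {ω | {t | X t ω = o}.Infinite} = 0 ∨
        P {ω | {t | X t ω = o}.Infinite} = 1)) ∨ Cls G o ∨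
      (Unimod G ∧ ∃ (k : ℕ) (δ : ℝ), G.degree o = 2 * k ∧ Iso G δ ∧
        δ * ∑ i ∈ Finset.range k, 1 / (2 * (i : ℝ) + 1) < 2 * k)) :
    P {ω | {t | X t ω = o}.Infinite} = 1 ↔ P {ω | ∃ t, 1 ≤ t ∧ X t ω = o} = 1 := by
  have := countable_of_connected hc
  let : MeasurableSpace V := ⊤
  have : DiscreteMeasurableSpace V := ⟨fun _ => trivial⟩
  have := h.1
  have hr := reg_of_tr ht o
  have hw := isWalk_of_grw h
  have e : {ω | {t | X t ω = o}.Infinite} = pth X ⁻¹' Of o := Set.ext fun ω => (of_iff _ o).symm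
  refine ⟨fun h3 => le_antisymm prob_le_one (h3 ▸ measure_mono fun ω hω => ?_), fun hB => ?_⟩
  · obtain ⟨t, ht, h4⟩ := hω.exists_gt 0
    exact ⟨t, h4, ht⟩
  have hN : P (pth X ⁻¹' Nv o) = 0 := (ret_iff hw).1 hB
  rcases (G.degree o).even_or_odd with hd | hd
  · have he : ∀ v, Even (G.degree v) := fun v => deg_of_tr ht o v ▸ hd
    rcases hG with hG | (⟨h2, h3⟩ | h2 | ⟨θ, h2, h3⟩) | ⟨hu, k, δ, hk, h2, h3⟩
    · exact absurd hG.1 (Nat.not_odd_iff_even.2 hd)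
    · have hY := isWalk_Ys (exists_adj hc) o
      obtain ⟨C, hC⟩ := lg (hr.bd ((G.degree_pos_iff_exists_adj o).2 (exists_adj hc o)).ne') hc ht
        h2 h3 o
      exact (even_return hc he ht h hY).2
        ⟨hB, (ret_iff hY).2 (srw_rec (exists_adj hc) (deg_of_tr ht o) o hC)⟩
    · exact absurd hN (even_nv hc ht he (cv_even hc.preconnected ht (not_two h2) he) hw)
    · exact absurd hN (sr hr hc.preconnected h2 h3 hw).2
    · exact absurd hN (even_nv hc ht he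
        (cheeger hc ht hu (fun v => (deg_of_tr ht o v).trans hk) h2 h3) hw)
  · have h01 : P {ω | {t | X t ω = o}.Infinite} = 0 ∨ P {ω | {t | X t ω = o}.Infinite} = 1 := by
      rcases hG with hG | hG | ⟨-, k, -, hk, -⟩
      · exact hG.2
      · exact zero_one_cls hc (Or.inr ⟨ht, hG⟩) h
      · exact absurd hd (Nat.not_odd_iff_even.2 ⟨k, by omega⟩)
    exact h01.resolve_left fun h0 => odd_pos hr hd hc.preconnected ht hw (e ▸ h0) hN

end Pool.Agent.P3fb035
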